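import Pool.Agent.Lib_MP_7c0803_pp.Graph

/-!
Proof plan.  `B = toCB M κ hcub` (see `Graph.lean`).  The states `(d, o) : G.Dart × Bool` of `M` correspond to the states
`(e, b, o) : G.edgeSet × Bool × Bool` of `B` by `(d, o) ↦ (de d, κ d.fst, o)` (`dartEquiv κ`), and `M.next`, `M.back` to `B.nx`, `B.rv`
with the twists `twE M κ` (`twE_eq`): the dart `(e, b)` has reverse `(e, !b)`; `rot (e, true) = (B.s e, true)`,
`rot (e, false) = (B.t e, false)` (`rot_symm_dart`), the same for the inverses.

* `faces_card`: the induced bijection of the quotients (`Quot.congr` or `Nat.card_congr` with `Quot.lift`s).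
* `chi_iff`: `3 |V| = |darts| = 2 |E|` (`card_out`, or `SimpleGraph.sum_degrees_eq_twice_card_edges`), so
  `|E| + 1 ≤ |V| + |F|` iff `3 |E| + 3 ≤ 2 |E| + 3 |F|`.
* `cn_of_connected`: for a closed nonempty set `A` of edges: if one edge at a vertex is in `A` then all are (`M.rot_trans`), so the set
  of vertices incident with an edge of `A` is closed under adjacency, so everything, and so `A` is everything.
* `facial_iff'`: transport `F` along the bijection of the states.
* `par_iff`: `par c + par c' = ∑_e φs e + ∑_e φt e`, `φs e = sg (c (s e) - c e) + sg (c' (s e) - c' e)`; `φs e = 1` iff exactly one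
  edge at the `X`-end of `e` keeps its colour (finite check), i.e. iff the `X`-end is in `flips c c'`; so the sum is
  `∑_d [d.fst ∈ flips]` over all darts, `= 3 * |flips|`.  (The colours `c, c'` at a vertex are proper because they are
  colourings of the line graph.)
-/

set_option autoImplicit false

open Finset Function

namespace Pool.Agent.PP

open SimpleGraph

universe u

variable {V : Type u} {G : SimpleGraph V}

/-! ### Darts -/

private lemma EmbB_de_symm (d : G.Dart) : de d.symm = de d := Subtype.ext d.edge_symm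

private lemma EmbB_inv (κ : G.Coloring Bool) (d : G.Dart) :
    (dartEquiv κ).symm (de d, κ d.fst) = d := by
  rw [← dartEquiv_apply, Equiv.symm_apply_apply]

private lemma EmbB_snd (κ : G.Coloring Bool) (d : G.Dart) : κ d.snd = !(κ d.fst) := by
  have h := κ.valid d.adj
  have h' : κ d.fst ≠ κ d.snd := h
  revert h'
  generalize κ d.fst = p
  generalize κ d.snd = q
  revert p q
  decide

private lemma EmbB_symm (κ : G.Coloring Bool) (d : G.Dart) :
    d.symm = (dartEquiv κ).symm (de d, !(κ d.fst)) := by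
  rw [Equiv.eq_symm_apply, dartEquiv_apply, EmbB_de_symm]
  exact Prod.ext rfl (EmbB_snd κ d)

private lemma EmbB_rot_symm_dart (M : Emb G) (κ : G.Coloring Bool) (e : G.edgeSet) (b : Bool) :
    M.rot.symm ((dartEquiv κ).symm (e, b)) = (dartEquiv κ).symm ((rotB M κ b).symm e, b) := by
  rw [Equiv.symm_apply_eq, rot_symm_dart, Equiv.apply_symm_apply]

private lemma EmbB_de_rot (M : Emb G) (κ : G.Coloring Bool) (d : G.Dart) :
    de (M.rot d) = rotB M κ (κ d.fst) (de d) := by
  have h := rot_symm_dart M κ (de d) (κ d.fst)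
  rw [EmbB_inv] at h
  rw [h, de_symm_apply]

private lemma EmbB_inj (κ : G.Coloring Bool) {d d' : G.Dart} (h : d.fst = d'.fst)
    (h' : de d = de d') : d = d' := by
  apply (dartEquiv κ).injective
  rw [dartEquiv_apply, dartEquiv_apply, h, h']

private lemma EmbB_mem (v : V) (e : G.edgeSet) :
    v ∈ (e : Sym2 V) ↔ ∃ d : G.Dart, d.fst = v ∧ de d = e := by
  constructor
  · obtain ⟨e, he⟩ := e
    intro h
    have h' : v ∈ e := h
    obtain ⟨w, rfl⟩ := Sym2.mem_iff_exists.1 h'
    exact ⟨⟨(v, w), he⟩, rfl, rfl⟩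
  · rintro ⟨d, rfl, rfl⟩
    show d.fst ∈ d.edge
    exact Sym2.mem_mk_left _ _

private lemma EmbB_orbit (M : Emb G) (hcub : ∀ v, (G.neighborSet v).ncard = 3) (d d' : G.Dart)
    (h : d.fst = d'.fst) : d' = d ∨ d' = M.rot d ∨ d' = M.rot (M.rot d) := by
  have h3 := rot3 M hcub
  have key : ∀ i : ℕ, (M.rot ^ i) d = d ∨ (M.rot ^ i) d = M.rot d ∨
      (M.rot ^ i) d = M.rot (M.rot d) := by
    intro i
    induction i with
    | zero => left; rfl
    | succ i ih =>
      rw [pow_succ', Equiv.Perm.mul_apply]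
      rcases ih with ih | ih | ih
      · right; left; rw [ih]
      · right; right; rw [ih]
      · left; rw [ih, h3]
  obtain ⟨i, hi⟩ := M.rot_trans d d' h
  rw [← hi]
  exact key i

/-! ### States -/

/-- states of `M` and of `toCB M` -/
private noncomputable def EmbB_st (κ : G.Coloring Bool) :
    G.Dart × Bool ≃ G.edgeSet × Bool × Bool :=
  ((dartEquiv κ).prodCongr (Equiv.refl Bool)).trans (Equiv.prodAssoc _ _ _)

private lemma EmbB_st_apply (κ : G.Coloring Bool) (d : G.Dart) (o : Bool) :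
    EmbB_st κ (d, o) = (de d, κ d.fst, o) := rfl

private lemma EmbB_st_symm (κ : G.Coloring Bool) (e : G.edgeSet) (b o : Bool) :
    (EmbB_st κ).symm (e, b, o) = ((dartEquiv κ).symm (e, b), o) := rfl

private lemma EmbB_next (M : Emb G) (κ : G.Coloring Bool)
    (hcub : ∀ v, (G.neighborSet v).ncard = 3) (a : G.Dart × Bool) :
    EmbB_st κ (M.next a) = (toCB M κ hcub).nx (twE M κ) (EmbB_st κ a) := by
  obtain ⟨d, o⟩ := a
  have h1 : M.next (d, o) = (if xor o (M.tw d) then M.rot d.symm else M.rot.symm d.symm,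
    xor o (M.tw d)) := rfl
  rw [h1, EmbB_st_apply κ d o, EmbB_symm κ d, rot_symm_dart, EmbB_rot_symm_dart]
  cases hb : κ d.fst with
  | true =>
    have h2 : (toCB M κ hcub).nx (twE M κ) (de d, true, o) =
      (if xor o (twE M κ (de d)) then rotB M κ false (de d) else (rotB M κ false).symm (de d),
        false, xor o (twE M κ (de d))) := rfl
    rw [h2, twE_eq]
    cases hx : xor o (M.tw d) with
    | true =>
      simp only [Bool.not_true, if_true]
      rw [EmbB_st_apply, de_symm_apply, col_symm_apply]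
    | false =>
      simp only [Bool.not_true, Bool.false_eq_true, if_false]
      rw [EmbB_st_apply, de_symm_apply, col_symm_apply]
  | false =>
    have h2 : (toCB M κ hcub).nx (twE M κ) (de d, false, o) =
      (if xor o (twE M κ (de d)) then rotB M κ true (de d) else (rotB M κ true).symm (de d),
        true, xor o (twE M κ (de d))) := rfl
    rw [h2, twE_eq]
    cases hx : xor o (M.tw d) with
    | true =>
      simp only [Bool.not_false, if_true]
      rw [EmbB_st_apply, de_symm_apply, col_symm_apply]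
    | false =>
      simp only [Bool.not_false, Bool.false_eq_true, if_false]
      rw [EmbB_st_apply, de_symm_apply, col_symm_apply]

private lemma EmbB_back (M : Emb G) (κ : G.Coloring Bool)
    (hcub : ∀ v, (G.neighborSet v).ncard = 3) (a : G.Dart × Bool) :
    EmbB_st κ (M.back a) = (toCB M κ hcub).rv (twE M κ) (EmbB_st κ a) := by
  obtain ⟨d, o⟩ := a
  have h1 : M.back (d, o) = (d.symm, !(xor o (M.tw d))) := rfl
  have h2 : (toCB M κ hcub).rv (twE M κ) (EmbB_st κ (d, o)) =
    (de d, !(κ d.fst), !(xor o (twE M κ (de d)))) := rfl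
  rw [h1, h2, EmbB_st_apply, EmbB_de_symm, twE_eq]
  have h3 : κ d.symm.fst = !(κ d.fst) := EmbB_snd κ d
  rw [h3]

theorem faces_card (M : Emb G) (κ : G.Coloring Bool) (hcub : ∀ v, (G.neighborSet v).ncard = 3) :
    Nat.card M.Face = Nat.card ((toCB M κ hcub).Fc (twE M κ)) := by
  refine Nat.card_congr (Quot.congr (EmbB_st κ) ?_)
  intro a b
  rw [← EmbB_next, ← EmbB_back, (EmbB_st κ).injective.eq_iff, (EmbB_st κ).injective.eq_iff]

private lemma EmbB_count [Finite V] (κ : G.Coloring Bool)
    (hcub : ∀ v, (G.neighborSet v).ncard = 3) : 3 * Nat.card V = 2 * Nat.card G.edgeSet := by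
  classical
  haveI : Fintype V := Fintype.ofFinite V
  haveI : Finite G.edgeSet := inferInstance
  haveI : Finite G.Dart := Finite.of_equiv _ (dartEquiv κ).symm
  have h1 : Nat.card G.Dart = Nat.card G.edgeSet * 2 := by
    rw [Nat.card_congr (dartEquiv κ), Nat.card_prod]
    simp
  have h2 : Nat.card G.Dart = ∑ v : V, Nat.card {d : G.Dart // d.fst = v} := by
    rw [← Nat.card_congr (Equiv.sigmaFiberEquiv (fun d : G.Dart => d.fst)), Nat.card_sigma]
  have h3 : ∀ v : V, Nat.card {d : G.Dart // d.fst = v} = 3 := by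
    intro v
    have := card_out hcub v
    rw [← Nat.card_coe_set_eq] at this
    exact this
  simp_rw [h3] at h2
  rw [Finset.sum_const, Finset.card_univ, smul_eq_mul, ← Nat.card_eq_fintype_card] at h2
  omega

theorem chi_iff [Finite V] (M : Emb G) (κ : G.Coloring Bool) (hcub : ∀ v, (G.neighborSet v).ncard = 3) :
    M.ChiPos ↔ (toCB M κ hcub).Chi1 (twE M κ) := by
  unfold Emb.ChiPos CB.Chi1
  rw [faces_card M κ hcub]
  have h := EmbB_count κ hcub
  omega

theorem cn_of_connected (M : Emb G) (κ : G.Coloring Bool) (hcub : ∀ v, (G.neighborSet v).ncard = 3) (h : G.Connected) :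
    (toCB M κ hcub).Cn := by
  intro A hA hcl
  have h1 : ∀ d : G.Dart, de d ∈ A → de (M.rot d) ∈ A := by
    intro d hd
    rw [EmbB_de_rot M κ d]
    cases κ d.fst with
    | true => exact (hcl _ hd).1
    | false => exact (hcl _ hd).2
  have h2 : ∀ (d : G.Dart), de d ∈ A → ∀ i : ℕ, de ((M.rot ^ i) d) ∈ A := by
    intro d hd i
    induction i with
    | zero => exact hd
    | succ i ih =>
      rw [pow_succ', Equiv.Perm.mul_apply]
      exact h1 _ ih
  have h3 : ∀ d d' : G.Dart, d.fst = d'.fst → de d ∈ A → de d' ∈ A := by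
    intro d d' hdd hd
    obtain ⟨i, hi⟩ := M.rot_trans d d' hdd
    rw [← hi]
    exact h2 d hd i
  obtain ⟨e0, he0⟩ := hA
  have h4 : ∀ w : V, ∀ d : G.Dart, d.fst = w → de d ∈ A := by
    have hd0 : de ((dartEquiv κ).symm (e0, true)) ∈ A := by
      rw [de_symm_apply]
      exact he0
    set d0 : G.Dart := (dartEquiv κ).symm (e0, true) with hd0'
    intro w
    obtain ⟨p⟩ := h.preconnected d0.fst w
    have h5 : ∀ (x y : V) (p : G.Walk x y), (∀ d : G.Dart, d.fst = x → de d ∈ A) →
        ∀ d : G.Dart, d.fst = y → de d ∈ A := by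
      intro x y p
      induction p with
      | nil => exact fun hx => hx
      | @cons x z y hxz q ih =>
        intro hx
        apply ih
        intro d hd
        have h6 : de (⟨(x, z), hxz⟩ : G.Dart) ∈ A := hx _ rfl
        rw [← EmbB_de_symm] at h6
        exact h3 _ d hd.symm h6
    exact h5 _ _ p (fun d hd => h3 d0 d hd.symm hd0)
  ext e
  refine ⟨fun _ => Set.mem_univ _, fun _ => ?_⟩
  have h5 := h4 _ ((dartEquiv κ).symm (e, true)) rfl
  rw [de_symm_apply] at h5
  exact h5

theorem facial_iff' (M : Emb G) (κ : G.Coloring Bool) (hcub : ∀ v, (G.neighborSet v).ncard = 3)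
    (c : G.lineGraph.Coloring (Fin 3)) :
    M.FacialCol c ↔ (toCB M κ hcub).Facial (twE M κ) (fun e => c e) := by
  constructor
  · rintro ⟨F, hF⟩
    refine ⟨fun x => F (Quot.mk _ ((EmbB_st κ).symm x)), ?_, ?_⟩
    · intro a
      obtain ⟨b, rfl⟩ := (EmbB_st κ).surjective a
      rw [← EmbB_next, ← EmbB_back]
      simp only [Equiv.symm_apply_apply]
      exact ⟨congrArg F (Quot.sound (r := fun a b => M.next a = b ∨ M.back a = b)
          (Or.inl rfl)).symm,
        congrArg F (Quot.sound (r := fun a b => M.next a = b ∨ M.back a = b) (Or.inr rfl)).symm⟩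
    · intro e d o
      have h1 := hF ((dartEquiv κ).symm (e, d)) o
      rw [de_symm_apply] at h1
      exact h1
  · rintro ⟨F, hF1, hF2⟩
    refine ⟨Quot.lift (fun a => F (EmbB_st κ a)) ?_, ?_⟩
    · rintro a b (rfl | rfl)
      · rw [EmbB_next M κ hcub]
        exact (hF1 _).1.symm
      · rw [EmbB_back M κ hcub]
        exact (hF1 _).2.symm
    · intro d o
      exact hF2 (de d) (κ d.fst) o

/-! ### Parity -/

set_option synthInstance.maxSize 1000 in
private lemma EmbB_fin : ∀ a b x a' b' x' : Fin 3, a ≠ b → a ≠ x → b ≠ x → a' ≠ b' → a' ≠ x' →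
    b' ≠ x' → sg (b - a) + sg (b' - a') =
      if (a = a' ∧ b ≠ b' ∧ x ≠ x') ∨ (a ≠ a' ∧ b = b' ∧ x ≠ x') ∨ (a ≠ a' ∧ b ≠ b' ∧ x = x')
      then 1 else 0 := by decide

private lemma EmbB_ne (κ : G.Coloring Bool) (c : G.lineGraph.Coloring (Fin 3)) {d d' : G.Dart}
    (h : d.fst = d'.fst) (hne : d ≠ d') : c (de d) ≠ c (de d') := by
  apply c.valid
  rw [SimpleGraph.lineGraph_adj_iff_exists]
  refine ⟨fun h' => hne (EmbB_inj κ h h'), d.fst, ?_, ?_⟩
  · exact (EmbB_mem _ _).2 ⟨d, rfl, rfl⟩
  · exact (EmbB_mem _ _).2 ⟨d', h.symm, rfl⟩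

open Classical in
private lemma EmbB_local (M : Emb G) (κ : G.Coloring Bool)
    (hcub : ∀ v, (G.neighborSet v).ncard = 3) (c c' : G.lineGraph.Coloring (Fin 3))
    (d : G.Dart) :
    sg (c (de (M.rot d)) - c (de d)) + sg (c' (de (M.rot d)) - c' (de d)) =
      if d.fst ∈ flips c c' then 1 else 0 := by
  have f1 : (M.rot d).fst = d.fst := M.rot_fst d
  have f2 : (M.rot (M.rot d)).fst = d.fst := (M.rot_fst _).trans f1
  have n1 : d ≠ M.rot d := (rot_ne M hcub d).symm
  have n2 : d ≠ M.rot (M.rot d) := (rot2_ne M hcub d).symm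
  have n3 : M.rot d ≠ M.rot (M.rot d) := (rot_ne M hcub _).symm
  have g := EmbB_fin (c (de d)) (c (de (M.rot d))) (c (de (M.rot (M.rot d)))) (c' (de d))
    (c' (de (M.rot d))) (c' (de (M.rot (M.rot d))))
    (EmbB_ne κ c f1.symm n1) (EmbB_ne κ c f2.symm n2) (EmbB_ne κ c (f1.trans f2.symm) n3)
    (EmbB_ne κ c' f1.symm n1) (EmbB_ne κ c' f2.symm n2) (EmbB_ne κ c' (f1.trans f2.symm) n3)
  rw [g]
  have e1 : de d ≠ de (M.rot d) := fun h => n1 (EmbB_inj κ f1.symm h)
  have e2 : de d ≠ de (M.rot (M.rot d)) := fun h => n2 (EmbB_inj κ f2.symm h)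
  have e3 : de (M.rot d) ≠ de (M.rot (M.rot d)) := fun h => n3 (EmbB_inj κ (f1.trans f2.symm) h)
  have hmem : ∀ e : G.edgeSet, d.fst ∈ (e : Sym2 V) ↔
      (e = de d ∨ e = de (M.rot d) ∨ e = de (M.rot (M.rot d))) := by
    intro e
    rw [EmbB_mem]
    constructor
    · rintro ⟨d', h1, rfl⟩
      rcases EmbB_orbit M hcub d d' h1.symm with h | h | h
      · left; rw [h]
      · right; left; rw [h]
      · right; right; rw [h]
    · rintro (rfl | rfl | rfl)
      · exact ⟨d, rfl, rfl⟩
      · exact ⟨_, f1, rfl⟩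
      · exact ⟨_, f2, rfl⟩
  have key : d.fst ∈ flips c c' ↔
      ((c (de d) = c' (de d) ∧ c (de (M.rot d)) ≠ c' (de (M.rot d)) ∧
          c (de (M.rot (M.rot d))) ≠ c' (de (M.rot (M.rot d)))) ∨
        (c (de d) ≠ c' (de d) ∧ c (de (M.rot d)) = c' (de (M.rot d)) ∧
          c (de (M.rot (M.rot d))) ≠ c' (de (M.rot (M.rot d)))) ∨
        (c (de d) ≠ c' (de d) ∧ c (de (M.rot d)) ≠ c' (de (M.rot d)) ∧
          c (de (M.rot (M.rot d))) = c' (de (M.rot (M.rot d))))) := by
    unfold flips
    rw [Set.mem_ofPred_eq]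
    constructor
    · rintro ⟨e, ⟨he1, he2⟩, he3⟩
      rcases (hmem e).1 he1 with rfl | rfl | rfl
      · refine Or.inl ⟨he2, fun h => e1 ?_, fun h => e2 ?_⟩
        · exact (he3 _ ⟨(hmem _).2 (Or.inr (Or.inl rfl)), h⟩).symm
        · exact (he3 _ ⟨(hmem _).2 (Or.inr (Or.inr rfl)), h⟩).symm
      · refine Or.inr (Or.inl ⟨fun h => e1 ?_, he2, fun h => e3 ?_⟩)
        · exact he3 _ ⟨(hmem _).2 (Or.inl rfl), h⟩
        · exact (he3 _ ⟨(hmem _).2 (Or.inr (Or.inr rfl)), h⟩).symm
      · refine Or.inr (Or.inr ⟨fun h => e2 ?_, fun h => e3 ?_, he2⟩)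
        · exact he3 _ ⟨(hmem _).2 (Or.inl rfl), h⟩
        · exact he3 _ ⟨(hmem _).2 (Or.inr (Or.inl rfl)), h⟩
    · rintro (⟨h1, h2, h3⟩ | ⟨h1, h2, h3⟩ | ⟨h1, h2, h3⟩)
      · refine ⟨de d, ⟨(hmem _).2 (Or.inl rfl), h1⟩, ?_⟩
        rintro e ⟨he1, he2⟩
        rcases (hmem e).1 he1 with rfl | rfl | rfl
        · rfl
        · exact absurd he2 h2
        · exact absurd he2 h3
      · refine ⟨de (M.rot d), ⟨(hmem _).2 (Or.inr (Or.inl rfl)), h2⟩, ?_⟩
        rintro e ⟨he1, he2⟩
        rcases (hmem e).1 he1 with rfl | rfl | rfl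
        · exact absurd he2 h1
        · rfl
        · exact absurd he2 h3
      · refine ⟨de (M.rot (M.rot d)), ⟨(hmem _).2 (Or.inr (Or.inr rfl)), h3⟩, ?_⟩
        rintro e ⟨he1, he2⟩
        rcases (hmem e).1 he1 with rfl | rfl | rfl
        · exact absurd he2 h1
        · exact absurd he2 h2
        · rfl
  by_cases hf : d.fst ∈ flips c c'
  · rw [if_pos hf, if_pos (key.1 hf)]
  · rw [if_neg hf, if_neg (fun h => hf (key.2 h))]

private lemma EmbB_par_sum [Fintype G.edgeSet] [Fintype G.Dart] (M : Emb G) (κ : G.Coloring Bool)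
    (hcub : ∀ v, (G.neighborSet v).ncard = 3) (c : G.lineGraph.Coloring (Fin 3)) :
    (toCB M κ hcub).par (fun e => c e) = ∑ d : G.Dart, sg (c (de (M.rot d)) - c (de d)) := by
  have h1 : ∑ d : G.Dart, sg (c (de (M.rot d)) - c (de d)) =
      ∑ p : G.edgeSet × Bool, sg (c (rotB M κ p.2 p.1) - c p.1) := by
    rw [← Equiv.sum_comp (dartEquiv κ) (fun p => sg (c (rotB M κ p.2 p.1) - c p.1))]
    refine Finset.sum_congr rfl fun d _ => ?_
    rw [EmbB_de_rot M κ d]
    rfl
  rw [h1, Fintype.sum_prod_type]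
  simp only [Fintype.sum_bool]
  rw [Finset.sum_add_distrib]
  rfl

theorem par_iff [Finite V] [Fintype G.edgeSet] (M : Emb G) (κ : G.Coloring Bool)
    (hcub : ∀ v, (G.neighborSet v).ncard = 3) (c c' : G.lineGraph.Coloring (Fin 3)) :
    (toCB M κ hcub).par (fun e => c e) = (toCB M κ hcub).par (fun e => c' e) ↔ Even (flips c c').ncard := by
  classical
  haveI : Fintype V := Fintype.ofFinite V
  haveI : Finite G.Dart := Finite.of_equiv _ (dartEquiv κ).symm
  letI : Fintype G.Dart := Fintype.ofFinite _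
  have h1 : (toCB M κ hcub).par (fun e => c e) + (toCB M κ hcub).par (fun e => c' e) =
      ((flips c c').ncard : ZMod 2) := by
    rw [EmbB_par_sum, EmbB_par_sum, ← Finset.sum_add_distrib]
    simp_rw [EmbB_local M κ hcub c c']
    have h2 : ∑ d : G.Dart, (if d.fst ∈ flips c c' then (1 : ZMod 2) else 0) =
        ∑ v : V, ∑ d ∈ Finset.univ.filter (fun d : G.Dart => d.fst = v),
          (if d.fst ∈ flips c c' then (1 : ZMod 2) else 0) :=
      (Finset.sum_fiberwise_of_maps_to (fun _ _ => Finset.mem_univ _) _).symm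
    have h3 : ∀ v : V, ∑ d ∈ Finset.univ.filter (fun d : G.Dart => d.fst = v),
          (if d.fst ∈ flips c c' then (1 : ZMod 2) else 0) =
          if v ∈ flips c c' then 1 else 0 := by
      intro v
      have h4 : ∑ d ∈ Finset.univ.filter (fun d : G.Dart => d.fst = v),
          (if d.fst ∈ flips c c' then (1 : ZMod 2) else 0) =
          ∑ _d ∈ Finset.univ.filter (fun d : G.Dart => d.fst = v),
          (if v ∈ flips c c' then (1 : ZMod 2) else 0) := by
        refine Finset.sum_congr rfl fun d hd => ?_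
        rw [(Finset.mem_filter.1 hd).2]
      have h5 : (Finset.univ.filter (fun d : G.Dart => d.fst = v)).card = 3 := by
        have := card_out hcub v
        rw [← this, ← Set.ncard_coe_finset]
        congr 1
        ext d
        simp
      rw [h4, Finset.sum_const, h5]
      split_ifs
      · decide
      · decide
    rw [h2]
    simp_rw [h3]
    rw [Finset.sum_boole]
    congr 1
    rw [← Set.ncard_coe_finset]
    congr 1
    ext v
    simp
  have h2 : ∀ a b : ZMod 2, a = b ↔ a + b = 0 := by decide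
  rw [h2, h1, ZMod.natCast_eq_zero_iff, even_iff_two_dvd]

end Pool.Agent.PP
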