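import Pool.Agent.Lib_MP_7c0803_pp.Defs

/-!
Proof plan.

`G.Cn`: a nonempty set of edges closed under `s` and `t` is everything.  (As `s, t` have order 3, the complement of a closed set
is closed, and `s e ∈ A ↔ e ∈ A` for a closed set `A`.)  In the reduced graph `s' = th s th`, `t' = t`.

* `Th.empty`: `{e, f, g}` is closed.
* `Dg.conn`: let `A` be nonempty and closed in the reduced graph.  If `g ∉ A`, the image of `A` in `E` is closed in `G`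
  (`a ∈ A`: `a ≠ g, h`, so `th a = a`, and `th (s a) ∈ A` is not `g` and not in `R = {e, f, h}`, so `s a ∉ {g, h}` (`th` exchanges
  `g` and `h`), `th (s a) = s a`); so it is everything, against `g ∉ A`.  So every nonempty closed set contains `g`; as
  complements of closed sets are closed, `A` is everything.
* `Sq.conn`: write `E₀ = E ∖ R`, `R = {e1, e2, e3, e4, y, w}` (the same set for `Q` and `Q.flip`), `th₁ = swap x y * swap z w`
  for `Q`, `th₂ = swap x w * swap z y` for `Q.flip`.  As before every nonempty closed set of `G₁ = red Q` contains `x` or `z`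
  (otherwise closed in `G`).  If `G₁` is not connected there is a closed `A₁ ⊆ E₀` with `x ∈ A₁`, `z ∉ A₁` (a nonempty closed
  `A ≠ E₀` or its complement).  In the same way `A₂` for `G₂`.  Let `B = A₁ ∩ A₂`: `x ∈ B`, `z ∉ B`, `B ∩ R = ∅`.
  `B` is closed under `t`, so `3 ∣ |B|`.  `B ∖ {x}` is closed under `s`: for `a ∈ B`, `a ≠ x`: `th₁ a = a = th₂ a`, so
  `th₁ (s a) ∈ A₁`, `th₂ (s a) ∈ A₂`; `s a ≠ x` (else `a ∈ {x, e1, e4}`), `s a ≠ z` (else `a ∈ {z, e2, e3}`), `s a ≠ y`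
  (`th₂ y = z ∉ A₂`), `s a ≠ w` (`th₁ w = z ∉ A₁`); so `th_i (s a) = s a ∈ B ∖ {x}`.  So `3 ∣ |B| - 1`.  Contradiction.
  (`3 ∣ card` for a finite set closed under a permutation of order 3 without fixed points: e.g.
  `Equiv.Perm.card_fixedPoints_modEq`, or orbits.)
-/

set_option autoImplicit false

open Finset Function

namespace Pool.Agent.PP

universe u

variable {E : Type u} [Fintype E] [DecidableEq E]

/-- a finite set closed under a permutation of order 3 without fixed points -/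
private theorem Conn_three (s : E → E) (s3 : ∀ e, s (s (s e)) = e) (s1 : ∀ e, s e ≠ e) (B : Finset E)
    (hB : ∀ e ∈ B, s e ∈ B) : 3 ∣ B.card := by
  classical
  haveI : Fact (Nat.Prime 3) := ⟨by norm_num⟩
  let f : Function.End {a // a ∈ B} := fun a => ⟨s a.1, hB a.1 a.2⟩
  have hf : f ^ 3 ^ 1 = 1 := by
    have h0 : f ^ 3 ^ 1 = f * (f * f) := by
      rw [pow_one]
      rfl
    rw [h0]
    funext a
    exact Subtype.ext (s3 a.1)
  have h := Equiv.Perm.card_fixedPoints_modEq hf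
  have hc : Fintype.card f.fixedPoints = 0 := by
    rw [Fintype.card_eq_zero_iff]
    refine ⟨fun x => ?_⟩
    have hx : f x.1 = x.1 := x.2
    exact s1 x.1.1 (congrArg Subtype.val hx)
  rw [hc, Fintype.card_coe] at h
  exact (Nat.modEq_zero_iff_dvd).1 h

omit [Fintype E] [DecidableEq E] in
/-- complements of closed sets are closed -/
private theorem Conn_compl (G : CB E) (A : Set E) (hA : ∀ e ∈ A, G.s e ∈ A ∧ G.t e ∈ A) :
    ∀ e ∈ Aᶜ, G.s e ∈ Aᶜ ∧ G.t e ∈ Aᶜ := by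
  intro e he
  constructor
  · intro h
    apply he
    have h1 := (hA _ (hA _ h).1).1
    rwa [G.s3] at h1
  · intro h
    apply he
    have h1 := (hA _ (hA _ h).2).2
    rwa [G.t3] at h1

omit [Fintype E] in
/-- closed sets of the reduced graph with trivial relabelling on their elements -/
private theorem Conn_lift (G : CB E) (D : Redn G) (h : G.Cn) (A : Set {e // e ∉ D.R}) (hne : A.Nonempty)
    (hA : ∀ e ∈ A, (G.red D).s e ∈ A ∧ (G.red D).t e ∈ A)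
    (h1 : ∀ a ∈ A, D.th a.1 = a.1)
    (h2 : ∀ u : E, (∃ hu : D.th u ∉ D.R, (⟨D.th u, hu⟩ : {e // e ∉ D.R}) ∈ A) → D.th u = u) (g : E) :
    ∃ hg : g ∉ D.R, (⟨g, hg⟩ : {e // e ∉ D.R}) ∈ A := by
  have hcl : ∀ e ∈ (Subtype.val '' A : Set E), G.s e ∈ (Subtype.val '' A : Set E) ∧
      G.t e ∈ (Subtype.val '' A : Set E) := by
    rintro _ ⟨a, ha, rfl⟩
    obtain ⟨ha1, ha2⟩ := hA a ha
    refine ⟨⟨(G.red D).s a, ha1, ?_⟩, ⟨(G.red D).t a, ha2, red_t G D a⟩⟩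
    have e1 := red_s G D a
    rw [h1 a ha] at e1
    rw [e1]
    refine h2 (G.s a.1) ⟨?_, ?_⟩
    · rw [← e1]
      exact ((G.red D).s a).2
    · have e2 : (⟨D.th (G.s a.1), by rw [← e1]; exact ((G.red D).s a).2⟩ : {e // e ∉ D.R}) =
          (G.red D).s a := Subtype.ext e1.symm
      rw [e2]
      exact ha1
  have hu := h _ (hne.image _) hcl
  have hg : g ∈ (Subtype.val '' A : Set E) := by rw [hu]; trivial
  obtain ⟨a, ha, rfl⟩ := hg
  exact ⟨a.2, ha⟩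

theorem Th.empty {G : CB E} (Q : Th G) (h : G.Cn) : IsEmpty {e // e ∉ Q.redn.R} := by
  have hcl : ({Q.g, Q.e, Q.f} : Set E) = Set.univ := by
    apply h
    · exact ⟨Q.g, by simp⟩
    · intro a ha
      simp only [Set.mem_insert_iff, Set.mem_singleton_iff] at ha ⊢
      exact ⟨(Q.ts.mem a).2 ha, (Q.tt.mem a).2 ha⟩
  refine ⟨fun x => x.2 ?_⟩
  have hx : x.1 ∈ ({Q.g, Q.e, Q.f} : Set E) := by rw [hcl]; trivial
  simp only [Set.mem_insert_iff, Set.mem_singleton_iff] at hx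
  have h2 : x.1 ∈ ({Q.e, Q.f, Q.g} : Finset E) := by
    simp only [Finset.mem_insert, Finset.mem_singleton]
    tauto
  exact h2

omit [Fintype E] in
private theorem Conn_dg {G : CB E} (Q : Dg G) (h : G.Cn) (A : Set {e // e ∉ Q.redn.R})
    (hne : A.Nonempty) (hA : ∀ e ∈ A, (G.red Q.redn).s e ∈ A ∧ (G.red Q.redn).t e ∈ A)
    (hg : Q.g ∉ Q.redn.R) : (⟨Q.g, hg⟩ : {e // e ∉ Q.redn.R}) ∈ A := by
  by_contra hcon
  have key : ∀ a ∈ A, a.1 ≠ Q.g ∧ a.1 ≠ Q.h := by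
    intro a ha
    constructor
    · intro h1
      apply hcon
      have : (⟨Q.g, hg⟩ : {e // e ∉ Q.redn.R}) = a := Subtype.ext h1.symm
      rw [this]
      exact ha
    · intro h1
      apply a.2
      rw [h1, Dg.redn_R]
      simp
  have h1 : ∀ a ∈ A, Q.redn.th a.1 = a.1 := by
    intro a ha
    rw [Dg.redn_th]
    exact Equiv.swap_apply_of_ne_of_ne (key a ha).1 (key a ha).2
  have h2 : ∀ u : E, (∃ hu : Q.redn.th u ∉ Q.redn.R,
      (⟨Q.redn.th u, hu⟩ : {e // e ∉ Q.redn.R}) ∈ A) → Q.redn.th u = u := by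
    rintro u ⟨hu, hu2⟩
    have h3 := key _ hu2
    have h4 := h1 _ hu2
    rw [Q.redn.thth] at h4
    exact h4.symm
  obtain ⟨hg2, hg3⟩ := Conn_lift G Q.redn h A hne hA h1 h2 Q.g
  exact hcon hg3

theorem Dg.conn {G : CB E} (Q : Dg G) (h : G.Cn) : (G.red Q.redn).Cn := by
  intro A hne hA
  have hg : Q.g ∉ Q.redn.R := by
    rw [Dg.redn_R]
    have h1 := Q.tg.ne G.s1
    simp only [Finset.mem_insert, Finset.mem_singleton, not_or]
    exact ⟨h1.1, h1.2.1, Q.gh⟩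
  by_contra hcon
  have hne2 : (Aᶜ : Set {e // e ∉ Q.redn.R}).Nonempty := Set.nonempty_compl.2 hcon
  have h1 := Conn_dg Q h A hne hA hg
  have h2 := Conn_dg Q h Aᶜ hne2 (Conn_compl _ A hA) hg
  exact h2 h1

omit [Fintype E] in
private theorem Conn_sq {G : CB E} (Q : Sq G) (h : G.Cn) (A : Set {e // e ∉ Q.redn.R})
    (hne : A.Nonempty) (hA : ∀ e ∈ A, (G.red Q.redn).s e ∈ A ∧ (G.red Q.redn).t e ∈ A) :
    (∃ hx : Q.x ∉ Q.redn.R, (⟨Q.x, hx⟩ : {e // e ∉ Q.redn.R}) ∈ A) ∨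
      ∃ hz : Q.z ∉ Q.redn.R, (⟨Q.z, hz⟩ : {e // e ∉ Q.redn.R}) ∈ A := by
  by_contra hcon
  push Not at hcon
  obtain ⟨hcx, hcz⟩ := hcon
  have key : ∀ a ∈ A, a.1 ≠ Q.x ∧ a.1 ≠ Q.y ∧ a.1 ≠ Q.z ∧ a.1 ≠ Q.w := by
    intro a ha
    refine ⟨?_, ?_, ?_, ?_⟩
    · intro h1
      have hx : Q.x ∉ Q.redn.R := h1 ▸ a.2
      apply hcx hx
      have : (⟨Q.x, hx⟩ : {e // e ∉ Q.redn.R}) = a := Subtype.ext h1.symm
      rw [this]
      exact ha
    · intro h1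
      apply a.2
      rw [h1, Sq.redn_R]
      simp
    · intro h1
      have hz : Q.z ∉ Q.redn.R := h1 ▸ a.2
      apply hcz hz
      have : (⟨Q.z, hz⟩ : {e // e ∉ Q.redn.R}) = a := Subtype.ext h1.symm
      rw [this]
      exact ha
    · intro h1
      apply a.2
      rw [h1, Sq.redn_R]
      simp
  have h1 : ∀ a ∈ A, Q.redn.th a.1 = a.1 := by
    intro a ha
    obtain ⟨k1, k2, k3, k4⟩ := key a ha
    rw [Sq.redn_th, Equiv.Perm.mul_apply, Equiv.swap_apply_of_ne_of_ne k3 k4,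
      Equiv.swap_apply_of_ne_of_ne k1 k2]
  have h2 : ∀ u : E, (∃ hu : Q.redn.th u ∉ Q.redn.R,
      (⟨Q.redn.th u, hu⟩ : {e // e ∉ Q.redn.R}) ∈ A) → Q.redn.th u = u := by
    rintro u ⟨hu, hu2⟩
    have h4 := h1 _ hu2
    rw [Q.redn.thth] at h4
    exact h4.symm
  obtain ⟨hg2, hg3⟩ := Conn_lift G Q.redn h A hne hA h1 h2 Q.x
  exact hcx hg2 hg3

omit [Fintype E] in
private theorem Conn_split {G : CB E} (Q : Sq G) (h : G.Cn) (hn : ¬ (G.red Q.redn).Cn) :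
    ∃ A : Set {e // e ∉ Q.redn.R}, (∀ e ∈ A, (G.red Q.redn).s e ∈ A ∧ (G.red Q.redn).t e ∈ A) ∧
      (∃ hx : Q.x ∉ Q.redn.R, (⟨Q.x, hx⟩ : {e // e ∉ Q.redn.R}) ∈ A) ∧
      ∀ a ∈ A, a.1 ≠ Q.z := by
  unfold CB.Cn at hn
  push Not at hn
  obtain ⟨A, hne, hA, hnu⟩ := hn
  have hne2 : (Aᶜ : Set {e // e ∉ Q.redn.R}).Nonempty := Set.nonempty_compl.2 hnu
  have hA2 := Conn_compl _ A hA
  rcases Conn_sq Q h A hne hA with h1 | ⟨hz, h1⟩
  · refine ⟨A, hA, h1, ?_⟩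
    rcases Conn_sq Q h Aᶜ hne2 hA2 with ⟨hx, h2⟩ | ⟨hz, h2⟩
    · obtain ⟨hx', h1⟩ := h1
      exact absurd h1 h2
    · intro a ha haz
      apply h2
      have : (⟨Q.z, hz⟩ : {e // e ∉ Q.redn.R}) = a := Subtype.ext haz.symm
      rw [this]
      exact ha
  · rcases Conn_sq Q h Aᶜ hne2 hA2 with h2 | ⟨hz', h2⟩
    · refine ⟨Aᶜ, hA2, h2, ?_⟩
      intro a ha haz
      apply ha
      have : a = (⟨Q.z, hz⟩ : {e // e ∉ Q.redn.R}) := Subtype.ext haz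
      rw [this]
      exact h1
    · exact absurd h1 h2

theorem Sq.conn {G : CB E} (Q : Sq G) (h : G.Cn) : (G.red Q.redn).Cn ∨ (G.red Q.flip.redn).Cn := by
  by_contra hcon
  push Not at hcon
  obtain ⟨hn1, hn2⟩ := hcon
  obtain ⟨A1, hA1, ⟨hx1, hxA1⟩, hz1⟩ := Conn_split Q h hn1
  obtain ⟨A2, hA2, ⟨hx2, hxA2⟩, hz2⟩ := Conn_split Q.flip h hn2
  classical
  obtain ⟨⟨a1, a2, a3, a4, a5, a6, a7⟩, ⟨b1, b2, b3, b4, b5, b6⟩, ⟨c1, c2, c3, c4, c5⟩, ⟨d1, d2, d3, d4⟩,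
      ⟨f1, f2, f3⟩, ⟨g1, g2⟩, k⟩ := Q.ne
  have fx : Q.flip.x = Q.x := rfl
  have fz : Q.flip.z = Q.z := rfl
  set B : Finset E := Finset.univ.filter fun a =>
    (∃ hu : a ∉ Q.redn.R, (⟨a, hu⟩ : {e // e ∉ Q.redn.R}) ∈ A1) ∧
    ∃ hu : a ∉ Q.flip.redn.R, (⟨a, hu⟩ : {e // e ∉ Q.flip.redn.R}) ∈ A2 with hB
  have memB : ∀ a, a ∈ B ↔ (∃ hu : a ∉ Q.redn.R, (⟨a, hu⟩ : {e // e ∉ Q.redn.R}) ∈ A1) ∧
      ∃ hu : a ∉ Q.flip.redn.R, (⟨a, hu⟩ : {e // e ∉ Q.flip.redn.R}) ∈ A2 := by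
    intro a
    rw [hB, Finset.mem_filter]
    simp only [Finset.mem_univ, true_and]
  have hxB : Q.x ∈ B := (memB _).2 ⟨⟨hx1, hxA1⟩, ⟨hx2, hxA2⟩⟩
  have htB : ∀ a ∈ B, G.t a ∈ B := by
    intro a ha
    obtain ⟨⟨u1, m1⟩, ⟨u2, m2⟩⟩ := (memB a).1 ha
    refine (memB _).2 ⟨⟨fun hc => u1 ((Q.redn.ht a).1 hc), ?_⟩,
      ⟨fun hc => u2 ((Q.flip.redn.ht a).1 hc), ?_⟩⟩
    · exact (hA1 _ m1).2
    · exact (hA2 _ m2).2
  have hth1 : ∀ a, a ≠ Q.x → a ≠ Q.y → a ≠ Q.z → a ≠ Q.w → Q.redn.th a = a := by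
    intro a k1 k2 k3 k4
    rw [Sq.redn_th, Equiv.Perm.mul_apply, Equiv.swap_apply_of_ne_of_ne k3 k4,
      Equiv.swap_apply_of_ne_of_ne k1 k2]
  have hth2 : ∀ a, a ≠ Q.x → a ≠ Q.y → a ≠ Q.z → a ≠ Q.w → Q.flip.redn.th a = a := by
    intro a k1 k2 k3 k4
    rw [Sq.redn_th, Equiv.Perm.mul_apply]
    show Equiv.swap Q.x Q.w (Equiv.swap Q.z Q.y a) = a
    rw [Equiv.swap_apply_of_ne_of_ne k3 k2, Equiv.swap_apply_of_ne_of_ne k1 k4]
  have hBne : ∀ a ∈ B, a ≠ Q.e1 ∧ a ≠ Q.e2 ∧ a ≠ Q.e3 ∧ a ≠ Q.e4 ∧ a ≠ Q.y ∧ a ≠ Q.w ∧ a ≠ Q.z := by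
    intro a ha
    obtain ⟨⟨u1, m1⟩, ⟨u2, m2⟩⟩ := (memB a).1 ha
    have hz := hz1 _ m1
    rw [Sq.redn_R] at u1
    simp only [Finset.mem_insert, Finset.mem_singleton, not_or] at u1
    obtain ⟨v1, v2, v3, v4, v5, v6⟩ := u1
    exact ⟨v1, v2, v3, v4, v5, v6, hz⟩
  have hsB : ∀ a ∈ B.erase Q.x, G.s a ∈ B.erase Q.x := by
    intro a ha
    obtain ⟨hax, haB⟩ := Finset.mem_erase.1 ha
    obtain ⟨n1, n2, n3, n4, n5, n6, n7⟩ := hBne a haB
    obtain ⟨⟨u1, m1⟩, ⟨u2, m2⟩⟩ := (memB a).1 haB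
    have ta := hth1 a hax n5 n7 n6
    have tb := hth2 a hax n5 n7 n6
    have s1 := (hA1 _ m1).1
    have s2 := (hA2 _ m2).1
    have v1 : ((G.red Q.redn).s ⟨a, u1⟩).1 = Q.redn.th (G.s a) := by
      rw [red_s]
      show Q.redn.th (G.s (Q.redn.th a)) = _
      rw [ta]
    have v2 : ((G.red Q.flip.redn).s ⟨a, u2⟩).1 = Q.flip.redn.th (G.s a) := by
      rw [red_s]
      show Q.flip.redn.th (G.s (Q.flip.redn.th a)) = _
      rw [tb]
    have hsx : G.s a ≠ Q.x ∧ G.s a ≠ Q.e1 ∧ G.s a ≠ Q.e4 := by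
      have := Q.ta.mem a
      refine ⟨fun hc => ?_, fun hc => ?_, fun hc => ?_⟩
      · rcases this.1 (Or.inl hc) with h | h | h
        · exact hax h
        · exact n1 h
        · exact n4 h
      · rcases this.1 (Or.inr (Or.inl hc)) with h | h | h
        · exact hax h
        · exact n1 h
        · exact n4 h
      · rcases this.1 (Or.inr (Or.inr hc)) with h | h | h
        · exact hax h
        · exact n1 h
        · exact n4 h
    have hsz : G.s a ≠ Q.z := by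
      intro hc
      rcases (Q.tc.mem a).1 (Or.inl hc) with h | h | h
      · exact n7 h
      · exact n3 h
      · exact n2 h
    have hsw : G.s a ≠ Q.w := by
      intro hc
      apply hz1 _ s1
      rw [v1, hc, Sq.redn_th, Equiv.Perm.mul_apply, Equiv.swap_apply_right]
      exact Equiv.swap_apply_of_ne_of_ne (Ne.symm f2) (Ne.symm g1)
    have hsy : G.s a ≠ Q.y := by
      intro hc
      apply hz2 _ s2
      rw [v2, hc, Sq.redn_th, Equiv.Perm.mul_apply]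
      show Equiv.swap Q.x Q.w (Equiv.swap Q.z Q.y Q.y) = Q.z
      rw [Equiv.swap_apply_right]
      exact Equiv.swap_apply_of_ne_of_ne (Ne.symm f2) k
    have w1 : Q.redn.th (G.s a) = G.s a := hth1 _ hsx.1 hsy hsz hsw
    have w2 : Q.flip.redn.th (G.s a) = G.s a := hth2 _ hsx.1 hsy hsz hsw
    rw [w1] at v1
    rw [w2] at v2
    refine Finset.mem_erase.2 ⟨hsx.1, (memB _).2 ⟨⟨?_, ?_⟩, ⟨?_, ?_⟩⟩⟩
    · rw [← v1]
      exact ((G.red Q.redn).s ⟨a, u1⟩).2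
    · have e2 : (⟨G.s a, by rw [← v1]; exact ((G.red Q.redn).s ⟨a, u1⟩).2⟩ : {e // e ∉ Q.redn.R}) =
          (G.red Q.redn).s ⟨a, u1⟩ := Subtype.ext v1.symm
      rw [e2]
      exact s1
    · rw [← v2]
      exact ((G.red Q.flip.redn).s ⟨a, u2⟩).2
    · have e2 : (⟨G.s a, by rw [← v2]; exact ((G.red Q.flip.redn).s ⟨a, u2⟩).2⟩ :
          {e // e ∉ Q.flip.redn.R}) = (G.red Q.flip.redn).s ⟨a, u2⟩ := Subtype.ext v2.symm
      rw [e2]
      exact s2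
  have h3 := Conn_three G.t G.t3 G.t1 B htB
  have h4 := Conn_three G.s G.s3 G.s1 (B.erase Q.x) hsB
  rw [Finset.card_erase_of_mem hxB] at h4
  have h5 : 0 < B.card := Finset.card_pos.2 ⟨_, hxB⟩
  omega

end Pool.Agent.PP
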