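import Pool.Agent.Lib_MP_7c0803_pp.CutDefs

/-!
Shared lemmas for small edge cuts.

* `par_perm`: for a permutation `σ` of the three colours and a proper colouring `c`, `par (σ ∘ c) = par c`: for a fixed `σ` the
  difference `sg (σ b - σ a) - sg (b - a)` is the same for all `a ≠ b` (0 if `σ` is even, 1 if `σ` is odd; `decide`), and there are
  `2 |E|` terms.
* `cut_mod`: `3 ∣ |P|` and `3 ∣ |Q|`, since `P` and `Q` are closed under permutations of order 3 without fixed points (`B.s`, `B.t`
  restricted; e.g. there is a proper colouring `c` by `exists_P` of `Konig.lean`, and the three colour classes in `P` have the same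
  size, `s` maps class to class ... or `Equiv.Perm.card_fixedPoints_modEq` with `p = 3`).
* `cut_count`: in a proper colouring the edges of `P` of colour `k` are `|P| / 3`, one in each `s`-orbit; the same for `Q`; so
  `|{e ∈ P \ Q : c e = k}| - |{e ∈ Q \ P : c e = k}| = (|P| - |Q|) / 3` does not depend on `k`.
* `cut2_col`, `cut3_col` follow.
-/

set_option autoImplicit false

open Finset Function

namespace Pool.Agent.PP

universe u

variable {E : Type u} [Fintype E] [DecidableEq E]

omit [Fintype E] [DecidableEq E] in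
lemma P_perm (B : CB E) (σ : Equiv.Perm (Fin 3)) {c : E → Fin 3} (h : B.P c) : B.P (fun e => σ (c e)) :=
  fun e => ⟨fun h' => (h e).1 (σ.injective h'), fun h' => (h e).2 (σ.injective h')⟩

private lemma CutA0_delta : ∀ σ : Equiv.Perm (Fin 3), ∃ δ : ZMod 2, ∀ a b : Fin 3, a ≠ b →
    sg (σ b - σ a) = sg (b - a) + δ := by decide

private lemma CutA0_ind : ∀ a b c k : Fin 3, a ≠ b → b ≠ c → c ≠ a →
    (if a = k then 1 else 0) + (if b = k then 1 else 0) + (if c = k then 1 else 0) = 1 := by decide

private lemma CutA0_three : ∀ x y z : Fin 3,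
    (∀ k l : Fin 3, (if x = k then 1 else 0) + ((if y = k then 1 else 0) + (if z = k then 1 else 0)) =
      (if x = l then 1 else 0) + ((if y = l then 1 else 0) + (if z = l then 1 else 0))) →
    x ≠ y ∧ x ≠ z ∧ y ≠ z := by decide

omit [Fintype E] in
private lemma CutA0_mod {s : Equiv.Perm E} (s3 : ∀ e, s (s (s e)) = e) (s1 : ∀ e, s e ≠ e) {P : Finset E}
    (hP : ∀ e, s e ∈ P ↔ e ∈ P) : P.card % 3 = 0 := by
  let f : Function.End {e // e ∈ P} := fun e => ⟨s e.1, (hP e.1).2 e.2⟩
  have h1 : f ^ (3 ^ 1) = 1 := by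
    funext e
    apply Subtype.ext
    rw [pow_one, pow_succ, pow_two]
    exact s3 e.1
  have h2 := Equiv.Perm.card_fixedPoints_modEq (p := 3) h1
  have h3 : Fintype.card (Function.fixedPoints f) = 0 := by
    rw [Fintype.card_eq_zero_iff]
    refine ⟨fun x => s1 x.1.1 ?_⟩
    exact congrArg Subtype.val x.2
  rw [h3, Fintype.card_coe] at h2
  exact h2

omit [Fintype E] [DecidableEq E] in
private lemma CutA0_count {s : Equiv.Perm E} (s3 : ∀ e, s (s (s e)) = e) {P : Finset E}
    (hP : ∀ e, s e ∈ P ↔ e ∈ P) {c : E → Fin 3} (hc : ∀ e, c (s e) ≠ c e) (k : Fin 3) :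
    P.card = 3 * (P.filter (fun e => c e = k)).card := by
  have hshift : ∀ g : E → ℕ, ∑ e ∈ P, g (s e) = ∑ e ∈ P, g e := fun g =>
    Finset.sum_equiv s (fun e => (hP e).symm) (fun e _ => rfl)
  have h1 : ∑ e ∈ P, ((if c e = k then 1 else 0) + (if c (s e) = k then 1 else 0) +
      (if c (s (s e)) = k then 1 else 0)) = P.card := by
    rw [Finset.card_eq_sum_ones]
    refine Finset.sum_congr rfl fun e _ => ?_
    refine CutA0_ind _ _ _ k (hc e).symm (hc (s e)).symm ?_
    have h := hc (s (s e))
    rw [s3] at h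
    exact h.symm
  rw [Finset.sum_add_distrib, Finset.sum_add_distrib, hshift (fun e => if c e = k then 1 else 0),
    hshift (fun e => if c (s e) = k then 1 else 0), hshift (fun e => if c e = k then 1 else 0),
    ← Finset.card_filter] at h1
  omega

omit [DecidableEq E] in
theorem par_perm (B : CB E) (σ : Equiv.Perm (Fin 3)) {c : E → Fin 3} (h : B.P c) : B.par (fun e => σ (c e)) = B.par c := by
  obtain ⟨δ, hδ⟩ := CutA0_delta σ
  have h1 : ∀ e, sg (σ (c (B.s e)) - σ (c e)) = sg (c (B.s e) - c e) + δ := fun e => hδ _ _ (h e).1.symm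
  have h2 : ∀ e, sg (σ (c (B.t e)) - σ (c e)) = sg (c (B.t e) - c e) + δ := fun e => hδ _ _ (h e).2.symm
  unfold CB.par
  rw [Finset.sum_congr rfl fun e _ => h1 e, Finset.sum_congr rfl fun e _ => h2 e, Finset.sum_add_distrib,
    Finset.sum_add_distrib]
  have h3 : (∑ _e : E, δ) + ∑ _e : E, δ = 0 := CharTwo.add_self_eq_zero _
  calc _ = (∑ e, sg (c (B.s e) - c e) + ∑ e, sg (c (B.t e) - c e)) + ((∑ _e : E, δ) + ∑ _e : E, δ) := by abel
    _ = _ := by rw [h3, add_zero]

theorem cut_mod {B : CB E} (S : Side B) : (S.P \ S.Q).card % 3 = (S.Q \ S.P).card % 3 := by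
  have h1 := CutA0_mod B.s3 B.s1 S.hP
  have h2 := CutA0_mod B.t3 B.t1 S.hQ
  have h3 := Finset.card_sdiff_add_card_inter S.P S.Q
  have h4 := Finset.card_sdiff_add_card_inter S.Q S.P
  rw [Finset.inter_comm] at h4
  omega

theorem cut_count {B : CB E} (S : Side B) {c : E → Fin 3} (h : B.P c) (k l : Fin 3) :
    ((S.P \ S.Q).filter (fun e => c e = k)).card + ((S.Q \ S.P).filter (fun e => c e = l)).card =
      ((S.P \ S.Q).filter (fun e => c e = l)).card + ((S.Q \ S.P).filter (fun e => c e = k)).card := by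
  have h1 : ∀ m : Fin 3, S.P.card = 3 * (S.P.filter (fun e => c e = m)).card :=
    CutA0_count B.s3 S.hP fun e => (h e).1
  have h2 : ∀ m : Fin 3, S.Q.card = 3 * (S.Q.filter (fun e => c e = m)).card :=
    CutA0_count B.t3 S.hQ fun e => (h e).2
  have h3 : ∀ m : Fin 3, ((S.P \ S.Q).filter (fun e => c e = m)).card + ((S.P ∩ S.Q).filter (fun e => c e = m)).card =
      (S.P.filter (fun e => c e = m)).card := by
    intro m
    rw [← Finset.card_union_of_disjoint, ← Finset.filter_union, Finset.sdiff_union_inter]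
    exact Finset.disjoint_filter_filter (Finset.disjoint_sdiff_inter _ _)
  have h4 : ∀ m : Fin 3, ((S.Q \ S.P).filter (fun e => c e = m)).card + ((S.P ∩ S.Q).filter (fun e => c e = m)).card =
      (S.Q.filter (fun e => c e = m)).card := by
    intro m
    rw [Finset.inter_comm, ← Finset.card_union_of_disjoint, ← Finset.filter_union, Finset.sdiff_union_inter]
    exact Finset.disjoint_filter_filter (Finset.disjoint_sdiff_inter _ _)
  have h5 := h1 k
  have h6 := h1 l
  have h7 := h2 k
  have h8 := h2 l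
  have h9 := h3 k
  have h10 := h3 l
  have h11 := h4 k
  have h12 := h4 l
  omega

theorem cut2_col {B : CB E} {S : Side B} (C : Cut2 S) {c : E → Fin 3} (h : B.P c) : c C.f = c C.g := by
  by_contra hne
  have h1 := cut_count S h (c C.f) (c C.g)
  rw [C.hf, C.hg] at h1
  rw [Finset.filter_singleton, Finset.filter_singleton, Finset.filter_singleton, Finset.filter_singleton,
    if_pos rfl, if_pos rfl, if_neg hne, if_neg (fun h' => hne h'.symm)] at h1
  simp at h1

theorem cut3_col {B : CB E} {S : Side B} (C : Cut3 S) {c : E → Fin 3} (h : B.P c) :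
    c (C.f 0) ≠ c (C.f 1) ∧ c (C.f 0) ≠ c (C.f 2) ∧ c (C.f 1) ≠ c (C.f 2) := by
  refine CutA0_three _ _ _ fun k l => ?_
  have h1 := cut_count S h k l
  rw [C.hf, C.hg] at h1
  simp only [Finset.filter_empty, Finset.card_empty, add_zero] at h1
  obtain ⟨e1, e2, e3⟩ := C.ne
  have key : ∀ m : Fin 3, (({C.f 0, C.f 1, C.f 2} : Finset E).filter (fun e => c e = m)).card =
      (if c (C.f 0) = m then 1 else 0) + ((if c (C.f 1) = m then 1 else 0) + (if c (C.f 2) = m then 1 else 0)) := by
    intro m
    rw [Finset.card_filter, Finset.sum_insert, Finset.sum_insert, Finset.sum_singleton]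
    · rw [Finset.mem_singleton]; exact e3
    · rw [Finset.mem_insert, Finset.mem_singleton]
      rintro (h' | h')
      · exact e1 h'
      · exact e2 h'
  rw [key, key] at h1
  exact h1

end Pool.Agent.PP
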