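import Pool.Agent.Lib_MP_7c0803_pp.Defs

/-!
König: a cubic bipartite multigraph has a proper 3-edge-colouring.

General lemma.  Let `E'`, `X`, `Y` be finite, `u : E' → X`, `v : E' → Y`, every fibre of `u` and of `v` has exactly `k ≥ 1`
elements.  Then there is `M ⊆ E'` meeting every fibre of `u` and every fibre of `v` in exactly one element (Hall).
It is applied with `X` = the `s`-orbits, `Y` = the `t`-orbits, `k = 3`, and then to the remaining edges with `k = 2`.
-/

set_option autoImplicit false

open Finset Function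

namespace Pool.Agent.PP

universe u

private lemma Konig_hall {E' X Y : Type*} [Fintype E'] [Fintype X] [Fintype Y] [DecidableEq E'] [DecidableEq X]
    [DecidableEq Y] (u : E' → X) (v : E' → Y) (k : ℕ) (hk : 1 ≤ k)
    (hu : ∀ x, (univ.filter (fun e => u e = x)).card = k) (hv : ∀ y, (univ.filter (fun e => v e = y)).card = k) :
    ∃ M : Finset E', (∀ x, ∃ e ∈ M, u e = x ∧ ∀ e' ∈ M, u e' = x → e' = e) ∧
      (∀ y, ∃ e ∈ M, v e = y ∧ ∀ e' ∈ M, v e' = y → e' = e) := by
  have hcu : ∀ A : Finset X, (univ.filter (fun e => u e ∈ A)).card = A.card * k := by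
    intro A
    rw [Finset.card_eq_sum_card_fiberwise (f := u) (t := A) (by intro e he; simpa using he)]
    rw [Finset.sum_congr rfl (g := fun _ => k)]
    · simp
    · intro x hx
      rw [← hu x]
      congr 1
      ext e
      simp only [Finset.mem_filter, Finset.mem_univ, true_and]
      constructor
      · exact fun h => h.2
      · exact fun h => ⟨by rw [h]; exact hx, h⟩
  have hcv : ∀ A : Finset Y, (univ.filter (fun e => v e ∈ A)).card = A.card * k := by
    intro A
    rw [Finset.card_eq_sum_card_fiberwise (f := v) (t := A) (by intro e he; simpa using he)]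
    rw [Finset.sum_congr rfl (g := fun _ => k)]
    · simp
    · intro x hx
      rw [← hv x]
      congr 1
      ext e
      simp only [Finset.mem_filter, Finset.mem_univ, true_and]
      constructor
      · exact fun h => h.2
      · exact fun h => ⟨by rw [h]; exact hx, h⟩
  have hall : ∀ A : Finset X, A.card ≤ (A.biUnion (fun x => (univ.filter (fun e => u e = x)).image v)).card := by
    intro A
    have h1 := hcu A
    have h2 := hcv (A.biUnion (fun x => (univ.filter (fun e => u e = x)).image v))
    have h3 : (univ.filter (fun e => u e ∈ A)).card ≤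
        (univ.filter (fun e => v e ∈ A.biUnion (fun x => (univ.filter (fun e => u e = x)).image v))).card := by
      apply Finset.card_le_card
      intro e he
      simp only [Finset.mem_filter, Finset.mem_univ, true_and, Finset.mem_biUnion, Finset.mem_image] at he ⊢
      exact ⟨u e, he, e, rfl, rfl⟩
    rw [h1, h2] at h3
    exact Nat.le_of_mul_le_mul_right h3 (by omega)
  obtain ⟨f, hf, hft⟩ := (Finset.all_card_le_biUnion_card_iff_exists_injective _).1 hall
  have hcard : Fintype.card X = Fintype.card Y := by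
    have h1 := hcu univ
    have h2 := hcv univ
    simp only [Finset.mem_univ, Finset.filter_true] at h1 h2
    rw [h1] at h2
    have h3 := Nat.eq_of_mul_eq_mul_right (by omega) h2
    rw [Finset.card_univ, Finset.card_univ] at h3
    exact h3
  have hbij : Bijective f := (Fintype.bijective_iff_injective_and_card f).2 ⟨hf, hcard⟩
  have hm : ∀ x, ∃ e, u e = x ∧ v e = f x := by
    intro x
    have := hft x
    simp only [Finset.mem_image, Finset.mem_filter, Finset.mem_univ, true_and] at this
    exact this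
  choose m hm1 hm2 using hm
  refine ⟨univ.image m, ?_, ?_⟩
  · intro x
    refine ⟨m x, Finset.mem_image_of_mem _ (Finset.mem_univ _), hm1 x, ?_⟩
    intro e' he' hx
    obtain ⟨x', _, rfl⟩ := Finset.mem_image.1 he'
    rw [hm1] at hx
    rw [hx]
  · intro y
    obtain ⟨x, rfl⟩ := hbij.2 y
    refine ⟨m x, Finset.mem_image_of_mem _ (Finset.mem_univ _), hm2 x, ?_⟩
    intro e' he' hx
    obtain ⟨x', _, rfl⟩ := Finset.mem_image.1 he'
    rw [hm2] at hx
    rw [hf hx]

/-- the orbit of a permutation of order three -/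
private def Konig_orb {E : Type u} [DecidableEq E] (s : Equiv.Perm E) (e : E) : Finset E := {e, s e, s (s e)}

private lemma Konig_orb_s {E : Type u} [DecidableEq E] (s : Equiv.Perm E) (s3 : ∀ e, s (s (s e)) = e) (e : E) :
    Konig_orb s (s e) = Konig_orb s e := by
  unfold Konig_orb
  rw [s3]
  ext a
  simp only [Finset.mem_insert, Finset.mem_singleton]
  tauto

private lemma Konig_fib {E : Type u} [Fintype E] [DecidableEq E] (s : Equiv.Perm E) (s3 : ∀ e, s (s (s e)) = e)
    (s1 : ∀ e, s e ≠ e) (x : Set.range (Konig_orb s)) :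
    (univ.filter (fun e => (⟨Konig_orb s e, e, rfl⟩ : Set.range (Konig_orb s)) = x)).card = 3 := by
  obtain ⟨_, e0, rfl⟩ := x
  have h2 : s (s e0) ≠ e0 := by
    intro h
    apply s1 e0
    have := congrArg s h
    rw [s3] at this
    exact this.symm
  have h : univ.filter (fun e => (⟨Konig_orb s e, e, rfl⟩ : Set.range (Konig_orb s)) = ⟨Konig_orb s e0, e0, rfl⟩) =
      {e0, s e0, s (s e0)} := by
    ext e
    simp only [Finset.mem_filter, Finset.mem_univ, true_and]
    constructor
    · intro h
      have h' : Konig_orb s e = Konig_orb s e0 := congrArg Subtype.val h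
      have : e ∈ Konig_orb s e := by simp [Konig_orb]
      rw [h'] at this
      exact this
    · intro h
      apply Subtype.ext
      show Konig_orb s e = Konig_orb s e0
      simp only [Finset.mem_insert, Finset.mem_singleton] at h
      rcases h with rfl | rfl | rfl
      · rfl
      · exact Konig_orb_s s s3 _
      · rw [Konig_orb_s s s3, Konig_orb_s s s3]
  rw [h]
  rw [Finset.card_insert_of_notMem, Finset.card_insert_of_notMem, Finset.card_singleton]
  · simp only [Finset.mem_singleton]
    exact (s1 _).symm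
  · simp only [Finset.mem_insert, Finset.mem_singleton, not_or]
    exact ⟨(s1 _).symm, h2.symm⟩

/-- removing a transversal lowers the fibres by one -/
private lemma Konig_rem {E X : Type*} [Fintype E] [DecidableEq E] [DecidableEq X] (u : E → X) (k : ℕ) (M : Finset E) (x : X)
    (h : (univ.filter (fun e => u e = x)).card = k + 1) (hM : ∃ e ∈ M, u e = x ∧ ∀ e' ∈ M, u e' = x → e' = e) :
    (univ.filter (fun e : {e // e ∉ M} => u e.1 = x)).card = k := by
  obtain ⟨e0, he0, hx0, hun⟩ := hM
  have h1 : (univ.filter (fun e => u e = x)).erase e0 =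
      (univ.filter (fun e : {e // e ∉ M} => u e.1 = x)).map (Embedding.subtype _) := by
    ext e
    simp only [Finset.mem_erase, Finset.mem_filter, Finset.mem_univ, true_and, Finset.mem_map,
      Embedding.coe_subtype, Subtype.exists, exists_and_left, exists_prop, exists_eq_right_right]
    constructor
    · rintro ⟨a, b⟩
      exact ⟨b, fun h => a (hun e h b)⟩
    · rintro ⟨a, b⟩
      exact ⟨fun h => b (h ▸ he0), a⟩
  have h2 := congrArg Finset.card h1
  rw [Finset.card_map, Finset.card_erase_of_mem (by simp [hx0]), h] at h2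
  omega

/-- a perfect matching is a colour class of a proper 3-edge-colouring (core form) -/
private lemma Konig_core {E : Type u} [Fintype E] [DecidableEq E] (G : CB E) (M1 : Finset E)
    (h1u : ∀ x : Set.range (Konig_orb G.s), ∃ e ∈ M1, (⟨Konig_orb G.s e, e, rfl⟩ : Set.range (Konig_orb G.s)) = x ∧
      ∀ e' ∈ M1, (⟨Konig_orb G.s e', e', rfl⟩ : Set.range (Konig_orb G.s)) = x → e' = e)
    (h1v : ∀ x : Set.range (Konig_orb G.t), ∃ e ∈ M1, (⟨Konig_orb G.t e, e, rfl⟩ : Set.range (Konig_orb G.t)) = x ∧
      ∀ e' ∈ M1, (⟨Konig_orb G.t e', e', rfl⟩ : Set.range (Konig_orb G.t)) = x → e' = e) :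
    ∃ c, G.P c ∧ ∀ e, c e = 0 ↔ e ∈ M1 := by
  classical
  set u : E → Set.range (Konig_orb G.s) := fun e => ⟨Konig_orb G.s e, e, rfl⟩ with hu
  set v : E → Set.range (Konig_orb G.t) := fun e => ⟨Konig_orb G.t e, e, rfl⟩ with hv
  have fu : ∀ x, (univ.filter (fun e => u e = x)).card = 3 := by
    intro x
    convert Konig_fib G.s G.s3 G.s1 x
  have fv : ∀ x, (univ.filter (fun e => v e = x)).card = 3 := by
    intro x
    convert Konig_fib G.t G.t3 G.t1 x
  obtain ⟨M2', h2u, h2v⟩ := Konig_hall (fun e : {e // e ∉ M1} => u e.1) (fun e : {e // e ∉ M1} => v e.1) 2 (by norm_num)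
    (fun x => Konig_rem u 2 M1 x (fu x) (h1u x)) (fun x => Konig_rem v 2 M1 x (fv x) (h1v x))
  set M2 : Finset E := M2'.map (Embedding.subtype _) with hM2
  have mem2 : ∀ e, e ∈ M2 ↔ ∃ h : e ∉ M1, (⟨e, h⟩ : {e // e ∉ M1}) ∈ M2' := by
    intro e
    simp [hM2]
  have disj : ∀ e, e ∈ M1 → e ∈ M2 → False := fun e h h' => by
    obtain ⟨h2, _⟩ := (mem2 e).1 h'
    exact h2 h
  -- the key statement for one side
  have side : ∀ {X : Type u} [DecidableEq X] (w : E → X), (∀ x, x ∈ Set.range w → (univ.filter (fun e => w e = x)).card = 3) →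
      (∀ x, x ∈ Set.range w → ∃ e ∈ M1, w e = x ∧ ∀ e' ∈ M1, w e' = x → e' = e) →
      (∀ x, x ∈ Set.range w → ∃ e ∈ M2', w e.1 = x ∧ ∀ e' ∈ M2', w e'.1 = x → e' = e) →
      ∀ a b, w a = w b → a ≠ b →
        (if a ∈ M1 then (0 : Fin 3) else if a ∈ M2 then 1 else 2) ≠ (if b ∈ M1 then (0 : Fin 3) else if b ∈ M2 then 1 else 2) := by
    intro X _ w hw hw1 hw2 a b hab hne
    obtain ⟨m1, hm1, hx1, hun1⟩ := hw1 (w a) ⟨a, rfl⟩
    obtain ⟨m2, hm2, hx2, hun2⟩ := hw2 (w a) ⟨a, rfl⟩
    by_cases a1 : a ∈ M1 <;> by_cases b1 : b ∈ M1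
    · exact absurd ((hun1 a a1 rfl).trans (hun1 b b1 hab.symm).symm) hne
    · rw [if_pos a1, if_neg b1]; split_ifs <;> decide
    · rw [if_neg a1, if_pos b1]; split_ifs <;> decide
    · rw [if_neg a1, if_neg b1]
      by_cases a2 : a ∈ M2 <;> by_cases b2 : b ∈ M2
      · obtain ⟨ha, ha'⟩ := (mem2 a).1 a2
        obtain ⟨hb, hb'⟩ := (mem2 b).1 b2
        have e1 := hun2 ⟨a, ha⟩ ha' rfl
        have e2 := hun2 ⟨b, hb⟩ hb' hab.symm
        exact absurd (congrArg Subtype.val (e1.trans e2.symm)) hne
      · rw [if_pos a2, if_neg b2]; decide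
      · rw [if_neg a2, if_pos b2]; decide
      · exfalso
        have hm2' : m2.1 ∈ M2 := (mem2 _).2 ⟨m2.2, hm2⟩
        have hsub : ({m1, m2.1, a, b} : Finset E) ⊆ univ.filter (fun e => w e = w a) := by
          intro e he
          simp only [Finset.mem_insert, Finset.mem_singleton] at he
          simp only [Finset.mem_filter, Finset.mem_univ, true_and]
          rcases he with rfl | rfl | rfl | rfl
          · exact hx1
          · exact hx2
          · rfl
          · exact hab.symm
        have h4 := Finset.card_le_card hsub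
        rw [hw (w a) ⟨a, rfl⟩, Finset.card_insert_of_notMem, Finset.card_insert_of_notMem, Finset.card_insert_of_notMem,
          Finset.card_singleton] at h4
        · omega
        · simpa using hne
        · simp only [Finset.mem_insert, Finset.mem_singleton, not_or]
          exact ⟨fun h => a2 (h ▸ hm2'), fun h => b2 (h ▸ hm2')⟩
        · simp only [Finset.mem_insert, Finset.mem_singleton, not_or]
          exact ⟨fun h => m2.2 (h ▸ hm1), fun h => a1 (h ▸ hm1), fun h => b1 (h ▸ hm1)⟩
  refine ⟨fun e => if e ∈ M1 then (0 : Fin 3) else if e ∈ M2 then 1 else 2, ?_, ?_⟩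
  swap
  · intro e
    show (if e ∈ M1 then (0 : Fin 3) else if e ∈ M2 then 1 else 2) = 0 ↔ e ∈ M1
    split_ifs with h1 h2
    · simp [h1]
    · simp [h1]
    · simp [h1]
  intro e
  constructor
  · exact side u (fun x _ => fu x) (fun x _ => h1u x) (fun x _ => h2u x) (G.s e) e
      (Subtype.ext (Konig_orb_s G.s G.s3 e)) (G.s1 e)
  · exact side v (fun x _ => fv x) (fun x _ => h1v x) (fun x _ => h2v x) (G.t e) e
      (Subtype.ext (Konig_orb_s G.t G.t3 e)) (G.t1 e)

/-- existence of a proper 3-edge-colouring -/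
theorem exists_P {E : Type u} [Finite E] (G : CB E) : ∃ c, G.P c := by
  classical
  have : Fintype E := Fintype.ofFinite E
  obtain ⟨M1, h1u, h1v⟩ := Konig_hall (fun e => (⟨Konig_orb G.s e, e, rfl⟩ : Set.range (Konig_orb G.s)))
    (fun e => (⟨Konig_orb G.t e, e, rfl⟩ : Set.range (Konig_orb G.t))) 3 (by norm_num)
    (Konig_fib G.s G.s3 G.s1) (Konig_fib G.t G.t3 G.t1)
  obtain ⟨c, hc, _⟩ := Konig_core G M1 h1u h1v
  exact ⟨c, hc⟩

/-- every perfect matching `M` is a colour class of a proper 3-edge-colouring -/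
theorem matching_col {E : Type u} [Finite E] (G : CB E) (M : E → Prop)
    (hs : ∀ e, ∃! f, (f = e ∨ f = G.s e ∨ f = G.s (G.s e)) ∧ M f)
    (ht : ∀ e, ∃! f, (f = e ∨ f = G.t e ∨ f = G.t (G.t e)) ∧ M f) : ∃ c, G.P c ∧ ∀ e, c e = 0 ↔ M e := by
  classical
  have : Fintype E := Fintype.ofFinite E
  have key : ∀ (s : Equiv.Perm E), (∀ e, s (s (s e)) = e) →
      (∀ e, ∃! f, (f = e ∨ f = s e ∨ f = s (s e)) ∧ M f) → ∀ x : Set.range (Konig_orb s),
      ∃ e ∈ univ.filter M, (⟨Konig_orb s e, e, rfl⟩ : Set.range (Konig_orb s)) = x ∧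
      ∀ e' ∈ univ.filter M, (⟨Konig_orb s e', e', rfl⟩ : Set.range (Konig_orb s)) = x → e' = e := by
    intro s s3 h x
    obtain ⟨_, e0, rfl⟩ := x
    obtain ⟨f, ⟨hf, hM⟩, hun⟩ := h e0
    refine ⟨f, by simpa using hM, ?_, ?_⟩
    · apply Subtype.ext
      show Konig_orb s f = Konig_orb s e0
      rcases hf with rfl | rfl | rfl
      · rfl
      · exact Konig_orb_s s s3 _
      · rw [Konig_orb_s s s3, Konig_orb_s s s3]
    · intro e' he' hx
      have hx' : Konig_orb s e' = Konig_orb s e0 := congrArg Subtype.val hx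
      have h1 : e' ∈ Konig_orb s e' := by simp [Konig_orb]
      rw [hx'] at h1
      simp only [Konig_orb, Finset.mem_insert, Finset.mem_singleton] at h1
      exact hun e' ⟨h1, by simpa using he'⟩
  obtain ⟨c, hc, hc0⟩ := Konig_core G (univ.filter M) (key G.s G.s3 hs) (key G.t G.t3 ht)
  exact ⟨c, hc, fun e => by rw [hc0]; simp⟩

end Pool.Agent.PP
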