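import Pool.Agent.Lib_MP_7c0803_pp.CutA0
import Pool.Agent.Lib_MP_7c0803_pp.Konig

/-!
`dual` and `res` (no cut edges).

* `dual`: `B.dual.P c ↔ B.P c`, `B.dual.par c = B.par c` (`add_comm`), so the relation of `KE` is the same.
* `res`: for `P = Q` a proper colouring of `B` is a pair of proper colourings of `B.res S h` and `B.res S.compl _`; `par` is the sum of
  the two (`Finset.sum_subtype`, `Finset.sum_compl...`, cf. `red_par` in `Defs.lean`).  `res_PC`: glue the two colourings with one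
  fixed proper colouring of the other side (`exists_P` of `Konig.lean`).  `res_Con`: `(a, b) ~ (a', b) ~ (a', b')`: if `a`, `a'` share the
  class `k`, then so do `(a, b)`, `(a', b)`; use `KE_map` (`Defs.lean`) with `L x = glue x b` and then `L y = glue a' y`.
-/

set_option autoImplicit false

open Finset Function

namespace Pool.Agent.PP

universe u

variable {E : Type u} [Fintype E] [DecidableEq E]

omit [Fintype E] [DecidableEq E] in
private lemma CutA1_dual_P (B : CB E) (c : E → Fin 3) : B.dual.P c ↔ B.P c :=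
  forall_congr' fun _ => and_comm

omit [DecidableEq E] in
theorem dual_PC (B : CB E) (h : B.PC) : B.dual.PC := by
  intro c c' hc hc'
  have h1 : ∀ c : E → Fin 3, B.dual.par c = B.par c := fun c => add_comm _ _
  rw [h1, h1]
  exact h c c' ((CutA1_dual_P B c).1 hc) ((CutA1_dual_P B c').1 hc')

omit [Fintype E] [DecidableEq E] in
theorem dual_Con (B : CB E) (h : B.dual.Con) : B.Con := by
  intro c c' hc hc'
  have h1 : B.dual.KE c c' := h c c' ((CutA1_dual_P B c).2 hc) ((CutA1_dual_P B c').2 hc')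
  exact KE_map B B.dual (fun x => x) (fun a b ha hb hab =>
    KE_of_rel B ((CutA1_dual_P B a).1 ha) ((CutA1_dual_P B b).1 hb) hab) c c' h1

private def CutA1_glue {B : CB E} (S : Side B) (a : {e // e ∈ S.P} → Fin 3)
    (b : {e // e ∈ S.compl.P} → Fin 3) : E → Fin 3 :=
  fun e => if h : e ∈ S.P then a ⟨e, h⟩ else b ⟨e, Finset.mem_compl.2 h⟩

private lemma CutA1_glue_pos {B : CB E} (S : Side B) (a : {e // e ∈ S.P} → Fin 3)
    (b : {e // e ∈ S.compl.P} → Fin 3) (x : {e // e ∈ S.P}) : CutA1_glue S a b x.1 = a x := by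
  unfold CutA1_glue
  rw [dif_pos x.2]

private lemma CutA1_glue_neg {B : CB E} (S : Side B) (a : {e // e ∈ S.P} → Fin 3)
    (b : {e // e ∈ S.compl.P} → Fin 3) (x : {e // e ∈ S.compl.P}) : CutA1_glue S a b x.1 = b x := by
  unfold CutA1_glue
  rw [dif_neg (Finset.mem_compl.1 x.2)]

private lemma CutA1_glue_P {B : CB E} (S : Side B) (h : S.P = S.Q) {a : {e // e ∈ S.P} → Fin 3}
    {b : {e // e ∈ S.compl.P} → Fin 3} (ha : (B.res S h).P a)
    (hb : (B.res S.compl (S.compl_eq h)).P b) : B.P (CutA1_glue S a b) := by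
  intro e
  by_cases he : e ∈ S.P
  · have h1 := ha ⟨e, he⟩
    have hs : CutA1_glue S a b (B.s e) = a ((B.res S h).s ⟨e, he⟩) :=
      CutA1_glue_pos S a b ((B.res S h).s ⟨e, he⟩)
    have ht : CutA1_glue S a b (B.t e) = a ((B.res S h).t ⟨e, he⟩) :=
      CutA1_glue_pos S a b ((B.res S h).t ⟨e, he⟩)
    have h0 : CutA1_glue S a b e = a ⟨e, he⟩ := CutA1_glue_pos S a b ⟨e, he⟩
    rw [hs, ht, h0]
    exact h1
  · have he' : e ∈ S.compl.P := Finset.mem_compl.2 he
    have h1 := hb ⟨e, he'⟩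
    have hs : CutA1_glue S a b (B.s e) = b ((B.res S.compl (S.compl_eq h)).s ⟨e, he'⟩) :=
      CutA1_glue_neg S a b ((B.res S.compl (S.compl_eq h)).s ⟨e, he'⟩)
    have ht : CutA1_glue S a b (B.t e) = b ((B.res S.compl (S.compl_eq h)).t ⟨e, he'⟩) :=
      CutA1_glue_neg S a b ((B.res S.compl (S.compl_eq h)).t ⟨e, he'⟩)
    have h0 : CutA1_glue S a b e = b ⟨e, he'⟩ := CutA1_glue_neg S a b ⟨e, he'⟩
    rw [hs, ht, h0]
    exact h1

omit [Fintype E] in
private lemma CutA1_res_P {B : CB E} (S : Side B) (h : S.P = S.Q) {c : E → Fin 3} (hc : B.P c) :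
    (B.res S h).P (fun x => c x.1) := fun x => hc x.1

private lemma CutA1_glue_res {B : CB E} (S : Side B) (c : E → Fin 3) :
    CutA1_glue S (fun x => c x.1) (fun x => c x.1) = c := by
  funext e
  unfold CutA1_glue
  split_ifs <;> rfl

private lemma CutA1_sum {B : CB E} (S : Side B) (g : E → ZMod 2) :
    ∑ e, g e = (∑ x : {e // e ∈ S.P}, g x.1) + ∑ x : {e // e ∈ S.compl.P}, g x.1 := by
  have h1 : ∑ x : {e // e ∈ S.P}, g x.1 = ∑ e ∈ S.P, g e := Finset.sum_coe_sort S.P g
  have h2 : ∑ x : {e // e ∈ S.compl.P}, g x.1 = ∑ e ∈ S.Pᶜ, g e := Finset.sum_coe_sort S.compl.P g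
  rw [h1, h2, Finset.sum_add_sum_compl]

private lemma CutA1_glue_par {B : CB E} (S : Side B) (h : S.P = S.Q) (a : {e // e ∈ S.P} → Fin 3)
    (b : {e // e ∈ S.compl.P} → Fin 3) : B.par (CutA1_glue S a b) =
      (B.res S h).par a + (B.res S.compl (S.compl_eq h)).par b := by
  unfold CB.par
  rw [CutA1_sum S (fun e => sg (CutA1_glue S a b (B.s e) - CutA1_glue S a b e)),
    CutA1_sum S (fun e => sg (CutA1_glue S a b (B.t e) - CutA1_glue S a b e))]
  have h1 : ∀ x : {e // e ∈ S.P}, sg (CutA1_glue S a b (B.s x.1) - CutA1_glue S a b x.1) =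
      sg (a ((B.res S h).s x) - a x) := by
    intro x
    rw [CutA1_glue_pos S a b x]
    have := CutA1_glue_pos S a b ((B.res S h).s x)
    rw [← this]
    rfl
  have h2 : ∀ x : {e // e ∈ S.P}, sg (CutA1_glue S a b (B.t x.1) - CutA1_glue S a b x.1) =
      sg (a ((B.res S h).t x) - a x) := by
    intro x
    rw [CutA1_glue_pos S a b x]
    have := CutA1_glue_pos S a b ((B.res S h).t x)
    rw [← this]
    rfl
  have h3 : ∀ x : {e // e ∈ S.compl.P}, sg (CutA1_glue S a b (B.s x.1) - CutA1_glue S a b x.1) =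
      sg (b ((B.res S.compl (S.compl_eq h)).s x) - b x) := by
    intro x
    rw [CutA1_glue_neg S a b x]
    have := CutA1_glue_neg S a b ((B.res S.compl (S.compl_eq h)).s x)
    rw [← this]
    rfl
  have h4 : ∀ x : {e // e ∈ S.compl.P}, sg (CutA1_glue S a b (B.t x.1) - CutA1_glue S a b x.1) =
      sg (b ((B.res S.compl (S.compl_eq h)).t x) - b x) := by
    intro x
    rw [CutA1_glue_neg S a b x]
    have := CutA1_glue_neg S a b ((B.res S.compl (S.compl_eq h)).t x)
    rw [← this]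
    rfl
  rw [Finset.sum_congr rfl (fun x _ => h1 x), Finset.sum_congr rfl (fun x _ => h2 x),
    Finset.sum_congr rfl (fun x _ => h3 x), Finset.sum_congr rfl (fun x _ => h4 x)]
  ring

theorem res_PC (B : CB E) (S : Side B) (h : S.P = S.Q) (hp : B.PC) : (B.res S h).PC := by
  intro a a' ha ha'
  obtain ⟨b, hb⟩ := exists_P (B.res S.compl (S.compl_eq h))
  have h1 := hp _ _ (CutA1_glue_P S h ha hb) (CutA1_glue_P S h ha' hb)
  rw [CutA1_glue_par S h, CutA1_glue_par S h] at h1
  exact add_right_cancel h1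

theorem res_Con (B : CB E) (S : Side B) (h : S.P = S.Q) (h1 : (B.res S h).Con)
    (h2 : (B.res S.compl (S.compl_eq h)).Con) : B.Con := by
  intro c c' hc hc'
  have k1 := h1 _ _ (CutA1_res_P S h hc) (CutA1_res_P S h hc')
  have k2 := h2 _ _ (CutA1_res_P S.compl (S.compl_eq h) hc) (CutA1_res_P S.compl (S.compl_eq h) hc')
  have e1 : B.KE (CutA1_glue S (fun x => c x.1) (fun x => c x.1))
      (CutA1_glue S (fun x => c' x.1) (fun x => c x.1)) := by
    refine KE_map B (B.res S h) (fun x => CutA1_glue S x (fun x => c x.1)) ?_ _ _ k1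
    rintro a a' ha ha' ⟨k, hk⟩
    refine KE_of_rel B (CutA1_glue_P S h ha (CutA1_res_P S.compl (S.compl_eq h) hc))
      (CutA1_glue_P S h ha' (CutA1_res_P S.compl (S.compl_eq h) hc)) ⟨k, fun e => ?_⟩
    unfold CutA1_glue
    split_ifs with he
    · exact hk _
    · exact Iff.rfl
  have e2 : B.KE (CutA1_glue S (fun x => c' x.1) (fun x => c x.1))
      (CutA1_glue S (fun x => c' x.1) (fun x => c' x.1)) := by
    refine KE_map B (B.res S.compl (S.compl_eq h)) (fun y => CutA1_glue S (fun x => c' x.1) y) ?_ _ _ k2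
    rintro b b' hb hb' ⟨k, hk⟩
    refine KE_of_rel B (CutA1_glue_P S h (CutA1_res_P S h hc') hb)
      (CutA1_glue_P S h (CutA1_res_P S h hc') hb') ⟨k, fun e => ?_⟩
    unfold CutA1_glue
    split_ifs with he
    · exact Iff.rfl
    · exact hk _
  rw [CutA1_glue_res] at e1 e2
  exact Relation.EqvGen.trans _ _ _ e1 e2

end Pool.Agent.PP
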