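import Pool.Agent.Lib_MP_7c0803_pp.CutA0
import Pool.Agent.Lib_MP_7c0803_pp.Konig

/-!
2-cuts.  Write `f = C.f`, `g = C.g`, `sw = Equiv.swap f g`, `B1 = B.cut2 C` (on the edges in `P`), `B2 = B.cut2 C.compl` (on the edges
not in `P`, `C.compl.f = g`, `C.compl.g = f`, note `S.compl.P = S.Pᶜ`).  A proper colouring `c` of `B` has `c f = c g` (`cut2_col`), so
`c ∘ sw = c` and the restrictions `c|P`, `c|Pᶜ` are proper for `B1`, `B2` (`cut2_s`, `cut2_t`).
(1) `B.par c = B1.par (c|P) + B2.par (c|Pᶜ)`: the `s`-terms are split along `P`; the `t`-term of `B1` at `e ∈ P` is the `t`-term of `B` at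
    `sw e ∈ Q` (`Cut2.swap_mem`), cf. `red_par` in `Defs.lean`.
(2) Gluing: if `a` is proper for `B1`, `b` is proper for `B2` and `a f = b g`, then `c e = if e ∈ P then a e else b e` is proper for `B`
    (again `c f = c g`, so `c ∘ sw = c`; for `e ∈ Q` use `cut2_t` of `B1` at `sw e`; for `e ∉ Q` that of `B2`).
(3) `cut2_PC`: take a proper colouring `b` of `B2` (`exists_P`).  For `a1`, `a2` proper for `B1` choose permutations `σi` with
    `σi (b g) = ai f` (`Equiv.swap`); `(ai, σi ∘ b)` is proper for `B` with parity `B1.par ai + B2.par b` (`par_perm`).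
(4) `cut2_Con`: let `(a, b)`, `(a', b')` be proper for `B`.
    Step: if `a`, `a1` are proper for `B1` and share the class `k` and `b f`-matches `a` (`b g = a f`), then there is a permutation `σ` of
    the colours with `σ (b g) = a1 f` such that `(a, b)` and `(a1, σ ∘ b)` share the class `k`: `σ = 1` if `a f = a1 f`; otherwise `a f`,
    `a1 f` are both `≠ k` and `σ` = exchange of them (it fixes `k`).
    By induction on `B1.KE a a'` (state it symmetrically: for all `b`, proper for `B2`, `b g = a f` there is `σ` ... and conversely, or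
    use that `EqvGen` of a symmetric relation is `ReflTransGen`; non-proper colourings occur only in `refl`) one gets
    `(a, b) ~ (a', σ ∘ b)`.  In the same way `(a', σ ∘ b) ~ (τ ∘ a', b')` with `τ (a' f) = b' g = a' f`, so with `m = a' f`: `τ m = m`, and
    `(τ ∘ a', b')` and `(a', b')` share the class `m`.
-/

set_option autoImplicit false

open Finset Function

namespace Pool.Agent.PP

universe u

variable {E : Type u} [Fintype E] [DecidableEq E]

private lemma CutA2_f {B : CB E} {S : Side B} (C : Cut2 S) : C.f ∈ S.P ∧ C.f ∉ S.Q := by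
  have : C.f ∈ S.P \ S.Q := by rw [C.hf]; simp
  simpa using this

private lemma CutA2_g {B : CB E} {S : Side B} (C : Cut2 S) : C.g ∈ S.Q ∧ C.g ∉ S.P := by
  have : C.g ∈ S.Q \ S.P := by rw [C.hg]; simp
  simpa using this

private def CutA2_glue {B : CB E} (S : Side B) (a : {e // e ∈ S.P} → Fin 3)
    (b : {e // e ∈ S.compl.P} → Fin 3) : E → Fin 3 :=
  fun e => if h : e ∈ S.P then a ⟨e, h⟩ else b ⟨e, Finset.mem_compl.2 h⟩

private lemma CutA2_pos {B : CB E} (S : Side B) (a : {e // e ∈ S.P} → Fin 3)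
    (b : {e // e ∈ S.compl.P} → Fin 3) (x : {e // e ∈ S.P}) : CutA2_glue S a b x.1 = a x := by
  unfold CutA2_glue
  rw [dif_pos x.2]

private lemma CutA2_neg {B : CB E} (S : Side B) (a : {e // e ∈ S.P} → Fin 3)
    (b : {e // e ∈ S.compl.P} → Fin 3) (x : {e // e ∈ S.compl.P}) : CutA2_glue S a b x.1 = b x := by
  unfold CutA2_glue
  rw [dif_neg (Finset.mem_compl.1 x.2)]

private lemma CutA2_res {B : CB E} (S : Side B) (c : E → Fin 3) :
    CutA2_glue S (fun x => c x.1) (fun x => c x.1) = c := by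
  funext e
  unfold CutA2_glue
  split_ifs <;> rfl

omit [Fintype E] in
private lemma CutA2_sw (f g : E) {c : E → Fin 3} (h : c f = c g) (e : E) : c (Equiv.swap f g e) = c e := by
  rw [Equiv.swap_apply_def]
  split_ifs with h1 h2
  · rw [h1, h]
  · rw [h2, h]
  · rfl

private def CutA2_fa {B : CB E} {S : Side B} (C : Cut2 S) : {e // e ∈ S.P} := ⟨C.f, (CutA2_f C).1⟩

private def CutA2_gb {B : CB E} {S : Side B} (C : Cut2 S) : {e // e ∈ S.compl.P} :=
  ⟨C.g, Finset.mem_compl.2 (CutA2_g C).2⟩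

private lemma CutA2_cfg {B : CB E} {S : Side B} (C : Cut2 S) {a : {e // e ∈ S.P} → Fin 3}
    {b : {e // e ∈ S.compl.P} → Fin 3} (h : a (CutA2_fa C) = b (CutA2_gb C)) :
    CutA2_glue S a b C.f = CutA2_glue S a b C.g := by
  have h1 : CutA2_glue S a b C.f = a (CutA2_fa C) := CutA2_pos S a b (CutA2_fa C)
  have h2 : CutA2_glue S a b C.g = b (CutA2_gb C) := CutA2_neg S a b (CutA2_gb C)
  rw [h1, h2, h]

private lemma CutA2_t2 {B : CB E} {S : Side B} (C : Cut2 S) (e : {e // e ∈ S.compl.P}) :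
    ((B.cut2 C.compl).t e).1 = Equiv.swap C.f C.g (B.t (Equiv.swap C.f C.g e.1)) := by
  rw [cut2_t]
  show Equiv.swap C.g C.f (B.t (Equiv.swap C.g C.f e.1)) = _
  rw [Equiv.swap_comm]

private lemma CutA2_glue_P {B : CB E} {S : Side B} (C : Cut2 S) {a : {e // e ∈ S.P} → Fin 3}
    {b : {e // e ∈ S.compl.P} → Fin 3} (ha : (B.cut2 C).P a) (hb : (B.cut2 C.compl).P b)
    (h : a (CutA2_fa C) = b (CutA2_gb C)) : B.P (CutA2_glue S a b) := by
  have hsw := CutA2_sw C.f C.g (CutA2_cfg C h)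
  intro e
  constructor
  · by_cases he : e ∈ S.P
    · have h1 := (ha ⟨e, he⟩).1
      have hs : CutA2_glue S a b (B.s e) = a ((B.cut2 C).s ⟨e, he⟩) :=
        CutA2_pos S a b ((B.cut2 C).s ⟨e, he⟩)
      have h0 : CutA2_glue S a b e = a ⟨e, he⟩ := CutA2_pos S a b ⟨e, he⟩
      rw [hs, h0]
      exact h1
    · have he' : e ∈ S.compl.P := Finset.mem_compl.2 he
      have h1 := (hb ⟨e, he'⟩).1
      have hs : CutA2_glue S a b (B.s e) = b ((B.cut2 C.compl).s ⟨e, he'⟩) :=
        CutA2_neg S a b ((B.cut2 C.compl).s ⟨e, he'⟩)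
      have h0 : CutA2_glue S a b e = b ⟨e, he'⟩ := CutA2_neg S a b ⟨e, he'⟩
      rw [hs, h0]
      exact h1
  · have hm := C.swap_mem (Equiv.swap C.f C.g e)
    rw [Equiv.swap_apply_self] at hm
    rw [← hsw e, ← hsw (B.t e)]
    by_cases he : Equiv.swap C.f C.g e ∈ S.P
    · have h1 := (ha ⟨_, he⟩).2
      have ht : CutA2_glue S a b (Equiv.swap C.f C.g (B.t e)) = a ((B.cut2 C).t ⟨_, he⟩) := by
        rw [← CutA2_pos S a b ((B.cut2 C).t ⟨_, he⟩), cut2_t, Equiv.swap_apply_self]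
      have h0 : CutA2_glue S a b (Equiv.swap C.f C.g e) = a ⟨_, he⟩ := CutA2_pos S a b ⟨_, he⟩
      rw [ht, h0]
      exact h1
    · have he' : Equiv.swap C.f C.g e ∈ S.compl.P := Finset.mem_compl.2 he
      have h1 := (hb ⟨_, he'⟩).2
      have ht : CutA2_glue S a b (Equiv.swap C.f C.g (B.t e)) = b ((B.cut2 C.compl).t ⟨_, he'⟩) := by
        rw [← CutA2_neg S a b ((B.cut2 C.compl).t ⟨_, he'⟩), CutA2_t2, Equiv.swap_apply_self]
      have h0 : CutA2_glue S a b (Equiv.swap C.f C.g e) = b ⟨_, he'⟩ := CutA2_neg S a b ⟨_, he'⟩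
      rw [ht, h0]
      exact h1

private lemma CutA2_res1 {B : CB E} {S : Side B} (C : Cut2 S) {c : E → Fin 3} (hc : B.P c) :
    (B.cut2 C).P (fun x => c x.1) := by
  have hsw := CutA2_sw C.f C.g (cut2_col C hc)
  intro x
  refine ⟨(hc x.1).1, ?_⟩
  show c ((B.cut2 C).t x).1 ≠ c x.1
  rw [cut2_t, hsw, ← hsw x.1]
  exact (hc _).2

private lemma CutA2_res2 {B : CB E} {S : Side B} (C : Cut2 S) {c : E → Fin 3} (hc : B.P c) :
    (B.cut2 C.compl).P (fun x => c x.1) := by
  have hsw := CutA2_sw C.f C.g (cut2_col C hc)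
  intro x
  refine ⟨(hc x.1).1, ?_⟩
  show c ((B.cut2 C.compl).t x).1 ≠ c x.1
  rw [CutA2_t2, hsw, ← hsw x.1]
  exact (hc _).2

private lemma CutA2_sum {B : CB E} (S : Side B) (g : E → ZMod 2) :
    ∑ e, g e = (∑ x : {e // e ∈ S.P}, g x.1) + ∑ x : {e // e ∈ S.compl.P}, g x.1 := by
  have h1 : ∑ x : {e // e ∈ S.P}, g x.1 = ∑ e ∈ S.P, g e := Finset.sum_coe_sort S.P g
  have h2 : ∑ x : {e // e ∈ S.compl.P}, g x.1 = ∑ e ∈ S.Pᶜ, g e := Finset.sum_coe_sort S.compl.P g
  rw [h1, h2, Finset.sum_add_sum_compl]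

private lemma CutA2_glue_par {B : CB E} {S : Side B} (C : Cut2 S) {a : {e // e ∈ S.P} → Fin 3}
    {b : {e // e ∈ S.compl.P} → Fin 3} (h : a (CutA2_fa C) = b (CutA2_gb C)) :
    B.par (CutA2_glue S a b) = (B.cut2 C).par a + (B.cut2 C.compl).par b := by
  have hsw := CutA2_sw C.f C.g (CutA2_cfg C h)
  unfold CB.par
  have ht : ∑ e, sg (CutA2_glue S a b (B.t e) - CutA2_glue S a b e) =
      ∑ e, sg (CutA2_glue S a b (Equiv.swap C.f C.g (B.t (Equiv.swap C.f C.g e))) - CutA2_glue S a b e) := by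
    rw [← Equiv.sum_comp (Equiv.swap C.f C.g)
      (fun e => sg (CutA2_glue S a b (B.t e) - CutA2_glue S a b e))]
    refine Finset.sum_congr rfl fun e _ => ?_
    rw [hsw, hsw]
  rw [ht, CutA2_sum S (fun e => sg (CutA2_glue S a b (B.s e) - CutA2_glue S a b e)),
    CutA2_sum S (fun e => sg (CutA2_glue S a b (Equiv.swap C.f C.g (B.t (Equiv.swap C.f C.g e))) -
      CutA2_glue S a b e))]
  have h1 : ∀ x : {e // e ∈ S.P}, sg (CutA2_glue S a b (B.s x.1) - CutA2_glue S a b x.1) =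
      sg (a ((B.cut2 C).s x) - a x) := by
    intro x
    rw [CutA2_pos S a b x, ← CutA2_pos S a b ((B.cut2 C).s x)]
    rfl
  have h2 : ∀ x : {e // e ∈ S.P}, sg (CutA2_glue S a b (Equiv.swap C.f C.g (B.t (Equiv.swap C.f C.g x.1))) -
      CutA2_glue S a b x.1) = sg (a ((B.cut2 C).t x) - a x) := by
    intro x
    rw [CutA2_pos S a b x, ← CutA2_pos S a b ((B.cut2 C).t x), cut2_t]
  have h3 : ∀ x : {e // e ∈ S.compl.P}, sg (CutA2_glue S a b (B.s x.1) - CutA2_glue S a b x.1) =
      sg (b ((B.cut2 C.compl).s x) - b x) := by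
    intro x
    rw [CutA2_neg S a b x, ← CutA2_neg S a b ((B.cut2 C.compl).s x)]
    rfl
  have h4 : ∀ x : {e // e ∈ S.compl.P},
      sg (CutA2_glue S a b (Equiv.swap C.f C.g (B.t (Equiv.swap C.f C.g x.1))) - CutA2_glue S a b x.1) =
      sg (b ((B.cut2 C.compl).t x) - b x) := by
    intro x
    rw [CutA2_neg S a b x, ← CutA2_neg S a b ((B.cut2 C.compl).t x), CutA2_t2]
  rw [Finset.sum_congr rfl (fun x _ => h1 x), Finset.sum_congr rfl (fun x _ => h2 x),
    Finset.sum_congr rfl (fun x _ => h3 x), Finset.sum_congr rfl (fun x _ => h4 x)]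
  ring

theorem cut2_PC (B : CB E) {S : Side B} (C : Cut2 S) (hp : B.PC) : (B.cut2 C).PC := by
  intro a a' ha ha'
  obtain ⟨b, hb⟩ := exists_P (B.cut2 C.compl)
  have key : ∀ a : {e // e ∈ S.P} → Fin 3, (B.cut2 C).P a →
      B.P (CutA2_glue S a (fun e => Equiv.swap (b (CutA2_gb C)) (a (CutA2_fa C)) (b e))) ∧
      B.par (CutA2_glue S a (fun e => Equiv.swap (b (CutA2_gb C)) (a (CutA2_fa C)) (b e))) =
        (B.cut2 C).par a + (B.cut2 C.compl).par b := by
    intro a ha
    have h : a (CutA2_fa C) = Equiv.swap (b (CutA2_gb C)) (a (CutA2_fa C)) (b (CutA2_gb C)) := by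
      rw [Equiv.swap_apply_left]
    refine ⟨CutA2_glue_P C ha (P_perm _ _ hb) h, ?_⟩
    rw [CutA2_glue_par C h, par_perm _ _ hb]
  have h1 := hp _ _ (key a ha).1 (key a' ha').1
  rw [(key a ha).2, (key a' ha').2] at h1
  exact add_right_cancel h1

/-- the last step: a permutation which fixes the colour of the cut edges -/
private lemma CutA2_fix {B : CB E} {S : Side B} {a : {e // e ∈ S.P} → Fin 3}
    {b b' : {e // e ∈ S.compl.P} → Fin 3} (m : Fin 3) (h : ∀ e, b e = m ↔ b' e = m) :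
    Rel (CutA2_glue S a b) (CutA2_glue S a b') := by
  refine ⟨m, fun e => ?_⟩
  unfold CutA2_glue
  split_ifs
  · exact Iff.rfl
  · exact h _

private lemma CutA2_fix' {B : CB E} {S : Side B} {a a' : {e // e ∈ S.P} → Fin 3}
    {b : {e // e ∈ S.compl.P} → Fin 3} (m : Fin 3) (h : ∀ e, a e = m ↔ a' e = m) :
    Rel (CutA2_glue S a b) (CutA2_glue S a' b) := by
  refine ⟨m, fun e => ?_⟩
  unfold CutA2_glue
  split_ifs
  · exact h _
  · exact Iff.rfl

/-- colours: `u`, `v` the old and the new colour of `f`, `w` the colour of `g`, `k` the common class -/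
private lemma CutA2_c1 : ∀ u v k : Fin 3, (u = k ↔ v = k) → ∀ x : Fin 3, x = k ↔ Equiv.swap u v x = k := by
  decide

private lemma CutA2_c2 : ∀ u v w x : Fin 3, Equiv.swap u v (Equiv.swap w u x) = v ↔ Equiv.swap w v x = v := by
  decide

private lemma CutA2_c3 : ∀ u v : Fin 3, ∃ k, ∀ x, x = k ↔ Equiv.swap u v x = k := by
  decide

theorem cut2_Con (B : CB E) {S : Side B} (C : Cut2 S) (h1 : (B.cut2 C).Con) (h2 : (B.cut2 C.compl).Con) : B.Con := by
  intro c c' hc hc'
  have ha := CutA2_res1 C hc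
  have ha' := CutA2_res1 C hc'
  have hb := CutA2_res2 C hc
  have hb' := CutA2_res2 C hc'
  have k1 := h1 _ _ ha ha'
  have k2 := h2 _ _ hb hb'
  -- first half
  have e1 := KE_map B (B.cut2 C) (fun a => CutA2_glue S a (fun e =>
    Equiv.swap (c C.g) (a (CutA2_fa C)) (c e.1))) (by
      rintro a a' ha ha' ⟨k, hk⟩
      have p1 : B.P (CutA2_glue S a (fun e => Equiv.swap (c C.g) (a (CutA2_fa C)) (c e.1))) :=
        CutA2_glue_P C ha (P_perm _ _ hb) (by
          show _ = Equiv.swap (c C.g) (a (CutA2_fa C)) (c C.g)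
          rw [Equiv.swap_apply_left])
      have p2 : B.P (CutA2_glue S a' (fun e => Equiv.swap (a (CutA2_fa C)) (a' (CutA2_fa C))
          (Equiv.swap (c C.g) (a (CutA2_fa C)) (c e.1)))) :=
        CutA2_glue_P C ha' (P_perm _ _ (P_perm _ _ hb)) (by
          show _ = Equiv.swap (a (CutA2_fa C)) (a' (CutA2_fa C))
            (Equiv.swap (c C.g) (a (CutA2_fa C)) (c C.g))
          rw [Equiv.swap_apply_left, Equiv.swap_apply_left])
      have p3 : B.P (CutA2_glue S a' (fun e => Equiv.swap (c C.g) (a' (CutA2_fa C)) (c e.1))) :=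
        CutA2_glue_P C ha' (P_perm _ _ hb) (by
          show _ = Equiv.swap (c C.g) (a' (CutA2_fa C)) (c C.g)
          rw [Equiv.swap_apply_left])
      refine Relation.EqvGen.trans _ _ _ (KE_of_rel B p1 p2 ⟨k, fun e => ?_⟩)
        (KE_of_rel B p2 p3 (CutA2_fix (a' (CutA2_fa C)) fun e => CutA2_c2 _ _ _ _))
      unfold CutA2_glue
      split_ifs with he
      · exact hk _
      · exact CutA2_c1 _ _ _ (hk _) _) _ _ k1
  have e2 := KE_map B (B.cut2 C.compl) (fun b => CutA2_glue S (fun e =>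
    Equiv.swap (c' C.f) (b (CutA2_gb C)) (c' e.1)) b) (by
      rintro b b' hb hb' ⟨k, hk⟩
      have p1 : B.P (CutA2_glue S (fun e => Equiv.swap (c' C.f) (b (CutA2_gb C)) (c' e.1)) b) :=
        CutA2_glue_P C (P_perm _ _ ha') hb (by
          show Equiv.swap (c' C.f) (b (CutA2_gb C)) (c' C.f) = _
          rw [Equiv.swap_apply_left])
      have p2 : B.P (CutA2_glue S (fun e => Equiv.swap (b (CutA2_gb C)) (b' (CutA2_gb C))
          (Equiv.swap (c' C.f) (b (CutA2_gb C)) (c' e.1))) b') :=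
        CutA2_glue_P C (P_perm _ _ (P_perm _ _ ha')) hb' (by
          show Equiv.swap (b (CutA2_gb C)) (b' (CutA2_gb C))
            (Equiv.swap (c' C.f) (b (CutA2_gb C)) (c' C.f)) = _
          rw [Equiv.swap_apply_left, Equiv.swap_apply_left])
      have p3 : B.P (CutA2_glue S (fun e => Equiv.swap (c' C.f) (b' (CutA2_gb C)) (c' e.1)) b') :=
        CutA2_glue_P C (P_perm _ _ ha') hb' (by
          show Equiv.swap (c' C.f) (b' (CutA2_gb C)) (c' C.f) = _
          rw [Equiv.swap_apply_left])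
      refine Relation.EqvGen.trans _ _ _ (KE_of_rel B p1 p2 ⟨k, fun e => ?_⟩)
        (KE_of_rel B p2 p3 (CutA2_fix' (b' (CutA2_gb C)) fun e => CutA2_c2 _ _ _ _))
      unfold CutA2_glue
      split_ifs with he
      · exact CutA2_c1 _ _ _ (hk _) _
      · exact hk _) _ _ k2
  have hcf := cut2_col C hc
  have hcf' := cut2_col C hc'
  have n1 : CutA2_glue S (fun x => c x.1) (fun e => Equiv.swap (c C.g) (c (CutA2_fa C).1) (c e.1)) = c := by
    have : (c (CutA2_fa C).1) = c C.g := hcf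
    rw [this, Equiv.swap_self]
    exact CutA2_res S c
  have n2 : CutA2_glue S (fun e => Equiv.swap (c' C.f) (c' (CutA2_gb C).1) (c' e.1)) (fun x => c' x.1) = c' := by
    have : (c' (CutA2_gb C).1) = c' C.f := hcf'.symm
    rw [this, Equiv.swap_self]
    exact CutA2_res S c'
  have e1' : B.KE c (CutA2_glue S (fun x => c' x.1)
      (fun e => Equiv.swap (c C.g) (c' C.f) (c e.1))) := by
    have := e1
    rw [n1] at this
    exact this
  have e2' : B.KE (CutA2_glue S (fun e => Equiv.swap (c' C.f) (c C.g) (c' e.1)) (fun x => c x.1)) c' := by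
    have := e2
    rw [n2] at this
    exact this
  refine Relation.EqvGen.trans _ _ _ e1' (Relation.EqvGen.trans _ _ _ ?_ e2')
  refine KE_of_rel B (CutA2_glue_P C ha' (P_perm _ _ hb) ?_) (CutA2_glue_P C (P_perm _ _ ha') hb ?_) ?_
  · show c' C.f = Equiv.swap (c C.g) (c' C.f) (c C.g)
    rw [Equiv.swap_apply_left]
  · show Equiv.swap (c' C.f) (c C.g) (c' C.f) = c C.g
    rw [Equiv.swap_apply_left]
  · obtain ⟨k, hk⟩ := CutA2_c3 (c C.g) (c' C.f)
    refine ⟨k, fun e => ?_⟩
    unfold CutA2_glue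
    split_ifs with he
    · rw [Equiv.swap_comm]
      exact hk _
    · exact (hk _).symm

end Pool.Agent.PP
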