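import Pool.Agent.Lib_MP_7c0803_pp.CutA0
import Pool.Agent.Lib_MP_7c0803_pp.Konig

/-!
3-cuts.  `Q ⊆ P`, `P \ Q = {f 0, f 1, f 2}`.  `B1 = B.cut3 C` lives on the edges in `P` (rotations: `B.s`; `B.t` on `Q`, cyclic on the three
edges `f i`), `B2 = B.dual.cut3 C.dualCompl` on the edges not in `Q` (rotations: `s`-rotation of `B2` = `B.t`; `t`-rotation of `B2` = `B.s`
on the edges not in `P`, cyclic on the three edges `f i`).  The three edges `f i` belong to both.
A proper colouring `c` of `B` has three different colours on `f 0, f 1, f 2` (`cut3_col`), so its restrictions are proper for `B1`, `B2`.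
(1) `B.par c = B1.par (c|P) + B2.par (c|Qᶜ)`: the terms of the cyclic exchange of `f 0, f 1, f 2` occur twice (the same sum in `B1` and
    `B2`, `Cut3.cyc` is the same for `C` and `C.dualCompl`), and `x + x = 0` in `ZMod 2`.
(2) Gluing: `a` proper for `B1`, `b` proper for `B2`, `a (f i) = b (f i)` for `i = 0, 1, 2`: `c e = if e ∈ P then a e else b e` is proper for
    `B`.
(3) Any proper colouring of `B1` has three different colours on the `f i` (they form a `t`-orbit), the same for `B2`; so for `a`, `b` there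
    is exactly one permutation `σ` of the colours with `σ (b (f i)) = a (f i)` for all `i`.
(4) `cut3_PC`: as `cut2_PC`: take a proper colouring `b` of `B2` (`exists_P`); `(ai, σi ∘ b)` has parity `B1.par ai + B2.par b`
    (`par_perm`).
(5) `cut3_Con`: Step: `a`, `a1` proper for `B1` share the class `k`, `b` matches `a`: the permutation `σ` with `σ (a (f i)) = a1 (f i)` for
    all `i` fixes `k` (`a (f i) = k` iff `a1 (f i) = k`), `σ ∘ b` matches `a1`, and `(a, b)`, `(a1, σ ∘ b)` share the class `k`.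
    By induction along `B1.KE a a'`: `(a, b) ~ (a', σ ∘ b)` for every `b` matching `a`, with some `σ`; then along `B2.KE`:
    `(a', σ ∘ b) ~ (τ ∘ a', b')` where `τ ∘ a'` and `a'` both match `b'`, so `τ = 1`.
    (For `EqvGen`: state the induction symmetrically or pass to `ReflTransGen` of the symmetric relation.)
-/

set_option autoImplicit false

open Finset Function

namespace Pool.Agent.PP

universe u

variable {E : Type u} [Fintype E] [DecidableEq E]

section
variable {B : CB E} {S : Side B}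

/-- gluing of two colourings -/
private def CutB_glue (C : Cut3 S) (a : {e // e ∈ S.P} → Fin 3) (b : {e // e ∈ S.dualCompl.P} → Fin 3) :
    E → Fin 3 :=
  fun e => if h : e ∈ S.P then a ⟨e, h⟩ else b ⟨e, Finset.mem_compl.2 (fun h' => h (C.sub h'))⟩

/-- the colourings match at the three cut edges -/
private def CutB_M (C : Cut3 S) (a : {e // e ∈ S.P} → Fin 3) (b : {e // e ∈ S.dualCompl.P} → Fin 3) : Prop :=
  ∀ i, a ⟨C.f i, (C.f_mem i).1⟩ = b ⟨C.f i, Finset.mem_compl.2 (C.f_mem i).2⟩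

private lemma CutB_gP (C : Cut3 S) (a : {e // e ∈ S.P} → Fin 3) (b : {e // e ∈ S.dualCompl.P} → Fin 3)
    {e : E} (h : e ∈ S.P) : CutB_glue C a b e = a ⟨e, h⟩ := by
  unfold CutB_glue
  rw [dif_pos h]

private lemma CutB_gQ (C : Cut3 S) {a : {e // e ∈ S.P} → Fin 3} {b : {e // e ∈ S.dualCompl.P} → Fin 3}
    (hM : CutB_M C a b) {e : E} (h : e ∉ S.Q) : CutB_glue C a b e = b ⟨e, Finset.mem_compl.2 h⟩ := by
  by_cases hP : e ∈ S.P
  · rw [CutB_gP C a b hP]
    rcases C.cases hP h with rfl | rfl | rfl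
    · exact hM 0
    · exact hM 1
    · exact hM 2
  · unfold CutB_glue
    rw [dif_neg hP]

private lemma CutB_gN (C : Cut3 S) (a : {e // e ∈ S.P} → Fin 3) (b : {e // e ∈ S.dualCompl.P} → Fin 3)
    {e : E} (h : e ∉ S.P) :
    CutB_glue C a b e = b ⟨e, Finset.mem_compl.2 (fun h' => h (C.sub h'))⟩ := by
  unfold CutB_glue
  rw [dif_neg h]

/-- a glued colouring is proper -/
private lemma CutB_glueP (C : Cut3 S) {a : {e // e ∈ S.P} → Fin 3} {b : {e // e ∈ S.dualCompl.P} → Fin 3}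
    (ha : (B.cut3 C).P a) (hb : (B.dual.cut3 C.dualCompl).P b) (hM : CutB_M C a b) :
    B.P (CutB_glue C a b) := by
  intro e
  constructor
  · by_cases hP : e ∈ S.P
    · have hs : B.s e ∈ S.P := (S.hP e).2 hP
      rw [CutB_gP C a b hP, CutB_gP C a b hs]
      exact (ha ⟨e, hP⟩).1
    · have hs : B.s e ∉ S.P := fun h => hP ((S.hP e).1 h)
      rw [CutB_gN C a b hP, CutB_gN C a b hs]
      have h1 := (hb ⟨e, Finset.mem_compl.2 (fun h' => hP (C.sub h'))⟩).2
      have h2 : ((B.dual.cut3 C.dualCompl).t ⟨e, Finset.mem_compl.2 (fun h' => hP (C.sub h'))⟩) =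
          ⟨B.s e, Finset.mem_compl.2 (fun h' => hs (C.sub h'))⟩ := by
        apply Subtype.ext
        rw [cut3_t]
        exact C.dualCompl.u_mem (Finset.mem_compl.2 hP)
      rw [h2] at h1
      exact h1
  · by_cases hQ : e ∈ S.Q
    · have ht : B.t e ∈ S.Q := (S.hQ e).2 hQ
      rw [CutB_gP C a b (C.sub hQ), CutB_gP C a b (C.sub ht)]
      have h1 := (ha ⟨e, C.sub hQ⟩).2
      have h2 : ((B.cut3 C).t ⟨e, C.sub hQ⟩) = ⟨B.t e, C.sub ht⟩ := by
        apply Subtype.ext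
        rw [cut3_t]
        exact C.u_mem hQ
      rw [h2] at h1
      exact h1
    · have ht : B.t e ∉ S.Q := fun h => hQ ((S.hQ e).1 h)
      rw [CutB_gQ C hM hQ, CutB_gQ C hM ht]
      exact (hb ⟨e, Finset.mem_compl.2 hQ⟩).1

omit [Fintype E] in
/-- three different colours at the cut edges -/
private lemma CutB_inj (C : Cut3 S) {a : {e // e ∈ S.P} → Fin 3} (ha : (B.cut3 C).P a) :
    Function.Injective (fun i : Fin 3 => a ⟨C.f i, (C.f_mem i).1⟩) := by
  have h0 := (ha ⟨C.f 0, (C.f_mem 0).1⟩).2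
  have h1 := (ha ⟨C.f 1, (C.f_mem 1).1⟩).2
  have h2 := (ha ⟨C.f 2, (C.f_mem 2).1⟩).2
  have e0 : (B.cut3 C).t ⟨C.f 0, (C.f_mem 0).1⟩ = ⟨C.f 1, (C.f_mem 1).1⟩ := by
    apply Subtype.ext
    rw [cut3_t]
    show C.u (C.f 0) = C.f 1
    rw [C.u_f (C.f_mem 0).1 (C.f_mem 0).2, C.cyc0]
  have e1 : (B.cut3 C).t ⟨C.f 1, (C.f_mem 1).1⟩ = ⟨C.f 2, (C.f_mem 2).1⟩ := by
    apply Subtype.ext
    rw [cut3_t]
    show C.u (C.f 1) = C.f 2
    rw [C.u_f (C.f_mem 1).1 (C.f_mem 1).2, C.cyc1]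
  have e2 : (B.cut3 C).t ⟨C.f 2, (C.f_mem 2).1⟩ = ⟨C.f 0, (C.f_mem 0).1⟩ := by
    apply Subtype.ext
    rw [cut3_t]
    show C.u (C.f 2) = C.f 0
    rw [C.u_f (C.f_mem 2).1 (C.f_mem 2).2, C.cyc2]
  rw [e0] at h0
  rw [e1] at h1
  rw [e2] at h2
  intro i j hij
  have hij' : a ⟨C.f i, (C.f_mem i).1⟩ = a ⟨C.f j, (C.f_mem j).1⟩ := hij
  fin_cases i <;> fin_cases j
  · rfl
  · exact absurd hij'.symm h0
  · exact absurd hij' h2
  · exact absurd hij' h0
  · rfl
  · exact absurd hij'.symm h1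
  · exact absurd hij'.symm h2
  · exact absurd hij' h1
  · rfl

omit [Fintype E] in
/-- restriction of a proper colouring -/
private lemma CutB_res (C : Cut3 S) {c : E → Fin 3} (hc : B.P c)
    (h3 : c (C.f 0) ≠ c (C.f 1) ∧ c (C.f 0) ≠ c (C.f 2) ∧ c (C.f 1) ≠ c (C.f 2)) :
    (B.cut3 C).P (fun x => c x.1) := by
  rintro ⟨e, he⟩
  constructor
  · exact (hc e).1
  · show c (C.u e) ≠ c e
    by_cases hQ : e ∈ S.Q
    · rw [C.u_mem hQ]
      exact (hc e).2
    · rw [C.u_f he hQ]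
      rcases C.cases he hQ with rfl | rfl | rfl
      · rw [C.cyc0]; exact h3.1.symm
      · rw [C.cyc1]; exact h3.2.2.symm
      · rw [C.cyc2]; exact h3.2.1

omit [Fintype E] in
private lemma CutB_par1 (C : Cut3 S) (c : E → Fin 3) :
    (B.cut3 C).par (fun x => c x.1) = ∑ e ∈ S.P, sg (c (B.s e) - c e) +
      (∑ e ∈ S.P \ S.Q, sg (c (C.cyc e) - c e) + ∑ e ∈ S.Q, sg (c (B.t e) - c e)) := by
  have hsub : S.Q ⊆ S.P := fun e h => C.sub h
  have h1 : ∑ x : {e // e ∈ S.P}, sg (c (((B.cut3 C).s x).1) - c x.1) = ∑ e ∈ S.P, sg (c (B.s e) - c e) :=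
    Finset.sum_coe_sort S.P (fun e => sg (c (B.s e) - c e))
  have h2 : ∑ x : {e // e ∈ S.P}, sg (c (((B.cut3 C).t x).1) - c x.1) = ∑ e ∈ S.P, sg (c (C.u e) - c e) :=
    Finset.sum_coe_sort S.P (fun e => sg (c (C.u e) - c e))
  have h3 : ∑ e ∈ S.P, sg (c (C.u e) - c e) =
      ∑ e ∈ S.P \ S.Q, sg (c (C.cyc e) - c e) + ∑ e ∈ S.Q, sg (c (B.t e) - c e) := by
    rw [← Finset.sum_sdiff hsub]
    congr 1
    · apply Finset.sum_congr rfl
      intro e he
      rw [Finset.mem_sdiff] at he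
      rw [C.u_f he.1 he.2]
    · apply Finset.sum_congr rfl
      intro e he
      rw [C.u_mem he]
  unfold CB.par
  rw [h1, h2, h3]

private lemma CutB_par (C : Cut3 S) (c : E → Fin 3) :
    B.par c = (B.cut3 C).par (fun x => c x.1) + (B.dual.cut3 C.dualCompl).par (fun x => c x.1) := by
  have h1 := CutB_par1 C c
  have h2 := CutB_par1 C.dualCompl c
  have h3 : S.dualCompl.P \ S.dualCompl.Q = S.P \ S.Q := by
    ext e
    simp [Side.dualCompl]
    tauto
  have h4 : C.dualCompl.cyc = C.cyc := rfl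
  rw [h3, h4] at h2
  have h7 : ∑ e ∈ S.dualCompl.P, sg (c (B.dual.s e) - c e) = ∑ e ∈ S.Qᶜ, sg (c (B.t e) - c e) := rfl
  have h8 : ∑ e ∈ S.dualCompl.Q, sg (c (B.dual.t e) - c e) = ∑ e ∈ S.Pᶜ, sg (c (B.s e) - c e) := rfl
  rw [h7, h8] at h2
  rw [h1, h2]
  unfold CB.par
  rw [← Finset.sum_add_sum_compl S.P (fun e => sg (c (B.s e) - c e)),
    ← Finset.sum_add_sum_compl S.Q (fun e => sg (c (B.t e) - c e))]
  generalize ∑ e ∈ S.P, sg (c (B.s e) - c e) = p1
  generalize ∑ e ∈ S.Pᶜ, sg (c (B.s e) - c e) = p2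
  generalize ∑ e ∈ S.Q, sg (c (B.t e) - c e) = q1
  generalize ∑ e ∈ S.Qᶜ, sg (c (B.t e) - c e) = q2
  generalize ∑ e ∈ S.P \ S.Q, sg (c (C.cyc e) - c e) = r
  revert p1 p2 q1 q2 r
  decide

/-- the matching permutation -/
private lemma CutB_perm {x y : Fin 3 → Fin 3} (hx : Function.Injective x) (hy : Function.Injective y) :
    ∃ σ : Equiv.Perm (Fin 3), ∀ i, σ (x i) = y i := by
  have hx' : Function.Bijective x := Finite.injective_iff_bijective.1 hx
  have hy' : Function.Bijective y := Finite.injective_iff_bijective.1 hy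
  refine ⟨(Equiv.ofBijective x hx').symm.trans (Equiv.ofBijective y hy'), fun i => ?_⟩
  have h : (Equiv.ofBijective x hx').symm (x i) = i := by
    rw [Equiv.symm_apply_eq]
    rfl
  rw [Equiv.trans_apply, h]
  rfl

/-- a permutation taking `x` to `y` -/
private noncomputable def CutB_pi (x y : Fin 3 → Fin 3) : Equiv.Perm (Fin 3) := by
  classical
  exact if h : ∃ σ : Equiv.Perm (Fin 3), ∀ i, σ (x i) = y i then h.choose else 1

private lemma CutB_pi_spec {x y : Fin 3 → Fin 3} (hx : Function.Injective x) (hy : Function.Injective y) (i : Fin 3) :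
    CutB_pi x y (x i) = y i := by
  have h := CutB_perm hx hy
  unfold CutB_pi
  rw [dif_pos h]
  exact h.choose_spec i

private lemma CutB_pi_one {x : Fin 3 → Fin 3} (hx : Function.Injective x) (v : Fin 3) : CutB_pi x x v = v := by
  have hx' : Function.Bijective x := Finite.injective_iff_bijective.1 hx
  obtain ⟨i, rfl⟩ := hx'.2 v
  exact CutB_pi_spec hx hx i

private lemma CutB_pi_rel {x y z : Fin 3 → Fin 3} (hx : Function.Injective x) (hy : Function.Injective y)
    (hz : Function.Injective z) {k : Fin 3} (h : ∀ i, y i = k ↔ z i = k) (v : Fin 3) :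
    CutB_pi x y v = k ↔ CutB_pi x z v = k := by
  have hx' : Function.Bijective x := Finite.injective_iff_bijective.1 hx
  obtain ⟨i, rfl⟩ := hx'.2 v
  rw [CutB_pi_spec hx hy, CutB_pi_spec hx hz]
  exact h i

end

theorem cut3_PC (B : CB E) {S : Side B} (C : Cut3 S) (hp : B.PC) : (B.cut3 C).PC := by
  intro a1 a2 h1 h2
  obtain ⟨b, hb⟩ := exists_P (B.dual.cut3 C.dualCompl)
  have ib := CutB_inj C.dualCompl hb
  have i1 := CutB_inj C h1
  have i2 := CutB_inj C h2
  obtain ⟨σ1, hσ1⟩ := CutB_perm ib i1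
  obtain ⟨σ2, hσ2⟩ := CutB_perm ib i2
  have key : ∀ (a : {e // e ∈ S.P} → Fin 3) (ha : (B.cut3 C).P a) (σ : Equiv.Perm (Fin 3)),
      (∀ i, σ (b ⟨C.dualCompl.f i, (C.dualCompl.f_mem i).1⟩) = a ⟨C.f i, (C.f_mem i).1⟩) →
      B.P (CutB_glue C a (fun x => σ (b x))) ∧ B.par (CutB_glue C a (fun x => σ (b x))) =
        (B.cut3 C).par a + (B.dual.cut3 C.dualCompl).par b := by
    intro a ha σ hσ
    have hM : CutB_M C a (fun x => σ (b x)) := fun i => (hσ i).symm
    refine ⟨CutB_glueP C ha (P_perm _ σ hb) hM, ?_⟩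
    rw [CutB_par C]
    congr 1
    · congr 1
      funext x
      exact CutB_gP C _ _ x.2
    · rw [← par_perm _ σ hb]
      congr 1
      funext x
      exact CutB_gQ C hM (Finset.mem_compl.1 x.2)
  obtain ⟨p1, q1⟩ := key a1 h1 σ1 hσ1
  obtain ⟨p2, q2⟩ := key a2 h2 σ2 hσ2
  have h := hp _ _ p1 p2
  rw [q1, q2] at h
  exact add_right_cancel h

theorem cut3_Con (B : CB E) {S : Side B} (C : Cut3 S) (h1 : (B.cut3 C).Con) (h2 : (B.dual.cut3 C.dualCompl).Con) : B.Con := by
  intro c c' hc hc'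
  have h3 := cut3_col C hc
  have h3' := cut3_col C hc'
  have hcd : B.dual.P c := fun e => ⟨(hc e).2, (hc e).1⟩
  have hcd' : B.dual.P c' := fun e => ⟨(hc' e).2, (hc' e).1⟩
  have ha := CutB_res C hc h3
  have ha' := CutB_res C hc' h3'
  have hb := CutB_res C.dualCompl hcd h3
  have hb' := CutB_res C.dualCompl hcd' h3'
  set a : {e // e ∈ S.P} → Fin 3 := fun x => c x.1 with had
  set a' : {e // e ∈ S.P} → Fin 3 := fun x => c' x.1 with had'
  set b : {e // e ∈ S.dualCompl.P} → Fin 3 := fun x => c x.1 with hbd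
  set b' : {e // e ∈ S.dualCompl.P} → Fin 3 := fun x => c' x.1 with hbd'
  have ia' := CutB_inj C ha'
  have ib := CutB_inj C.dualCompl hb
  -- first step
  let r1 : ({e // e ∈ S.P} → Fin 3) → Fin 3 → Fin 3 := fun x i => x ⟨C.f i, (C.f_mem i).1⟩
  let r2 : ({e // e ∈ S.dualCompl.P} → Fin 3) → Fin 3 → Fin 3 := fun x i => x ⟨C.f i, (C.dualCompl.f_mem i).1⟩
  let L1 : ({e // e ∈ S.P} → Fin 3) → (E → Fin 3) := fun x => CutB_glue C x (fun y => CutB_pi (r2 b) (r1 x) (b y))
  have hL1 : ∀ x y, (B.cut3 C).P x → (B.cut3 C).P y → Rel x y → B.KE (L1 x) (L1 y) := by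
    intro x y hx hy hxy
    have ix := CutB_inj C hx
    have iy := CutB_inj C hy
    have mx : CutB_M C x (fun y => CutB_pi (r2 b) (r1 x) (b y)) := fun i => (CutB_pi_spec ib ix i).symm
    have my : CutB_M C y (fun z => CutB_pi (r2 b) (r1 y) (b z)) := fun i => (CutB_pi_spec ib iy i).symm
    apply KE_of_rel _ (CutB_glueP C hx (P_perm _ _ hb) mx) (CutB_glueP C hy (P_perm _ _ hb) my)
    obtain ⟨k, hk⟩ := hxy
    refine ⟨k, fun e => ?_⟩
    by_cases hP : e ∈ S.P
    · rw [CutB_gP C _ _ hP, CutB_gP C _ _ hP]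
      exact hk _
    · rw [CutB_gN C _ _ hP, CutB_gN C _ _ hP]
      exact CutB_pi_rel ib ix iy (fun i => hk _) _
  have k1 := KE_map B (B.cut3 C) L1 hL1 a a' (h1 a a' ha ha')
  -- second step
  set b1 : {e // e ∈ S.dualCompl.P} → Fin 3 := fun y => CutB_pi (r2 b) (r1 a') (b y) with hb1d
  have hb1 : (B.dual.cut3 C.dualCompl).P b1 := P_perm _ _ hb
  have m1 : CutB_M C a' b1 := fun i => (CutB_pi_spec ib ia' i).symm
  let L2 : ({e // e ∈ S.dualCompl.P} → Fin 3) → (E → Fin 3) :=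
    fun y => CutB_glue C (fun x => CutB_pi (r1 a') (r2 y) (a' x)) y
  have hL2 : ∀ x y, (B.dual.cut3 C.dualCompl).P x → (B.dual.cut3 C.dualCompl).P y → Rel x y → B.KE (L2 x) (L2 y) := by
    intro x y hx hy hxy
    have ix := CutB_inj C.dualCompl hx
    have iy := CutB_inj C.dualCompl hy
    have mx : CutB_M C (fun z => CutB_pi (r1 a') (r2 x) (a' z)) x := fun i => CutB_pi_spec ia' ix i
    have my : CutB_M C (fun z => CutB_pi (r1 a') (r2 y) (a' z)) y := fun i => CutB_pi_spec ia' iy i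
    apply KE_of_rel _ (CutB_glueP C (P_perm _ _ ha') hx mx) (CutB_glueP C (P_perm _ _ ha') hy my)
    obtain ⟨k, hk⟩ := hxy
    refine ⟨k, fun e => ?_⟩
    by_cases hP : e ∈ S.P
    · rw [CutB_gP C _ _ hP, CutB_gP C _ _ hP]
      exact CutB_pi_rel ia' ix iy (fun i => hk _) _
    · rw [CutB_gN C _ _ hP, CutB_gN C _ _ hP]
      exact hk _
  have k2 := KE_map B (B.dual.cut3 C.dualCompl) L2 hL2 b1 b' (h2 b1 b' hb1 hb')
  have e1 : L1 a = c := by
    funext e
    by_cases hP : e ∈ S.P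
    · exact CutB_gP C _ _ hP
    · show CutB_glue C _ _ e = c e
      rw [CutB_gN C _ _ hP]
      exact CutB_pi_one ib _
  have e2 : L1 a' = L2 b1 := by
    funext e
    by_cases hP : e ∈ S.P
    · show CutB_glue C _ _ e = CutB_glue C _ _ e
      rw [CutB_gP C _ _ hP, CutB_gP C _ _ hP]
      have h : r2 b1 = r1 a' := by
        funext i
        exact (m1 i).symm
      rw [h]
      exact (CutB_pi_one ia' _).symm
    · show CutB_glue C _ _ e = CutB_glue C _ _ e
      rw [CutB_gN C _ _ hP, CutB_gN C _ _ hP]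
  have e3 : L2 b' = c' := by
    funext e
    by_cases hP : e ∈ S.P
    · show CutB_glue C _ _ e = c' e
      rw [CutB_gP C _ _ hP]
      exact CutB_pi_one ia' _
    · show CutB_glue C _ _ e = c' e
      rw [CutB_gN C _ _ hP]
  rw [e1, e2] at k1
  rw [e3] at k2
  exact Relation.EqvGen.trans _ _ _ k1 k2

end Pool.Agent.PP
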