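import Pool.Agent.Lib_MP_7c0803_pp.TopDefs

/-!
Small edge cuts.  A vertex set of the multigraph `B` is given by an `s`-closed set `P` of edges (the edges with `X`-end in the set) and
a `t`-closed set `Q` (the edges with `Y`-end in the set).  The cut edges are `P \ Q` and `Q \ P`.
-/

set_option autoImplicit false

open Finset Function

namespace Pool.Agent.PP

universe u

variable {E : Type u} [DecidableEq E]

/-- a set of vertices -/
structure Side (B : CB E) where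
  P : Finset E
  Q : Finset E
  hP : ∀ e, B.s e ∈ P ↔ e ∈ P
  hQ : ∀ e, B.t e ∈ Q ↔ e ∈ Q

/-- the complementary set of vertices -/
def Side.compl [Fintype E] {B : CB E} (S : Side B) : Side B where
  P := S.Pᶜ
  Q := S.Qᶜ
  hP := fun e => by rw [Finset.mem_compl, Finset.mem_compl, S.hP]
  hQ := fun e => by rw [Finset.mem_compl, Finset.mem_compl, S.hQ]

/-- number of cut edges -/
def Side.cut {B : CB E} (S : Side B) : ℕ := (S.P \ S.Q).card + (S.Q \ S.P).card

/-- cyclically 4-edge-connected: a vertex set with at most three cut edges has at most one vertex, or its complement has -/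
def CB.Cyc4 [Fintype E] (B : CB E) : Prop :=
  ∀ S : Side B, S.cut ≤ 3 → S.P.card + S.Q.card ≤ 3 ∨ S.compl.P.card + S.compl.Q.card ≤ 3

omit [DecidableEq E] in
/-- exchange the roles of the two sides -/
def CB.dual (B : CB E) : CB E where
  s := B.t
  t := B.s
  s3 := B.t3
  t3 := B.s3
  s1 := B.t1
  t1 := B.s1

lemma Side.compl_eq [Fintype E] {B : CB E} (S : Side B) (h : S.P = S.Q) : S.compl.P = S.compl.Q := by
  simp [Side.compl, h]

/-- no cut edges: restriction to a closed set `P = Q` -/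
def CB.res (B : CB E) (S : Side B) (h : S.P = S.Q) : CB {e // e ∈ S.P} where
  s := B.s.subtypePerm (fun e => S.hP e)
  t := B.t.subtypePerm (fun e => by rw [h]; exact S.hQ e)
  s3 := fun e => Subtype.ext (B.s3 e.1)
  t3 := fun e => Subtype.ext (B.t3 e.1)
  s1 := fun e h' => B.s1 e.1 (congrArg Subtype.val h')
  t1 := fun e h' => B.t1 e.1 (congrArg Subtype.val h')

/-- the cut edges are `f` (with `X`-end in the set) and `g` (with `Y`-end in the set) -/
structure Cut2 {B : CB E} (S : Side B) where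
  f : E
  g : E
  hf : S.P \ S.Q = {f}
  hg : S.Q \ S.P = {g}

lemma Cut2.swap_mem {B : CB E} {S : Side B} (C : Cut2 S) (e : E) : Equiv.swap C.f C.g e ∈ S.Q ↔ e ∈ S.P := by
  have hf1 : C.f ∈ S.P ∧ C.f ∉ S.Q := by
    have : C.f ∈ S.P \ S.Q := by rw [C.hf]; simp
    simpa using this
  have hg1 : C.g ∈ S.Q ∧ C.g ∉ S.P := by
    have : C.g ∈ S.Q \ S.P := by rw [C.hg]; simp
    simpa using this
  rw [Equiv.swap_apply_def]
  split_ifs with h1 h2
  · rw [h1]; exact ⟨fun _ => hf1.1, fun _ => hg1.1⟩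
  · rw [h2]; exact ⟨fun h => absurd h hf1.2, fun h => absurd h hg1.2⟩
  · constructor
    · intro h
      by_contra hP
      have : e ∈ S.Q \ S.P := by simp [h, hP]
      rw [C.hg] at this
      exact h2 (by simpa using this)
    · intro h
      by_contra hQ
      have : e ∈ S.P \ S.Q := by simp [h, hQ]
      rw [C.hf] at this
      exact h1 (by simpa using this)

/-- the same two cut edges, seen from the other side -/
def Cut2.compl [Fintype E] {B : CB E} {S : Side B} (C : Cut2 S) : Cut2 S.compl where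
  f := C.g
  g := C.f
  hf := by
    rw [← C.hg]
    ext e
    simp [Side.compl]
    tauto
  hg := by
    rw [← C.hf]
    ext e
    simp [Side.compl]
    tauto

/-- the side `P` of a 2-cut, closed by joining the `X`-end of `f` and the `Y`-end of `g` (this new edge is called `f`) -/
def CB.cut2 (B : CB E) {S : Side B} (C : Cut2 S) : CB {e // e ∈ S.P} where
  s := B.s.subtypePerm (fun e => S.hP e)
  t := (Equiv.swap C.f C.g * B.t * Equiv.swap C.f C.g : Equiv.Perm E).subtypePerm (fun e => by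
    rw [Equiv.Perm.mul_apply, Equiv.Perm.mul_apply]
    have h1 := C.swap_mem (Equiv.swap C.f C.g (B.t (Equiv.swap C.f C.g e)))
    rw [Equiv.swap_apply_self, S.hQ, C.swap_mem] at h1
    exact h1.symm)
  s3 := fun e => Subtype.ext (B.s3 e.1)
  t3 := fun e => by
    apply Subtype.ext
    simp [Equiv.Perm.subtypePerm_apply, B.t3]
  s1 := fun e h' => B.s1 e.1 (congrArg Subtype.val h')
  t1 := fun e h' => by
    have h1 := congrArg Subtype.val h'
    simp only [Equiv.Perm.subtypePerm_apply, Equiv.Perm.mul_apply] at h1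
    have h2 := congrArg (Equiv.swap C.f C.g) h1
    rw [Equiv.swap_apply_self] at h2
    exact B.t1 _ h2

lemma cut2_s (B : CB E) {S : Side B} (C : Cut2 S) (e : {e // e ∈ S.P}) : ((B.cut2 C).s e).1 = B.s e.1 := rfl

lemma cut2_t (B : CB E) {S : Side B} (C : Cut2 S) (e : {e // e ∈ S.P}) :
    ((B.cut2 C).t e).1 = Equiv.swap C.f C.g (B.t (Equiv.swap C.f C.g e.1)) := rfl

/-- three cut edges `f 0, f 1, f 2` with `X`-ends in the set -/
structure Cut3 {B : CB E} (S : Side B) where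
  f : Fin 3 → E
  inj : Function.Injective f
  hf : S.P \ S.Q = {f 0, f 1, f 2}
  hg : S.Q \ S.P = ∅

/-- cyclic exchange of the three cut edges -/
def Cut3.cyc {B : CB E} {S : Side B} (C : Cut3 S) : Equiv.Perm E :=
  Equiv.swap (C.f 0) (C.f 1) * Equiv.swap (C.f 1) (C.f 2)

lemma Cut3.ne {B : CB E} {S : Side B} (C : Cut3 S) : C.f 0 ≠ C.f 1 ∧ C.f 0 ≠ C.f 2 ∧ C.f 1 ≠ C.f 2 :=
  ⟨fun h => absurd (C.inj h) (by decide), fun h => absurd (C.inj h) (by decide), fun h => absurd (C.inj h) (by decide)⟩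

lemma Cut3.cyc0 {B : CB E} {S : Side B} (C : Cut3 S) : C.cyc (C.f 0) = C.f 1 := by
  obtain ⟨h1, h2, h3⟩ := C.ne
  simp [Cut3.cyc, Equiv.swap_apply_of_ne_of_ne h1 h2]

lemma Cut3.cyc1 {B : CB E} {S : Side B} (C : Cut3 S) : C.cyc (C.f 1) = C.f 2 := by
  obtain ⟨h1, h2, h3⟩ := C.ne
  simp [Cut3.cyc, Equiv.swap_apply_of_ne_of_ne h2.symm h3.symm]

lemma Cut3.cyc2 {B : CB E} {S : Side B} (C : Cut3 S) : C.cyc (C.f 2) = C.f 0 := by
  simp [Cut3.cyc]

lemma Cut3.cyc_other {B : CB E} {S : Side B} (C : Cut3 S) {e : E} (h0 : e ≠ C.f 0) (h1 : e ≠ C.f 1) (h2 : e ≠ C.f 2) :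
    C.cyc e = e := by
  simp [Cut3.cyc, Equiv.swap_apply_of_ne_of_ne h1 h2, Equiv.swap_apply_of_ne_of_ne h0 h1]

lemma Cut3.f_mem {B : CB E} {S : Side B} (C : Cut3 S) (i : Fin 3) : C.f i ∈ S.P ∧ C.f i ∉ S.Q := by
  have : C.f i ∈ S.P \ S.Q := by
    rw [C.hf]
    fin_cases i <;> simp
  simpa using this

lemma Cut3.sub {B : CB E} {S : Side B} (C : Cut3 S) {e : E} (h : e ∈ S.Q) : e ∈ S.P := by
  by_contra hP
  have : e ∈ S.Q \ S.P := by simp [h, hP]
  rw [C.hg] at this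
  simp at this

lemma Cut3.cases {B : CB E} {S : Side B} (C : Cut3 S) {e : E} (h : e ∈ S.P) (h' : e ∉ S.Q) :
    e = C.f 0 ∨ e = C.f 1 ∨ e = C.f 2 := by
  have : e ∈ S.P \ S.Q := by simp [h, h']
  rw [C.hf] at this
  simpa using this

/-- `t` on `Q`, the cyclic exchange on the three cut edges -/
def Cut3.u {B : CB E} {S : Side B} (C : Cut3 S) : Equiv.Perm E :=
  Equiv.Perm.ofSubtype (B.t.subtypePerm (p := fun e => e ∈ S.Q) (fun e => S.hQ e)) * C.cyc

lemma Cut3.u_mem {B : CB E} {S : Side B} (C : Cut3 S) {e : E} (h : e ∈ S.Q) : C.u e = B.t e := by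
  have h0 : e ≠ C.f 0 := fun h' => (C.f_mem 0).2 (h' ▸ h)
  have h1 : e ≠ C.f 1 := fun h' => (C.f_mem 1).2 (h' ▸ h)
  have h2 : e ≠ C.f 2 := fun h' => (C.f_mem 2).2 (h' ▸ h)
  unfold Cut3.u
  rw [Equiv.Perm.mul_apply, C.cyc_other h0 h1 h2, Equiv.Perm.ofSubtype_apply_of_mem _ h]
  rfl

lemma Cut3.u_f {B : CB E} {S : Side B} (C : Cut3 S) {e : E} (h : e ∈ S.P) (h' : e ∉ S.Q) : C.u e = C.cyc e := by
  unfold Cut3.u
  rw [Equiv.Perm.mul_apply]
  apply Equiv.Perm.ofSubtype_apply_of_not_mem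
  rcases C.cases h h' with rfl | rfl | rfl
  · rw [C.cyc0]; exact (C.f_mem 1).2
  · rw [C.cyc1]; exact (C.f_mem 2).2
  · rw [C.cyc2]; exact (C.f_mem 0).2

lemma Cut3.cyc_P {B : CB E} {S : Side B} (C : Cut3 S) {e : E} (h : e ∈ S.P) (h' : e ∉ S.Q) :
    C.cyc e ∈ S.P ∧ C.cyc e ∉ S.Q ∧ C.cyc e ≠ e ∧ C.cyc (C.cyc (C.cyc e)) = e := by
  obtain ⟨h1, h2, h3⟩ := C.ne
  rcases C.cases h h' with rfl | rfl | rfl
  · rw [C.cyc0, C.cyc1, C.cyc2]; exact ⟨(C.f_mem 1).1, (C.f_mem 1).2, h1.symm, rfl⟩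
  · rw [C.cyc1, C.cyc2, C.cyc0]; exact ⟨(C.f_mem 2).1, (C.f_mem 2).2, h3.symm, rfl⟩
  · rw [C.cyc2, C.cyc0, C.cyc1]; exact ⟨(C.f_mem 0).1, (C.f_mem 0).2, h2, rfl⟩

lemma Cut3.u_P0 {B : CB E} {S : Side B} (C : Cut3 S) {e : E} (h : e ∈ S.P) : C.u e ∈ S.P := by
  by_cases h' : e ∈ S.Q
  · rw [C.u_mem h']; exact C.sub ((S.hQ e).2 h')
  · rw [C.u_f h h']; exact (C.cyc_P h h').1

lemma Cut3.u3 {B : CB E} {S : Side B} (C : Cut3 S) {e : E} (h : e ∈ S.P) : C.u (C.u (C.u e)) = e := by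
  by_cases h' : e ∈ S.Q
  · rw [C.u_mem h', C.u_mem ((S.hQ _).2 h'), C.u_mem ((S.hQ _).2 ((S.hQ _).2 h')), B.t3]
  · have h1 := C.cyc_P h h'
    have h2 := C.cyc_P h1.1 h1.2.1
    rw [C.u_f h h', C.u_f h1.1 h1.2.1, C.u_f h2.1 h2.2.1, h1.2.2.2]

lemma Cut3.u_P {B : CB E} {S : Side B} (C : Cut3 S) (e : E) : C.u e ∈ S.P ↔ e ∈ S.P := by
  constructor
  · intro h
    have h1 := C.u_P0 (C.u_P0 h)
    have h2 := C.u3 h
    have h3 : C.u (C.u (C.u e)) = e := C.u.injective h2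
    rwa [h3] at h1
  · exact C.u_P0

/-- the side `P` of a 3-cut, closed by a new `Y`-vertex with the edges `f 0, f 1, f 2` -/
def CB.cut3 (B : CB E) {S : Side B} (C : Cut3 S) : CB {e // e ∈ S.P} where
  s := B.s.subtypePerm (fun e => S.hP e)
  t := C.u.subtypePerm (fun e => C.u_P e)
  s3 := fun e => Subtype.ext (B.s3 e.1)
  t3 := fun e => Subtype.ext (C.u3 e.2)
  s1 := fun e h' => B.s1 e.1 (congrArg Subtype.val h')
  t1 := fun e h' => by
    have h1 : C.u e.1 = e.1 := congrArg Subtype.val h'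
    by_cases h : e.1 ∈ S.Q
    · rw [C.u_mem h] at h1; exact B.t1 _ h1
    · rw [C.u_f e.2 h] at h1; exact (C.cyc_P e.2 h).2.2.1 h1

lemma cut3_s (B : CB E) {S : Side B} (C : Cut3 S) (e : {e // e ∈ S.P}) : ((B.cut3 C).s e).1 = B.s e.1 := rfl

lemma cut3_t (B : CB E) {S : Side B} (C : Cut3 S) (e : {e // e ∈ S.P}) : ((B.cut3 C).t e).1 = C.u e.1 := rfl

/-- the complementary side in the dual multigraph -/
def Side.dualCompl [Fintype E] {B : CB E} (S : Side B) : Side B.dual where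
  P := S.Qᶜ
  Q := S.Pᶜ
  hP := fun e => by rw [Finset.mem_compl, Finset.mem_compl]; exact not_congr (S.hQ e)
  hQ := fun e => by rw [Finset.mem_compl, Finset.mem_compl]; exact not_congr (S.hP e)

/-- the same three cut edges, seen from the other side -/
def Cut3.dualCompl [Fintype E] {B : CB E} {S : Side B} (C : Cut3 S) : Cut3 S.dualCompl where
  f := C.f
  inj := C.inj
  hf := by
    rw [← C.hf]
    ext e
    simp [Side.dualCompl]
    tauto
  hg := by
    rw [← C.hg]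
    ext e
    simp [Side.dualCompl]
    tauto

end Pool.Agent.PP
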