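import Pool.Agent.Lib_MP_7c0803_pp.Defs

set_option autoImplicit false

open Finset Function

namespace Pool.Agent.PP

variable {E : Type*}

private lemma rel_flip0 : ∀ k a x y x' y' : Fin 3, x ≠ y → x' ≠ y' → (x = k ↔ x' = k) → (y = k ↔ y' = k) →
    a ≠ k → x = a → (if y - x = 1 then (1 : ZMod 2) else 0) + (if y' - x' = 1 then (1 : ZMod 2) else 0) =
      if x' = a then 0 else 1 := by
  decide

private lemma half (s : Equiv.Perm E) [Fintype E] (s3 : ∀ e, s (s (s e)) = e) (c c' : E → Fin 3)
    (hc : ∀ e, c (s e) ≠ c e) (hc' : ∀ e, c' (s e) ≠ c' e) (k a : Fin 3) (hk : ∀ e, c e = k ↔ c' e = k)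
    (ha : a ≠ k) : ∑ e, sg (c (s e) - c e) + ∑ e, sg (c' (s e) - c' e) =
      ∑ e, if c e = a then (if c' e = a then (0 : ZMod 2) else 1) else 0 := by
  rw [← Finset.sum_add_distrib]
  rw [sum_class s s3 c hc (fun e => sg (c (s e) - c e) + sg (c' (s e) - c' e)) ?_ a]
  · apply Finset.sum_congr rfl
    intro e _
    by_cases h : c e = a
    · rw [if_pos h, if_pos h]
      exact rel_flip0 k a (c e) (c (s e)) (c' e) (c' (s e)) (hc e).symm (hc' e).symm (hk e) (hk (s e)) ha h
    · rw [if_neg h, if_neg h]
  · intro e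
    have h1 := sg_cyc (c e) (c (s e)) (c (s (s e))) (hc e).symm (hc _).symm
      (by have := hc (s (s e)); rw [s3] at this; exact this.symm)
    have h2 := sg_cyc (c' e) (c' (s e)) (c' (s (s e))) (hc' e).symm (hc' _).symm
      (by have := hc' (s (s e)); rw [s3] at this; exact this.symm)
    rw [h1, h2]

/-- the parity is invariant under recolourings keeping a colour class -/
theorem par_rel [Fintype E] (G : CB E) {c c' : E → Fin 3} (h : G.P c) (h' : G.P c') (hr : Rel c c') :
    G.par c = G.par c' := by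
  obtain ⟨k, hk⟩ := hr
  have hk1 : ∀ k : Fin 3, k + 1 ≠ k := by decide
  have h1 := half G.s G.s3 c c' (fun e => (h e).1) (fun e => (h' e).1) k (k + 1) hk (hk1 k)
  have h2 := half G.t G.t3 c c' (fun e => (h e).2) (fun e => (h' e).2) k (k + 1) hk (hk1 k)
  unfold CB.par
  have key : ∀ a b a' b' x : ZMod 2, a + a' = x → b + b' = x → a + b = a' + b' := by decide
  exact key _ _ _ _ _ h1 h2

/-- the parity is invariant under Kempe equivalence -/
theorem par_KE [Fintype E] (G : CB E) {c c' : E → Fin 3} (h : G.KE c c') : G.par c = G.par c' := by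
  induction h with
  | rel x y h => exact par_rel G h.1 h.2.1 h.2.2
  | refl x => rfl
  | symm x y _ ih => exact ih.symm
  | trans x y z _ _ ih1 ih2 => exact ih1.trans ih2

/-- if all colourings are Kempe equivalent, then the parity is constant -/
theorem Con_PC [Fintype E] (G : CB E) (h : G.Con) : G.PC := fun c c' hc hc' => par_KE G (h c c' hc hc')

end Pool.Agent.PP
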