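import Pool.Agent.Lib_MP_7c0803_pp.FourCycle
import Pool.Agent.Lib_MP_7c0803_pp.Parity

set_option autoImplicit false

open Finset Function

namespace Pool.Agent.PP

open SimpleGraph

universe u

variable {V : Type u}

/-- Rotation system with signature (embedding scheme) of `G`: a cyclic order of the darts (directed edges) starting at every
vertex, and a set of twisted edges. -/
structure Emb (G : SimpleGraph V) where
  rot : Equiv.Perm G.Dart
  rot_fst : ∀ d, (rot d).fst = d.fst
  rot_trans : ∀ d d' : G.Dart, d.fst = d'.fst → ∃ i : ℕ, (rot ^ i) d = d'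
  tw : G.Dart → Bool
  tw_symm : ∀ d, tw d.symm = tw d

namespace Emb

variable {G : SimpleGraph V} (M : Emb G)

/-- Face tracing: a state `(d, o)` is a dart `d` with a local orientation `o` at its start; walk along `d`, change the local
orientation if the edge is twisted, and leave by the next (`o = true`) or the previous (`o = false`) dart of the rotation. -/
def next (a : G.Dart × Bool) : G.Dart × Bool :=
  (if xor a.2 (M.tw a.1) then M.rot a.1.symm else M.rot.symm a.1.symm, xor a.2 (M.tw a.1))

/-- The same side of the same edge, traversed in the other direction. -/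
def back (a : G.Dart × Bool) : G.Dart × Bool := (a.1.symm, !(xor a.2 (M.tw a.1)))

/-- The faces of the embedding. -/
def Face : Type u := Quot (fun a b => M.next a = b ∨ M.back a = b)

/-- The face at the side `o` of the dart `d`. -/
def face (d : G.Dart) (o : Bool) : M.Face := Quot.mk _ (d, o)

/-- The Euler characteristic `|V| - |E| + |F|` is at least one. -/
def ChiPos : Prop := Nat.card G.edgeSet + 1 ≤ Nat.card V + Nat.card M.Face

end Emb

/-- the edge of a dart -/
def de {G : SimpleGraph V} (d : G.Dart) : G.edgeSet := ⟨d.edge, d.edge_mem⟩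

/-- The 3-edge-colouring `c` comes from a 4-colouring `F` of the faces (with the colours `(ZMod 2)²`): for every edge, the two
faces at its two sides have different colours, whose sum is `(1, 0)`, `(0, 1)` or `(1, 1)` according to the colour of the edge. -/
def Emb.FacialCol {G : SimpleGraph V} (M : Emb G) (c : G.lineGraph.Coloring (Fin 3)) : Prop :=
  ∃ F : M.Face → ZMod 2 × ZMod 2, ∀ (d : G.Dart) (o : Bool), F (M.face d o) + F (M.face d !o) = kap (c (de d))

/-- The set of vertices at which exactly one edge has the same colour in `c` and `c'`. -/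
def flips {G : SimpleGraph V} (c c' : G.lineGraph.Coloring (Fin 3)) : Set V :=
  {v | ∃! e : G.edgeSet, v ∈ (e : Sym2 V) ∧ c e = c' e}

section rot
variable {G : SimpleGraph V} (M : Emb G)

lemma card_out (hcub : ∀ v, (G.neighborSet v).ncard = 3) (v : V) : Set.ncard {d : G.Dart | d.fst = v} = 3 := by
  rw [← hcub v, ← Nat.card_coe_set_eq, ← Nat.card_coe_set_eq]
  apply Nat.card_congr
  refine ⟨fun d => ⟨d.1.snd, ?_⟩, fun w => ⟨⟨(v, w.1), w.2⟩, rfl⟩, ?_, ?_⟩
  · have h1 := d.1.adj
    have h2 : d.1.fst = v := d.2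
    rw [h2] at h1
    exact h1
  · rintro ⟨d, rfl⟩
    rfl
  · rintro ⟨w, hw⟩
    rfl

lemma rot_ne (hcub : ∀ v, (G.neighborSet v).ncard = 3) (d : G.Dart) : M.rot d ≠ d := by
  intro h
  have h1 : ∀ i : ℕ, (M.rot ^ i) d = d := by
    intro i
    induction i with
    | zero => rfl
    | succ i ih => rw [pow_succ, Equiv.Perm.mul_apply, h, ih]
  have h2 := card_out hcub d.fst
  have h3 : {d' : G.Dart | d'.fst = d.fst} ⊆ {d} := by
    intro a ha
    obtain ⟨i, hi⟩ := M.rot_trans d a (Eq.symm ha)
    rw [h1] at hi
    exact hi.symm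
  have h4 := Set.ncard_le_ncard h3
  rw [h2, Set.ncard_singleton] at h4
  omega

lemma rot2_ne (hcub : ∀ v, (G.neighborSet v).ncard = 3) (d : G.Dart) : M.rot (M.rot d) ≠ d := by
  intro h
  have h1 : ∀ i : ℕ, (M.rot ^ i) d = d ∨ (M.rot ^ i) d = M.rot d := by
    intro i
    induction i with
    | zero => left; rfl
    | succ i ih =>
      rw [pow_succ', Equiv.Perm.mul_apply]
      rcases ih with ih | ih
      · right; rw [ih]
      · left; rw [ih, h]
  have h2 := card_out hcub d.fst
  have h3 : {d' : G.Dart | d'.fst = d.fst} ⊆ {d, M.rot d} := by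
    intro a ha
    obtain ⟨i, hi⟩ := M.rot_trans d a (Eq.symm ha)
    rcases h1 i with h | h
    · rw [h] at hi; left; exact hi.symm
    · rw [h] at hi; right; exact hi.symm
  have h4 := Set.ncard_le_ncard h3
  have h5 := Set.ncard_insert_le d {M.rot d}
  rw [Set.ncard_singleton] at h5
  rw [h2] at h4
  omega

lemma rot3 (hcub : ∀ v, (G.neighborSet v).ncard = 3) (d : G.Dart) : M.rot (M.rot (M.rot d)) = d := by
  by_contra h
  have h2 := card_out hcub d.fst
  have hfin : Set.Finite {d' : G.Dart | d'.fst = d.fst} := by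
    apply Set.finite_of_ncard_ne_zero
    rw [h2]; decide
  have n1 := rot_ne M hcub
  have n2 := rot2_ne M hcub
  have h3 : ({d, M.rot d, M.rot (M.rot d), M.rot (M.rot (M.rot d))} : Set G.Dart) ⊆
      {d' : G.Dart | d'.fst = d.fst} := by
    intro a ha
    simp only [Set.mem_insert_iff, Set.mem_singleton_iff] at ha
    rcases ha with rfl | rfl | rfl | rfl
    · rfl
    · exact M.rot_fst _
    · exact (M.rot_fst _).trans (M.rot_fst _)
    · exact (M.rot_fst _).trans ((M.rot_fst _).trans (M.rot_fst _))
  have h4 := Set.ncard_le_ncard h3 hfin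
  have i1 : d ∉ ({M.rot d, M.rot (M.rot d), M.rot (M.rot (M.rot d))} : Set G.Dart) := by
    simp only [Set.mem_insert_iff, Set.mem_singleton_iff, not_or]
    exact ⟨(n1 d).symm, (n2 d).symm, fun h' => h h'.symm⟩
  have i2 : M.rot d ∉ ({M.rot (M.rot d), M.rot (M.rot (M.rot d))} : Set G.Dart) := by
    simp only [Set.mem_insert_iff, Set.mem_singleton_iff, not_or]
    exact ⟨(n1 _).symm, (n2 _).symm⟩
  have i3 : M.rot (M.rot d) ∉ ({M.rot (M.rot (M.rot d))} : Set G.Dart) := by
    simp only [Set.mem_singleton_iff]
    exact (n1 _).symm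
  rw [Set.ncard_insert_of_notMem i1, Set.ncard_insert_of_notMem i2, Set.ncard_insert_of_notMem i3,
    Set.ncard_singleton, h2] at h4
  omega

end rot

/-! ## The multigraph on the edge set -/

section toCB
variable {G : SimpleGraph V}

/-- the darts are the edges with a chosen end -/
noncomputable def dartEquiv (κ : G.Coloring Bool) : G.Dart ≃ G.edgeSet × Bool := by
  apply Equiv.ofBijective (fun d : G.Dart => (de d, κ d.fst))
  constructor
  · intro d d' h
    have h1 : d.edge = d'.edge := congrArg (fun p => (p.1 : Sym2 V)) h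
    have h2 : κ d.fst = κ d'.fst := congrArg Prod.snd h
    rcases (SimpleGraph.dart_edge_eq_iff d d').1 h1 with h3 | h3
    · exact h3
    · exfalso
      have h4 := κ.valid d'.adj
      rw [h3] at h2
      exact h4 h2.symm
  · rintro ⟨⟨e, he⟩, b⟩
    induction e using Sym2.ind with
    | _ u v =>
      have huv : G.Adj u v := he
      have h4 := κ.valid huv
      by_cases hb : κ u = b
      · exact ⟨⟨(u, v), huv⟩, Prod.ext rfl hb⟩
      · refine ⟨⟨(v, u), huv.symm⟩, Prod.ext (Subtype.ext Sym2.eq_swap) ?_⟩
        show κ v = b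
        revert h4 hb
        generalize κ u = p
        generalize κ v = q
        revert p q b
        decide

lemma dartEquiv_apply (κ : G.Coloring Bool) (d : G.Dart) : dartEquiv κ d = (de d, κ d.fst) := rfl

lemma de_symm_apply (κ : G.Coloring Bool) (e : G.edgeSet) (b : Bool) : de ((dartEquiv κ).symm (e, b)) = e := by
  have := (dartEquiv κ).apply_symm_apply (e, b)
  rw [dartEquiv_apply] at this
  exact congrArg Prod.fst this

lemma col_symm_apply (κ : G.Coloring Bool) (e : G.edgeSet) (b : Bool) : κ ((dartEquiv κ).symm (e, b)).fst = b := by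
  have := (dartEquiv κ).apply_symm_apply (e, b)
  rw [dartEquiv_apply] at this
  exact congrArg Prod.snd this

/-- rotation on the edges with a chosen end -/
noncomputable def rotE (M : Emb G) (κ : G.Coloring Bool) : Equiv.Perm (G.edgeSet × Bool) :=
  ((dartEquiv κ).symm.trans M.rot).trans (dartEquiv κ)

lemma rotE_apply (M : Emb G) (κ : G.Coloring Bool) (p : G.edgeSet × Bool) :
    rotE M κ p = dartEquiv κ (M.rot ((dartEquiv κ).symm p)) := rfl

lemma rotE_snd (M : Emb G) (κ : G.Coloring Bool) (p : G.edgeSet × Bool) : (rotE M κ p).2 = p.2 := by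
  rw [rotE_apply, dartEquiv_apply]
  show κ (M.rot ((dartEquiv κ).symm p)).fst = p.2
  rw [M.rot_fst]
  exact col_symm_apply κ p.1 p.2

lemma rotE_symm_snd (M : Emb G) (κ : G.Coloring Bool) (p : G.edgeSet × Bool) : ((rotE M κ).symm p).2 = p.2 := by
  have := rotE_snd M κ ((rotE M κ).symm p)
  rw [Equiv.apply_symm_apply] at this
  exact this.symm

/-- rotation at the ends of colour `b`, as a permutation of the edges -/
noncomputable def rotB (M : Emb G) (κ : G.Coloring Bool) (b : Bool) : Equiv.Perm G.edgeSet where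
  toFun e := (rotE M κ (e, b)).1
  invFun e := ((rotE M κ).symm (e, b)).1
  left_inv e := by
    show ((rotE M κ).symm ((rotE M κ (e, b)).1, b)).1 = e
    have h : ((rotE M κ (e, b)).1, b) = rotE M κ (e, b) := Prod.ext rfl (rotE_snd M κ (e, b)).symm
    rw [h, Equiv.symm_apply_apply]
  right_inv e := by
    show (rotE M κ (((rotE M κ).symm (e, b)).1, b)).1 = e
    have h : (((rotE M κ).symm (e, b)).1, b) = (rotE M κ).symm (e, b) :=
      Prod.ext rfl (rotE_symm_snd M κ (e, b)).symm
    rw [h, Equiv.apply_symm_apply]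

lemma rotE_eq (M : Emb G) (κ : G.Coloring Bool) (e : G.edgeSet) (b : Bool) :
    rotE M κ (e, b) = (rotB M κ b e, b) := Prod.ext rfl (rotE_snd M κ (e, b))

lemma rot_symm_dart (M : Emb G) (κ : G.Coloring Bool) (e : G.edgeSet) (b : Bool) :
    M.rot ((dartEquiv κ).symm (e, b)) = (dartEquiv κ).symm (rotB M κ b e, b) := by
  rw [← rotE_eq, rotE_apply, Equiv.symm_apply_apply]

lemma rotB_ne (M : Emb G) (κ : G.Coloring Bool) (hcub : ∀ v, (G.neighborSet v).ncard = 3) (b : Bool) (e : G.edgeSet) :
    rotB M κ b e ≠ e := by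
  intro h
  have h1 := rot_symm_dart M κ e b
  rw [h] at h1
  exact rot_ne M hcub _ h1

lemma rotB3 (M : Emb G) (κ : G.Coloring Bool) (hcub : ∀ v, (G.neighborSet v).ncard = 3) (b : Bool) (e : G.edgeSet) :
    rotB M κ b (rotB M κ b (rotB M κ b e)) = e := by
  have h1 := rot3 M hcub ((dartEquiv κ).symm (e, b))
  rw [rot_symm_dart, rot_symm_dart, rot_symm_dart] at h1
  exact congrArg Prod.fst ((dartEquiv κ).symm.injective h1)

/-- the cubic bipartite graph `G` with a rotation system and a 2-colouring `κ` of its vertices, given on its edge set by the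
rotations at the ends of colour `true` (`X`) and `false` (`Y`) -/
noncomputable def toCB (M : Emb G) (κ : G.Coloring Bool) (hcub : ∀ v, (G.neighborSet v).ncard = 3) : CB G.edgeSet where
  s := rotB M κ true
  t := rotB M κ false
  s3 := rotB3 M κ hcub true
  t3 := rotB3 M κ hcub false
  s1 := rotB_ne M κ hcub true
  t1 := rotB_ne M κ hcub false

/-- the twisted edges -/
noncomputable def twE (M : Emb G) (κ : G.Coloring Bool) (e : G.edgeSet) : Bool := M.tw ((dartEquiv κ).symm (e, true))

lemma twE_eq (M : Emb G) (κ : G.Coloring Bool) (d : G.Dart) : twE M κ (de d) = M.tw d := by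
  unfold twE
  have h1 : (de ((dartEquiv κ).symm (de d, true))) = de d := de_symm_apply κ (de d) true
  have h2 : ((dartEquiv κ).symm (de d, true)).edge = d.edge := congrArg Subtype.val h1
  rcases (SimpleGraph.dart_edge_eq_iff _ _).1 h2 with h3 | h3
  · rw [h3]
  · rw [h3, M.tw_symm]

end toCB

end Pool.Agent.PP
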