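import Pool.Agent.Lib_MP_7c0803_pp.Quad
import Pool.Agent.Lib_MP_7c0803_pp.Graph

set_option autoImplicit false

open Finset Function

namespace Pool.Agent.PP

open SimpleGraph

universe u v

/-- `G` contains a subdivision of `H`: different branch vertices `f w` for the vertices `w` of `H`, and for every edge of `H`
(dart `d`) a path `P d` of `G` between the branch vertices of its ends; the two darts of an edge have paths with the same vertices,
a path contains no other branch vertices, and the paths of two different edges have only branch vertices in common. -/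
def ContainsSubdivision {W : Type v} {V : Type u} (H : SimpleGraph W) (G : SimpleGraph V) : Prop :=
  ∃ (f : W → V) (P : ∀ d : H.Dart, G.Walk (f d.fst) (f d.snd)), Function.Injective f ∧ (∀ d, (P d).IsPath) ∧
    (∀ d x, x ∈ (P d.symm).support ↔ x ∈ (P d).support) ∧
    (∀ d w, f w ∈ (P d).support → w = d.fst ∨ w = d.snd) ∧
    ∀ d d' x, d.edge ≠ d'.edge → x ∈ (P d).support → x ∈ (P d').support → ∃ w, f w = x

/-- a cubic bipartite multigraph `B` on the edge set `E`, realised by paths in `G` (a subdivision of `B` in `G`) -/
structure Mdl {E : Type v} {V : Type u} (B : CB E) (G : SimpleGraph V) where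
  vx : E → V
  vy : E → V
  hx : ∀ e f, vx e = vx f ↔ (f = e ∨ SO B.s e f)
  hy : ∀ e f, vy e = vy f ↔ (f = e ∨ SO B.t e f)
  hxy : ∀ e f, vx e ≠ vy f
  P : ∀ e, G.Walk (vx e) (vy e)
  path : ∀ e, (P e).IsPath
  ix : ∀ e f, vx f ∈ (P e).support → vx f = vx e
  iy : ∀ e f, vy f ∈ (P e).support → vy f = vy e
  disj : ∀ e f x, e ≠ f → x ∈ (P e).support → x ∈ (P f).support → x = vx e ∨ x = vy e

end Pool.Agent.PP
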