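import Pool.Agent.Lib_MP_7c0803_pp.CutA0
import Pool.Agent.Lib_MP_7c0803_pp.TopDefs

/-!
Models (subdivisions in `G`) and edge cuts.

`Far m S x`: the vertex `x` of `G` belongs to the other side: it is on the path of an edge with both ends in the other side, or it is
the end in the other side of a cut edge.  `Reach m S a b`: walk of `G` from `a` to `b` with all vertices in the other side.

* `mdl_dual`: exchange `vx` and `vy`, reverse the paths.
* `mdl_res`: restriction to the edges in `P`.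
* `reach_count`: let `A = {e ∉ Q : Reach (vy f) (vy e)}`, `A' = {e ∉ P : Reach (vy f) (vx e)}`.  `A` is closed under `B.t` (`vy (t e) = vy e` by
  `m.hy`) and `A'` under `B.s`, so `3 ∣ |A|`, `3 ∣ |A'|` (they form a `Side B`: use `cut_mod` for `S' = ⟨A', A, _, _⟩`).  For `e ∉ P ∪ Q`: `e ∈ A`
  iff `e ∈ A'` (the path of `e`).  So `A \ A'` = the cut edges `e ∈ P \ Q` with `Reach (vy f) (vy e)` and `A' \ A` = the cut edges
  `e ∈ Q \ P` with `Reach (vy f) (vx e)`, and `cut_mod` is the statement.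
* `reach2`: `P \ Q = {f}`, `Q \ P = {g}` and `Reach (vy f) (vy f)`, so the number of `e ∈ Q \ P` with `Reach (vy f) (vx e)` is `1` mod 3.
* `reach3`: `Q \ P = ∅`, so the number of `e ∈ P \ Q` with `Reach (vy f) (vy e)` is `0` mod 3 and not `0`: all three.
-/

set_option autoImplicit false

open Finset Function

namespace Pool.Agent.PP

open SimpleGraph

universe u v

variable {E : Type v} [Fintype E] [DecidableEq E] {V : Type u} {G : SimpleGraph V}

/-- vertices of `G` in the other side -/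
def Far {B : CB E} (m : Mdl B G) (S : Side B) (x : V) : Prop :=
  (∃ e, e ∉ S.P ∧ e ∉ S.Q ∧ x ∈ (m.P e).support) ∨ (∃ e, e ∈ S.P ∧ e ∉ S.Q ∧ x = m.vy e) ∨
    ∃ e, e ∈ S.Q ∧ e ∉ S.P ∧ x = m.vx e

/-- connected inside the other side -/
def Reach {B : CB E} (m : Mdl B G) (S : Side B) (a b : V) : Prop := ∃ w : G.Walk a b, ∀ x ∈ w.support, Far m S x

omit [Fintype E] [DecidableEq E] in
theorem mdl_dual {B : CB E} (m : Mdl B G) : Nonempty (Mdl B.dual G) := by
  refine ⟨⟨m.vy, m.vx, m.hy, m.hx, fun e f => (m.hxy f e).symm, fun e => (m.P e).reverse,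
    fun e => (m.path e).reverse, ?_, ?_, ?_⟩⟩
  · intro e f h
    rw [SimpleGraph.Walk.support_reverse, List.mem_reverse] at h
    exact m.iy e f h
  · intro e f h
    rw [SimpleGraph.Walk.support_reverse, List.mem_reverse] at h
    exact m.ix e f h
  · intro e f x hef h h'
    rw [SimpleGraph.Walk.support_reverse, List.mem_reverse] at h h'
    exact (m.disj e f x hef h h').symm

omit [Fintype E] in
theorem mdl_res {B : CB E} (m : Mdl B G) (S : Side B) (h : S.P = S.Q) : Nonempty (Mdl (B.res S h) G) := by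
  refine ⟨⟨fun e => m.vx e.1, fun e => m.vy e.1, ?_, ?_, fun e f => m.hxy e.1 f.1,
    fun e => m.P e.1, fun e => m.path e.1, fun e f => m.ix e.1 f.1, fun e f => m.iy e.1 f.1, ?_⟩⟩
  · intro e f
    rw [m.hx e.1 f.1]
    unfold SO
    rw [Subtype.ext_iff, Subtype.ext_iff, Subtype.ext_iff]
    rfl
  · intro e f
    rw [m.hy e.1 f.1]
    unfold SO
    rw [Subtype.ext_iff, Subtype.ext_iff, Subtype.ext_iff]
    rfl
  · intro e f x hef
    exact m.disj e.1 f.1 x (fun h' => hef (Subtype.ext h'))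

omit [Fintype E] [DecidableEq E] in
private lemma CutM1_trans [DecidableEq E] {B : CB E} {m : Mdl B G} {S : Side B} {a b c : V}
    (h : Reach m S a b) (h' : Reach m S b c) : Reach m S a c := by
  obtain ⟨w, hw⟩ := h
  obtain ⟨w', hw'⟩ := h'
  refine ⟨w.append w', fun x hx => ?_⟩
  rw [SimpleGraph.Walk.mem_support_append_iff] at hx
  exact hx.elim (hw x) (hw' x)

omit [Fintype E] [DecidableEq E] in
private lemma CutM1_symm [DecidableEq E] {B : CB E} {m : Mdl B G} {S : Side B} {a b : V}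
    (h : Reach m S a b) : Reach m S b a := by
  obtain ⟨w, hw⟩ := h
  refine ⟨w.reverse, fun x hx => ?_⟩
  rw [SimpleGraph.Walk.support_reverse, List.mem_reverse] at hx
  exact hw x hx

omit [Fintype E] [DecidableEq E] in
private lemma CutM1_path [DecidableEq E] {B : CB E} {m : Mdl B G} {S : Side B} {e : E}
    (hP : e ∉ S.P) (hQ : e ∉ S.Q) : Reach m S (m.vx e) (m.vy e) :=
  ⟨m.P e, fun _ hx => Or.inl ⟨e, hP, hQ, hx⟩⟩

omit [Fintype E] [DecidableEq E] in
private lemma CutM1_refl [DecidableEq E] {B : CB E} {m : Mdl B G} {S : Side B} {e : E}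
    (he : e ∈ S.P \ S.Q) : Reach m S (m.vy e) (m.vy e) := by
  rw [Finset.mem_sdiff] at he
  refine ⟨SimpleGraph.Walk.nil, fun x hx => ?_⟩
  rw [SimpleGraph.Walk.support_nil, List.mem_singleton] at hx
  exact Or.inr (Or.inl ⟨e, he.1, he.2, hx⟩)

theorem reach_count {B : CB E} (m : Mdl B G) (S : Side B) (f : E) (hf : f ∈ S.P \ S.Q) (A A' : Finset E)
    (hA : ∀ e, e ∈ A ↔ (e ∈ S.P \ S.Q ∧ Reach m S (m.vy f) (m.vy e)))
    (hA' : ∀ e, e ∈ A' ↔ (e ∈ S.Q \ S.P ∧ Reach m S (m.vy f) (m.vx e))) : A.card % 3 = A'.card % 3 := by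
  classical
  have _ := hf
  have hvx : ∀ e, m.vx (B.s e) = m.vx e := fun e => ((m.hx e (B.s e)).2 (Or.inr (Or.inl rfl))).symm
  have hvy : ∀ e, m.vy (B.t e) = m.vy e := fun e => ((m.hy e (B.t e)).2 (Or.inr (Or.inl rfl))).symm
  let S' : Side B :=
    { P := univ.filter fun e => e ∉ S.P ∧ Reach m S (m.vy f) (m.vx e)
      Q := univ.filter fun e => e ∉ S.Q ∧ Reach m S (m.vy f) (m.vy e)
      hP := fun e => by
        rw [Finset.mem_filter, Finset.mem_filter, S.hP, hvx]
        simp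
      hQ := fun e => by
        rw [Finset.mem_filter, Finset.mem_filter, S.hQ, hvy]
        simp }
  have h1 : S'.Q \ S'.P = A := by
    ext e
    rw [hA, Finset.mem_sdiff, Finset.mem_sdiff]
    show (e ∈ (univ.filter fun e => e ∉ S.Q ∧ Reach m S (m.vy f) (m.vy e)) ∧
      e ∉ (univ.filter fun e => e ∉ S.P ∧ Reach m S (m.vy f) (m.vx e))) ↔ _
    rw [Finset.mem_filter, Finset.mem_filter]
    constructor
    · rintro ⟨⟨_, hQ, hR⟩, hn⟩
      refine ⟨⟨?_, hQ⟩, hR⟩
      by_contra hP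
      exact hn ⟨Finset.mem_univ _, hP, CutM1_trans hR (CutM1_symm (CutM1_path hP hQ))⟩
    · rintro ⟨⟨hP, hQ⟩, hR⟩
      exact ⟨⟨Finset.mem_univ _, hQ, hR⟩, fun hn => hn.2.1 hP⟩
  have h2 : S'.P \ S'.Q = A' := by
    ext e
    rw [hA', Finset.mem_sdiff, Finset.mem_sdiff]
    show (e ∈ (univ.filter fun e => e ∉ S.P ∧ Reach m S (m.vy f) (m.vx e)) ∧
      e ∉ (univ.filter fun e => e ∉ S.Q ∧ Reach m S (m.vy f) (m.vy e))) ↔ _
    rw [Finset.mem_filter, Finset.mem_filter]
    constructor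
    · rintro ⟨⟨_, hP, hR⟩, hn⟩
      refine ⟨⟨?_, hP⟩, hR⟩
      by_contra hQ
      exact hn ⟨Finset.mem_univ _, hQ, CutM1_trans hR (CutM1_path hP hQ)⟩
    · rintro ⟨⟨hQ, hP⟩, hR⟩
      exact ⟨⟨Finset.mem_univ _, hP, hR⟩, fun hn => hn.2.1 hQ⟩
  rw [← h1, ← h2]
  exact (cut_mod S').symm

theorem reach2 {B : CB E} (m : Mdl B G) {S : Side B} (C : Cut2 S) : Reach m S (m.vy C.f) (m.vx C.g) := by
  classical
  have hf : C.f ∈ S.P \ S.Q := by rw [C.hf]; exact Finset.mem_singleton_self _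
  have h1 := reach_count m S C.f hf
    ((S.P \ S.Q).filter fun e => Reach m S (m.vy C.f) (m.vy e))
    ((S.Q \ S.P).filter fun e => Reach m S (m.vy C.f) (m.vx e))
    (fun e => Finset.mem_filter) (fun e => Finset.mem_filter)
  have h2 : ((S.P \ S.Q).filter fun e => Reach m S (m.vy C.f) (m.vy e)) = {C.f} := by
    rw [C.hf, Finset.filter_singleton, if_pos (CutM1_refl hf)]
  rw [h2, Finset.card_singleton] at h1
  have h3 : ((S.Q \ S.P).filter fun e => Reach m S (m.vy C.f) (m.vx e)).Nonempty := by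
    rw [← Finset.card_pos]
    omega
  obtain ⟨e, he⟩ := h3
  rw [Finset.mem_filter, C.hg, Finset.mem_singleton] at he
  obtain ⟨rfl, he⟩ := he
  exact he

theorem reach3 {B : CB E} (m : Mdl B G) {S : Side B} (C : Cut3 S) (i j : Fin 3) :
    Reach m S (m.vy (C.f i)) (m.vy (C.f j)) := by
  classical
  have hmem : ∀ l, C.f l ∈ S.P \ S.Q := fun l => by
    rw [Finset.mem_sdiff]
    exact C.f_mem l
  have h1 := reach_count m S (C.f i) (hmem i)
    ((S.P \ S.Q).filter fun e => Reach m S (m.vy (C.f i)) (m.vy e)) ∅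
    (fun e => Finset.mem_filter) (fun e => by rw [C.hg]; simp)
  have hcard : (S.P \ S.Q).card = 3 := by
    obtain ⟨n1, n2, n3⟩ := C.ne
    rw [C.hf]
    exact Finset.card_eq_three.2 ⟨_, _, _, n1, n2, n3, rfl⟩
  have h2 : ((S.P \ S.Q).filter fun e => Reach m S (m.vy (C.f i)) (m.vy e)).card ≤ 3 := by
    rw [← hcard]
    exact Finset.card_filter_le _ _
  have h3 : 0 < ((S.P \ S.Q).filter fun e => Reach m S (m.vy (C.f i)) (m.vy e)).card :=
    Finset.card_pos.2 ⟨C.f i, Finset.mem_filter.2 ⟨hmem i, CutM1_refl (hmem i)⟩⟩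
  rw [Finset.card_empty] at h1
  have h4 : (S.P \ S.Q).filter (fun e => Reach m S (m.vy (C.f i)) (m.vy e)) = S.P \ S.Q :=
    Finset.eq_of_subset_of_card_le (Finset.filter_subset _ _) (by rw [hcard]; omega)
  have h5 := hmem j
  rw [← h4, Finset.mem_filter] at h5
  exact h5.2

end Pool.Agent.PP
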