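import Pool.Agent.Lib_MP_7c0803_pp.CutM1

/-!
`mdl_cut2`: the model of `B.cut2 C`.  Write `f = C.f` (`X`-end in the set `S`, `Y`-end on the other side) and `g = C.g` (`Y`-end in `S`, `X`-end
on the other side).  `vx' e = vx e`; `vy' e = vy e` for `e ≠ f`, `vy' f = vy g`.  `P' e = P e` for `e ≠ f`; `P' f` is a path inside
`P f ∪ (a walk from vy f to vx g in the other side) ∪ P g` (`reach2`, then `Walk.bypass` of the composed walk; all properties only need
that the support of `P' f` is contained in this union).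
Disjointness: a vertex `x` with `Far m S x` on the path `P e` of an edge `e ∈ P`: for `e ∈ P ∩ Q` impossible; for `e = f` only `x = vy f`.
(A common vertex of `P e` and `P e'`, `e ≠ e'`, is a branch vertex of both by `disj` (use it for `e, e'` and `e', e`); a vertex `vx e` with
`e ∈ P` is not `vx e'` with `e' ∉ P`, since `P` is closed under `s`; the same for `vy` and `Q`; `vx ≠ vy` by `hxy`.)
In the same way `P g` meets `P e`, `e ∈ P ∩ Q`, only in `vy g = vy e`, and `vy f`, `vx g` are not on these paths.
`hy` for `B.cut2 C`: `vy' e = vy (sw e)` with `sw = Equiv.swap f g` (for `e ∈ P`), and `t' = sw t sw`.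
`SO` is defined in `Quad.lean` (`SO s e f`: `f = s e` or `f = s (s e)`); look at `TopA.lean` for the same kind of construction (`mdl_Dg`).
-/

set_option autoImplicit false

open Finset Function

namespace Pool.Agent.PP

open SimpleGraph

universe u v

variable {E : Type v} [Fintype E] [DecidableEq E] {V : Type u} {G : SimpleGraph V}

omit [Fintype E] [DecidableEq E] in
private lemma CutM2_memP {B : CB E} (m : Mdl B G) (S : Side B) {a b : E} (h : m.vx a = m.vx b) :
    a ∈ S.P ↔ b ∈ S.P := by
  rcases (m.hx a b).1 h with rfl | rfl | rfl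
  · exact Iff.rfl
  · exact (S.hP a).symm
  · rw [S.hP, S.hP]

omit [Fintype E] [DecidableEq E] in
private lemma CutM2_memQ {B : CB E} (m : Mdl B G) (S : Side B) {a b : E} (h : m.vy a = m.vy b) :
    a ∈ S.Q ↔ b ∈ S.Q := by
  rcases (m.hy a b).1 h with rfl | rfl | rfl
  · exact Iff.rfl
  · exact (S.hQ a).symm
  · rw [S.hQ, S.hQ]

omit [Fintype E] [DecidableEq E] in
/-- a vertex of the path of an edge with both ends in the set is not in the other side -/
private lemma CutM2_far {B : CB E} (m : Mdl B G) (S : Side B) {e : E} (hP : e ∈ S.P) (hQ : e ∈ S.Q) {x : V}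
    (hx : x ∈ (m.P e).support) (hF : Far m S x) : False := by
  rcases hF with ⟨a, haP, haQ, hxa⟩ | ⟨a, haP, haQ, rfl⟩ | ⟨a, haQ, haP, rfl⟩
  · have hne : e ≠ a := fun h => haP (h ▸ hP)
    rcases m.disj e a x hne hx hxa with h1 | h1
    · rcases m.disj a e x hne.symm hxa hx with h2 | h2
      · exact haP ((CutM2_memP m S (h1.symm.trans h2)).1 hP)
      · exact m.hxy e a (h1.symm.trans h2)
    · rcases m.disj a e x hne.symm hxa hx with h2 | h2
      · exact m.hxy a e (h2.symm.trans h1)
      · exact haQ ((CutM2_memQ m S (h1.symm.trans h2)).1 hQ)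
  · exact haQ ((CutM2_memQ m S (m.iy _ _ hx)).2 hQ)
  · exact haP ((CutM2_memP m S (m.ix _ _ hx)).2 hP)

theorem mdl_cut2 {B : CB E} (m : Mdl B G) {S : Side B} (C : Cut2 S) : Nonempty (Mdl (B.cut2 C) G) := by
  classical
  obtain ⟨w, hw⟩ := reach2 m C
  have hfPQ : C.f ∈ S.P ∧ C.f ∉ S.Q := by
    have : C.f ∈ S.P \ S.Q := by rw [C.hf]; simp
    simpa using this
  have hgPQ : C.g ∈ S.Q ∧ C.g ∉ S.P := by
    have : C.g ∈ S.Q \ S.P := by rw [C.hg]; simp
    simpa using this
  have hPQ : ∀ e, e ∈ S.P → e ≠ C.f → e ∈ S.Q := by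
    intro e h1 h2
    by_contra h3
    have : e ∈ S.P \ S.Q := by simp [h1, h3]
    rw [C.hf] at this
    exact h2 (by simpa using this)
  have hswf : Equiv.swap C.f C.g C.f = C.g := Equiv.swap_apply_left _ _
  have hsw : ∀ e, e ∈ S.P → e ≠ C.f → Equiv.swap C.f C.g e = e := fun e h1 h2 =>
    Equiv.swap_apply_of_ne_of_ne h2 (fun h => hgPQ.2 (h ▸ h1))
  have hswQ : ∀ e, e ∈ S.P → Equiv.swap C.f C.g e ∈ S.Q := fun e h => (C.swap_mem e).2 h
  -- the walks
  let W : ∀ e : E, e ∈ S.P → G.Walk (m.vx e) (m.vy (Equiv.swap C.f C.g e)) := fun e he =>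
    if h : e = C.f then
      (((m.P C.f).append w).append (m.P C.g)).copy (by rw [h]) (by rw [h, hswf])
    else (m.P e).copy rfl (by rw [hsw e he h])
  have hW : ∀ e he x, x ∈ (W e he).support →
      x ∈ (m.P e).support ∨ (e = C.f ∧ (x ∈ (m.P C.g).support ∨ Far m S x)) := by
    intro e he x hx
    by_cases h : e = C.f
    · simp only [W, dif_pos h] at hx
      rw [SimpleGraph.Walk.support_copy, SimpleGraph.Walk.mem_support_append_iff,
        SimpleGraph.Walk.mem_support_append_iff] at hx
      rcases hx with (hx | hx) | hx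
      · left; rw [h]; exact hx
      · right; exact ⟨h, Or.inr (hw x hx)⟩
      · right; exact ⟨h, Or.inl hx⟩
    · simp only [W, dif_neg h] at hx
      rw [SimpleGraph.Walk.support_copy] at hx
      exact Or.inl hx
  have hsup : ∀ e he x, x ∈ (W e he).bypass.support →
      x ∈ (m.P e).support ∨ (e = C.f ∧ (x ∈ (m.P C.g).support ∨ Far m S x)) :=
    fun e he x hx => hW e he x ((W e he).support_bypass_subset_support hx)
  -- a vertex common to two paths
  have key : ∀ a b x, a ≠ b → x ∈ (m.P a).support → x ∈ (m.P b).support →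
      (x = m.vx a ∧ (a ∈ S.P ↔ b ∈ S.P)) ∨ (x = m.vy a ∧ x = m.vy b ∧ (a ∈ S.Q ↔ b ∈ S.Q)) := by
    intro a b x hab hxa hxb
    rcases m.disj a b x hab hxa hxb with h1 | h1
    · rcases m.disj b a x hab.symm hxb hxa with h2 | h2
      · exact Or.inl ⟨h1, CutM2_memP m S (h1.symm.trans h2)⟩
      · exact (m.hxy a b (h1.symm.trans h2)).elim
    · rcases m.disj b a x hab.symm hxb hxa with h2 | h2
      · exact (m.hxy b a (h2.symm.trans h1)).elim
      · exact Or.inr ⟨h1, h2, CutM2_memQ m S (h1.symm.trans h2)⟩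
  exact ⟨{
    vx := fun e => m.vx e.1
    vy := fun e => m.vy (Equiv.swap C.f C.g e.1)
    hx := by
      rintro ⟨e, he⟩ ⟨f, hf⟩
      show m.vx e = m.vx f ↔ _
      rw [m.hx]
      constructor
      · rintro (h | h | h)
        · exact Or.inl (Subtype.ext h)
        · exact Or.inr (Or.inl (Subtype.ext h))
        · exact Or.inr (Or.inr (Subtype.ext h))
      · rintro (h | h | h)
        · exact Or.inl (congrArg Subtype.val h)
        · exact Or.inr (Or.inl (congrArg Subtype.val h))
        · exact Or.inr (Or.inr (congrArg Subtype.val h))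
    hy := by
      rintro ⟨e, he⟩ ⟨f, hf⟩
      show m.vy (Equiv.swap C.f C.g e) = m.vy (Equiv.swap C.f C.g f) ↔ _
      rw [m.hy]
      constructor
      · rintro (h | h | h)
        · exact Or.inl (Subtype.ext ((Equiv.swap C.f C.g).injective h))
        · refine Or.inr (Or.inl (Subtype.ext ?_))
          rw [cut2_t]
          show f = _
          rw [← h, Equiv.swap_apply_self]
        · refine Or.inr (Or.inr (Subtype.ext ?_))
          rw [cut2_t, cut2_t]
          show f = _
          rw [Equiv.swap_apply_self, ← h, Equiv.swap_apply_self]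
      · rintro (h | h | h)
        · exact Or.inl (by rw [show f = e from congrArg Subtype.val h])
        · refine Or.inr (Or.inl ?_)
          have h3 : f = Equiv.swap C.f C.g (B.t (Equiv.swap C.f C.g e)) := congrArg Subtype.val h
          rw [h3, Equiv.swap_apply_self]
        · refine Or.inr (Or.inr ?_)
          have h3 : f = Equiv.swap C.f C.g (B.t (Equiv.swap C.f C.g
            (Equiv.swap C.f C.g (B.t (Equiv.swap C.f C.g e))))) := congrArg Subtype.val h
          rw [h3, Equiv.swap_apply_self, Equiv.swap_apply_self]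
    hxy := fun e f => m.hxy _ _
    P := fun e => (W e.1 e.2).bypass
    path := fun e => (W e.1 e.2).bypass_isPath
    ix := by
      rintro ⟨e, he⟩ ⟨f, hf⟩ h
      show m.vx f = m.vx e
      rcases hsup e he _ h with h1 | ⟨_, h1 | h1⟩
      · exact m.ix _ _ h1
      · exact (hgPQ.2 ((CutM2_memP m S (m.ix _ _ h1)).1 hf)).elim
      · exfalso
        rcases h1 with ⟨a, haP, haQ, hxa⟩ | ⟨a, haP, haQ, hxa⟩ | ⟨a, haQ, haP, hxa⟩
        · exact haP ((CutM2_memP m S (m.ix _ _ hxa)).1 hf)
        · exact m.hxy _ _ hxa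
        · exact haP ((CutM2_memP m S hxa).1 hf)
    iy := by
      rintro ⟨e, he⟩ ⟨f, hf⟩ h
      show m.vy (Equiv.swap C.f C.g f) = m.vy (Equiv.swap C.f C.g e)
      have hfQ := hswQ f hf
      rcases hsup e he _ h with h1 | ⟨h0, h1 | h1⟩
      · have h2 := m.iy _ _ h1
        by_cases h3 : e = C.f
        · exfalso
          rw [h3] at h2
          exact hfPQ.2 ((CutM2_memQ m S h2).1 hfQ)
        · rw [hsw e he h3]
          exact h2
      · rw [h0, hswf]
        exact m.iy _ _ h1
      · exfalso
        rcases h1 with ⟨a, haP, haQ, hxa⟩ | ⟨a, haP, haQ, hxa⟩ | ⟨a, haQ, haP, hxa⟩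
        · exact haQ ((CutM2_memQ m S (m.iy _ _ hxa)).1 hfQ)
        · exact haQ ((CutM2_memQ m S hxa).1 hfQ)
        · exact m.hxy _ _ hxa.symm
    disj := by
      rintro ⟨e, he⟩ ⟨f, hf⟩ x hef hx hx'
      have hne : e ≠ f := fun h => hef (Subtype.ext h)
      show x = m.vx e ∨ x = m.vy (Equiv.swap C.f C.g e)
      rcases hsup e he _ hx with h1 | ⟨h0, h1⟩
      · rcases hsup f hf _ hx' with h2 | ⟨h0', h2⟩
        · rcases key e f x hne h1 h2 with ⟨h3, _⟩ | ⟨h3, _, h4⟩
          · exact Or.inl h3
          · by_cases h5 : e = C.f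
            · exfalso
              have h6 : f ≠ C.f := fun h => hne (h5.trans h.symm)
              rw [h5] at h4
              exact hfPQ.2 (h4.2 (hPQ f hf h6))
            · right
              rw [hsw e he h5]
              exact h3
        · have h5 : e ≠ C.f := fun h => hne (h.trans h0'.symm)
          rcases h2 with h2 | h2
          · have h6 : e ≠ C.g := fun h => hgPQ.2 (h ▸ he)
            rcases key e C.g x h6 h1 h2 with ⟨h3, h4⟩ | ⟨h3, _, h4⟩
            · exact (hgPQ.2 (h4.1 he)).elim
            · right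
              rw [hsw e he h5]
              exact h3
          · exact (CutM2_far m S he (hPQ e he h5) h1 h2).elim
      · have h5 : f ≠ C.f := fun h => hne (h0.trans h.symm)
        rcases hsup f hf _ hx' with h2 | ⟨h0', _⟩
        · rcases h1 with h1 | h1
          · have h6 : C.g ≠ f := fun h => hgPQ.2 (h ▸ hf)
            rcases key C.g f x h6 h1 h2 with ⟨h3, h4⟩ | ⟨h3, _, h4⟩
            · exact (hgPQ.2 (h4.2 hf)).elim
            · right
              rw [h0, hswf]
              exact h3
          · exact (CutM2_far m S hf (hPQ f hf h5) h2 h1).elim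
        · exact (h5 h0').elim }⟩

end Pool.Agent.PP
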