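import Pool.Agent.Lib_MP_7c0803_pp.CutM1

/-!
`tripod`: three vertices which are connected by walks inside a set `U` of vertices can be joined to one vertex `z ∈ U` by three paths
inside `U` which have only `z` in common.  Proof: take a path `p` from `a 0` to `a 1` inside `U` and a walk `q` from `a 2` to `a 0` inside
`U`; let `z` be the first vertex of `q` on `p` (`Walk.takeUntil`, or induct on `q`: there is a path `r` from `a 2` to a vertex `z` of `p` inside
`U` with no other vertex on `p`).  The paths are the two parts of `p` (reversed/`takeUntil`/`dropUntil`) and `r`.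

`mdl_cut3`: `B.cut3 C` has the `Y`-rotation `B.t` on `Q` and the cyclic exchange on `f 0, f 1, f 2`.  Apply `tripod` with `a i = vy (f i)` and
`U = {x | Far m S x}` (`reach3`).  `vx' e = vx e`; `vy' e = vy e` for `e ∈ Q`, `vy' (f i) = z`.  `P' e = P e` for `e ∈ Q`; `P' (f i)` is a path inside
`P (f i) ∪ (tripod path from a i to z)` (`Walk.bypass` of the composed walk, or `P (f i)` followed by the tripod path).
Disjointness: a vertex `x` with `Far m S x` on `P e` with `e ∈ P`: for `e ∈ P ∩ Q` impossible; for `e = f i` only `x = vy (f i)`.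
(A common vertex of `P e` and `P e'`, `e ≠ e'`, is a branch vertex of both by `disj`; a vertex `vx e` with `e ∈ P` is not `vx e'` with
`e' ∉ P`, since `P` is closed under `s`; the same for `vy` and `Q`; `vx ≠ vy` by `hxy`.)
`P (f i)` and the tripod path of `f j` (`j ≠ i`) can only meet in `vy (f i) = a i` (Far); this vertex is the start of the tripod path of
`f i`, and the tripod paths have only `z` in common, so it is `z`.  `P (f i)` and `P (f j)` meet only in branch vertices (`disj`): `vx (f i) =
vx (f j)` or `vy (f i) = vy (f j)`; in the second case `a i = a j` is on the two tripod paths, hence `= z`.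
`z` is not a vertex `vx e`, `e ∈ P` or `vy e`, `e ∈ Q` (these are not `Far`), `a i` neither.
-/

set_option autoImplicit false

open Finset Function

namespace Pool.Agent.PP

open SimpleGraph

universe u v

variable {V : Type u} {G : SimpleGraph V}

private lemma CutM3_first (D : V → Prop) {u v : V} (q : G.Walk u v) (hv : D v) :
    ∃ (z : V) (r : G.Walk u z), D z ∧ r.IsPath ∧ (∀ x ∈ r.support, x ∈ q.support) ∧
      ∀ x ∈ r.support, D x → x = z := by
  classical
  induction q with
  | @nil u =>
    refine ⟨u, SimpleGraph.Walk.nil, hv, SimpleGraph.Walk.IsPath.nil, fun x hx => hx, fun x hx _ => ?_⟩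
    rw [SimpleGraph.Walk.support_nil, List.mem_singleton] at hx
    exact hx
  | @cons u w v h q ih =>
    by_cases hu : D u
    · refine ⟨u, SimpleGraph.Walk.nil, hu, SimpleGraph.Walk.IsPath.nil, fun x hx => ?_, fun x hx _ => ?_⟩
      · rw [SimpleGraph.Walk.support_nil, List.mem_singleton] at hx
        rw [hx]
        exact SimpleGraph.Walk.start_mem_support _
      · rw [SimpleGraph.Walk.support_nil, List.mem_singleton] at hx
        exact hx
    · obtain ⟨z, r, hz, -, hr2, hr3⟩ := ih hv
      refine ⟨z, (SimpleGraph.Walk.cons h r).bypass, hz, SimpleGraph.Walk.bypass_isPath _, ?_, ?_⟩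
      · intro x hx
        have h1 := SimpleGraph.Walk.support_bypass_subset_support _ hx
        rw [SimpleGraph.Walk.support_cons, List.mem_cons] at h1
        rw [SimpleGraph.Walk.support_cons, List.mem_cons]
        rcases h1 with h1 | h1
        · exact Or.inl h1
        · exact Or.inr (hr2 x h1)
      · intro x hx hD
        have h1 := SimpleGraph.Walk.support_bypass_subset_support _ hx
        rw [SimpleGraph.Walk.support_cons, List.mem_cons] at h1
        rcases h1 with h1 | h1
        · rw [h1] at hD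
          exact absurd hD hu
        · exact hr3 x h1 hD

private lemma CutM3_split [DecidableEq V] {u v z : V} (p : G.Walk u v) (hp : p.IsPath) (hz : z ∈ p.support) {x : V}
    (h1 : x ∈ (p.takeUntil z hz).support) (h2 : x ∈ (p.dropUntil z hz).support) : x = z := by
  have h3 := hp
  rw [← p.take_spec hz] at h3
  have h4 := h3.support_nodup
  rw [SimpleGraph.Walk.support_append] at h4
  by_contra hne
  have h5 : x ∈ (p.dropUntil z hz).support.tail := by
    rw [SimpleGraph.Walk.mem_support_iff] at h2
    exact h2.resolve_left hne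
  exact (List.nodup_append.1 h4).2.2 x h1 x h5 rfl

theorem tripod (a : Fin 3 → V) (U : V → Prop) (h : ∀ i j, ∃ w : G.Walk (a i) (a j), ∀ x ∈ w.support, U x) :
    ∃ (z : V) (T : ∀ i, G.Walk (a i) z), (∀ i, (T i).IsPath) ∧ (∀ i, ∀ x ∈ (T i).support, U x) ∧
      ∀ i j x, i ≠ j → x ∈ (T i).support → x ∈ (T j).support → x = z := by
  classical
  obtain ⟨w, hw⟩ := h 0 1
  obtain ⟨q, hq⟩ := h 2 0
  set p := w.bypass with hpdef
  have hp : p.IsPath := w.bypass_isPath
  have hpU : ∀ x ∈ p.support, U x := fun x hx => hw x (w.support_bypass_subset_support hx)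
  obtain ⟨z, r, hz, hr1, hr2, hr3⟩ := CutM3_first (fun x => x ∈ p.support) q p.start_mem_support
  have hz' : z ∈ p.support := hz
  have e1 : ∀ x, x ∈ (p.takeUntil z hz').support → x ∈ p.support := fun x hx =>
    p.support_takeUntil_subset_support hz' hx
  have e2 : ∀ x, x ∈ (p.dropUntil z hz').reverse.support → x ∈ p.support := fun x hx => by
    rw [SimpleGraph.Walk.support_reverse, List.mem_reverse] at hx
    exact p.support_dropUntil_subset_support hz' hx
  have e3 : ∀ x, x ∈ (p.takeUntil z hz').support → x ∈ (p.dropUntil z hz').reverse.support → x = z := by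
    intro x hx hx'
    rw [SimpleGraph.Walk.support_reverse, List.mem_reverse] at hx'
    exact CutM3_split p hp hz' hx hx'
  refine ⟨z, fun i => match i with
    | 0 => p.takeUntil z hz'
    | 1 => (p.dropUntil z hz').reverse
    | 2 => r, ?_, ?_, ?_⟩
  · intro i
    match i with
    | 0 => exact hp.takeUntil hz'
    | 1 => exact (hp.dropUntil hz').reverse
    | 2 => exact hr1
  · intro i
    match i with
    | 0 => exact fun x hx => hpU x (e1 x hx)
    | 1 => exact fun x hx => hpU x (e2 x hx)
    | 2 => exact fun x hx => hq x (hr2 x hx)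
  · intro i j x hij
    match i, j with
    | 0, 0 => exact absurd rfl hij
    | 0, 1 => exact fun h1 h2 => e3 x h1 h2
    | 0, 2 => exact fun h1 h2 => hr3 x h2 (e1 x h1)
    | 1, 0 => exact fun h1 h2 => e3 x h2 h1
    | 1, 1 => exact absurd rfl hij
    | 1, 2 => exact fun h1 h2 => hr3 x h2 (e2 x h1)
    | 2, 0 => exact fun h1 h2 => hr3 x h1 (e1 x h2)
    | 2, 1 => exact fun h1 h2 => hr3 x h1 (e2 x h2)
    | 2, 2 => exact absurd rfl hij

variable {E : Type v} [Fintype E] [DecidableEq E]

omit [Fintype E] [DecidableEq E] in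
private lemma CutM3_vx {B : CB E} (m : Mdl B G) (S : Side B) {e e' : E} (h : m.vx e = m.vx e') :
    e ∈ S.P ↔ e' ∈ S.P := by
  rcases (m.hx e e').1 h with h1 | h1 | h1
  · rw [h1]
  · rw [h1, S.hP]
  · rw [h1, S.hP, S.hP]

omit [Fintype E] [DecidableEq E] in
private lemma CutM3_vy {B : CB E} (m : Mdl B G) (S : Side B) {e e' : E} (h : m.vy e = m.vy e') :
    e ∈ S.Q ↔ e' ∈ S.Q := by
  rcases (m.hy e e').1 h with h1 | h1 | h1
  · rw [h1]
  · rw [h1, S.hQ]
  · rw [h1, S.hQ, S.hQ]

omit [Fintype E] [DecidableEq E] in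
private lemma CutM3_F3 {B : CB E} (m : Mdl B G) (S : Side B) {e : E} (he : e ∈ S.P) : ¬ Far m S (m.vx e) := by
  rintro (⟨e', h1, h2, h3⟩ | ⟨e', h1, h2, h3⟩ | ⟨e', h1, h2, h3⟩)
  · exact h1 ((CutM3_vx m S (m.ix e' e h3)).1 he)
  · exact m.hxy _ _ h3
  · exact h2 ((CutM3_vx m S h3).1 he)

omit [Fintype E] [DecidableEq E] in
private lemma CutM3_F4 {B : CB E} (m : Mdl B G) (S : Side B) {e : E} (he : e ∈ S.Q) : ¬ Far m S (m.vy e) := by
  rintro (⟨e', h1, h2, h3⟩ | ⟨e', h1, h2, h3⟩ | ⟨e', h1, h2, h3⟩)
  · exact h2 ((CutM3_vy m S (m.iy e' e h3)).1 he)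
  · exact h2 ((CutM3_vy m S h3).1 he)
  · exact m.hxy _ _ h3.symm

omit [Fintype E] [DecidableEq E] in
private lemma CutM3_F2 {B : CB E} (m : Mdl B G) (S : Side B) {e : E} (he : e ∈ S.P) {x : V}
    (hx : x ∈ (m.P e).support) (hF : Far m S x) : x = m.vy e := by
  have hF' := hF
  rcases hF' with ⟨e', h1, h2, h3⟩ | ⟨e', h1, h2, h3⟩ | ⟨e', h1, h2, h3⟩
  · have hne : e ≠ e' := fun h => h1 (h ▸ he)
    rcases m.disj e e' x hne hx h3 with h4 | h4
    · rw [h4] at hF
      exact absurd hF (CutM3_F3 m S he)
    · exact h4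
  · rw [h3] at hx ⊢
    exact m.iy e e' hx
  · rw [h3] at hx
    exact absurd ((CutM3_vx m S (m.ix e e' hx)).2 he) h2

omit [Fintype E] [DecidableEq E] in
private lemma CutM3_F1 {B : CB E} (m : Mdl B G) (S : Side B) {e : E} (he : e ∈ S.P) (he' : e ∈ S.Q) {x : V}
    (hx : x ∈ (m.P e).support) : ¬ Far m S x := by
  intro hF
  rw [CutM3_F2 m S he hx hF] at hF
  exact CutM3_F4 m S he' hF

theorem mdl_cut3 {B : CB E} (m : Mdl B G) {S : Side B} (C : Cut3 S) : Nonempty (Mdl (B.cut3 C) G) := by
  classical
  obtain ⟨z, T, hT1, hT2, hT3⟩ := tripod (fun i => m.vy (C.f i)) (fun x => Far m S x) (reach3 m C)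
  have hzF : Far m S z := hT2 0 z (T 0).end_mem_support
  set vy' : {e // e ∈ S.P} → V := fun e => if e.1 ∈ S.Q then m.vy e.1 else z with hvy
  have vyQ : ∀ e : {e // e ∈ S.P}, e.1 ∈ S.Q → vy' e = m.vy e.1 := fun e he => if_pos he
  have vyZ : ∀ e : {e // e ∈ S.P}, e.1 ∉ S.Q → vy' e = z := fun e he => if_neg he
  have hfi : ∀ e : {e // e ∈ S.P}, e.1 ∉ S.Q → ∃ i, e.1 = C.f i := by
    intro e he
    rcases C.cases e.2 he with h | h | h
    · exact ⟨0, h⟩
    · exact ⟨1, h⟩
    · exact ⟨2, h⟩
  have hPe : ∀ e : {e // e ∈ S.P}, ∃ p : G.Walk (m.vx e.1) (vy' e), p.IsPath ∧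
      (e.1 ∈ S.Q → ∀ x ∈ p.support, x ∈ (m.P e.1).support) ∧
      ∀ i, e.1 = C.f i → ∀ x ∈ p.support, x ∈ (m.P e.1).support ∨ x ∈ (T i).support := by
    intro e
    by_cases he : e.1 ∈ S.Q
    · refine ⟨(m.P e.1).copy rfl (vyQ e he).symm, ?_, ?_, ?_⟩
      · rw [SimpleGraph.Walk.isPath_copy]
        exact m.path e.1
      · intro _ x hx
        rw [SimpleGraph.Walk.support_copy] at hx
        exact hx
      · intro i hi x hx
        rw [SimpleGraph.Walk.support_copy] at hx
        exact Or.inl hx
    · obtain ⟨i, hi⟩ := hfi e he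
      refine ⟨(((m.P e.1).append ((T i).copy (by rw [hi]) (vyZ e he).symm))).bypass,
        SimpleGraph.Walk.bypass_isPath _, fun h => absurd h he, ?_⟩
      intro j hj x hx
      have hij : i = j := C.inj (hi.symm.trans hj)
      subst hij
      have h1 := SimpleGraph.Walk.support_bypass_subset_support _ hx
      rw [SimpleGraph.Walk.mem_support_append_iff, SimpleGraph.Walk.support_copy] at h1
      exact h1
  choose P' hP1 hP2 hP3 using hPe
  have hstart : ∀ i, m.vy (C.f i) ∈ (T i).support := fun i => (T i).start_mem_support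
  refine ⟨⟨fun e => m.vx e.1, vy', ?_, ?_, ?_, P', hP1, ?_, ?_, ?_⟩⟩
  · -- hx
    intro e f
    show m.vx e.1 = m.vx f.1 ↔ _
    rw [m.hx]
    unfold SO
    rw [Subtype.ext_iff, Subtype.ext_iff, Subtype.ext_iff, cut3_s, cut3_s, cut3_s]
  · -- hy
    intro e f
    unfold SO
    rw [Subtype.ext_iff, Subtype.ext_iff, Subtype.ext_iff, cut3_t, cut3_t, cut3_t]
    by_cases he : e.1 ∈ S.Q
    · rw [vyQ e he, C.u_mem he, C.u_mem ((S.hQ _).2 he)]
      by_cases hf : f.1 ∈ S.Q
      · rw [vyQ f hf, m.hy]
        exact Iff.rfl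
      · rw [vyZ f hf]
        constructor
        · intro h
          rw [← h] at hzF
          exact absurd hzF (CutM3_F4 m S he)
        · rintro (h | h | h)
          · exact absurd (h ▸ he) hf
          · exact absurd (h ▸ (S.hQ _).2 he) hf
          · exact absurd (h ▸ (S.hQ _).2 ((S.hQ _).2 he)) hf
    · have hc := C.cyc_P e.2 he
      rw [vyZ e he, C.u_f e.2 he, C.u_f hc.1 hc.2.1]
      by_cases hf : f.1 ∈ S.Q
      · rw [vyQ f hf]
        constructor
        · intro h
          rw [h] at hzF
          exact absurd hzF (CutM3_F4 m S hf)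
        · have hc2 := C.cyc_P hc.1 hc.2.1
          rintro (h | h | h)
          · exact absurd (h ▸ hf) he
          · exact absurd (h ▸ hf) hc.2.1
          · exact absurd (h ▸ hf) hc2.2.1
      · rw [vyZ f hf]
        refine ⟨fun _ => ?_, fun _ => rfl⟩
        rcases C.cases e.2 he with h1 | h1 | h1 <;> rcases C.cases f.2 hf with h2 | h2 | h2 <;>
          rw [h1, h2] <;> simp only [C.cyc0, C.cyc1, C.cyc2, true_or, or_true]
  · -- hxy
    intro e f
    by_cases hf : f.1 ∈ S.Q
    · rw [vyQ f hf]
      exact m.hxy _ _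
    · rw [vyZ f hf]
      intro h
      rw [← h] at hzF
      exact CutM3_F3 m S e.2 hzF
  · -- ix
    intro e f h
    by_cases he : e.1 ∈ S.Q
    · exact m.ix _ _ (hP2 e he _ h)
    · obtain ⟨i, hi⟩ := hfi e he
      rcases hP3 e i hi _ h with h1 | h1
      · exact m.ix _ _ h1
      · exact absurd (hT2 i _ h1) (CutM3_F3 m S f.2)
  · -- iy
    intro e f h
    by_cases hf : f.1 ∈ S.Q
    · rw [vyQ f hf] at h ⊢
      by_cases he : e.1 ∈ S.Q
      · rw [vyQ e he]
        exact m.iy _ _ (hP2 e he _ h)
      · obtain ⟨i, hi⟩ := hfi e he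
        rcases hP3 e i hi _ h with h1 | h1
        · exact absurd ((CutM3_vy m S (m.iy _ _ h1)).1 hf) he
        · exact absurd (hT2 i _ h1) (CutM3_F4 m S hf)
    · rw [vyZ f hf] at h ⊢
      by_cases he : e.1 ∈ S.Q
      · exact absurd hzF (CutM3_F1 m S e.2 he (hP2 e he _ h))
      · rw [vyZ e he]
  · -- disj
    intro e f x hef hxe hxf
    have hef' : e.1 ≠ f.1 := fun h => hef (Subtype.ext h)
    show x = m.vx e.1 ∨ x = vy' e
    by_cases he : e.1 ∈ S.Q
    · rw [vyQ e he]
      have h1 := hP2 e he _ hxe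
      by_cases hf : f.1 ∈ S.Q
      · exact m.disj _ _ _ hef' h1 (hP2 f hf _ hxf)
      · obtain ⟨i, hi⟩ := hfi f hf
        rcases hP3 f i hi _ hxf with h2 | h2
        · exact m.disj _ _ _ hef' h1 h2
        · exact absurd (hT2 i _ h2) (CutM3_F1 m S e.2 he h1)
    · rw [vyZ e he]
      obtain ⟨i, hi⟩ := hfi e he
      by_cases hf : f.1 ∈ S.Q
      · have h2 := hP2 f hf _ hxf
        rcases hP3 e i hi _ hxe with h1 | h1
        · rcases m.disj _ _ _ hef' h1 h2 with h3 | h3
          · exact Or.inl h3
          · rw [h3] at h2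
            exact absurd ((CutM3_vy m S (m.iy _ _ h2)).2 hf) he
        · exact absurd (hT2 i _ h1) (CutM3_F1 m S f.2 hf h2)
      · obtain ⟨j, hj⟩ := hfi f hf
        have hij : i ≠ j := fun h => hef' (by rw [hi, hj, h])
        rcases hP3 e i hi _ hxe with h1 | h1
        · rcases hP3 f j hj _ hxf with h2 | h2
          · rcases m.disj _ _ _ hef' h1 h2 with h3 | h3
            · exact Or.inl h3
            · right
              have h4 : m.vy e.1 = m.vy f.1 := by
                rw [h3] at h2
                exact m.iy _ _ h2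
              refine hT3 i j x hij ?_ ?_
              · rw [h3, hi]
                exact hstart i
              · rw [h3, h4, hj]
                exact hstart j
          · right
            have h3 := CutM3_F2 m S e.2 h1 (hT2 j _ h2)
            refine hT3 i j x hij ?_ h2
            rw [h3, hi]
            exact hstart i
        · right
          rcases hP3 f j hj _ hxf with h2 | h2
          · have h3 := CutM3_F2 m S f.2 h2 (hT2 i _ h1)
            refine hT3 i j x hij h1 ?_
            rw [h3, hj]
            exact hstart j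
          · exact hT3 i j x hij h1 h2

end Pool.Agent.PP
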