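import Pool.Agent.Lib_MP_7c0803_pp.Parity

/-!
Proof plan.

DIGON `Q : Dg G` (`e, f` parallel, `g` third edge at the common `X`-end, `h` third edge at the common `Y`-end, `g ≠ h`),
`Q.redn` has `R = {e, f, h}`, `th = swap g h`.
* Every proper `c` of `G` has `c g = c h` (both are the third colour next to `{c e, c f}`; use `Tri.col` twice).
* Lift of a proper colouring `d` of `G.red Q.redn`, `p := d g`: `L d a = d a` for `a ∉ R`, `L d h = p`, `L d e = p + 1`,
  `L d f = p + 2`.  It is proper: for `a` in the `s`-orbit `{g, e, f}` or the `t`-orbit `{h, e, f}` use `Tri.proper`; for other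
  `a` the value `L d (th (s (th a)))` ... : `L d ∘ th = L d`, so with `b = th a` one has
  `L d (s b) = L d (th (s (th a))) = d (s' a)` and `L d b = L d a = d a`.
* parity: by `red_par` (with `hth : L d (th a) = L d a`), `par (L d) = par d + special`, and the special part is (use `Tri.sum`
  at both vertices; `{a | th a ∈ R} = {g, e, f}`) `sg (c e - c g) + κ + sg (c e - c h) + κ' = κ + κ'`, a constant.  So
  `digon_PC`.
* Two proper colourings `c, c'` of `G` which share the class `k` outside `{e, f}` are `KE` (`Digon_KE`): if `c g = k` they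
  share `k`; otherwise exactly one of `e, f` has the colour `k`, the same for `c'`; if it is not the same edge first exchange the
  colours of `e, f` in `c`.
* So `digon_Con` by `KE_map`.

THETA `Q : Th G` (three parallel edges `e, f, g`, a component), `R = {e, f, g}`, `th = 1`.
* Lift: `L d a = d a` for `a ∉ R`, `L d e = 0, L d f = 1, L d g = 2`.  Special part of the parity constant.  `Rel d d'` implies
  `Rel (L d) (L d')` (same class `k`, the same edge of `R` has the colour `k`).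
* `c` proper in `G`: `c` is `KE` to `L (c|)`: `c` on `e, f, g` is a permutation of the three colours, any two permutations are
  joined by exchanging two colours at a time on `{e, f, g}` only (keep everything else): each such exchange keeps the class of
  the third colour.
-/

set_option autoImplicit false

open Finset Function

namespace Pool.Agent.PP

universe u

/-! ### general lifts -/

private lemma Digon_liftP {E : Type u} {G : CB E} (D : Redn G) (d : {e // e ∉ D.R} → Fin 3)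
    (hd : (G.red D).P d) (l : E → Fin 3) (hl : ∀ x : {e // e ∉ D.R}, l x.1 = d x)
    (hth : ∀ e, l (D.th e) = l e) (hs : ∀ e, D.th e ∈ D.R → l (G.s e) ≠ l e)
    (ht : ∀ e, e ∈ D.R → l (G.t e) ≠ l e) : G.P l := by
  intro e
  constructor
  · by_cases he : D.th e ∈ D.R
    · exact hs e he
    · have h1 := (hd ⟨D.th e, he⟩).1
      rw [← hl, ← hl, red_s, hth, hth] at h1
      simp only [D.thth] at h1
      exact h1
  · by_cases he : e ∈ D.R
    · exact ht e he
    · have h1 := (hd ⟨e, he⟩).2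
      rw [← hl, ← hl, red_t] at h1
      exact h1

private lemma Digon_PCof {E : Type u} [Fintype E] [DecidableEq E] {G : CB E} (D : Redn G)
    (L : ({e // e ∉ D.R} → Fin 3) → (E → Fin 3)) (hL : ∀ d x, L d x.1 = d x)
    (hth : ∀ d e, L d (D.th e) = L d e) (hP : ∀ d, (G.red D).P d → G.P (L d)) (q : ZMod 2)
    (hq : ∀ d, (G.red D).P d →
      (∑ e ∈ univ.filter (fun e => D.th e ∈ D.R), sg (L d (G.s e) - L d e) +
        ∑ e ∈ D.R, sg (L d (G.t e) - L d e)) = q) (h : G.PC) : (G.red D).PC := by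
  intro d d' hd hd'
  have h1 := h _ _ (hP d hd) (hP d' hd')
  rw [red_par G D (L d) (hth d), red_par G D (L d') (hth d'), hq d hd, hq d' hd',
    show (fun x : {e // e ∉ D.R} => L d x.1) = d from funext (hL d),
    show (fun x : {e // e ∉ D.R} => L d' x.1) = d' from funext (hL d')] at h1
  exact add_right_cancel h1

private lemma Digon_Conof {E : Type u} {G : CB E} (D : Redn G)
    (L : ({e // e ∉ D.R} → Fin 3) → (E → Fin 3))
    (hrel : ∀ d d', (G.red D).P d → (G.red D).P d' → Rel d d' → G.KE (L d) (L d'))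
    (hret : ∀ c, G.P c → (G.red D).P (fun x => c x.1) ∧ G.KE c (L (fun x => c x.1)))
    (h : (G.red D).Con) : G.Con := by
  intro c c' hc hc'
  obtain ⟨p1, k1⟩ := hret c hc
  obtain ⟨p2, k2⟩ := hret c' hc'
  have h3 := KE_map G (G.red D) L hrel _ _ (h _ _ p1 p2)
  exact (k1.trans _ _ _ h3).trans _ _ _ (k2.symm _ _)

/-! ### exchanging the colours of two parallel edges -/

private lemma Digon_swapP {E : Type u} {G : CB E} {e f g h : E} (hs : Tri G.s g e f) (ht : Tri G.t h e f)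
    {c c' : E → Fin 3} (hc : G.P c) (h0 : ∀ a, a ≠ e → a ≠ f → c' a = c a) (he : c' e = c f)
    (hf : c' f = c e) : G.P c' := by
  have half : ∀ (s : Equiv.Perm E) (_ : ∀ e, s e ≠ e) (r : E) (_ : Tri s r e f)
      (_ : ∀ e, c (s e) ≠ c e), ∀ a, c' (s a) ≠ c' a := by
    intro s s1 r hr hcs a
    obtain ⟨n1, n2, n3⟩ := hr.ne s1
    obtain ⟨m1, m2, m3⟩ := hr.col hcs
    have hr0 : c' r = c r := h0 r n1 n2
    by_cases ha : a = r ∨ a = e ∨ a = f
    · exact hr.proper (by rw [hr0, he]; exact m2) (by rw [hr0, hf]; exact m1)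
        (by rw [he, hf]; exact m3.symm) a ha
    · have ha' : ¬ (s a = r ∨ s a = e ∨ s a = f) := fun h => ha ((hr.mem a).1 h)
      push Not at ha ha'
      rw [h0 a ha.2.1 ha.2.2, h0 _ ha'.2.1 ha'.2.2]
      exact hcs a
  intro a
  exact ⟨half G.s G.s1 g hs (fun e => (hc e).1) a, half G.t G.t1 h ht (fun e => (hc e).2) a⟩

private lemma Digon_swapKE {E : Type u} {G : CB E} {e f g h : E} (hs : Tri G.s g e f) (ht : Tri G.t h e f)
    {c c' : E → Fin 3} (hc : G.P c) (h0 : ∀ a, a ≠ e → a ≠ f → c' a = c a) (he : c' e = c f)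
    (hf : c' f = c e) : G.KE c c' := by
  obtain ⟨m1, m2, m3⟩ := hs.col (fun e => (hc e).1)
  refine KE_of_rel G hc (Digon_swapP hs ht hc h0 he hf) ⟨c g, fun a => ?_⟩
  by_cases h1 : a = e
  · subst h1
    rw [he]
    exact ⟨fun h => absurd h.symm m1, fun h => absurd h.symm m2⟩
  · by_cases h2 : a = f
    · subst h2
      rw [hf]
      exact ⟨fun h => absurd h.symm m2, fun h => absurd h.symm m1⟩
    · rw [h0 a h1 h2]

private lemma Digon_swapEx {E : Type u} [DecidableEq E] {G : CB E} {e f g h : E} (hs : Tri G.s g e f)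
    (ht : Tri G.t h e f) {c : E → Fin 3} (hc : G.P c) :
    ∃ c' : E → Fin 3, G.P c' ∧ G.KE c c' ∧ (∀ a, a ≠ e → a ≠ f → c' a = c a) ∧ c' e = c f ∧ c' f = c e := by
  have h0 : ∀ a, a ≠ e → a ≠ f → (fun a => c (Equiv.swap e f a)) a = c a := fun a h1 h2 => by
    show c (Equiv.swap e f a) = c a
    rw [Equiv.swap_apply_of_ne_of_ne h1 h2]
  have he : (fun a => c (Equiv.swap e f a)) e = c f := by
    show c (Equiv.swap e f e) = c f
    rw [Equiv.swap_apply_left]
  have hf : (fun a => c (Equiv.swap e f a)) f = c e := by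
    show c (Equiv.swap e f f) = c e
    rw [Equiv.swap_apply_right]
  exact ⟨_, Digon_swapP hs ht hc h0 he hf, Digon_swapKE hs ht hc h0 he hf, h0, he, hf⟩

private lemma Digon_c3 : ∀ a x y k : Fin 3, a ≠ x → a ≠ y → x ≠ y → a ≠ k → (x = k ↔ ¬ y = k) := by
  decide

/-- colourings sharing a class outside `{e, f}` -/
private lemma Digon_KE {E : Type u} [DecidableEq E] {G : CB E} {e f g h : E} (hs : Tri G.s g e f)
    (ht : Tri G.t h e f) {c c' : E → Fin 3} (hc : G.P c) (hc' : G.P c') (k : Fin 3)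
    (hk : ∀ a, a ≠ e → a ≠ f → (c a = k ↔ c' a = k)) : G.KE c c' := by
  obtain ⟨n1, n2, n3⟩ := hs.ne G.s1
  obtain ⟨m1, m2, m3⟩ := hs.col (fun e => (hc e).1)
  obtain ⟨m1', m2', m3'⟩ := hs.col (fun e => (hc' e).1)
  have hg := hk g n1 n2
  by_cases hgk : c g = k
  · have hgk' := hg.1 hgk
    refine KE_of_rel G hc hc' ⟨k, fun a => ?_⟩
    by_cases h1 : a = e
    · subst h1
      exact ⟨fun h => absurd (hgk.trans h.symm) m1, fun h => absurd (hgk'.trans h.symm) m1'⟩
    · by_cases h2 : a = f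
      · subst h2
        exact ⟨fun h => absurd (hgk.trans h.symm) m2, fun h => absurd (hgk'.trans h.symm) m2'⟩
      · exact hk a h1 h2
  · have hgk' : c' g ≠ k := fun h => hgk (hg.2 h)
    have q1 := Digon_c3 _ _ _ _ m1 m2 m3 hgk
    have q2 := Digon_c3 _ _ _ _ m1' m2' m3' hgk'
    by_cases hek : (c e = k ↔ c' e = k)
    · refine KE_of_rel G hc hc' ⟨k, fun a => ?_⟩
      by_cases h1 : a = e
      · subst h1
        exact hek
      · by_cases h2 : a = f
        · subst h2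
          tauto
        · exact hk a h1 h2
    · obtain ⟨c1, P1, K1, z0, ze, zf⟩ := Digon_swapEx hs ht hc
      refine K1.trans _ _ _ (KE_of_rel G P1 hc' ⟨k, fun a => ?_⟩)
      by_cases h1 : a = e
      · subst h1
        rw [ze]
        tauto
      · by_cases h2 : a = f
        · subst h2
          rw [zf]
          tauto
        · rw [z0 a h1 h2]
          exact hk a h1 h2

private lemma Digon_th_aux : ∀ x y z x' y' z' : Fin 3, x ≠ y → x ≠ z → y ≠ z → x' ≠ y' → x' ≠ z' → y' ≠ z' →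
    x = x' → (y = y' ∧ z = z') ∨ (z = y' ∧ y = z') := by decide

private lemma Digon_th_aux2 : ∀ x y z x' : Fin 3, x ≠ y → x ≠ z → y ≠ z → x = x' ∨ y = x' ∨ z = x' := by
  decide

/-- colourings which agree outside a theta component -/
private lemma Digon_ThKE {E : Type u} [DecidableEq E] {G : CB E} {e f g : E} (hs : Tri G.s g e f)
    (ht : Tri G.t g e f) {c c' : E → Fin 3} (hc : G.P c) (hc' : G.P c')
    (h0 : ∀ a, a ≠ e → a ≠ f → a ≠ g → c a = c' a) : G.KE c c' := by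
  have key : ∀ c : E → Fin 3, G.P c → (∀ a, a ≠ e → a ≠ f → a ≠ g → c a = c' a) → c e = c' e →
      G.KE c c' := by
    intro c hc h0 he
    obtain ⟨m1, m2, m3⟩ := hs.col (fun e => (hc e).1)
    obtain ⟨m1', m2', m3'⟩ := hs.col (fun e => (hc' e).1)
    rcases Digon_th_aux _ _ _ _ _ _ m3 m1.symm m2.symm m3' m1'.symm m2'.symm he with ⟨h1, h2⟩ | ⟨h1, h2⟩
    · have : c = c' := by
        funext a
        by_cases a1 : a = e
        · rw [a1, he]
        · by_cases a2 : a = f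
          · rw [a2, h1]
          · by_cases a3 : a = g
            · rw [a3, h2]
            · exact h0 a a1 a2 a3
      rw [this]
      exact Relation.EqvGen.refl _
    · refine Digon_swapKE (e := f) (f := g) (g := e) (h := e) hs.rot ht.rot hc ?_ h1.symm h2.symm
      intro a a2 a3
      by_cases a1 : a = e
      · rw [a1, he]
      · exact (h0 a a1 a2 a3).symm
  obtain ⟨m1, m2, m3⟩ := hs.col (fun e => (hc e).1)
  obtain ⟨n1, n2, n3⟩ := hs.ne G.s1
  rcases Digon_th_aux2 _ _ _ (c' e) m3 m1.symm m2.symm with h | h | h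
  · exact key c hc h0 h
  · obtain ⟨c1, P1, K1, z0, ze, zf⟩ := Digon_swapEx hs ht hc
    refine K1.trans _ _ _ (key c1 P1 ?_ (ze.trans h))
    intro a a1 a2 a3
    rw [z0 a a1 a2]
    exact h0 a a1 a2 a3
  · obtain ⟨c1, P1, K1, z0, ze, zf⟩ := Digon_swapEx (e := g) (f := e) (g := f) (h := f) hs.rot.rot
      ht.rot.rot hc
    refine K1.trans _ _ _ (key c1 P1 ?_ (zf.trans h))
    intro a a1 a2 a3
    rw [z0 a a3 a1]
    exact h0 a a1 a2 a3

/-! ### the digon -/

section digon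
variable {E : Type u} [DecidableEq E]

private lemma Digon_gR {G : CB E} (Q : Dg G) : Q.g ∉ Q.redn.R := by
  obtain ⟨n1, n2, n3⟩ := Q.tg.ne G.s1
  rw [Q.redn_R]
  simp only [Finset.mem_insert, Finset.mem_singleton]
  rintro (h | h | h)
  · exact n1 h
  · exact n2 h
  · exact Q.gh h

/-- the lift -/
private def Digon_L {G : CB E} (Q : Dg G) (d : {e // e ∉ Q.redn.R} → Fin 3) (a : E) : Fin 3 :=
  if h : a ∉ Q.redn.R then d ⟨a, h⟩ else
    if a = Q.h then d ⟨Q.g, Digon_gR Q⟩ else if a = Q.e then d ⟨Q.g, Digon_gR Q⟩ + 1 else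
      d ⟨Q.g, Digon_gR Q⟩ + 2

private lemma Digon_L0 {G : CB E} (Q : Dg G) (d : {e // e ∉ Q.redn.R} → Fin 3)
    (x : {e // e ∉ Q.redn.R}) : Digon_L Q d x.1 = d x := by
  unfold Digon_L
  rw [dif_pos x.2]

private lemma Digon_Lh {G : CB E} (Q : Dg G) (d : {e // e ∉ Q.redn.R} → Fin 3) :
    Digon_L Q d Q.h = Digon_L Q d Q.g := by
  rw [Digon_L0 Q d ⟨Q.g, Digon_gR Q⟩]
  unfold Digon_L
  rw [dif_neg (by rw [Q.redn_R]; simp), if_pos rfl]

private lemma Digon_Le {G : CB E} (Q : Dg G) (d : {e // e ∉ Q.redn.R} → Fin 3) :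
    Digon_L Q d Q.e = Digon_L Q d Q.g + 1 := by
  obtain ⟨n1, n2, n3⟩ := Q.th.ne G.t1
  rw [Digon_L0 Q d ⟨Q.g, Digon_gR Q⟩]
  unfold Digon_L
  rw [dif_neg (by rw [Q.redn_R]; simp), if_neg n1.symm, if_pos rfl]

private lemma Digon_Lf {G : CB E} (Q : Dg G) (d : {e // e ∉ Q.redn.R} → Fin 3) :
    Digon_L Q d Q.f = Digon_L Q d Q.g + 2 := by
  obtain ⟨n1, n2, n3⟩ := Q.th.ne G.t1
  rw [Digon_L0 Q d ⟨Q.g, Digon_gR Q⟩]
  unfold Digon_L
  rw [dif_neg (by rw [Q.redn_R]; simp), if_neg n2.symm, if_neg n3.symm]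

private lemma Digon_Lth {G : CB E} (Q : Dg G) (d : {e // e ∉ Q.redn.R} → Fin 3) (a : E) :
    Digon_L Q d (Q.redn.th a) = Digon_L Q d a := by
  rw [Q.redn_th]
  by_cases h1 : a = Q.g
  · rw [h1, Equiv.swap_apply_left, Digon_Lh]
  · by_cases h2 : a = Q.h
    · rw [h2, Equiv.swap_apply_right, Digon_Lh]
    · rw [Equiv.swap_apply_of_ne_of_ne h1 h2]

private lemma Digon_memth {G : CB E} (Q : Dg G) (a : E) :
    Q.redn.th a ∈ Q.redn.R ↔ (a = Q.g ∨ a = Q.e ∨ a = Q.f) := by
  have h1 := Q.tg.ne G.s1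
  have h2 := Q.th.ne G.t1
  have h3 := Q.gh
  rw [Q.redn_R, Q.redn_th]
  simp only [Equiv.swap_apply_def, Finset.mem_insert, Finset.mem_singleton]
  split_ifs <;> simp_all

private lemma Digon_a1 : ∀ p : Fin 3, p ≠ p + 1 ∧ p ≠ p + 2 ∧ p + 1 ≠ p + 2 := by decide

private lemma Digon_LP {G : CB E} (Q : Dg G) (d : {e // e ∉ Q.redn.R} → Fin 3)
    (hd : (G.red Q.redn).P d) : G.P (Digon_L Q d) := by
  obtain ⟨a1, a2, a3⟩ := Digon_a1 (Digon_L Q d Q.g)
  refine Digon_liftP Q.redn d hd _ (Digon_L0 Q d) (Digon_Lth Q d) ?_ ?_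
  · intro a ha
    refine Q.tg.proper ?_ ?_ ?_ a ((Digon_memth Q a).1 ha)
    · rw [Digon_Le]; exact a1
    · rw [Digon_Lf]; exact a2
    · rw [Digon_Le, Digon_Lf]; exact a3
  · intro a ha
    refine Q.th.proper ?_ ?_ ?_ a ?_
    · rw [Digon_Lh, Digon_Le]; exact a1
    · rw [Digon_Lh, Digon_Lf]; exact a2
    · rw [Digon_Le, Digon_Lf]; exact a3
    · rw [Q.redn_R] at ha
      simp only [Finset.mem_insert, Finset.mem_singleton] at ha
      tauto

end digon

section theta
variable {E : Type u} [DecidableEq E]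

/-- the lift -/
private def Digon_T {G : CB E} (Q : Th G) (d : {e // e ∉ Q.redn.R} → Fin 3) (a : E) : Fin 3 :=
  if h : a ∉ Q.redn.R then d ⟨a, h⟩ else if a = Q.e then 0 else if a = Q.f then 1 else 2

private lemma Digon_T0 {G : CB E} (Q : Th G) (d : {e // e ∉ Q.redn.R} → Fin 3)
    (x : {e // e ∉ Q.redn.R}) : Digon_T Q d x.1 = d x := by
  unfold Digon_T
  rw [dif_pos x.2]

private lemma Digon_Te {G : CB E} (Q : Th G) (d : {e // e ∉ Q.redn.R} → Fin 3) :
    Digon_T Q d Q.e = 0 := by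
  unfold Digon_T
  rw [dif_neg (by rw [Q.redn_R]; simp), if_pos rfl]

private lemma Digon_Tf {G : CB E} (Q : Th G) (d : {e // e ∉ Q.redn.R} → Fin 3) :
    Digon_T Q d Q.f = 1 := by
  obtain ⟨n1, n2, n3⟩ := Q.ts.ne G.s1
  unfold Digon_T
  rw [dif_neg (by rw [Q.redn_R]; simp), if_neg n3.symm, if_pos rfl]

private lemma Digon_Tg {G : CB E} (Q : Th G) (d : {e // e ∉ Q.redn.R} → Fin 3) :
    Digon_T Q d Q.g = 2 := by
  obtain ⟨n1, n2, n3⟩ := Q.ts.ne G.s1
  unfold Digon_T
  rw [dif_neg (by rw [Q.redn_R]; simp), if_neg n1, if_neg n2]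

private lemma Digon_TR {G : CB E} (Q : Th G) (a : E) :
    a ∈ Q.redn.R ↔ (a = Q.g ∨ a = Q.e ∨ a = Q.f) := by
  rw [Q.redn_R]
  simp only [Finset.mem_insert, Finset.mem_singleton]
  tauto

private lemma Digon_TP {G : CB E} (Q : Th G) (d : {e // e ∉ Q.redn.R} → Fin 3)
    (hd : (G.red Q.redn).P d) : G.P (Digon_T Q d) := by
  refine Digon_liftP Q.redn d hd _ (Digon_T0 Q d) (fun _ => rfl) ?_ ?_
  · intro a ha
    refine Q.ts.proper ?_ ?_ ?_ a ((Digon_TR Q a).1 ha)
    · rw [Digon_Tg, Digon_Te]; decide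
    · rw [Digon_Tg, Digon_Tf]; decide
    · rw [Digon_Te, Digon_Tf]; decide
  · intro a ha
    refine Q.tt.proper ?_ ?_ ?_ a ((Digon_TR Q a).1 ha)
    · rw [Digon_Tg, Digon_Te]; decide
    · rw [Digon_Tg, Digon_Tf]; decide
    · rw [Digon_Te, Digon_Tf]; decide

end theta

variable {E : Type u} [Fintype E] [DecidableEq E]

theorem digon_PC {G : CB E} (Q : Dg G) (h : G.PC) : (G.red Q.redn).PC := by
  refine Digon_PCof Q.redn (Digon_L Q) (Digon_L0 Q) (Digon_Lth Q) (Digon_LP Q)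
    ((sg 1 + (if G.s Q.g = Q.e then 0 else 1)) + (sg 1 + (if G.t Q.h = Q.e then 0 else 1))) ?_ h
  intro d hd
  have hP := Digon_LP Q d hd
  obtain ⟨n1, n2, n3⟩ := Q.tg.ne G.s1
  obtain ⟨m1, m2, m3⟩ := Q.th.ne G.t1
  have h1 := Q.tg.sum G.s1 (fun e => (hP e).1)
  have h2 := Q.th.sum G.t1 (fun e => (hP e).2)
  have e1 : Digon_L Q d Q.e - Digon_L Q d Q.g = 1 := by rw [Digon_Le, add_sub_cancel_left]
  have e2 : Digon_L Q d Q.e - Digon_L Q d Q.h = 1 := by rw [Digon_Le, Digon_Lh, add_sub_cancel_left]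
  rw [e1] at h1
  rw [e2] at h2
  have f1 : univ.filter (fun a => Q.redn.th a ∈ Q.redn.R) = {Q.g, Q.e, Q.f} := by
    ext a
    rw [Finset.mem_filter, Digon_memth]
    simp
  have f2 : Q.redn.R = {Q.h, Q.e, Q.f} := by
    rw [Q.redn_R]
    ext a
    simp only [Finset.mem_insert, Finset.mem_singleton]
    tauto
  rw [f1, f2, Finset.sum_insert (by simp [n1, n2]), Finset.sum_insert (by simp [n3]),
    Finset.sum_singleton, Finset.sum_insert (by simp [m1, m2]), Finset.sum_insert (by simp [m3]),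
    Finset.sum_singleton]
  linear_combination h1 + h2

theorem digon_Con {G : CB E} (Q : Dg G) (h' : (G.red Q.redn).Con) : G.Con := by
  refine Digon_Conof Q.redn (Digon_L Q) ?_ ?_ h'
  · rintro d d' hd hd' ⟨k, hk⟩
    have h1 : ∀ a, a ∉ Q.redn.R → (Digon_L Q d a = k ↔ Digon_L Q d' a = k) := by
      intro a ha
      rw [Digon_L0 Q d ⟨a, ha⟩, Digon_L0 Q d' ⟨a, ha⟩]
      exact hk _
    refine Digon_KE Q.tg Q.th (Digon_LP Q d hd) (Digon_LP Q d' hd') k ?_
    intro a a1 a2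
    by_cases a3 : a = Q.h
    · rw [a3, Digon_Lh, Digon_Lh]
      exact h1 _ (Digon_gR Q)
    · exact h1 a (by rw [Q.redn_R]; simp [a1, a2, a3])
  · intro c hc
    obtain ⟨m1, m2, m3⟩ := Q.tg.col (fun e => (hc e).1)
    obtain ⟨m1', m2', m3'⟩ := Q.th.col (fun e => (hc e).2)
    have hgh : c Q.h = c Q.g := ne3 (c Q.e) (c Q.f) (c Q.g) (c Q.h) m3 m1 m2 m1' m2'
    have hth : ∀ a, c (Q.redn.th a) = c a := by
      intro a
      rw [Q.redn_th]
      by_cases h1 : a = Q.g
      · rw [h1, Equiv.swap_apply_left, hgh]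
      · by_cases h2 : a = Q.h
        · rw [h2, Equiv.swap_apply_right, hgh]
        · rw [Equiv.swap_apply_of_ne_of_ne h1 h2]
    have hr := red_P G Q.redn c hc hth
    refine ⟨hr, Digon_KE Q.tg Q.th hc (Digon_LP Q _ hr) 0 ?_⟩
    intro a a1 a2
    by_cases a3 : a = Q.h
    · rw [a3, Digon_Lh, Digon_L0 Q _ ⟨Q.g, Digon_gR Q⟩, hgh]
    · rw [Digon_L0 Q _ ⟨a, by rw [Q.redn_R]; simp [a1, a2, a3]⟩]

theorem theta_PC {G : CB E} (Q : Th G) (h : G.PC) : (G.red Q.redn).PC := by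
  refine Digon_PCof Q.redn (Digon_T Q) (Digon_T0 Q) (fun _ _ => rfl) (Digon_TP Q)
    ((sg (0 - 2) + (if G.s Q.g = Q.e then 0 else 1)) + (sg (0 - 2) + (if G.t Q.g = Q.e then 0 else 1))) ?_ h
  intro d hd
  have hP := Digon_TP Q d hd
  obtain ⟨n1, n2, n3⟩ := Q.ts.ne G.s1
  have h1 := Q.ts.sum G.s1 (fun e => (hP e).1)
  have h2 := Q.tt.sum G.t1 (fun e => (hP e).2)
  have e1 : Digon_T Q d Q.e - Digon_T Q d Q.g = 0 - 2 := by rw [Digon_Te, Digon_Tg]
  rw [e1] at h1 h2
  have f2 : Q.redn.R = {Q.g, Q.e, Q.f} := by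
    ext a
    rw [Digon_TR]
    simp
  have f1 : univ.filter (fun a => Q.redn.th a ∈ Q.redn.R) = {Q.g, Q.e, Q.f} := by
    ext a
    rw [Finset.mem_filter, ← f2]
    simp [Q.redn_th]
  rw [f1, f2, Finset.sum_insert (by simp [n1, n2]), Finset.sum_insert (by simp [n3]),
    Finset.sum_singleton, Finset.sum_insert (by simp [n1, n2]), Finset.sum_insert (by simp [n3]),
    Finset.sum_singleton]
  linear_combination h1 + h2

theorem theta_Con {G : CB E} (Q : Th G) (h' : (G.red Q.redn).Con) : G.Con := by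
  refine Digon_Conof Q.redn (Digon_T Q) ?_ ?_ h'
  · rintro d d' hd hd' ⟨k, hk⟩
    refine KE_of_rel G (Digon_TP Q d hd) (Digon_TP Q d' hd') ⟨k, fun a => ?_⟩
    by_cases ha : a ∈ Q.redn.R
    · rcases (Digon_TR Q a).1 ha with h | h | h
      · rw [h, Digon_Tg, Digon_Tg]
      · rw [h, Digon_Te, Digon_Te]
      · rw [h, Digon_Tf, Digon_Tf]
    · rw [Digon_T0 Q d ⟨a, ha⟩, Digon_T0 Q d' ⟨a, ha⟩]
      exact hk _
  · intro c hc
    have hr := red_P G Q.redn c hc (fun _ => rfl)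
    refine ⟨hr, Digon_ThKE Q.ts Q.tt hc (Digon_TP Q _ hr) ?_⟩
    intro a a1 a2 a3
    rw [Digon_T0 Q _ ⟨a, by rw [Q.redn_R]; simp [a1, a2, a3]⟩]

end Pool.Agent.PP
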