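import Pool.Agent.Lib_MP_7c0803_pp.Square
import Pool.Agent.Lib_MP_7c0803_pp.Digon

set_option autoImplicit false

open Finset Function

namespace Pool.Agent.PP

universe u

theorem red_con (E : Type u) (G : CB E) (hR : Red E G) : ∀ [Fintype E], G.PC → G.Con := by
  induction hR with
  | empty E G h =>
    intro _ _ c c' _ _
    have : c = c' := funext (fun e => (h.false e).elim)
    rw [this]
    exact Relation.EqvGen.refl _
  | theta E G Q h ih =>
    intro _ hp
    classical
    exact theta_Con Q (ih (by convert theta_PC Q hp))
  | digon E G Q h ih =>
    intro _ hp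
    classical
    exact digon_Con Q (ih (by convert digon_PC Q hp))
  | square E G Q h ih =>
    intro _ hp
    classical
    exact square_Con Q hp (ih (by convert square_PC Q hp))

/-- **Reducible class.** -/
theorem red_iff (E : Type u) [Fintype E] (G : CB E) (hR : Red E G) : G.Con ↔ G.PC :=
  ⟨Con_PC G, red_con E G hR⟩

end Pool.Agent.PP
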