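import Pool.Agent.Lib_MP_7c0803_pp.Graph
import Pool.Agent.Lib_MP_7c0803_pp.Konig

/-!
Proof plan.  `B = toCB M κ hcub` is the multigraph on `G.edgeSet` with `B.s e` = the edge following `e` in the rotation at the end
of `e` with `κ = true`, `B.t e` the same at the end with `κ = false` (see `Graph.lean`: `dartEquiv`, `rot_symm_dart`,
`rotB_ne`, `rotB3`, `col_symm_apply`, `de_symm_apply`; `M.rot_trans` and `rot3` give that all darts at a vertex are
`d, rot d, rot (rot d)`).

* `adj_iff`: two different edges with a common vertex `v`: the darts `d, d'` at `v` with edges `e, e'` satisfy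
  `d' = rot^i d`, `i ≤ 2`.
* `P_col`, `exists_col`: from `adj_iff` (for `exists_col` use `SimpleGraph.Coloring.mk`).
* `rel_of_step`: the third colour `k ≠ a, b` is a common class.
* `eqv_of_rel`: `c, c'` share the class `k`; let `a, b` be the other two colours.  Induction on the number of edges with
  `c e ≠ c' e`: if `c e₀ ≠ c' e₀` then `{c e₀, c' e₀} = {a, b}`; make the Kempe change at `e₀` with colours `a, b`
  (`kempeChange`, `kempeStep_kempeChange` in `FourCycle.lean`): on the component of `e₀` (edges reachable in `kempeGraph`) one has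
  `c e ≠ c' e` for all `e` (adjacent edges of colours in `{a, b}`: `c` and `c'` both alternate; `const_of_reachable`), so after the
  change `c` and `c'` agree there and nothing else has changed; the new colouring still shares the class `k` with `c'`.
* `Kc_iff`: `Kc = Nat.card (Quot (KempeStep ..))`; `Nat.card_eq_one_iff_unique`; `Quot.eqvGen_sound`, `Quot.eqvGen_exact`;
  nonempty by `exists_P`, `exists_col`.  `Con → `: for colourings `c, c'` a chain of `Rel`s through proper maps; every proper map is a
  colouring.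
-/

set_option autoImplicit false

open Finset Function

namespace Pool.Agent.PP

open SimpleGraph

universe u

variable {V : Type u} {G : SimpleGraph V}

private lemma Kempe_fst (κ : G.Coloring Bool) {e : G.edgeSet} {v : V} (hv : v ∈ (e : Sym2 V)) :
    ((dartEquiv κ).symm (e, κ v)).fst = v := by
  obtain ⟨w, hw⟩ := hv
  have hadj : G.Adj v w := by
    have := e.2
    rw [hw] at this
    exact this
  have h1 : dartEquiv κ ⟨(v, w), hadj⟩ = (e, κ v) := by
    rw [dartEquiv_apply]
    refine Prod.ext ?_ rfl
    apply Subtype.ext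
    exact hw.symm
  rw [← h1, Equiv.symm_apply_apply]

private lemma Kempe_mem (κ : G.Coloring Bool) (e : G.edgeSet) (b : Bool) :
    ((dartEquiv κ).symm (e, b)).fst ∈ (e : Sym2 V) := by
  have h1 := de_symm_apply κ e b
  have h2 : ((dartEquiv κ).symm (e, b)).edge = (e : Sym2 V) := congrArg Subtype.val h1
  rw [← h2]
  exact Sym2.mem_mk_left _ _

/-- consecutive edges share a vertex -/
private lemma Kempe_share (M : Emb G) (κ : G.Coloring Bool) (b : Bool) (e : G.edgeSet) :
    ((dartEquiv κ).symm (e, b)).fst ∈ (rotB M κ b e : Sym2 V) := by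
  have h1 := rot_symm_dart M κ e b
  have h2 := M.rot_fst ((dartEquiv κ).symm (e, b))
  rw [h1] at h2
  rw [← h2]
  exact Kempe_mem κ _ b

private lemma Kempe_adj1 (M : Emb G) (κ : G.Coloring Bool) (hcub : ∀ v, (G.neighborSet v).ncard = 3)
    (b : Bool) (e : G.edgeSet) : G.lineGraph.Adj e (rotB M κ b e) := by
  rw [SimpleGraph.lineGraph_adj_iff_exists]
  exact ⟨(rotB_ne M κ hcub b e).symm, _, Kempe_mem κ e b, Kempe_share M κ b e⟩

private lemma Kempe_adj2 (M : Emb G) (κ : G.Coloring Bool) (hcub : ∀ v, (G.neighborSet v).ncard = 3)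
    (b : Bool) (e : G.edgeSet) : G.lineGraph.Adj e (rotB M κ b (rotB M κ b e)) := by
  have h := Kempe_adj1 M κ hcub b (rotB M κ b (rotB M κ b e))
  rw [rotB3 M κ hcub] at h
  exact h.symm

private lemma Kempe_of_share (M : Emb G) (κ : G.Coloring Bool)
    (hcub : ∀ v, (G.neighborSet v).ncard = 3) {e e' : G.edgeSet} (hne : e ≠ e') {v : V}
    (hv : v ∈ (e : Sym2 V)) (hv' : v ∈ (e' : Sym2 V)) :
    e' = rotB M κ (κ v) e ∨ e' = rotB M κ (κ v) (rotB M κ (κ v) e) := by
  have f1 := Kempe_fst κ hv
  have f2 := Kempe_fst κ hv'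
  obtain ⟨i, hi⟩ := M.rot_trans _ _ (f1.trans f2.symm)
  have key : ∀ (d : G.Dart) (i : ℕ), (M.rot ^ i) d = d ∨ (M.rot ^ i) d = M.rot d ∨
      (M.rot ^ i) d = M.rot (M.rot d) := by
    intro d i
    induction i with
    | zero => left; rfl
    | succ i ih =>
      rw [pow_succ', Equiv.Perm.mul_apply]
      rcases ih with h | h | h
      · right; left; rw [h]
      · right; right; rw [h]
      · left; rw [h, rot3 M hcub]
  rcases key ((dartEquiv κ).symm (e, κ v)) i with h | h | h
  · exfalso
    rw [h] at hi
    have := (dartEquiv κ).symm.injective hi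
    exact hne (congrArg Prod.fst this)
  · left
    rw [h, rot_symm_dart] at hi
    have := (dartEquiv κ).symm.injective hi
    exact (congrArg Prod.fst this).symm
  · right
    rw [h, rot_symm_dart, rot_symm_dart] at hi
    have := (dartEquiv κ).symm.injective hi
    exact (congrArg Prod.fst this).symm

theorem adj_iff (M : Emb G) (κ : G.Coloring Bool) (hcub : ∀ v, (G.neighborSet v).ncard = 3) (e e' : G.edgeSet) :
    G.lineGraph.Adj e e' ↔ (e' = (toCB M κ hcub).s e ∨ e' = (toCB M κ hcub).s ((toCB M κ hcub).s e)) ∨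
      (e' = (toCB M κ hcub).t e ∨ e' = (toCB M κ hcub).t ((toCB M κ hcub).t e)) := by
  constructor
  · intro h
    rw [SimpleGraph.lineGraph_adj_iff_exists] at h
    obtain ⟨hne, v, hv, hv'⟩ := h
    have h1 := Kempe_of_share M κ hcub hne hv hv'
    rcases hb : κ v with _ | _
    · right
      rw [hb] at h1
      exact h1
    · left
      rw [hb] at h1
      exact h1
  · rintro ((h | h) | (h | h))
    · rw [h]
      exact Kempe_adj1 M κ hcub true e
    · rw [h]
      exact Kempe_adj2 M κ hcub true e
    · rw [h]
      exact Kempe_adj1 M κ hcub false e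
    · rw [h]
      exact Kempe_adj2 M κ hcub false e

theorem P_col (M : Emb G) (κ : G.Coloring Bool) (hcub : ∀ v, (G.neighborSet v).ncard = 3)
    (c : G.lineGraph.Coloring (Fin 3)) : (toCB M κ hcub).P (fun e => c e) := by
  intro e
  constructor
  · exact (c.valid (Kempe_adj1 M κ hcub true e)).symm
  · exact (c.valid (Kempe_adj1 M κ hcub false e)).symm

theorem exists_col (M : Emb G) (κ : G.Coloring Bool) (hcub : ∀ v, (G.neighborSet v).ncard = 3)
    (c : G.edgeSet → Fin 3) (hc : (toCB M κ hcub).P c) : ∃ c' : G.lineGraph.Coloring (Fin 3), (fun e => c' e) = c := by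
  refine ⟨SimpleGraph.Coloring.mk c ?_, rfl⟩
  intro e e' h
  rcases (adj_iff M κ hcub e e').1 h with (h1 | h1) | (h1 | h1)
  · rw [h1]
    exact (hc e).1.symm
  · rw [h1]
    have h2 := (hc ((toCB M κ hcub).s ((toCB M κ hcub).s e))).1
    rw [(toCB M κ hcub).s3] at h2
    exact h2
  · rw [h1]
    exact (hc e).2.symm
  · rw [h1]
    have h2 := (hc ((toCB M κ hcub).t ((toCB M κ hcub).t e))).2
    rw [(toCB M κ hcub).t3] at h2
    exact h2

private lemma Kempe_third : ∀ a b : Fin 3, ∃ k : Fin 3, k ≠ a ∧ k ≠ b := by decide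

private lemma Kempe_swap {a b k : Fin 3} (h1 : k ≠ a) (h2 : k ≠ b) (z : Fin 3) :
    Equiv.swap a b z = k ↔ z = k := by
  constructor
  · intro h
    have h3 := congrArg (Equiv.swap a b) h
    rw [Equiv.swap_apply_self, Equiv.swap_apply_of_ne_of_ne h1 h2] at h3
    exact h3
  · rintro rfl
    exact Equiv.swap_apply_of_ne_of_ne h1 h2

theorem rel_of_step (c c' : G.lineGraph.Coloring (Fin 3)) (h : KempeStep G.lineGraph 3 c c') :
    Rel (fun e => c e) (fun e => c' e) := by
  classical
  obtain ⟨a, b, -, x, -, hy⟩ := h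
  obtain ⟨k, hka, hkb⟩ := Kempe_third a b
  refine ⟨k, fun e => ?_⟩
  show c e = k ↔ c' e = k
  rw [hy e]
  split_ifs
  · exact (Kempe_swap hka hkb _).symm
  · exact Iff.rfl

private lemma Kempe_alt : ∀ k x y x' y' : Fin 3, x ≠ y → x' ≠ y' → x ≠ k → y ≠ k → x' ≠ k → y' ≠ k →
    (x = x' ↔ y = y') := by decide

private lemma Kempe_sw0 : ∀ k a b x x' : Fin 3, a ≠ b → a ≠ k → b ≠ k → x ≠ k → x' ≠ k → x ≠ x' →
    (x = a ∧ x' = b) ∨ (x = b ∧ x' = a) := by decide

private lemma Kempe_sw (k a b x x' : Fin 3) (h1 : a ≠ b) (h2 : a ≠ k) (h3 : b ≠ k) (h4 : x ≠ k)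
    (h5 : x' ≠ k) (h6 : x ≠ x') : Equiv.swap a b x = x' := by
  rcases Kempe_sw0 k a b x x' h1 h2 h3 h4 h5 h6 with ⟨rfl, rfl⟩ | ⟨rfl, rfl⟩
  · exact Equiv.swap_apply_left _ _
  · exact Equiv.swap_apply_right _ _

theorem eqv_of_rel [Finite V] (c c' : G.lineGraph.Coloring (Fin 3)) (h : Rel (fun e => c e) (fun e => c' e)) :
    Relation.EqvGen (KempeStep G.lineGraph 3) c c' := by
  classical
  obtain ⟨k, hk⟩ := h
  have hk' : ∀ e, c e = k ↔ c' e = k := hk
  have key : ∀ (n : ℕ) (c : G.lineGraph.Coloring (Fin 3)), (∀ e, c e = k ↔ c' e = k) →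
      Set.ncard {e | c e ≠ c' e} ≤ n → Relation.EqvGen (KempeStep G.lineGraph 3) c c' := by
    intro n
    induction n with
    | zero =>
      intro c _ hn
      have h0 : {e | c e ≠ c' e} = ∅ := by
        rw [← Set.ncard_eq_zero (Set.toFinite _)]
        omega
      have : c = c' := by
        apply DFunLike.ext
        intro e
        by_contra hne
        have : e ∈ ({e | c e ≠ c' e} : Set G.edgeSet) := hne
        rw [h0] at this
        exact this
      rw [this]
      exact Relation.EqvGen.refl _
    | succ n ih =>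
      intro c hck hn
      by_cases hall : ∀ e, c e = c' e
      · have : c = c' := DFunLike.ext _ _ hall
        rw [this]
        exact Relation.EqvGen.refl _
      · push Not at hall
        obtain ⟨e0, he0⟩ := hall
        have ha : c e0 ≠ k := fun h => he0 (h.trans ((hck e0).1 h).symm)
        have hb : c' e0 ≠ k := fun h => he0 (((hck e0).2 h).trans h.symm)
        set a := c e0 with had
        set b := c' e0 with hbd
        have hstep : KempeStep G.lineGraph 3 c (kempeChange G.lineGraph c a b e0) :=
          kempeStep_kempeChange G.lineGraph c he0 (Or.inl rfl)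
        set c1 := kempeChange G.lineGraph c a b e0 with hc1
        have hnk : ∀ x, (x = a ∨ x = b) → x ≠ k := by
          rintro x (h | h)
          · rw [h]; exact ha
          · rw [h]; exact hb
        have hconst : ∀ y, (kempeGraph G.lineGraph c a b).Reachable e0 y → c y ≠ c' y := by
          intro y hy
          have h1 := const_of_reachable G.lineGraph c a b (fun y => (c y = c' y)) (by
            intro x y hxy hx hy
            have hx1 := hnk _ hx
            have hy1 := hnk _ hy
            have hx2 : c' x ≠ k := fun h => hx1 ((hck x).2 h)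
            have hy2 : c' y ≠ k := fun h => hy1 ((hck y).2 h)
            exact propext (Kempe_alt k _ _ _ _ (c.valid hxy) (c'.valid hxy) hx1 hy1 hx2 hy2)) hy
          intro h2
          have h3 : (c e0 = c' e0) = (c y = c' y) := h1
          rw [← h3] at h2
          exact he0 h2
        have h1k : ∀ e, c1 e = k ↔ c' e = k := by
          intro e
          rw [hc1, kempeChange_apply]
          split_ifs
          · rw [Kempe_swap ha.symm hb.symm]
            exact hck e
          · exact hck e
        have hsub : {e | c1 e ≠ c' e} ⊆ {e | c e ≠ c' e} \ {e0} := by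
          intro e he
          have he' : c1 e ≠ c' e := he
          rw [hc1, kempeChange_apply] at he'
          by_cases hr : (kempeGraph G.lineGraph c a b).Reachable e0 e
          · exfalso
            rw [if_pos hr] at he'
            apply he'
            have h1 := hconst e hr
            have h2 := hnk _ (col_of_reachable G.lineGraph c a b (Or.inl rfl) hr)
            have h3 : c' e ≠ k := fun h => h2 ((hck e).2 h)
            exact Kempe_sw k a b _ _ he0 ha hb h2 h3 h1
          · rw [if_neg hr] at he'
            refine ⟨he', ?_⟩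
            intro h
            rw [Set.mem_singleton_iff] at h
            rw [h] at hr
            exact hr (SimpleGraph.Reachable.refl _)
        have hlt : Set.ncard {e | c1 e ≠ c' e} ≤ n := by
          have h1 := Set.ncard_le_ncard hsub (Set.toFinite _)
          have h2 : e0 ∈ ({e | c e ≠ c' e} : Set G.edgeSet) := he0
          have h3 := Set.ncard_sdiff_singleton_add_one h2 (Set.toFinite _)
          omega
        exact Relation.EqvGen.trans _ _ _ (Relation.EqvGen.rel _ _ hstep) (ih c1 h1k hlt)
  exact key _ c hk' le_rfl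

private lemma Kempe_P {E : Type u} (B : CB E) {x y : E → Fin 3} (h : B.KE x y) : B.P x ↔ B.P y := by
  induction h with
  | rel x y h => exact ⟨fun _ => h.2.1, fun _ => h.1⟩
  | refl x => exact Iff.rfl
  | symm x y _ ih => exact ih.symm
  | trans x y z _ _ ih1 ih2 => exact ih1.trans ih2

private lemma Kempe_lift [Finite V] (M : Emb G) (κ : G.Coloring Bool)
    (hcub : ∀ v, (G.neighborSet v).ncard = 3) {x y : G.edgeSet → Fin 3}
    (h : (toCB M κ hcub).KE x y) : ∀ c c' : G.lineGraph.Coloring (Fin 3), (fun e => c e) = x →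
      (fun e => c' e) = y → Relation.EqvGen (KempeStep G.lineGraph 3) c c' := by
  induction h with
  | rel x y h =>
    intro c c' hx hy
    apply eqv_of_rel
    rw [hx, hy]
    exact h.2.2
  | refl x =>
    intro c c' hx hy
    have : c = c' := DFunLike.ext _ _ fun e => (congrFun hx e).trans (congrFun hy e).symm
    rw [this]
    exact Relation.EqvGen.refl _
  | symm x y _ ih =>
    intro c c' hx hy
    exact Relation.EqvGen.symm _ _ (ih c' c hy hx)
  | trans x y z h1 _ ih1 ih2 =>
    intro c c' hx hz
    have hPx : (toCB M κ hcub).P x := by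
      rw [← hx]
      exact P_col M κ hcub c
    obtain ⟨cy, hcy⟩ := exists_col M κ hcub y ((Kempe_P _ h1).1 hPx)
    exact Relation.EqvGen.trans _ _ _ (ih1 c cy hx hcy) (ih2 cy c' hcy hz)

private lemma Kempe_down (M : Emb G) (κ : G.Coloring Bool)
    (hcub : ∀ v, (G.neighborSet v).ncard = 3) {c c' : G.lineGraph.Coloring (Fin 3)}
    (h : Relation.EqvGen (KempeStep G.lineGraph 3) c c') :
    (toCB M κ hcub).KE (fun e => c e) (fun e => c' e) := by
  induction h with
  | rel x y h => exact KE_of_rel _ (P_col M κ hcub x) (P_col M κ hcub y) (rel_of_step x y h)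
  | refl x => exact Relation.EqvGen.refl _
  | symm x y _ ih => exact Relation.EqvGen.symm _ _ ih
  | trans x y z _ _ ih1 ih2 => exact Relation.EqvGen.trans _ _ _ ih1 ih2

theorem Kc_iff [Finite V] (M : Emb G) (κ : G.Coloring Bool) (hcub : ∀ v, (G.neighborSet v).ncard = 3) :
    Kc G.lineGraph 3 = 1 ↔ (toCB M κ hcub).Con := by
  unfold Kc
  rw [Nat.card_eq_one_iff_unique]
  constructor
  · rintro ⟨hs, -⟩ c c' hc hc'
    obtain ⟨d, rfl⟩ := exists_col M κ hcub c hc
    obtain ⟨d', rfl⟩ := exists_col M κ hcub c' hc'
    have h1 : Quot.mk (KempeStep G.lineGraph 3) d = Quot.mk (KempeStep G.lineGraph 3) d' :=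
      Subsingleton.elim _ _
    exact Kempe_down M κ hcub (Quot.eqvGen_exact h1)
  · intro hcon
    constructor
    · constructor
      intro q q'
      induction q using Quot.inductionOn with
      | _ c =>
      induction q' using Quot.inductionOn with
      | _ c' =>
      apply Quot.eqvGen_sound
      exact Kempe_lift M κ hcub (hcon _ _ (P_col M κ hcub c) (P_col M κ hcub c')) c c' rfl rfl
    · obtain ⟨c, hc⟩ := exists_P (toCB M κ hcub)
      obtain ⟨d, -⟩ := exists_col M κ hcub c hc
      exact ⟨Quot.mk _ d⟩

end Pool.Agent.PP
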