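import Pool.Agent.Lib_MP_7c0803_pp.TopDefs
import Pool.Agent.Lib_MP_7c0803_pp.Kempe

/-!
Proof plan.

* `mdl0`: `vx e`, `vy e` = the ends of `e` with `κ = true`, `κ = false` (`((dartEquiv κ).symm (e, true)).fst`, `((dartEquiv κ).symm (e, false)).fst`;
  `col_symm_apply`, `de_symm_apply` in `Graph.lean`); `P e` the one-edge walk.  `hx`: edges with the same `X`-end are in the same
  `s`-orbit (`M.rot_trans`, `rot3`; see also `adj_iff` in `Kempe.lean`).
* `mdl_red`: general form for a `Redn` `D` (`s' = th s th`, `t' = t`): `vx' e = vx (th e)`, `vy' e = vy e`.  `hx'`: `vx (th e) = vx (th f)` iff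
  `th f = th e ∨ SO s (th e) (th f)` iff `f = e ∨ SO s' e f`.  `P' e` must be a path from `vx (th e)` to `vy e`; for `th e = e` take
  `P e`.
* `mdl_Dg` (`R = {e, f, h}`, `th = swap g h`; the new edge `g` runs `X`-end of `h`, .., `Y`-end of `g`): `P' g = P h` followed by the
  reverse of `P e` followed by `P g`: from `vx h` to `vy h = vy e`, to `vx e = vx g`, to `vy g`.  It is a path, as the three paths
  meet only in their common ends.  The other conditions: a vertex in the support of `P' g` is in the support of `P h`, `P e` or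
  `P g`; e.g. `ix'`: if `vx (th f')` is in `P e` (support) then `vx (th f') = vx e = vx g`, so `th f' ∈ {g, e, f}`, so `f' ∈ R`,
  impossible; if it is in `P h`: `= vx h = vx' g`; if in `P g`: `= vx g`, impossible in the same way.
* `mdl_Sq` (`R = {e1, .., e4, y, w}`, `th = swap x y * swap z w`): `P' x = P y`, then `P e1` reversed, then `P x`: from `vx y` to
  `vy y = vy e1`, to `vx e1 = vx x`, to `vy x`; `P' z = P w`, then `P e3` reversed, then `P z`.
* `mdl_Th` (`th = 1`): restriction.
-/

set_option autoImplicit false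

open Finset Function

namespace Pool.Agent.PP

open SimpleGraph

universe u v

variable {V : Type u} {G : SimpleGraph V}

/-! ### the model of the graph itself -/

private lemma TopA_pow (M : Emb G) (hcub : ∀ v, (G.neighborSet v).ncard = 3) (d : G.Dart) (i : ℕ) :
    (M.rot ^ i) d = d ∨ (M.rot ^ i) d = M.rot d ∨ (M.rot ^ i) d = M.rot (M.rot d) := by
  induction i with
  | zero => left; rfl
  | succ i ih =>
    rw [pow_succ', Equiv.Perm.mul_apply]
    rcases ih with h | h | h
    · right; left; rw [h]
    · right; right; rw [h]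
    · left; rw [h, rot3 M hcub]

private lemma TopA_orb (M : Emb G) (κ : G.Coloring Bool) (hcub : ∀ v, (G.neighborSet v).ncard = 3)
    (b : Bool) (e f : G.edgeSet) :
    ((dartEquiv κ).symm (e, b)).fst = ((dartEquiv κ).symm (f, b)).fst ↔
      (f = e ∨ SO (rotB M κ b) e f) := by
  constructor
  · intro h
    obtain ⟨i, hi⟩ := M.rot_trans _ _ h
    rcases TopA_pow M hcub ((dartEquiv κ).symm (e, b)) i with h1 | h1 | h1
    · left
      rw [h1] at hi
      have := (dartEquiv κ).symm.injective hi
      exact (congrArg Prod.fst this).symm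
    · right; left
      rw [h1, rot_symm_dart] at hi
      have := (dartEquiv κ).symm.injective hi
      exact (congrArg Prod.fst this).symm
    · right; right
      rw [h1, rot_symm_dart, rot_symm_dart] at hi
      have := (dartEquiv κ).symm.injective hi
      exact (congrArg Prod.fst this).symm
  · have key : ∀ a : G.edgeSet, ((dartEquiv κ).symm (rotB M κ b a, b)).fst =
        ((dartEquiv κ).symm (a, b)).fst := fun a => by
      rw [← rot_symm_dart]
      exact M.rot_fst _
    rintro (rfl | rfl | rfl)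
    · rfl
    · exact (key e).symm
    · rw [key, key]

private lemma TopA_symm (κ : G.Coloring Bool) (e : G.edgeSet) :
    (dartEquiv κ).symm (e, false) = ((dartEquiv κ).symm (e, true)).symm := by
  rw [Equiv.symm_apply_eq, dartEquiv_apply]
  have h1 : de ((dartEquiv κ).symm (e, true)) = e := de_symm_apply κ e true
  have h2 : κ ((dartEquiv κ).symm (e, true)).fst = true := col_symm_apply κ e true
  have h3 := κ.valid ((dartEquiv κ).symm (e, true)).adj
  refine Prod.ext ?_ ?_
  · show e = de ((dartEquiv κ).symm (e, true)).symm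
    apply Subtype.ext
    show (e : Sym2 V) = ((dartEquiv κ).symm (e, true)).symm.edge
    rw [SimpleGraph.Dart.edge_symm]
    exact (congrArg Subtype.val h1).symm
  · show false = κ ((dartEquiv κ).symm (e, true)).snd
    rw [h2] at h3
    revert h3
    generalize κ ((dartEquiv κ).symm (e, true)).snd = q
    cases q
    · exact fun _ => rfl
    · exact fun h => (h rfl).elim

private lemma TopA_adj (κ : G.Coloring Bool) (e : G.edgeSet) :
    G.Adj ((dartEquiv κ).symm (e, true)).fst ((dartEquiv κ).symm (e, false)).fst := by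
  rw [TopA_symm]
  exact ((dartEquiv κ).symm (e, true)).adj

theorem mdl0 (M : Emb G) (κ : G.Coloring Bool) (hcub : ∀ v, (G.neighborSet v).ncard = 3) :
    Nonempty (Mdl (toCB M κ hcub) G) := by
  have hxy : ∀ e f : G.edgeSet, ((dartEquiv κ).symm (e, true)).fst ≠
      ((dartEquiv κ).symm (f, false)).fst := by
    intro e f h
    have h1 := congrArg κ h
    rw [col_symm_apply, col_symm_apply] at h1
    exact Bool.noConfusion h1
  have hsup : ∀ (e : G.edgeSet) (x : V),
      x ∈ ((SimpleGraph.Path.singleton (TopA_adj κ e)).1).support →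
      x = ((dartEquiv κ).symm (e, true)).fst ∨ x = ((dartEquiv κ).symm (e, false)).fst := by
    intro e x hx
    have h1 : ((SimpleGraph.Path.singleton (TopA_adj κ e)).1).support =
        [((dartEquiv κ).symm (e, true)).fst, ((dartEquiv κ).symm (e, false)).fst] := rfl
    rw [h1] at hx
    simpa using hx
  exact ⟨{
    vx := fun e => ((dartEquiv κ).symm (e, true)).fst
    vy := fun e => ((dartEquiv κ).symm (e, false)).fst
    hx := fun e f => TopA_orb M κ hcub true e f
    hy := fun e f => TopA_orb M κ hcub false e f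
    hxy := hxy
    P := fun e => (SimpleGraph.Path.singleton (TopA_adj κ e)).1
    path := fun e => (SimpleGraph.Path.singleton (TopA_adj κ e)).2
    ix := fun e f h => (hsup e _ h).elim id fun h1 => (hxy f e h1).elim
    iy := fun e f h => (hsup e _ h).elim (fun h1 => (hxy e f h1.symm).elim) id
    disj := fun e f x _ h _ => hsup e x h }⟩

/-! ### the general form of the reductions -/

private theorem TopA_gen {E : Type v} [DecidableEq E] {B : CB E} (m : Mdl B G) (D : Redn B)
    (P : ∀ e, e ∉ D.R → G.Walk (m.vx (D.th e)) (m.vy e))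
    (S : E → E → Prop)
    (hS : ∀ e he x, x ∈ (P e he).support → ∃ a, S e a ∧ x ∈ (m.P a).support)
    (hS1 : ∀ e, e ∉ D.R → S e e) (hS2 : ∀ e, e ∉ D.R → S e (D.th e))
    (hd : ∀ e f a, e ∉ D.R → f ∉ D.R → e ≠ f → S e a → S f a → False)
    (h1 : ∀ e f a b, e ∉ D.R → f ∉ D.R → e ≠ f → S e a → S f b → (b = a ∨ SO B.s a b) →
      m.vx a = m.vx (D.th e))
    (h2 : ∀ e f a b, e ∉ D.R → f ∉ D.R → e ≠ f → S e a → S f b → (b = a ∨ SO B.t a b) →
      m.vy a = m.vy e) : Nonempty (Mdl (B.red D) G) := by
  classical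
  have hth : ∀ a b, D.th a = b ↔ a = D.th b := fun a b =>
    ⟨fun h => by rw [← h, D.thth], fun h => by rw [h, D.thth]⟩
  have hsup : ∀ e he x, x ∈ (P e he).bypass.support → ∃ a, S e a ∧ x ∈ (m.P a).support :=
    fun e he x hx => hS e he x ((P e he).support_bypass_subset_support hx)
  exact ⟨{
    vx := fun e => m.vx (D.th e.1)
    vy := fun e => m.vy e.1
    hx := by
      rintro ⟨e, he⟩ ⟨f, hf⟩
      show m.vx (D.th e) = m.vx (D.th f) ↔ _
      rw [m.hx]
      have e1 : ∀ g : E, (g = B.s (D.th e)) ↔ D.th g = D.th (B.s (D.th e)) :=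
        fun g => D.th.injective.eq_iff.symm
      constructor
      · rintro (h | h | h)
        · exact Or.inl (Subtype.ext (D.th.injective h))
        · refine Or.inr (Or.inl (Subtype.ext ?_))
          show f = D.th (B.s (D.th e))
          rw [← h, D.thth]
        · refine Or.inr (Or.inr (Subtype.ext ?_))
          show f = D.th (B.s (D.th (D.th (B.s (D.th e)))))
          rw [D.thth, ← h, D.thth]
      · rintro (h | h | h)
        · exact Or.inl (by rw [show f = e from congrArg Subtype.val h])
        · refine Or.inr (Or.inl ?_)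
          have h3 : f = D.th (B.s (D.th e)) := congrArg Subtype.val h
          rw [h3, D.thth]
        · refine Or.inr (Or.inr ?_)
          have h3 : f = D.th (B.s (D.th (D.th (B.s (D.th e))))) := congrArg Subtype.val h
          rw [h3, D.thth, D.thth]
    hy := by
      rintro ⟨e, he⟩ ⟨f, hf⟩
      show m.vy e = m.vy f ↔ _
      rw [m.hy]
      constructor
      · rintro (h | h | h)
        · exact Or.inl (Subtype.ext h)
        · exact Or.inr (Or.inl (Subtype.ext h))
        · exact Or.inr (Or.inr (Subtype.ext h))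
      · rintro (h | h | h)
        · exact Or.inl (congrArg Subtype.val h)
        · exact Or.inr (Or.inl (congrArg Subtype.val h))
        · exact Or.inr (Or.inr (congrArg Subtype.val h))
    hxy := fun e f => m.hxy _ _
    P := fun e => (P e.1 e.2).bypass
    path := fun e => (P e.1 e.2).bypass_isPath
    ix := by
      rintro ⟨e, he⟩ ⟨f, hf⟩ h
      show m.vx (D.th f) = m.vx (D.th e)
      by_cases hef : e = f
      · rw [hef]
      · obtain ⟨a, ha, hx⟩ := hsup e he _ h
        have h3 : m.vx (D.th f) = m.vx a := m.ix a _ hx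
        rw [h3]
        exact h1 e f a (D.th f) he hf hef ha (hS2 f hf) ((m.hx _ _).1 h3.symm)
    iy := by
      rintro ⟨e, he⟩ ⟨f, hf⟩ h
      show m.vy f = m.vy e
      by_cases hef : e = f
      · rw [hef]
      · obtain ⟨a, ha, hx⟩ := hsup e he _ h
        have h3 : m.vy f = m.vy a := m.iy a _ hx
        rw [h3]
        exact h2 e f a f he hf hef ha (hS1 f hf) ((m.hy _ _).1 h3.symm)
    disj := by
      rintro ⟨e, he⟩ ⟨f, hf⟩ x hef hx hx'
      have hne : e ≠ f := fun h => hef (Subtype.ext h)
      obtain ⟨a, ha, hxa⟩ := hsup e he _ hx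
      obtain ⟨b, hb, hxb⟩ := hsup f hf _ hx'
      have hab : a ≠ b := fun h => hd e f a he hf hne ha (h ▸ hb)
      show x = m.vx (D.th e) ∨ x = m.vy e
      rcases m.disj a b x hab hxa hxb with h3 | h3
      · rcases m.disj b a x (Ne.symm hab) hxb hxa with h4 | h4
        · left
          rw [h3]
          exact h1 e f a b he hf hne ha hb ((m.hx _ _).1 (h3.symm.trans h4))
        · exact (m.hxy a b (h3.symm.trans h4)).elim
      · rcases m.disj b a x (Ne.symm hab) hxb hxa with h4 | h4
        · exact (m.hxy b a (h4.symm.trans h3)).elim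
        · right
          rw [h3]
          exact h2 e f a b he hf hne ha hb ((m.hy _ _).1 (h3.symm.trans h4)) }⟩

private lemma TopA_tri {E : Type v} {s : Equiv.Perm E} {x y z a b : E} (h : Tri s x y z)
    (ha : a = x ∨ a = y ∨ a = z) (hb : b = a ∨ SO s a b) : b = x ∨ b = y ∨ b = z := by
  rcases hb with rfl | rfl | rfl
  · exact ha
  · exact (h.mem a).2 ha
  · exact (h.mem _).2 ((h.mem a).2 ha)

private lemma TopA_tri_SO {E : Type v} {s : Equiv.Perm E} {x y z : E} (h : Tri s x y z) :
    SO s x y := by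
  rcases h with ⟨h1, h2, h3⟩ | ⟨h1, h2, h3⟩
  · exact Or.inl h1.symm
  · exact Or.inr (by rw [h1, h2])

theorem mdl_Th {E : Type v} [DecidableEq E] {B : CB E} (m : Mdl B G) (Q : Th B) : Nonempty (Mdl (B.red Q.redn) G) := by
  refine TopA_gen m Q.redn (fun e _ => m.P e) (fun e a => a = e) ?_ ?_ ?_ ?_ ?_ ?_
  · exact fun e _ x hx => ⟨e, rfl, hx⟩
  · exact fun e _ => rfl
  · exact fun e _ => rfl
  · rintro e f a _ _ hne rfl h
    exact hne h
  · rintro e f a b _ _ _ rfl _ _
    rfl
  · rintro e f a b _ _ _ rfl _ _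
    rfl

theorem mdl_Dg {E : Type v} [DecidableEq E] {B : CB E} (m : Mdl B G) (Q : Dg B) : Nonempty (Mdl (B.red Q.redn) G) := by
  classical
  have hR : ∀ e, e ∉ Q.redn.R ↔ e ≠ Q.e ∧ e ≠ Q.f ∧ e ≠ Q.h := by
    intro e
    rw [Q.redn_R]
    simp [not_or]
  have hthg : Q.redn.th Q.g = Q.h := by rw [Q.redn_th, Equiv.swap_apply_left]
  have hth : ∀ e, e ∉ Q.redn.R → e ≠ Q.g → Q.redn.th e = e := by
    intro e he hg
    rw [Q.redn_th, Equiv.swap_apply_of_ne_of_ne hg ((hR e).1 he).2.2]
  have hxg : m.vx Q.g = m.vx Q.e := (m.hx _ _).2 (Or.inr (TopA_tri_SO Q.tg))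
  have hyh : m.vy Q.h = m.vy Q.e := (m.hy _ _).2 (Or.inr (TopA_tri_SO Q.th))
  have n1 := Q.tg.ne B.s1
  have n2 := Q.th.ne B.t1
  refine TopA_gen m Q.redn
    (fun e he => if h : e = Q.g then
        ((((m.P Q.h).append ((m.P Q.e).reverse.copy hyh.symm hxg.symm)).append (m.P Q.g)).copy
          (by rw [h, hthg]) (by rw [h]))
      else (m.P e).copy (by rw [hth e he h]) rfl)
    (fun e a => a = e ∨ (e = Q.g ∧ (a = Q.h ∨ a = Q.e))) ?_ ?_ ?_ ?_ ?_ ?_
  · intro e he x hx
    by_cases h : e = Q.g
    · rw [dif_pos h] at hx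
      rw [SimpleGraph.Walk.support_copy, SimpleGraph.Walk.mem_support_append_iff,
        SimpleGraph.Walk.mem_support_append_iff, SimpleGraph.Walk.support_copy,
        SimpleGraph.Walk.support_reverse, List.mem_reverse] at hx
      rcases hx with (hx | hx) | hx
      · exact ⟨Q.h, Or.inr ⟨h, Or.inl rfl⟩, hx⟩
      · exact ⟨Q.e, Or.inr ⟨h, Or.inr rfl⟩, hx⟩
      · exact ⟨Q.g, Or.inl h.symm, hx⟩
    · rw [dif_neg h] at hx
      rw [SimpleGraph.Walk.support_copy] at hx
      exact ⟨e, Or.inl rfl, hx⟩
  · exact fun e _ => Or.inl rfl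
  · intro e he
    by_cases h : e = Q.g
    · right
      refine ⟨h, Or.inl ?_⟩
      rw [h, hthg]
    · left
      exact hth e he h
  · rintro e f a he hf hne ha hb
    have he' := (hR e).1 he
    have hf' := (hR f).1 hf
    rcases ha with rfl | ⟨rfl, rfl | rfl⟩
    · rcases hb with rfl | ⟨rfl, rfl | rfl⟩
      · exact hne rfl
      · exact he'.2.2 rfl
      · exact he'.1 rfl
    · rcases hb with rfl | ⟨rfl, _⟩
      · exact hf'.2.2 rfl
      · exact hne rfl
    · rcases hb with rfl | ⟨rfl, _⟩
      · exact hf'.1 rfl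
      · exact hne rfl
  · rintro e f a b he hf hne ha hb hab
    have he' := (hR e).1 he
    have hf' := (hR f).1 hf
    by_cases h : e = Q.g
    · subst h
      rw [hthg]
      rcases hb with rfl | ⟨rfl, _⟩
      · have key : (a = Q.g ∨ a = Q.e ∨ a = Q.f) → False := by
          intro h3
          rcases TopA_tri Q.tg h3 hab with h4 | h4 | h4
          · exact hne h4.symm
          · exact hf'.1 h4
          · exact hf'.2.1 h4
        rcases ha with rfl | ⟨_, rfl | rfl⟩
        · exact (key (Or.inl rfl)).elim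
        · rfl
        · exact (key (Or.inr (Or.inl rfl))).elim
      · exact (hne rfl).elim
    · rcases ha with rfl | ⟨h3, _⟩
      · rw [hth _ he h]
      · exact (h h3).elim
  · rintro e f a b he hf hne ha hb hab
    have he' := (hR e).1 he
    have hf' := (hR f).1 hf
    rcases ha with rfl | ⟨rfl, ha⟩
    · rfl
    · exfalso
      rcases hb with rfl | ⟨rfl, _⟩
      · have h3 : a = Q.h ∨ a = Q.e ∨ a = Q.f := ha.elim Or.inl fun h => Or.inr (Or.inl h)
        rcases TopA_tri Q.th h3 hab with h4 | h4 | h4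
        · exact hf'.2.2 h4
        · exact hf'.1 h4
        · exact hf'.2.1 h4
      · exact hne rfl

theorem mdl_Sq {E : Type v} [DecidableEq E] {B : CB E} (m : Mdl B G) (Q : Sq B) : Nonempty (Mdl (B.red Q.redn) G) := by
  classical
  obtain ⟨⟨a1, a2, a3, a4, a5, a6, a7⟩, ⟨b1, b2, b3, b4, b5, b6⟩, ⟨c1, c2, c3, c4, c5⟩, ⟨d1, d2, d3, d4⟩,
    ⟨f1, f2, f3⟩, ⟨g1, g2⟩, k⟩ := Q.ne
  have hR : ∀ e, e ∉ Q.redn.R ↔ e ≠ Q.e1 ∧ e ≠ Q.e2 ∧ e ≠ Q.e3 ∧ e ≠ Q.e4 ∧ e ≠ Q.y ∧ e ≠ Q.w := by
    intro e
    rw [Q.redn_R]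
    simp [not_or]
  have hthx : Q.redn.th Q.x = Q.y := by
    rw [Q.redn_th, Equiv.Perm.mul_apply, Equiv.swap_apply_of_ne_of_ne f2 f3,
      Equiv.swap_apply_left]
  have hthz : Q.redn.th Q.z = Q.w := by
    rw [Q.redn_th, Equiv.Perm.mul_apply, Equiv.swap_apply_left,
      Equiv.swap_apply_of_ne_of_ne (Ne.symm f3) (Ne.symm g2)]
  have hth : ∀ e, e ∉ Q.redn.R → e ≠ Q.x → e ≠ Q.z → Q.redn.th e = e := by
    intro e he hx hz
    have h := (hR e).1 he
    rw [Q.redn_th, Equiv.Perm.mul_apply, Equiv.swap_apply_of_ne_of_ne hz h.2.2.2.2.2,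
      Equiv.swap_apply_of_ne_of_ne hx h.2.2.2.2.1]
  have hx1 : m.vx Q.x = m.vx Q.e1 := (m.hx _ _).2 (Or.inr (TopA_tri_SO Q.ta))
  have hy1 : m.vy Q.y = m.vy Q.e1 := (m.hy _ _).2 (Or.inr (TopA_tri_SO Q.tb))
  have hx3 : m.vx Q.z = m.vx Q.e3 := (m.hx _ _).2 (Or.inr (TopA_tri_SO Q.tc))
  have hy3 : m.vy Q.w = m.vy Q.e3 := (m.hy _ _).2 (Or.inr (TopA_tri_SO Q.td))
  refine TopA_gen m Q.redn
    (fun e he => if h : e = Q.x then
        ((((m.P Q.y).append ((m.P Q.e1).reverse.copy hy1.symm hx1.symm)).append (m.P Q.x)).copy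
          (by rw [h, hthx]) (by rw [h]))
      else if h' : e = Q.z then
        ((((m.P Q.w).append ((m.P Q.e3).reverse.copy hy3.symm hx3.symm)).append (m.P Q.z)).copy
          (by rw [h', hthz]) (by rw [h']))
      else (m.P e).copy (by rw [hth e he h h']) rfl)
    (fun e a => a = e ∨ (e = Q.x ∧ (a = Q.y ∨ a = Q.e1)) ∨ (e = Q.z ∧ (a = Q.w ∨ a = Q.e3)))
    ?_ ?_ ?_ ?_ ?_ ?_
  · intro e he x hx
    by_cases h : e = Q.x
    · rw [dif_pos h] at hx
      rw [SimpleGraph.Walk.support_copy, SimpleGraph.Walk.mem_support_append_iff,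
        SimpleGraph.Walk.mem_support_append_iff, SimpleGraph.Walk.support_copy,
        SimpleGraph.Walk.support_reverse, List.mem_reverse] at hx
      rcases hx with (hx | hx) | hx
      · exact ⟨Q.y, Or.inr (Or.inl ⟨h, Or.inl rfl⟩), hx⟩
      · exact ⟨Q.e1, Or.inr (Or.inl ⟨h, Or.inr rfl⟩), hx⟩
      · exact ⟨Q.x, Or.inl h.symm, hx⟩
    · by_cases h' : e = Q.z
      · rw [dif_neg h, dif_pos h'] at hx
        rw [SimpleGraph.Walk.support_copy, SimpleGraph.Walk.mem_support_append_iff,
          SimpleGraph.Walk.mem_support_append_iff, SimpleGraph.Walk.support_copy,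
          SimpleGraph.Walk.support_reverse, List.mem_reverse] at hx
        rcases hx with (hx | hx) | hx
        · exact ⟨Q.w, Or.inr (Or.inr ⟨h', Or.inl rfl⟩), hx⟩
        · exact ⟨Q.e3, Or.inr (Or.inr ⟨h', Or.inr rfl⟩), hx⟩
        · exact ⟨Q.z, Or.inl h'.symm, hx⟩
      · rw [dif_neg h, dif_neg h'] at hx
        rw [SimpleGraph.Walk.support_copy] at hx
        exact ⟨e, Or.inl rfl, hx⟩
  · exact fun e _ => Or.inl rfl
  · intro e he
    by_cases h : e = Q.x
    · right; left
      refine ⟨h, Or.inl ?_⟩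
      rw [h, hthx]
    · by_cases h' : e = Q.z
      · right; right
        refine ⟨h', Or.inl ?_⟩
        rw [h', hthz]
      · left
        exact hth e he h h'
  · rintro e f a he hf hne ha hb
    have he' := (hR e).1 he
    have hf' := (hR f).1 hf
    clear hR hthx hthz hth hx1 hy1 hx3 hy3
    rcases ha with rfl | ⟨rfl, rfl | rfl⟩ | ⟨rfl, rfl | rfl⟩ <;>
    rcases hb with h | ⟨h, h' | h'⟩ | ⟨h, h' | h'⟩ <;> simp_all
  · rintro e f a b he hf hne ha hb hab
    have he' := (hR e).1 he
    have hf' := (hR f).1 hf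
    by_cases h : e = Q.x
    · subst h
      rw [hthx]
      have key : (a = Q.x ∨ a = Q.e1 ∨ a = Q.e4) → False := by
        intro h3
        have h4 := TopA_tri Q.ta h3 hab
        rcases hb with rfl | ⟨h5, _⟩ | ⟨_, h5⟩
        · rcases h4 with h4 | h4 | h4
          · exact hne h4.symm
          · exact hf'.1 h4
          · exact hf'.2.2.2.1 h4
        · exact hne h5.symm
        · rcases h5 with rfl | rfl
          · rcases h4 with h4 | h4 | h4
            · exact f3 h4.symm
            · exact a7 h4.symm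
            · exact d4 h4.symm
          · rcases h4 with h4 | h4 | h4
            · exact c2 h4
            · exact a2 h4.symm
            · exact c1 h4
      rcases ha with rfl | ⟨_, rfl | rfl⟩ | ⟨h5, _⟩
      · exact (key (Or.inl rfl)).elim
      · rfl
      · exact (key (Or.inr (Or.inl rfl))).elim
      · exact (f2 h5).elim
    · by_cases h' : e = Q.z
      · subst h'
        rw [hthz]
        have key : (a = Q.z ∨ a = Q.e3 ∨ a = Q.e2) → False := by
          intro h3
          have h4 := TopA_tri Q.tc h3 hab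
          rcases hb with rfl | ⟨_, h5⟩ | ⟨h5, _⟩
          · rcases h4 with h4 | h4 | h4
            · exact hne h4.symm
            · exact hf'.2.2.1 h4
            · exact hf'.2.1 h4
          · rcases h5 with rfl | rfl
            · rcases h4 with h4 | h4 | h4
              · exact g1 h4
              · exact c3 h4.symm
              · exact b4 h4.symm
            · rcases h4 with h4 | h4 | h4
              · exact a6 h4
              · exact a2 h4
              · exact a1 h4
          · exact hne h5.symm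
        rcases ha with rfl | ⟨h5, _⟩ | ⟨_, rfl | rfl⟩
        · exact (key (Or.inl rfl)).elim
        · exact (f2 h5.symm).elim
        · rfl
        · exact (key (Or.inr (Or.inl rfl))).elim
      · rcases ha with rfl | ⟨h3, _⟩ | ⟨h3, _⟩
        · rw [hth _ he h h']
        · exact (h h3).elim
        · exact (h' h3).elim
  · rintro e f a b he hf hne ha hb hab
    have he' := (hR e).1 he
    have hf' := (hR f).1 hf
    rcases ha with rfl | ⟨rfl, ha⟩ | ⟨rfl, ha⟩
    · rfl
    · exfalso
      have h3 : a = Q.y ∨ a = Q.e1 ∨ a = Q.e2 := ha.elim Or.inl fun h => Or.inr (Or.inl h)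
      have h4 := TopA_tri Q.tb h3 hab
      rcases hb with rfl | ⟨h5, _⟩ | ⟨_, h5⟩
      · rcases h4 with h4 | h4 | h4
        · exact hf'.2.2.2.2.1 h4
        · exact hf'.1 h4
        · exact hf'.2.1 h4
      · exact hne h5.symm
      · rcases h5 with rfl | rfl
        · rcases h4 with h4 | h4 | h4
          · exact g2 h4.symm
          · exact a7 h4.symm
          · exact b6 h4.symm
        · rcases h4 with h4 | h4 | h4
          · exact c3 h4
          · exact a2 h4.symm
          · exact b1 h4.symm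
    · exfalso
      have h3 : a = Q.w ∨ a = Q.e3 ∨ a = Q.e4 := ha.elim Or.inl fun h => Or.inr (Or.inl h)
      have h4 := TopA_tri Q.td h3 hab
      rcases hb with rfl | ⟨_, h5⟩ | ⟨h5, _⟩
      · rcases h4 with h4 | h4 | h4
        · exact hf'.2.2.2.2.2 h4
        · exact hf'.2.2.1 h4
        · exact hf'.2.2.2.1 h4
      · rcases h5 with rfl | rfl
        · rcases h4 with h4 | h4 | h4
          · exact g2 h4
          · exact c3 h4.symm
          · exact d2 h4.symm
        · rcases h4 with h4 | h4 | h4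
          · exact a7 h4
          · exact a2 h4
          · exact a3 h4
      · exact hne h5.symm

end Pool.Agent.PP
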