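import Pool.Agent.Lib_MP_7c0803_pp.CutA1
import Pool.Agent.Lib_MP_7c0803_pp.CutA2
import Pool.Agent.Lib_MP_7c0803_pp.CutB
import Pool.Agent.Lib_MP_7c0803_pp.CutM2
import Pool.Agent.Lib_MP_7c0803_pp.CutM3
import Pool.Agent.Lib_MP_7c0803_pp.TopA
import Pool.Agent.Lib_MP_7c0803_pp.RedThm

/-!
Descent to a graph without parallel edges, 4-cycles and nontrivial edge cuts of size at most three.
-/

set_option autoImplicit false

open Finset Function

namespace Pool.Agent.PP

open SimpleGraph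

universe u v

variable {V : Type u} {G : SimpleGraph V}

/-- what the descent needs: a smaller graph with the same property -/
private def CutS_Sm (G : SimpleGraph V) {E : Type v} [Fintype E] (_B : CB E) : Prop :=
  ∃ (E' : Type v) (_ : Fintype E') (B' : CB E'), Fintype.card E' < Fintype.card E ∧ Nonempty (Mdl B' G) ∧ B'.PC ∧ ¬ B'.Con

private lemma CutS_card {E : Type v} [Fintype E] [DecidableEq E] (R : Finset E) (x : E) (hx : x ∉ R) :
    Fintype.card {e // e ∈ R} < Fintype.card E :=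
  Fintype.card_subtype_lt (x := x) (by simpa using hx)

private lemma CutS_zero {E : Type v} [Fintype E] [DecidableEq E] (B : CB E) (m : Mdl B G) (hp : B.PC) (hnC : ¬ B.Con)
    (S : Side B) (h : S.P = S.Q) (h1 : S.P.Nonempty) (h2 : S.compl.P.Nonempty) : CutS_Sm G B := by
  obtain ⟨x, hx⟩ := h1
  obtain ⟨y, hy⟩ := h2
  by_cases hc : (B.res S h).Con
  · have hc' : ¬ (B.res S.compl (S.compl_eq h)).Con := fun h' => hnC (res_Con B S h hc h')
    exact ⟨_, inferInstance, _, CutS_card _ x (by simpa [Side.compl] using hx), mdl_res m S.compl (S.compl_eq h),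
      res_PC B S.compl (S.compl_eq h) hp, hc'⟩
  · exact ⟨_, inferInstance, _, CutS_card _ y (by simpa [Side.compl] using hy), mdl_res m S h, res_PC B S h hp, hc⟩

private lemma CutS_two {E : Type v} [Fintype E] [DecidableEq E] (B : CB E) (m : Mdl B G) (hp : B.PC) (hnC : ¬ B.Con)
    (S : Side B) (C : Cut2 S) : CutS_Sm G B := by
  have hf : C.f ∈ S.P := by
    have : C.f ∈ S.P \ S.Q := by rw [C.hf]; simp
    exact (Finset.mem_sdiff.1 this).1
  have hg : C.g ∉ S.P := by
    have : C.g ∈ S.Q \ S.P := by rw [C.hg]; simp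
    exact (Finset.mem_sdiff.1 this).2
  by_cases hc : (B.cut2 C).Con
  · have hc' : ¬ (B.cut2 C.compl).Con := fun h' => hnC (cut2_Con B C hc h')
    exact ⟨_, inferInstance, _, CutS_card _ C.f (by simpa [Side.compl] using hf), mdl_cut2 m C.compl,
      cut2_PC B C.compl hp, hc'⟩
  · exact ⟨_, inferInstance, _, CutS_card _ C.g hg, mdl_cut2 m C, cut2_PC B C hp, hc⟩

private lemma CutS_three {E : Type v} [Fintype E] [DecidableEq E] (B : CB E) (m : Mdl B G) (hp : B.PC) (hnC : ¬ B.Con)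
    (S : Side B) (C : Cut3 S) (h1 : S.Q.Nonempty) (h2 : S.compl.P.Nonempty) : CutS_Sm G B := by
  obtain ⟨x, hx⟩ := h1
  obtain ⟨y, hy⟩ := h2
  by_cases hc : (B.cut3 C).Con
  · have hc' : ¬ (B.dual.cut3 C.dualCompl).Con := fun h' => hnC (cut3_Con B C hc h')
    obtain ⟨m'⟩ := mdl_dual m
    exact ⟨_, inferInstance, _, CutS_card _ x (by simpa [Side.dualCompl] using hx), mdl_cut3 m' C.dualCompl,
      cut3_PC B.dual C.dualCompl (dual_PC B hp), hc'⟩
  · exact ⟨_, inferInstance, _, CutS_card _ y (by simpa [Side.compl] using hy), mdl_cut3 m C, cut3_PC B C hp, hc⟩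

private lemma CutS_three' {E : Type v} [Fintype E] [DecidableEq E] (B : CB E) (m : Mdl B G) (hp : B.PC) (hnC : ¬ B.Con)
    (S : Side B) (h3 : (S.P \ S.Q).card = 3) (h0 : (S.Q \ S.P).card = 0) (h1 : ¬ S.P.card + S.Q.card ≤ 3)
    (h2 : ¬ S.compl.P.card + S.compl.Q.card ≤ 3) : CutS_Sm G B := by
  obtain ⟨a, b, c, hab, hac, hbc, he⟩ := Finset.card_eq_three.1 h3
  have h0' : S.Q \ S.P = ∅ := Finset.card_eq_zero.1 h0
  have hsub : S.Q ⊆ S.P := Finset.sdiff_eq_empty_iff_subset.1 h0'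
  have hcard := Finset.card_sdiff_add_card_inter S.P S.Q
  rw [Finset.inter_eq_right.2 hsub, h3] at hcard
  refine CutS_three B m hp hnC S ⟨![a, b, c], ?_, ?_, h0'⟩ ?_ ?_
  · intro i j hij
    fin_cases i <;> fin_cases j <;> simp_all
  · rw [he]; rfl
  · rw [← Finset.card_pos]
    by_contra h
    omega
  · rw [← Finset.card_pos]
    by_contra h
    have hP : S.compl.P.card = 0 := by omega
    have hPu : S.P = univ := by
      have := Finset.card_eq_zero.1 hP
      simpa [Side.compl] using this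
    have hQc : S.compl.Q.card = 3 := by
      have : S.compl.Q = S.P \ S.Q := by
        rw [hPu]; ext e; simp [Side.compl]
      rw [this, h3]
    omega

/-- a graph that is not `Cyc4` has a smaller piece -/
private lemma CutS_cut {E : Type v} [Fintype E] [DecidableEq E] (B : CB E) (m : Mdl B G) (hp : B.PC) (hnC : ¬ B.Con)
    (h : ¬ B.Cyc4) : CutS_Sm G B := by
  unfold CB.Cyc4 at h
  push Not at h
  obtain ⟨S, hS, h1, h2⟩ := h
  have hm := cut_mod S
  unfold Side.cut at hS
  have h1' : ¬ S.P.card + S.Q.card ≤ 3 := by omega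
  have h2' : ¬ S.compl.P.card + S.compl.Q.card ≤ 3 := by omega
  have hcases : ((S.P \ S.Q).card = 0 ∧ (S.Q \ S.P).card = 0) ∨ ((S.P \ S.Q).card = 1 ∧ (S.Q \ S.P).card = 1) ∨
      ((S.P \ S.Q).card = 3 ∧ (S.Q \ S.P).card = 0) ∨ ((S.P \ S.Q).card = 0 ∧ (S.Q \ S.P).card = 3) := by omega
  rcases hcases with ⟨ha, hb⟩ | ⟨ha, hb⟩ | ⟨ha, hb⟩ | ⟨ha, hb⟩
  · have e1 : S.P = S.Q := Finset.Subset.antisymm
      (Finset.sdiff_eq_empty_iff_subset.1 (Finset.card_eq_zero.1 ha))
      (Finset.sdiff_eq_empty_iff_subset.1 (Finset.card_eq_zero.1 hb))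
    refine CutS_zero B m hp hnC S e1 ?_ ?_
    · rw [← Finset.card_pos]
      by_contra h'
      rw [← e1] at h1'
      omega
    · rw [← Finset.card_pos]
      by_contra h'
      rw [← S.compl_eq e1] at h2'
      omega
  · obtain ⟨f, hf⟩ := Finset.card_eq_one.1 ha
    obtain ⟨g, hg⟩ := Finset.card_eq_one.1 hb
    exact CutS_two B m hp hnC S ⟨f, g, hf, hg⟩
  · exact CutS_three' B m hp hnC S ha hb h1' h2'
  · refine CutS_three' B m hp hnC S.compl ?_ ?_ h2' ?_
    · rw [← hb]
      congr 1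
      ext e
      simp [Side.compl]
      tauto
    · rw [← ha]
      congr 1
      ext e
      simp [Side.compl]
      tauto
    · have e1 : S.compl.compl.P = S.P := by simp [Side.compl]
      have e2 : S.compl.compl.Q = S.Q := by simp [Side.compl]
      rw [e1, e2]
      exact h1'

/-- one step of the descent -/
private lemma CutS_step {E : Type v} [Fintype E] [DecidableEq E] (B : CB E) (m : Mdl B G) (hp : B.PC) (hnC : ¬ B.Con) :
    CutS_Sm G B ∨ (IsEmpty (Th B) ∧ IsEmpty (Dg B) ∧ IsEmpty (Sq B) ∧ B.Cyc4) := by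
  by_cases hT : Nonempty (Th B)
  · obtain ⟨Q⟩ := hT
    exact Or.inl ⟨_, inferInstance, _, Fintype.card_subtype_lt (x := Q.e) (by simp [Th.redn_R]), mdl_Th m Q,
      theta_PC Q hp, fun h => hnC (theta_Con Q h)⟩
  by_cases hD : Nonempty (Dg B)
  · obtain ⟨Q⟩ := hD
    exact Or.inl ⟨_, inferInstance, _, Fintype.card_subtype_lt (x := Q.e) (by simp [Dg.redn_R]), mdl_Dg m Q,
      digon_PC Q hp, fun h => hnC (digon_Con Q h)⟩
  by_cases hS : Nonempty (Sq B)
  · obtain ⟨Q⟩ := hS
    exact Or.inl ⟨_, inferInstance, _, Fintype.card_subtype_lt (x := Q.e1) (by simp [Sq.redn_R]), mdl_Sq m Q,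
      square_PC Q hp, fun h => hnC (square_Con Q hp h)⟩
  by_cases hC : B.Cyc4
  · exact Or.inr ⟨not_nonempty_iff.mp hT, not_nonempty_iff.mp hD, not_nonempty_iff.mp hS, hC⟩
  · exact Or.inl (CutS_cut B m hp hnC hC)

/-- descent to a graph without parallel edges, 4-cycles and nontrivial edge cuts of size at most three -/
theorem exists_stuck2 (N : ℕ) : ∀ (E : Type v) [Fintype E] (B : CB E), Fintype.card E ≤ N → Nonempty (Mdl B G) → B.PC →
    ¬ B.Con → ∃ (E' : Type v) (_ : Fintype E') (_ : DecidableEq E') (B' : CB E'), Nonempty (Mdl B' G) ∧ B'.PC ∧ ¬ B'.Con ∧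
      IsEmpty (Th B') ∧ IsEmpty (Dg B') ∧ IsEmpty (Sq B') ∧ B'.Cyc4 := by
  induction N with
  | zero =>
    intro E _ B hN _ _ hnC
    exfalso
    have : IsEmpty E := Fintype.card_eq_zero_iff.mp (by omega)
    exact hnC (red_con E B (Red.empty E B this) (fun c c' _ _ => by rw [Subsingleton.elim c c']))
  | succ N ih =>
    intro E _ B hN hm hp hnC
    classical
    obtain ⟨m⟩ := hm
    rcases CutS_step B m hp hnC with ⟨E', hF, B', hlt, hm', hp', hc'⟩ | ⟨h1, h2, h3, h4⟩
    · exact ih E' B' (by omega) hm' hp' hc'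
    · exact ⟨E, inferInstance, inferInstance, B, ⟨m⟩, hp, hnC, h1, h2, h3, h4⟩

end Pool.Agent.PP
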