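import Mathlib

set_option autoImplicit false

open Finset Function

namespace Pool.Agent.PP

/-- a cubic bipartite multigraph with edge set `E` and rotations at the `X`-ends (`s`) and the `Y`-ends (`t`) -/
structure CB (E : Type*) where
  s : Equiv.Perm E
  t : Equiv.Perm E
  s3 : ∀ e, s (s (s e)) = e
  t3 : ∀ e, t (t (t e)) = e
  s1 : ∀ e, s e ≠ e
  t1 : ∀ e, t e ≠ e

/-- proper 3-edge-colouring -/
def CB.P {E : Type*} (G : CB E) (c : E → Fin 3) : Prop := ∀ e, c (G.s e) ≠ c e ∧ c (G.t e) ≠ c e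

/-- two colourings share a colour class -/
def Rel {E : Type*} (c c' : E → Fin 3) : Prop := ∃ k, ∀ e, c e = k ↔ c' e = k

/-- Kempe equivalence of proper colourings -/
def CB.KE {E : Type*} (G : CB E) (c c' : E → Fin 3) : Prop :=
  Relation.EqvGen (fun a b => G.P a ∧ G.P b ∧ Rel a b) c c'

/-- all proper colourings are Kempe equivalent -/
def CB.Con {E : Type*} (G : CB E) : Prop := ∀ c c', G.P c → G.P c' → G.KE c c'

/-- sign of a difference -/
def sg (d : Fin 3) : ZMod 2 := if d = 1 then 1 else 0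

/-- parity of a colouring -/
def CB.par {E : Type*} [Fintype E] (G : CB E) (c : E → Fin 3) : ZMod 2 :=
  ∑ e, sg (c (G.s e) - c e) + ∑ e, sg (c (G.t e) - c e)

/-- all proper colourings have the same parity -/
def CB.PC {E : Type*} [Fintype E] (G : CB E) : Prop := ∀ c c', G.P c → G.P c' → G.par c = G.par c'

/-- `{x, y, z}` is an orbit of `s` -/
def Tri {E : Type*} (s : Equiv.Perm E) (x y z : E) : Prop :=
  (s x = y ∧ s y = z ∧ s z = x) ∨ (s x = z ∧ s z = y ∧ s y = x)

section basic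
variable {E : Type*}

lemma Tri.swap {s : Equiv.Perm E} {x y z : E} (h : Tri s x y z) : Tri s x z y := by
  rcases h with ⟨h1, h2, h3⟩ | ⟨h1, h2, h3⟩
  · exact Or.inr ⟨h1, h2, h3⟩
  · exact Or.inl ⟨h1, h2, h3⟩

lemma Tri.rot {s : Equiv.Perm E} {x y z : E} (h : Tri s x y z) : Tri s y z x := by
  rcases h with ⟨h1, h2, h3⟩ | ⟨h1, h2, h3⟩
  · exact Or.inl ⟨h2, h3, h1⟩
  · exact Or.inr ⟨h3, h1, h2⟩

lemma ne3 : ∀ a b c d : Fin 3, a ≠ b → c ≠ a → c ≠ b → d ≠ a → d ≠ b → d = c := by decide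

lemma sg_neg : ∀ a b : Fin 3, a ≠ b → sg (b - a) = sg (a - b) + 1 := by decide

lemma sg_third : ∀ a b c : Fin 3, a ≠ b → b ≠ c → c ≠ a → sg (c - a) = sg (b - a) + 1 := by decide

lemma sg_cyc : ∀ a b c : Fin 3, a ≠ b → b ≠ c → c ≠ a → sg (c - b) = sg (b - a) := by decide

lemma ind3 : ∀ a b c k : Fin 3, a ≠ b → b ≠ c → c ≠ a →
    (1 : ZMod 2) = (if a = k then 1 else 0) + (if b = k then 1 else 0) + (if c = k then 1 else 0) := by decide

/-- the sum of a function constant on the vertices over all edges equals the sum over one colour class -/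
lemma sum_class {E : Type*} [Fintype E] (s : Equiv.Perm E) (s3 : ∀ e, s (s (s e)) = e) (c : E → Fin 3)
    (hc : ∀ e, c (s e) ≠ c e) (g : E → ZMod 2) (hg : ∀ e, g (s e) = g e) (k : Fin 3) :
    ∑ e, g e = ∑ e, if c e = k then g e else 0 := by
  have h1 : ∀ e, g e = (if c e = k then g e else 0) + (if c (s e) = k then g (s e) else 0) +
      (if c (s (s e)) = k then g (s (s e)) else 0) := by
    intro e
    have h := ind3 (c e) (c (s e)) (c (s (s e))) k (hc e).symm (hc (s e)).symm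
      (by have := hc (s (s e)); rw [s3] at this; exact this.symm)
    rw [hg (s e), hg e]
    calc g e = g e * 1 := (mul_one _).symm
      _ = _ := by rw [h]; simp only [mul_add, mul_ite, mul_one, mul_zero]
  have h2 : ∑ e, (if c (s e) = k then g (s e) else 0) = ∑ e, if c e = k then g e else 0 :=
    Equiv.sum_comp s (fun e => if c e = k then g e else 0)
  have h3 : ∑ e, (if c (s (s e)) = k then g (s (s e)) else 0) = ∑ e, if c e = k then g e else 0 := by
    rw [← h2]
    exact Equiv.sum_comp s (fun e => if c (s e) = k then g (s e) else 0)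
  have h4 : ∑ e, g e = (∑ e, if c e = k then g e else 0) + (∑ e, if c (s e) = k then g (s e) else 0) +
      (∑ e, if c (s (s e)) = k then g (s (s e)) else 0) := by
    rw [← Finset.sum_add_distrib, ← Finset.sum_add_distrib]
    exact Finset.sum_congr rfl (fun e _ => h1 e)
  rw [h4, h3, h2]
  have : ∀ a : ZMod 2, a + a + a = a := by decide
  exact this _

end basic


section redn
variable {E : Type*}

/-- reduction data: removed edges `R`, relabelling `th` -/
structure Redn (G : CB E) where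
  R : Finset E
  th : Equiv.Perm E
  thth : ∀ e, th (th e) = e
  ht : ∀ e, G.t e ∈ R ↔ e ∈ R
  hs : ∀ e, th (G.s (th e)) ∈ R ↔ e ∈ R

/-- the reduced graph -/
def CB.red (G : CB E) (D : Redn G) : CB {e // e ∉ D.R} where
  s := (D.th * G.s * D.th : Equiv.Perm E).subtypePerm (fun e => not_congr (D.hs e))
  t := G.t.subtypePerm (fun e => not_congr (D.ht e))
  s3 := by
    rintro ⟨e, he⟩
    apply Subtype.ext
    simp [Equiv.Perm.subtypePerm_apply, D.thth, G.s3]
  t3 := by
    rintro ⟨e, he⟩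
    apply Subtype.ext
    simp [Equiv.Perm.subtypePerm_apply, G.t3]
  s1 := by
    rintro ⟨e, he⟩ h
    have h1 := congrArg Subtype.val h
    simp only [Equiv.Perm.subtypePerm_apply, Equiv.Perm.coe_mul, Function.comp_apply] at h1
    have h2 := congrArg D.th h1
    rw [D.thth] at h2
    exact G.s1 _ h2
  t1 := by
    rintro ⟨e, he⟩ h
    exact G.t1 e (congrArg Subtype.val h)

lemma red_s (G : CB E) (D : Redn G) (x : {e // e ∉ D.R}) :
    ((G.red D).s x).1 = D.th (G.s (D.th x.1)) := rfl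

lemma red_t (G : CB E) (D : Redn G) (x : {e // e ∉ D.R}) : ((G.red D).t x).1 = G.t x.1 := rfl

lemma red_P (G : CB E) (D : Redn G) (c : E → Fin 3) (hc : G.P c) (hth : ∀ e, c (D.th e) = c e) :
    (G.red D).P (fun x => c x.1) := by
  intro x
  constructor
  · show c ((G.red D).s x).1 ≠ c x.1
    rw [red_s, hth, ← hth x.1]
    exact (hc _).1
  · exact (hc _).2

/-- lifting an equivalence through a map of colourings -/
lemma KE_map {E' : Type*} (G : CB E) (G' : CB E') (L : (E' → Fin 3) → (E → Fin 3))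
    (hL : ∀ c c', G'.P c → G'.P c' → Rel c c' → G.KE (L c) (L c')) (c c' : E' → Fin 3)
    (h : G'.KE c c') : G.KE (L c) (L c') := by
  induction h with
  | rel x y h => exact hL x y h.1 h.2.1 h.2.2
  | refl x => exact Relation.EqvGen.refl _
  | symm x y _ ih => exact Relation.EqvGen.symm _ _ ih
  | trans x y z _ _ ih1 ih2 => exact Relation.EqvGen.trans _ _ _ ih1 ih2

lemma KE_of_rel (G : CB E) {c c' : E → Fin 3} (h : G.P c) (h' : G.P c') (hr : Rel c c') : G.KE c c' :=
  Relation.EqvGen.rel _ _ ⟨h, h', hr⟩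

variable [Fintype E] [DecidableEq E]

lemma red_par (G : CB E) (D : Redn G) (c : E → Fin 3) (hth : ∀ e, c (D.th e) = c e) :
    G.par c = (G.red D).par (fun x => c x.1) +
      (∑ e ∈ univ.filter (fun e => D.th e ∈ D.R), sg (c (G.s e) - c e) +
        ∑ e ∈ D.R, sg (c (G.t e) - c e)) := by
  have h1 : ∑ x : {e // e ∉ D.R}, sg (c (((G.red D).s x).1) - c x.1) =
      ∑ e ∈ univ.filter (fun e => D.th e ∉ D.R), sg (c (G.s e) - c e) := by
    have e1 : ∑ x : {e // e ∉ D.R}, sg (c (((G.red D).s x).1) - c x.1) =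
        ∑ e ∈ univ.filter (fun e => e ∉ D.R), sg (c (D.th (G.s (D.th e))) - c e) := by
      rw [Finset.sum_subtype (p := fun e => e ∉ D.R) _ (by simp)]
      rfl
    rw [e1]
    apply Finset.sum_bij (fun e _ => D.th e)
    · intro e he
      simpa [D.thth] using he
    · intro a _ b _ h
      exact D.th.injective h
    · intro b hb
      refine ⟨D.th b, by simpa using hb, D.thth b⟩
    · intro e _
      rw [hth, hth]
  have h2 : ∑ x : {e // e ∉ D.R}, sg (c (((G.red D).t x).1) - c x.1) =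
      ∑ e ∈ univ.filter (fun e => e ∉ D.R), sg (c (G.t e) - c e) := by
    rw [Finset.sum_subtype (p := fun e => e ∉ D.R) _ (by simp)]
    rfl
  unfold CB.par
  rw [h1, h2, ← Finset.sum_filter_add_sum_filter_not univ (fun e => D.th e ∈ D.R) (fun e => sg (c (G.s e) - c e)),
    ← Finset.sum_filter_add_sum_filter_not univ (fun e => e ∈ D.R) (fun e => sg (c (G.t e) - c e))]
  have h3 : univ.filter (fun e => e ∈ D.R) = D.R := by ext; simp
  rw [h3]
  ring

end redn

section tri
variable {E : Type*}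

lemma Tri.mem {s : Equiv.Perm E} {x y z : E} (h : Tri s x y z) (e : E) :
    (s e = x ∨ s e = y ∨ s e = z) ↔ (e = x ∨ e = y ∨ e = z) := by
  have hi := s.injective
  rcases h with ⟨h1, h2, h3⟩ | ⟨h1, h2, h3⟩
  · constructor
    · rintro (h | h | h)
      · exact Or.inr (Or.inr (hi (h.trans h3.symm)))
      · exact Or.inl (hi (h.trans h1.symm))
      · exact Or.inr (Or.inl (hi (h.trans h2.symm)))
    · rintro (h | h | h)
      · exact Or.inr (Or.inl (by rw [h, h1]))
      · exact Or.inr (Or.inr (by rw [h, h2]))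
      · exact Or.inl (by rw [h, h3])
  · constructor
    · rintro (h | h | h)
      · exact Or.inr (Or.inl (hi (h.trans h3.symm)))
      · exact Or.inr (Or.inr (hi (h.trans h2.symm)))
      · exact Or.inl (hi (h.trans h1.symm))
    · rintro (h | h | h)
      · exact Or.inr (Or.inr (by rw [h, h1]))
      · exact Or.inl (by rw [h, h3])
      · exact Or.inr (Or.inl (by rw [h, h2]))

lemma Tri.ne {s : Equiv.Perm E} {x y z : E} (h : Tri s x y z) (h1 : ∀ e, s e ≠ e) :
    x ≠ y ∧ x ≠ z ∧ y ≠ z := by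
  rcases h with ⟨a, b, c⟩ | ⟨a, b, c⟩
  · refine ⟨fun h => h1 x (by rw [a, h]), fun h => h1 z (by rw [c, h]), fun h => h1 y (by rw [b, h])⟩
  · refine ⟨fun h => h1 y (by rw [c, h]), fun h => h1 x (by rw [a, h]), fun h => h1 z (by rw [b, h])⟩

/-- colours at a vertex of a proper colouring -/
lemma Tri.col {s : Equiv.Perm E} {x y z : E} (h : Tri s x y z) {c : E → Fin 3} (hc : ∀ e, c (s e) ≠ c e) :
    c x ≠ c y ∧ c x ≠ c z ∧ c y ≠ c z := by
  rcases h with ⟨a, b, d⟩ | ⟨a, b, d⟩
  · have h1 := hc x; have h2 := hc y; have h3 := hc z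
    rw [a] at h1; rw [b] at h2; rw [d] at h3
    exact ⟨h1.symm, h3, h2.symm⟩
  · have h1 := hc x; have h2 := hc y; have h3 := hc z
    rw [a] at h1; rw [b] at h3; rw [d] at h2
    exact ⟨h2, h1.symm, h3⟩

/-- properness at a vertex from the colours -/
lemma Tri.proper {s : Equiv.Perm E} {x y z : E} (h : Tri s x y z) {c : E → Fin 3}
    (h1 : c x ≠ c y) (h2 : c x ≠ c z) (h3 : c y ≠ c z) (e : E) (he : e = x ∨ e = y ∨ e = z) : c (s e) ≠ c e := by
  rcases h with ⟨a, b, d⟩ | ⟨a, b, d⟩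
  · rcases he with rfl | rfl | rfl
    · rw [a]; exact h1.symm
    · rw [b]; exact h3.symm
    · rw [d]; exact h2
  · rcases he with rfl | rfl | rfl
    · rw [a]; exact h2.symm
    · rw [d]; exact h1
    · rw [b]; exact h3

/-- parity contribution of a vertex -/
lemma Tri.sum {s : Equiv.Perm E} {x y z : E} [DecidableEq E] (h : Tri s x y z) (hs : ∀ e, s e ≠ e)
    {c : E → Fin 3} (hc : ∀ e, c (s e) ≠ c e) :
    sg (c (s x) - c x) + sg (c (s y) - c y) + sg (c (s z) - c z) =
      sg (c y - c x) + (if s x = y then 0 else 1) := by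
  have hn := h.ne hs
  obtain ⟨n1, n2, n3⟩ := h.col hc
  rcases h with ⟨a, b, d⟩ | ⟨a, b, d⟩
  · rw [a, b, d, if_pos rfl]
    generalize c x = p at *
    generalize c y = q at *
    generalize c z = r at *
    revert p q r
    decide
  · rw [a, b, d, if_neg (Ne.symm hn.2.2)]
    generalize c x = p at *
    generalize c y = q at *
    generalize c z = r at *
    revert p q r
    decide

end tri

/-! ## Square and digon data -/

section data
variable {E : Type*}

/-- a 4-cycle `a b c d` (`a, c` in `X`, `b, d` in `Y`) with edges `e1 = ab`, `e2 = bc`, `e3 = cd`, `e4 = da` and outer edges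
`x, y, z, w` at `a, b, c, d` -/
structure Sq (G : CB E) where
  (e1 e2 e3 e4 x y z w : E)
  ta : Tri G.s x e1 e4
  tb : Tri G.t y e1 e2
  tc : Tri G.s z e3 e2
  td : Tri G.t w e3 e4
  nd : [e1, e2, e3, e4, x, y, z, w].Nodup

/-- the same 4-cycle with the opposite orientation `a d c b` -/
def Sq.flip {G : CB E} (Q : Sq G) : Sq G where
  e1 := Q.e4
  e2 := Q.e3
  e3 := Q.e2
  e4 := Q.e1
  x := Q.x
  y := Q.w
  z := Q.z
  w := Q.y
  ta := Q.ta.swap
  tb := Q.td.swap
  tc := Q.tc.swap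
  td := Q.tb.swap
  nd := by
    have h := Q.nd
    simp only [List.nodup_cons, List.mem_cons, not_or, List.not_mem_nil, not_false_eq_true,
      List.nodup_nil, and_true] at h ⊢
    tauto

/-- two parallel edges `e, f`; `g` is the third edge at the `X`-end, `h` the third edge at the `Y`-end, `g ≠ h` -/
structure Dg (G : CB E) where
  (e f g h : E)
  tg : Tri G.s g e f
  th : Tri G.t h e f
  gh : g ≠ h

/-- three parallel edges: a component -/
structure Th (G : CB E) where
  (e f g : E)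
  ts : Tri G.s g e f
  tt : Tri G.t g e f

variable [DecidableEq E]

omit [DecidableEq E] in
/-- the eight edges are distinct -/
lemma Sq.ne {G : CB E} (Q : Sq G) :
    (Q.e1 ≠ Q.e2 ∧ Q.e1 ≠ Q.e3 ∧ Q.e1 ≠ Q.e4 ∧ Q.e1 ≠ Q.x ∧ Q.e1 ≠ Q.y ∧ Q.e1 ≠ Q.z ∧ Q.e1 ≠ Q.w) ∧
    (Q.e2 ≠ Q.e3 ∧ Q.e2 ≠ Q.e4 ∧ Q.e2 ≠ Q.x ∧ Q.e2 ≠ Q.y ∧ Q.e2 ≠ Q.z ∧ Q.e2 ≠ Q.w) ∧
    (Q.e3 ≠ Q.e4 ∧ Q.e3 ≠ Q.x ∧ Q.e3 ≠ Q.y ∧ Q.e3 ≠ Q.z ∧ Q.e3 ≠ Q.w) ∧
    (Q.e4 ≠ Q.x ∧ Q.e4 ≠ Q.y ∧ Q.e4 ≠ Q.z ∧ Q.e4 ≠ Q.w) ∧
    (Q.x ≠ Q.y ∧ Q.x ≠ Q.z ∧ Q.x ≠ Q.w) ∧ (Q.y ≠ Q.z ∧ Q.y ≠ Q.w) ∧ Q.z ≠ Q.w := by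
  have h := Q.nd
  simp only [List.nodup_cons, List.mem_cons, not_or, List.not_mem_nil, not_false_eq_true,
    List.nodup_nil, and_true] at h
  exact h

/-- removing `bc` and `da` from the 4-cycle: the new edges `a'b'`, `c'd'` are called `x`, `z` -/
def Sq.redn {G : CB E} (Q : Sq G) : Redn G where
  R := {Q.e1, Q.e2, Q.e3, Q.e4, Q.y, Q.w}
  th := Equiv.swap Q.x Q.y * Equiv.swap Q.z Q.w
  thth := by
    obtain ⟨⟨a1, a2, a3, a4, a5, a6, a7⟩, ⟨b1, b2, b3, b4, b5, b6⟩, ⟨c1, c2, c3, c4, c5⟩, ⟨d1, d2, d3, d4⟩,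
      ⟨f1, f2, f3⟩, ⟨g1, g2⟩, k⟩ := Q.ne
    intro e
    simp only [Equiv.Perm.mul_apply, Equiv.swap_apply_def]
    split_ifs <;> simp_all
  ht := by
    intro e
    have h1 := Q.tb.mem e
    have h2 := Q.td.mem e
    simp only [Finset.mem_insert, Finset.mem_singleton]
    tauto
  hs := by
    obtain ⟨⟨a1, a2, a3, a4, a5, a6, a7⟩, ⟨b1, b2, b3, b4, b5, b6⟩, ⟨c1, c2, c3, c4, c5⟩, ⟨d1, d2, d3, d4⟩,
      ⟨f1, f2, f3⟩, ⟨g1, g2⟩, k⟩ := Q.ne
    have hth : ∀ a, (Equiv.swap Q.x Q.y * Equiv.swap Q.z Q.w) a ∈ ({Q.e1, Q.e2, Q.e3, Q.e4, Q.y, Q.w} : Finset E) ↔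
        (a = Q.x ∨ a = Q.e1 ∨ a = Q.e4) ∨ (a = Q.z ∨ a = Q.e3 ∨ a = Q.e2) := by
      intro a
      simp only [Equiv.Perm.mul_apply, Equiv.swap_apply_def, Finset.mem_insert, Finset.mem_singleton]
      split_ifs <;> simp_all <;> tauto
    have hthth : ∀ e, (Equiv.swap Q.x Q.y * Equiv.swap Q.z Q.w) ((Equiv.swap Q.x Q.y * Equiv.swap Q.z Q.w) e) = e := by
      intro e
      simp only [Equiv.Perm.mul_apply, Equiv.swap_apply_def]
      split_ifs <;> simp_all
    intro e
    rw [hth, Q.ta.mem, Q.tc.mem, ← hth, hthth]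

lemma Sq.redn_R {G : CB E} (Q : Sq G) : Q.redn.R = {Q.e1, Q.e2, Q.e3, Q.e4, Q.y, Q.w} := rfl

lemma Sq.redn_th {G : CB E} (Q : Sq G) : Q.redn.th = Equiv.swap Q.x Q.y * Equiv.swap Q.z Q.w := rfl

/-- removing `f` from the digon -/
def Dg.redn {G : CB E} (Q : Dg G) : Redn G where
  R := {Q.e, Q.f, Q.h}
  th := Equiv.swap Q.g Q.h
  thth := by
    intro e
    simp [← Equiv.Perm.mul_apply]
  ht := by
    intro e
    have h1 := Q.th.mem e
    simp only [Finset.mem_insert, Finset.mem_singleton]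
    tauto
  hs := by
    have h1 := Q.tg.ne G.s1
    have h2 := Q.th.ne G.t1
    have h3 := Q.gh
    have hth : ∀ a, Equiv.swap Q.g Q.h a ∈ ({Q.e, Q.f, Q.h} : Finset E) ↔
        (a = Q.g ∨ a = Q.e ∨ a = Q.f) := by
      intro a
      simp only [Equiv.swap_apply_def, Finset.mem_insert, Finset.mem_singleton]
      split_ifs <;> simp_all
    intro e
    rw [hth, Q.tg.mem, ← hth, Equiv.swap_apply_self]

lemma Dg.redn_R {G : CB E} (Q : Dg G) : Q.redn.R = {Q.e, Q.f, Q.h} := rfl

lemma Dg.redn_th {G : CB E} (Q : Dg G) : Q.redn.th = Equiv.swap Q.g Q.h := rfl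

/-- removing a component with three parallel edges -/
def Th.redn {G : CB E} (Q : Th G) : Redn G where
  R := {Q.e, Q.f, Q.g}
  th := 1
  thth := fun _ => rfl
  ht := by
    intro e
    have h1 := Q.tt.mem e
    simp only [Finset.mem_insert, Finset.mem_singleton]
    tauto
  hs := by
    intro e
    have h1 := Q.ts.mem e
    simp only [Finset.mem_insert, Finset.mem_singleton, Equiv.Perm.coe_one, id]
    tauto

lemma Th.redn_R {G : CB E} (Q : Th G) : Q.redn.R = {Q.e, Q.f, Q.g} := rfl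

lemma Th.redn_th {G : CB E} (Q : Th G) : Q.redn.th = 1 := rfl

end data

/-! ## The reducible class -/

/-- the class of graphs which can be reduced to the empty graph -/
inductive Red.{u} : (E : Type u) → CB E → Prop
  | empty (E : Type u) (G : CB E) (h : IsEmpty E) : Red E G
  | theta (E : Type u) [DecidableEq E] (G : CB E) (Q : Th G) (h : Red _ (G.red Q.redn)) : Red E G
  | digon (E : Type u) [DecidableEq E] (G : CB E) (Q : Dg G) (h : Red _ (G.red Q.redn)) : Red E G
  | square (E : Type u) [DecidableEq E] (G : CB E) (Q : Sq G) (h : Red _ (G.red Q.redn)) : Red E G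

/-! ## Embeddings -/

section emb
variable {E : Type*}

/-- connected: no proper nonempty set of edges is closed under both rotations -/
def CB.Cn (G : CB E) : Prop := ∀ A : Set E, A.Nonempty → (∀ e ∈ A, G.s e ∈ A ∧ G.t e ∈ A) → A = Set.univ

/-- face tracing: the state `(e, true, o)` means: the edge `e` is traversed from its `X`-end to its `Y`-end, `o` is the local
orientation at the start; `(e, false, o)` from the `Y`-end to the `X`-end -/
def CB.nx (G : CB E) (tw : E → Bool) : E × Bool × Bool → E × Bool × Bool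
  | (e, true, o) => (if xor o (tw e) then G.t e else G.t.symm e, false, xor o (tw e))
  | (e, false, o) => (if xor o (tw e) then G.s e else G.s.symm e, true, xor o (tw e))

/-- the same side of the same edge, traversed in the other direction -/
def CB.rv (_G : CB E) (tw : E → Bool) : E × Bool × Bool → E × Bool × Bool
  | (e, d, o) => (e, !d, !(xor o (tw e)))

/-- the faces -/
def CB.Fc (G : CB E) (tw : E → Bool) : Type _ := Quot (fun a b => G.nx tw a = b ∨ G.rv tw a = b)

/-- functions on the faces -/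
def CB.Inv (G : CB E) (tw : E → Bool) : Submodule (ZMod 2) (E × Bool × Bool → ZMod 2) where
  carrier := {f | ∀ a, f (G.nx tw a) = f a ∧ f (G.rv tw a) = f a}
  add_mem' := by
    intro f g hf hg a
    simp only [Pi.add_apply]
    exact ⟨by rw [(hf a).1, (hg a).1], by rw [(hf a).2, (hg a).2]⟩
  zero_mem' := by
    intro a
    simp
  smul_mem' := by
    intro r f hf a
    simp only [Pi.smul_apply]
    exact ⟨by rw [(hf a).1], by rw [(hf a).2]⟩

/-- Euler characteristic at least one (`|V| - |E| + |F| = |F| - |E| / 3`) -/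
def CB.Chi1 (G : CB E) (tw : E → Bool) : Prop := Nat.card E + 3 ≤ 3 * Nat.card (G.Fc tw)

/-- the colour `k` as an element of `(ZMod 2)²` -/
def kap (k : Fin 3) : ZMod 2 × ZMod 2 := if k = 0 then (1, 0) else if k = 1 then (0, 1) else (1, 1)

/-- `c` comes from a proper 4-colouring `F` of the faces: `F + F' = kap (c e)` for the two sides of every edge `e` -/
def CB.Facial (G : CB E) (tw : E → Bool) (c : E → Fin 3) : Prop :=
  ∃ F : E × Bool × Bool → ZMod 2 × ZMod 2, (∀ a, F (G.nx tw a) = F a ∧ F (G.rv tw a) = F a) ∧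
    ∀ e d o, F (e, d, o) + F (e, d, !o) = kap (c e)

end emb

end Pool.Agent.PP
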