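import Pool.Agent.Lib_MP_7c0803_pp.FacialB

/-!
Two more dimension counts in the style of `dim_step` (`FacialB.lean`; make the private lemmas there public if you need them).
`|E| = 3 n`, `Bs`, `Bt` = `s`- resp. `t`-invariant functions, `B` = boundaries of functions in `G.Inv tw`.

* `dim_sphere`: `#Fc ≥ n + 2`, so `finrank B ≥ n + 1`.  If `v ∉ B`, then `finrank (B ⊔ span {v}) ≥ n + 2`, its orthogonal space has
  `finrank ≤ 2 n - 2`, but contains `Bs ⊔ Bt` of `finrank ≥ 2 n - 1`.
* `dim_proj`: `#Fc ≤ n + 1`; `finrank B ≤ #Fc - 1 ≤ n` (the constant function is in the kernel of the boundary map), so the orthogonal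
  space of `B` has `finrank ≥ 2 n`; `finrank Bs ≤ n`, `finrank Bt ≤ n` (an `s`-invariant function is determined by its values on
  `{c e = 0}`, which has `n` elements) and `finrank (Bs ⊓ Bt) ≥ 1` (constant function, `E` is nonempty), so
  `finrank (Bs ⊔ Bt) ≤ 2 n - 1`.  So there is `z` orthogonal to `B` and not in `Bs ⊔ Bt`.
-/

set_option autoImplicit false

open Finset Function

namespace Pool.Agent.PP

universe u

variable {E : Type u} [Fintype E]

/-- the dot product -/
private noncomputable def Dim2_dot (E : Type u) [Fintype E] : LinearMap.BilinForm (ZMod 2) (E → ZMod 2) :=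
  dotProductBilin (ZMod 2) (ZMod 2)

private lemma Dim2_dot_apply (x y : E → ZMod 2) : Dim2_dot E x y = ∑ e, x e * y e := rfl

private lemma Dim2_nd : (Dim2_dot E).Nondegenerate := by
  constructor
  · intro x hx
    exact dotProduct_eq_zero x (fun w => hx w)
  · intro x hx
    exact dotProduct_eq_zero x (fun w => by
      rw [dotProduct_comm]
      exact hx w)

private lemma Dim2_sw (x y : E → ZMod 2) : ∑ e, x e * y e = ∑ e, y e * x e :=
  Finset.sum_congr rfl fun _ _ => mul_comm _ _

theorem dim_sphere (G : CB E) (tw : E → Bool) (hC : G.Cn) (hχ : Nat.card E + 6 ≤ 3 * Nat.card (G.Fc tw))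
    {c : E → Fin 3} (hc : G.P c) (v : E → ZMod 2)
    (hs : ∀ p : E → ZMod 2, (∀ e, p (G.s e) = p e) → ∑ e, p e * v e = 0)
    (ht : ∀ q : E → ZMod 2, (∀ e, q (G.t e) = q e) → ∑ e, q e * v e = 0) : G.Bd tw v := by
  classical
  by_contra hv
  have hm := FacialB_count G.s G.s3 c (fun e => (hc e).1)
  have hm' := FacialB_count G.t G.t3 c (fun e => (hc e).2)
  have r1 := FacialB_rank G.s G.s3 c (fun e => (hc e).1)
  have r2 := FacialB_rank G.t G.t3 c (fun e => (hc e).2)
  have r3 := FacialB_inf G hC
  have r4 := Submodule.finrank_sup_add_finrank_inf_eq (FacialB_inv G.s) (FacialB_inv G.t)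
  have r5 := FacialB_range G tw hC
  rw [Nat.card_eq_fintype_card (α := E)] at hχ
  set B := LinearMap.range (FacialB_bd G tw) with hB
  have hvB : v ∉ B := by
    rw [FacialB_mem_range]
    exact hv
  have r6 : Module.finrank (ZMod 2) B + 1 ≤
      Module.finrank (ZMod 2) (B ⊔ Submodule.span (ZMod 2) {v} : Submodule (ZMod 2) (E → ZMod 2)) := by
    apply Submodule.finrank_lt_finrank_of_lt
    refine lt_of_le_of_ne le_sup_left ?_
    intro h
    apply hvB
    rw [h]
    exact Submodule.mem_sup_right (Submodule.mem_span_singleton_self v)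
  have r7 := LinearMap.BilinForm.finrank_orthogonal (Dim2_nd (E := E)) (B ⊔ Submodule.span (ZMod 2) {v})
  have horth : ∀ x : E → ZMod 2, (∀ f ∈ G.Inv tw, ∑ e, (f (e, true, true) + f (e, true, false)) * x e = 0) →
      ∑ e, v e * x e = 0 → x ∈ (Dim2_dot E).orthogonal (B ⊔ Submodule.span (ZMod 2) {v}) := by
    intro x hx1 hx2
    rw [LinearMap.BilinForm.mem_orthogonal_iff]
    intro w hw
    obtain ⟨b, hb, y, hy, rfl⟩ := Submodule.mem_sup.1 hw
    obtain ⟨r, rfl⟩ := Submodule.mem_span_singleton.1 hy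
    obtain ⟨f, rfl⟩ := hb
    show Dim2_dot E _ _ = 0
    rw [map_add, LinearMap.add_apply, map_smul, LinearMap.smul_apply, Dim2_dot_apply, Dim2_dot_apply, hx2,
      smul_zero, add_zero]
    exact hx1 f.1 f.2
  have hle : FacialB_inv G.s ⊔ FacialB_inv G.t ≤ (Dim2_dot E).orthogonal (B ⊔ Submodule.span (ZMod 2) {v}) := by
    rw [sup_le_iff]
    constructor
    · intro p hp
      refine horth p (fun f hf => ?_) ?_
      · rw [Dim2_sw]
        exact FacialB_orth_s G tw hf hp
      · rw [Dim2_sw]
        exact hs p hp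
    · intro p hp
      refine horth p (fun f hf => ?_) ?_
      · rw [Dim2_sw]
        exact FacialB_orth_t G tw hf hp
      · rw [Dim2_sw]
        exact ht p hp
  have r8 := Submodule.finrank_mono hle
  have hV : Module.finrank (ZMod 2) (E → ZMod 2) = Fintype.card E := Module.finrank_fintype_fun_eq_card _
  have r9 := Submodule.finrank_le (B ⊔ Submodule.span (ZMod 2) {v})
  rw [hV] at r9
  rw [r7, hV] at r8
  omega

/-- restriction to one colour class is injective on invariant functions -/
private lemma Dim2_rank (s : Equiv.Perm E) (s3 : ∀ e, s (s (s e)) = e) (c : E → Fin 3)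
    (hc : ∀ e, c (s e) ≠ c e) : Module.finrank (ZMod 2) (FacialB_inv s) ≤ Fintype.card {e // c e = 0} := by
  let L : FacialB_inv s →ₗ[ZMod 2] ({e // c e = 0} → ZMod 2) :=
    { toFun := fun p e => p.1 e.1
      map_add' := fun p q => rfl
      map_smul' := fun r p => rfl }
  have hL : Injective L := by
    rw [← LinearMap.ker_eq_bot, LinearMap.ker_eq_bot']
    intro p hp
    apply Subtype.ext
    funext e
    have h0 : ∀ e, c e = 0 → p.1 e = 0 := fun e he => congrFun hp ⟨e, he⟩
    have hinv : ∀ e, p.1 (s e) = p.1 e := p.2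
    have key : ∀ x y z : Fin 3, y ≠ x → z ≠ y → x ≠ z → x = 0 ∨ y = 0 ∨ z = 0 := by decide
    have h3 := hc (s (s e))
    rw [s3] at h3
    show p.1 e = 0
    rcases key _ _ _ (hc e) (hc (s e)) h3 with h | h | h
    · exact h0 e h
    · rw [← hinv]
      exact h0 _ h
    · rw [← hinv, ← hinv]
      exact h0 _ h
  have := LinearMap.finrank_le_finrank_of_injective hL
  rwa [Module.finrank_fintype_fun_eq_card] at this

theorem dim_proj (G : CB E) (tw : E → Bool) (hE : Nonempty E) (hχ : 3 * Nat.card (G.Fc tw) ≤ Nat.card E + 3)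
    {c : E → Fin 3} (hc : G.P c) :
    ∃ z : E → ZMod 2, (∀ f ∈ G.Inv tw, ∑ e, (f (e, true, true) + f (e, true, false)) * z e = 0) ∧
      ¬ ∃ p q : E → ZMod 2, (∀ e, p (G.s e) = p e) ∧ (∀ e, q (G.t e) = q e) ∧ ∀ e, p e + q e = z e := by
  classical
  have hm := FacialB_count G.s G.s3 c (fun e => (hc e).1)
  have hm' := FacialB_count G.t G.t3 c (fun e => (hc e).2)
  have r1 := Dim2_rank G.s G.s3 c (fun e => (hc e).1)
  have r2 := Dim2_rank G.t G.t3 c (fun e => (hc e).2)
  have r4 := Submodule.finrank_sup_add_finrank_inf_eq (FacialB_inv G.s) (FacialB_inv G.t)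
  rw [Nat.card_eq_fintype_card (α := E)] at hχ
  obtain ⟨e₀⟩ := hE
  -- the constant function
  have r3 : 1 ≤ Module.finrank (ZMod 2) (FacialB_inv G.s ⊓ FacialB_inv G.t : Submodule (ZMod 2) (E → ZMod 2)) := by
    have hne : (FacialB_inv G.s ⊓ FacialB_inv G.t : Submodule (ZMod 2) (E → ZMod 2)) ≠ ⊥ := by
      intro h
      have h1 : (fun _ : E => (1 : ZMod 2)) ∈ (FacialB_inv G.s ⊓ FacialB_inv G.t :
          Submodule (ZMod 2) (E → ZMod 2)) := ⟨fun e => rfl, fun e => rfl⟩
      rw [h, Submodule.mem_bot] at h1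
      have := congrFun h1 e₀
      simp at this
    rw [Nat.one_le_iff_ne_zero]
    intro h
    exact hne (Submodule.finrank_eq_zero.1 h)
  -- the kernel of the boundary
  have r5 : 1 ≤ Module.finrank (ZMod 2) (LinearMap.ker (FacialB_bd G tw)) := by
    have hne : LinearMap.ker (FacialB_bd G tw) ≠ ⊥ := by
      intro h
      let one : G.Inv tw := ⟨fun _ => 1, fun _ => ⟨rfl, rfl⟩⟩
      have h1 : one ∈ LinearMap.ker (FacialB_bd G tw) := by
        rw [LinearMap.mem_ker]
        funext e
        show (1 : ZMod 2) + 1 = 0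
        decide
      rw [h, Submodule.mem_bot] at h1
      have := congrFun (congrArg Subtype.val h1) (e₀, true, true)
      have h2 : (1 : ZMod 2) = 0 := this
      exact absurd h2 (by decide)
    rw [Nat.one_le_iff_ne_zero]
    intro h
    exact hne (Submodule.finrank_eq_zero.1 h)
  have r6 := LinearMap.finrank_range_add_finrank_ker (FacialB_bd G tw)
  have r7 := finrank_Inv G tw
  have r8 := LinearMap.BilinForm.finrank_orthogonal (Dim2_nd (E := E)) (LinearMap.range (FacialB_bd G tw))
  have hV : Module.finrank (ZMod 2) (E → ZMod 2) = Fintype.card E := Module.finrank_fintype_fun_eq_card _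
  rw [hV] at r8
  have hnot : ¬ (Dim2_dot E).orthogonal (LinearMap.range (FacialB_bd G tw)) ≤
      FacialB_inv G.s ⊔ FacialB_inv G.t := by
    intro h
    have h1 := Submodule.finrank_mono h
    have h2 : 1 ≤ Fintype.card E := Fintype.card_pos_iff.2 ⟨e₀⟩
    omega
  obtain ⟨z, hz1, hz2⟩ := Set.not_subset.1 hnot
  refine ⟨z, fun f hf => ?_, ?_⟩
  · have h1 := (LinearMap.BilinForm.mem_orthogonal_iff.1 hz1) (FacialB_bd G tw ⟨f, hf⟩) ⟨_, rfl⟩
    exact h1
  · rintro ⟨p, q, hp, hq, h⟩
    apply hz2
    have : z = p + q := funext fun e => (h e).symm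
    rw [this]
    exact Submodule.add_mem_sup hp hq

end Pool.Agent.PP
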