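import Pool.Agent.Lib_MP_7c0803_pp.Defs

/-!
Proof plan.

* `finrank_Inv`: `G.Inv tw` is linearly equivalent to `G.Fc tw → ZMod 2` (`Quot.lift` / composition with `Quot.mk`); use
  `Module.finrank_fintype_fun_eq_card` or `Module.finrank_pi`.
* `tr_t`: put `o' = xor o (tw y)`.  `G.nx tw (y, true, o) = (t^± y, false, o')`, with `+` if `o'`, so `f (y, true, o) =
  f (t^± y, false, o')`.  If `t^± y = a`, done.  Otherwise `t^± y = b` and `t^± b = a`; `f (b, false, o') = f (b, false, !o')`
  (hypothesis) `= f (rv (b, false, !o')) = f (b, true, xor o' (tw b)) = f (nx ..) = f (t^± b, false, o') = f (a, false, o')`.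
* `tr_s`: the same at an `X`-vertex.
* `van_t`: `(b, false, o) = G.nx tw (b', true, xor o (tw b'))` with `b' = t^∓ b ∈ {y, a}`.
* `van_s`: the same.
-/

set_option autoImplicit false

open Finset Function

namespace Pool.Agent.PP

universe u

variable {E : Type u}

theorem finrank_Inv [Fintype E] (G : CB E) (tw : E → Bool) :
    Module.finrank (ZMod 2) (G.Inv tw) = Nat.card (G.Fc tw) := by
  classical
  haveI : Finite (G.Fc tw) := by
    unfold CB.Fc
    infer_instance
  haveI : Fintype (G.Fc tw) := Fintype.ofFinite _
  have hl : ∀ f : G.Inv tw, ∀ a b, (G.nx tw a = b ∨ G.rv tw a = b) → f.1 a = f.1 b := by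
    rintro ⟨f, hf⟩ a b (h | h)
    · rw [← h]
      exact ((hf a).1).symm
    · rw [← h]
      exact ((hf a).2).symm
  let φ : G.Inv tw ≃ₗ[ZMod 2] (G.Fc tw → ZMod 2) :=
    { toFun := fun f q => Quot.lift f.1 (hl f) q
      map_add' := by
        intro f g
        funext q
        induction q using Quot.ind
        rfl
      map_smul' := by
        intro c f
        funext q
        induction q using Quot.ind
        rfl
      invFun := fun g => ⟨fun a => g (Quot.mk _ a), fun a =>
        ⟨congrArg g (Quot.sound (r := fun a b => G.nx tw a = b ∨ G.rv tw a = b)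
          (a := a) (b := G.nx tw a) (Or.inl rfl)).symm,
        congrArg g (Quot.sound (r := fun a b => G.nx tw a = b ∨ G.rv tw a = b)
          (a := a) (b := G.rv tw a) (Or.inr rfl)).symm⟩⟩
      left_inv := by
        intro f
        apply Subtype.ext
        funext a
        rfl
      right_inv := by
        intro g
        funext q
        induction q using Quot.ind
        rfl }
  rw [φ.finrank_eq, Module.finrank_fintype_fun_eq_card, Nat.card_eq_fintype_card]

theorem tr_t (G : CB E) (tw : E → Bool) {f : E × Bool × Bool → ZMod 2} (hf : f ∈ G.Inv tw) {y a b : E}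
    (h : Tri G.t y a b) (hb : ∀ o, f (b, false, o) = f (b, false, !o)) (o : Bool) :
    f (y, true, o) = f (a, false, xor o (tw y)) := by
  have st : ∀ e o, f (e, true, o) =
      f (if xor o (tw e) then G.t e else G.t.symm e, false, xor o (tw e)) :=
    fun e o => ((hf (e, true, o)).1).symm
  have rvs : ∀ e o, f (e, false, o) = f (e, true, !(xor o (tw e))) :=
    fun e o => ((hf (e, false, o)).2).symm
  have key : ∀ o', f (b, false, o') = f (if o' then G.t b else G.t.symm b, false, o') := by
    intro o'
    rw [hb o', rvs, st]
    cases o' <;> cases tw b <;> rfl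
  rw [st]
  rcases h with ⟨h1, h2, h3⟩ | ⟨h1, h2, h3⟩
  · have h4 : G.t.symm y = b := by rw [← h3, Equiv.symm_apply_apply]
    have h5 : G.t.symm b = a := by rw [← h2, Equiv.symm_apply_apply]
    cases hx : xor o (tw y)
    · simp only [Bool.false_eq_true, if_false, h4]
      rw [key]
      simp only [Bool.false_eq_true, if_false, h5]
    · simp only [if_true, h1]
  · have h4 : G.t.symm y = a := by rw [← h3, Equiv.symm_apply_apply]
    cases hx : xor o (tw y)
    · simp only [Bool.false_eq_true, if_false, h4]
    · simp only [if_true, h1]
      rw [key]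
      simp only [if_true, h2]

theorem tr_s (G : CB E) (tw : E → Bool) {f : E × Bool × Bool → ZMod 2} (hf : f ∈ G.Inv tw) {x a b : E}
    (h : Tri G.s x a b) (hb : ∀ o, f (b, true, o) = f (b, true, !o)) (o : Bool) :
    f (x, false, o) = f (a, true, xor o (tw x)) := by
  have st : ∀ e o, f (e, false, o) =
      f (if xor o (tw e) then G.s e else G.s.symm e, true, xor o (tw e)) :=
    fun e o => ((hf (e, false, o)).1).symm
  have rvs : ∀ e o, f (e, true, o) = f (e, false, !(xor o (tw e))) :=
    fun e o => ((hf (e, true, o)).2).symm
  have key : ∀ o', f (b, true, o') = f (if o' then G.s b else G.s.symm b, true, o') := by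
    intro o'
    rw [hb o', rvs, st]
    cases o' <;> cases tw b <;> rfl
  rw [st]
  rcases h with ⟨h1, h2, h3⟩ | ⟨h1, h2, h3⟩
  · have h4 : G.s.symm x = b := by rw [← h3, Equiv.symm_apply_apply]
    have h5 : G.s.symm b = a := by rw [← h2, Equiv.symm_apply_apply]
    cases hx : xor o (tw x)
    · simp only [Bool.false_eq_true, if_false, h4]
      rw [key]
      simp only [Bool.false_eq_true, if_false, h5]
    · simp only [if_true, h1]
  · have h4 : G.s.symm x = a := by rw [← h3, Equiv.symm_apply_apply]
    cases hx : xor o (tw x)
    · simp only [Bool.false_eq_true, if_false, h4]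
    · simp only [if_true, h1]
      rw [key]
      simp only [if_true, h2]

theorem van_t (G : CB E) (tw : E → Bool) {f : E × Bool × Bool → ZMod 2} (hf : f ∈ G.Inv tw) {y a b : E}
    (h : Tri G.t y a b) (h1 : ∀ o, f (y, true, o) = 0) (h2 : ∀ o, f (a, true, o) = 0) (o : Bool) :
    f (b, false, o) = 0 := by
  have st : ∀ e o, f (e, true, xor o (tw e)) =
      f (if o then G.t e else G.t.symm e, false, o) := by
    intro e o
    have h3 : f (e, true, xor o (tw e)) = f (if xor (xor o (tw e)) (tw e) then G.t e else
        G.t.symm e, false, xor (xor o (tw e)) (tw e)) := ((hf (e, true, xor o (tw e))).1).symm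
    rw [h3]
    cases o <;> cases tw e <;> rfl
  rcases h with ⟨h3, h4, h5⟩ | ⟨h3, h4, h5⟩
  · have h6 : G.t.symm y = b := by rw [← h5, Equiv.symm_apply_apply]
    cases o
    · have := st y false
      rw [h1] at this
      simp only [Bool.false_eq_true, if_false, h6] at this
      exact this.symm
    · have := st a true
      rw [h2] at this
      simp only [if_true, h4] at this
      exact this.symm
  · have h6 : G.t.symm a = b := by rw [← h4, Equiv.symm_apply_apply]
    cases o
    · have := st a false
      rw [h2] at this
      simp only [Bool.false_eq_true, if_false, h6] at this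
      exact this.symm
    · have := st y true
      rw [h1] at this
      simp only [if_true, h3] at this
      exact this.symm

theorem van_s (G : CB E) (tw : E → Bool) {f : E × Bool × Bool → ZMod 2} (hf : f ∈ G.Inv tw) {x a b : E}
    (h : Tri G.s x a b) (h1 : ∀ o, f (x, false, o) = 0) (h2 : ∀ o, f (a, false, o) = 0) (o : Bool) :
    f (b, true, o) = 0 := by
  have st : ∀ e o, f (e, false, xor o (tw e)) =
      f (if o then G.s e else G.s.symm e, true, o) := by
    intro e o
    have h3 : f (e, false, xor o (tw e)) = f (if xor (xor o (tw e)) (tw e) then G.s e else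
        G.s.symm e, true, xor (xor o (tw e)) (tw e)) := ((hf (e, false, xor o (tw e))).1).symm
    rw [h3]
    cases o <;> cases tw e <;> rfl
  rcases h with ⟨h3, h4, h5⟩ | ⟨h3, h4, h5⟩
  · have h6 : G.s.symm x = b := by rw [← h5, Equiv.symm_apply_apply]
    cases o
    · have := st x false
      rw [h1] at this
      simp only [Bool.false_eq_true, if_false, h6] at this
      exact this.symm
    · have := st a true
      rw [h2] at this
      simp only [if_true, h4] at this
      exact this.symm
  · have h6 : G.s.symm a = b := by rw [← h4, Equiv.symm_apply_apply]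
    cases o
    · have := st a false
      rw [h2] at this
      simp only [Bool.false_eq_true, if_false, h6] at this
      exact this.symm
    · have := st x true
      rw [h1] at this
      simp only [if_true, h3] at this
      exact this.symm

end Pool.Agent.PP
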