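import Pool.Agent.Lib_MP_7c0803_pp.Face0

/-!
Proof plan for `Sq.chi` (`Q : Sq G`, removed edges `R = {e1, e2, e3, e4, y, w}`, `th = swap x y * swap z w`; the edges `e2`,
`e4` are deleted and the paths `x e1 y`, `z e3 w` become the new edges called `x`, `z`).

Twist: `tw' a = tw a` except `tw' x = tw y + tw e1 + tw x`, `tw' z = tw w + tw e3 + tw z` (`+` is `xor`).

Let `K` be the kernel of the linear map `f ↦ (f (e2, false, true) + f (e2, false, false), f (e4, true, true) +
f (e4, true, false))` on `G.Inv tw`; `finrank K ≥ finrank (G.Inv tw) - 2`.  For `f ∈ K`: `f (e2, d, o) = f (e2, d, !o)` and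
`f (e4, d, o) = f (e4, d, !o)` for both `d` (use `rv`).  Define `f' (a, true, o) = f (th a, true, o)`,
`f' (a, false, o) = f (a, false, o)` for `a ∉ R`.

(1) `f' ∈ (G.red Q.redn).Inv tw'`.  Key identity (K): for all `o`,
    `f (y, true, o) = f (x, true, o + tw y + tw e1)`, from `tr_t` at the `Y`-vertex `(y, e1, e2)`:
    `f (y, true, o) = f (e1, false, o + tw y)`, and `tr_s` at the `X`-vertex `(e1, x, e4)`:
    `f (e1, false, o1) = f (x, true, o1 + tw e1)`.  In the same way `f (w, true, o) = f (z, true, o + tw w + tw e3)`.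
    * `nx` on `(a, true, o)`, `a ≠ x, z`: `th a = a`, direct.  `a = x`: with `o'' = o + tw' x`,
      `f' (nx' (x, true, o)) = f (t^± x, false, o'') = f (nx (x, true, o'' + tw x)) = f (x, true, o'' + tw x)
       = f (x, true, o + tw y + tw e1) = f (y, true, o) = f' (x, true, o)`.
    * `nx` on `(a, false, o)`: `f' (nx' (a, false, o)) = f (th (th (s^± (th a))), true, o'') = f (s^± (th a), true, o'') =
      f (th a, false, o'' + tw (th a))` with `o'' = o + tw' a`.  `a ≠ x, z`: direct.  `a = x`:
      `f (y, false, o + tw' x + tw y) = f (x, false, o)` by (K) and `rv` (`(a, false, o)` and `(a, true, !(o + tw a))` have the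
      same value).
    * `rv` on `(x, true, o)` and `(x, false, o)`: by (K) and `rv` of `G`.
(2) `f ↦ f'` is injective on `K`: if `f' = 0` then `f (a, true, ·) = 0` for `a ∉ {e1, .., e4, x, z}` and
    `f (a, false, ·) = 0` for `a ∉ {e1, .., e4, y, w}`; by `rv` also `f (x, true, ·) = 0` etc.; by (K)-type identities
    `f (e1, false, ·) = f (x, true, ·) = 0`, and all of `e1`; the same for `e3`; then `e2`, `e4` by `van_t` (`(y, e1, e2)`) and
    `van_s` (`(x, e1, e4)`).
So `finrank (Inv') ≥ finrank (Inv) - 2`, and `|E'| = |E| - 6`.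

`Dg.chi`: `R = {e, f, h}`, `th = swap g h`; the edge `f` is deleted and the path `g e h` becomes the new edge `g`;
`tw' g = tw h + tw e + tw g`; one linear condition: `f (Q.f, false, true) = f (Q.f, false, false)`; the same computation
(with `x := g`, `y := h`, `e1 := e`, `e2 = e4 := Q.f`), so `finrank (Inv') ≥ finrank (Inv) - 1`, `|E'| = |E| - 3`.
-/

set_option autoImplicit false

open Finset Function

namespace Pool.Agent.PP

universe u

variable {E : Type u} [Fintype E] [DecidableEq E]

omit [Fintype E] [DecidableEq E] in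
private theorem FaceSq_rv {G : CB E} {tw : E → Bool} {f : E × Bool × Bool → ZMod 2}
    (hf : f ∈ G.Inv tw) (a : E) (d o : Bool) : f (a, d, o) = f (a, !d, !(xor o (tw a))) :=
  ((hf (a, d, o)).2).symm

omit [Fintype E] [DecidableEq E] in
private theorem FaceSq_nt {G : CB E} {tw : E → Bool} {f : E × Bool × Bool → ZMod 2}
    (hf : f ∈ G.Inv tw) (a : E) (o : Bool) :
    f (if o then G.t a else G.t.symm a, false, o) = f (a, true, xor o (tw a)) := by
  have h := (hf (a, true, xor o (tw a))).1
  have e : G.nx tw (a, true, xor o (tw a)) = (if o then G.t a else G.t.symm a, false, o) := by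
    show (if xor (xor o (tw a)) (tw a) then G.t a else G.t.symm a, false, xor (xor o (tw a)) (tw a)) = _
    rw [Bool.xor_assoc, Bool.xor_self, Bool.xor_false]
  rw [e] at h
  exact h

omit [Fintype E] [DecidableEq E] in
private theorem FaceSq_ns {G : CB E} {tw : E → Bool} {f : E × Bool × Bool → ZMod 2}
    (hf : f ∈ G.Inv tw) (a : E) (o : Bool) :
    f (if o then G.s a else G.s.symm a, true, o) = f (a, false, xor o (tw a)) := by
  have h := (hf (a, false, xor o (tw a))).1
  have e : G.nx tw (a, false, xor o (tw a)) = (if o then G.s a else G.s.symm a, true, o) := by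
    show (if xor (xor o (tw a)) (tw a) then G.s a else G.s.symm a, true, xor (xor o (tw a)) (tw a)) = _
    rw [Bool.xor_assoc, Bool.xor_self, Bool.xor_false]
  rw [e] at h
  exact h

/-- the transported function -/
private def FaceSq_map (D : Finset E) (th : Equiv.Perm E) (f : E × Bool × Bool → ZMod 2) :
    {e // e ∉ D} × Bool × Bool → ZMod 2
  | (a, true, o) => f (th a.1, true, o)
  | (a, false, o) => f (a.1, false, o)

omit [Fintype E] [DecidableEq E] in
private theorem FaceSq_t_symm {G : CB E} (D : Redn G) (x : {e // e ∉ D.R}) :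
    ((G.red D).t.symm x).1 = G.t.symm x.1 := by
  rw [Equiv.eq_symm_apply, ← red_t, Equiv.apply_symm_apply]

omit [Fintype E] [DecidableEq E] in
private theorem FaceSq_s_symm {G : CB E} (D : Redn G) (x : {e // e ∉ D.R}) :
    ((G.red D).s.symm x).1 = D.th (G.s.symm (D.th x.1)) := by
  have h := red_s G D ((G.red D).s.symm x)
  rw [Equiv.apply_symm_apply] at h
  rw [h, D.thth, Equiv.symm_apply_apply, D.thth]

omit [Fintype E] [DecidableEq E] in
/-- the transported function is constant on the faces of the reduced graph -/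
private theorem FaceSq_mem {G : CB E} (D : Redn G) {tw : E → Bool} {tw' : {e // e ∉ D.R} → Bool}
    {f : E × Bool × Bool → ZMod 2} (hf : f ∈ G.Inv tw)
    (hK : ∀ (a : {e // e ∉ D.R}) (o : Bool),
      f (D.th a.1, true, o) = f (a.1, true, xor o (xor (tw' a) (tw a.1)))) :
    FaceSq_map D.R D.th f ∈ (G.red D).Inv tw' := by
  rintro ⟨a, d, o⟩
  cases d
  · constructor
    · show FaceSq_map D.R D.th f (if xor o (tw' a) then (G.red D).s a else (G.red D).s.symm a, true,
        xor o (tw' a)) = f (a.1, false, o)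
      have e : FaceSq_map D.R D.th f (if xor o (tw' a) then (G.red D).s a else (G.red D).s.symm a, true,
          xor o (tw' a)) = f (if xor o (tw' a) then G.s (D.th a.1) else G.s.symm (D.th a.1), true,
            xor o (tw' a)) := by
        show f (D.th (if xor o (tw' a) then (G.red D).s a else (G.red D).s.symm a).1, true,
          xor o (tw' a)) = _
        congr 2
        by_cases h : xor o (tw' a) = true
        · rw [if_pos h, if_pos h, red_s, D.thth]
        · rw [if_neg h, if_neg h, FaceSq_s_symm, D.thth]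
      rw [e, FaceSq_ns hf, FaceSq_rv hf (D.th a.1) false, Bool.not_false, hK a,
        FaceSq_rv hf a.1 false, Bool.not_false]
      congr 3
      cases o <;> cases tw' a <;> cases tw a.1 <;> cases tw (D.th a.1) <;> rfl
    · show f (D.th a.1, true, !(xor o (tw' a))) = f (a.1, false, o)
      rw [hK a, FaceSq_rv hf a.1 false, Bool.not_false]
      congr 3
      cases o <;> cases tw' a <;> cases tw a.1 <;> rfl
  · constructor
    · show FaceSq_map D.R D.th f (if xor o (tw' a) then (G.red D).t a else (G.red D).t.symm a, false,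
        xor o (tw' a)) = f (D.th a.1, true, o)
      have e : FaceSq_map D.R D.th f (if xor o (tw' a) then (G.red D).t a else (G.red D).t.symm a, false,
          xor o (tw' a)) = f (if xor o (tw' a) then G.t a.1 else G.t.symm a.1, false,
            xor o (tw' a)) := by
        show f ((if xor o (tw' a) then (G.red D).t a else (G.red D).t.symm a).1, false,
          xor o (tw' a)) = _
        congr 2
        by_cases h : xor o (tw' a) = true
        · rw [if_pos h, if_pos h, red_t]
        · rw [if_neg h, if_neg h, FaceSq_t_symm]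
      rw [e, FaceSq_nt hf, hK a, Bool.xor_assoc]
    · show f (a.1, false, !(xor o (tw' a))) = f (D.th a.1, true, o)
      rw [hK a, FaceSq_rv hf a.1 false, Bool.not_false]
      congr 3
      cases o <;> cases tw' a <;> cases tw a.1 <;> rfl

/-- the counting argument -/
private theorem FaceSq_gen {G : CB E} (D : Redn G) {tw : E → Bool} (tw' : {e // e ∉ D.R} → Bool)
    (r : ℕ) (φ : (E × Bool × Bool → ZMod 2) →ₗ[ZMod 2] (Fin r → ZMod 2)) (hcard : D.R.card = 3 * r)
    (hK : ∀ f ∈ G.Inv tw, φ f = 0 → ∀ (a : {e // e ∉ D.R}) (o : Bool),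
      f (D.th a.1, true, o) = f (a.1, true, xor o (xor (tw' a) (tw a.1))))
    (hJ : ∀ f ∈ G.Inv tw, φ f = 0 →
      (∀ a, a ∉ D.R → ∀ o, f (a, false, o) = 0 ∧ f (D.th a, true, o) = 0) → f = 0)
    (h : G.Chi1 tw) : (G.red D).Chi1 tw' := by
  let ψ : (G.Inv tw) →ₗ[ZMod 2] (Fin r → ZMod 2) := φ.comp (G.Inv tw).subtype
  have hψ : ∀ f : LinearMap.ker ψ, φ f.1.1 = 0 := fun f => f.2
  let L : LinearMap.ker ψ →ₗ[ZMod 2] ((G.red D).Inv tw') :=
    { toFun := fun f => ⟨FaceSq_map D.R D.th f.1.1, FaceSq_mem D f.1.2 (hK f.1.1 f.1.2 (hψ f))⟩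
      map_add' := by
        intro f g
        apply Subtype.ext
        funext ⟨a, d, o⟩
        cases d <;> rfl
      map_smul' := by
        intro c f
        apply Subtype.ext
        funext ⟨a, d, o⟩
        cases d <;> rfl }
  have hL : Function.Injective L := by
    rw [← LinearMap.ker_eq_bot, LinearMap.ker_eq_bot']
    intro f hf
    have h1 : FaceSq_map D.R D.th f.1.1 = 0 := congrArg Subtype.val hf
    have h2 : f.1.1 = 0 := by
      apply hJ f.1.1 f.1.2 (hψ f)
      intro a ha o
      exact ⟨congrFun h1 (⟨a, ha⟩, false, o), congrFun h1 (⟨a, ha⟩, true, o)⟩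
    exact Subtype.ext (Subtype.ext h2)
  have h1 := LinearMap.finrank_le_finrank_of_injective hL
  have h2 := LinearMap.finrank_range_add_finrank_ker ψ
  have h3 : Module.finrank (ZMod 2) (LinearMap.range ψ) ≤ r := by
    have h4 := Submodule.finrank_le (LinearMap.range ψ)
    rwa [Module.finrank_fintype_fun_eq_card, Fintype.card_fin] at h4
  rw [finrank_Inv] at h1 h2
  have h5 : Nat.card {e // e ∉ D.R} + 3 * r = Nat.card E := by
    rw [Nat.card_eq_fintype_card, Nat.card_eq_fintype_card, ← hcard,
      Fintype.card_of_subtype (D.Rᶜ) (fun x => Finset.mem_compl), Finset.card_compl]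
    exact Nat.sub_add_cancel (Finset.card_le_univ _)
  unfold CB.Chi1 at h ⊢
  omega

omit [Fintype E] [DecidableEq E] in
/-- all values on an edge vanish -/
private theorem FaceSq_zero {G : CB E} {tw : E → Bool} {f : E × Bool × Bool → ZMod 2}
    (hf : f ∈ G.Inv tw) {a : E} {d : Bool} (h : ∀ o, f (a, d, o) = 0) : ∀ d o, f (a, d, o) = 0 := by
  intro d' o
  by_cases hd : d' = d
  · rw [hd]
    exact h o
  · have hd' : (!d') = d := by
      have key : ∀ d d' : Bool, ¬ d' = d → (!d') = d := by decide
      exact key d d' hd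
    rw [FaceSq_rv hf, hd']
    exact h _

omit [Fintype E] [DecidableEq E] in
/-- both sides have the same value -/
private theorem FaceSq_same {G : CB E} {tw : E → Bool} {f : E × Bool × Bool → ZMod 2}
    (hf : f ∈ G.Inv tw) {a : E} {d : Bool} (h : f (a, d, true) + f (a, d, false) = 0) :
    ∀ d o, f (a, d, o) = f (a, d, !o) := by
  have h0 : f (a, d, true) = f (a, d, false) := by
    have key : ∀ u v : ZMod 2, u + v = 0 → u = v := by decide
    exact key _ _ h
  have h1 : ∀ o, f (a, d, o) = f (a, d, !o) := by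
    intro o
    cases o
    · exact h0.symm
    · exact h0
  intro d' o
  by_cases hd : d' = d
  · rw [hd]
    exact h1 o
  · have hd' : (!d') = d := by
      have key : ∀ d d' : Bool, ¬ d' = d → (!d') = d := by decide
      exact key d d' hd
    rw [FaceSq_rv hf a d' o, FaceSq_rv hf a d' (!o), hd', h1]
    congr 3
    cases o <;> cases tw a <;> rfl

omit [Fintype E] [DecidableEq E] in
/-- the value along the path `y e1 x` -/
private theorem FaceSq_key {G : CB E} {tw : E → Bool} {f : E × Bool × Bool → ZMod 2}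
    (hf : f ∈ G.Inv tw) {x y e1 e2 e4 : E} (ht : Tri G.t y e1 e2) (hs : Tri G.s x e1 e4)
    (h2 : ∀ d o, f (e2, d, o) = f (e2, d, !o)) (h4 : ∀ d o, f (e4, d, o) = f (e4, d, !o)) (o : Bool) :
    f (y, true, o) = f (x, true, xor (xor o (tw y)) (tw e1)) := by
  rw [tr_t G tw hf ht (h2 false) o, tr_s G tw hf hs.rot.swap (h4 true)]

omit [Fintype E] [DecidableEq E] in
private theorem FaceSq_e1 {G : CB E} {tw : E → Bool} {f : E × Bool × Bool → ZMod 2}
    (hf : f ∈ G.Inv tw) {y e1 e2 : E} (ht : Tri G.t y e1 e2)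
    (h2 : ∀ d o, f (e2, d, o) = f (e2, d, !o)) (hy : ∀ o, f (y, true, o) = 0) :
    ∀ d o, f (e1, d, o) = 0 := by
  apply FaceSq_zero hf (d := false)
  intro o
  have h := tr_t G tw hf ht (h2 false) (xor o (tw y))
  rw [Bool.xor_assoc, Bool.xor_self, Bool.xor_false, hy] at h
  exact h.symm

theorem Sq.chi {G : CB E} (Q : Sq G) (tw : E → Bool) (h : G.Chi1 tw) : ∃ tw', (G.red Q.redn).Chi1 tw' := by
  obtain ⟨⟨a1, a2, a3, a4, a5, a6, a7⟩, ⟨b1, b2, b3, b4, b5, b6⟩, ⟨c1, c2, c3, c4, c5⟩, ⟨d1, d2, d3, d4⟩,
    ⟨f1, f2, f3⟩, ⟨g1, g2⟩, k⟩ := Q.ne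
  have hx : Q.x ∉ Q.redn.R := by
    rw [Q.redn_R]
    simp only [Finset.mem_insert, Finset.mem_singleton]
    tauto
  have hz : Q.z ∉ Q.redn.R := by
    rw [Q.redn_R]
    simp only [Finset.mem_insert, Finset.mem_singleton]
    tauto
  have thx : Q.redn.th Q.x = Q.y := by
    rw [Q.redn_th, Equiv.Perm.mul_apply, Equiv.swap_apply_of_ne_of_ne f2 f3, Equiv.swap_apply_left]
  have thz : Q.redn.th Q.z = Q.w := by
    rw [Q.redn_th, Equiv.Perm.mul_apply, Equiv.swap_apply_left,
      Equiv.swap_apply_of_ne_of_ne (Ne.symm f3) (Ne.symm g2)]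
  have tho : ∀ a, a ∉ Q.redn.R → a ≠ Q.x → a ≠ Q.z → Q.redn.th a = a := by
    intro a ha hax haz
    rw [Q.redn_R] at ha
    simp only [Finset.mem_insert, Finset.mem_singleton, not_or] at ha
    rw [Q.redn_th, Equiv.Perm.mul_apply, Equiv.swap_apply_of_ne_of_ne haz ha.2.2.2.2.2,
      Equiv.swap_apply_of_ne_of_ne hax ha.2.2.2.2.1]
  let φ : (E × Bool × Bool → ZMod 2) →ₗ[ZMod 2] (Fin 2 → ZMod 2) :=
    { toFun := fun f => ![f (Q.e2, false, true) + f (Q.e2, false, false),
        f (Q.e4, true, true) + f (Q.e4, true, false)]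
      map_add' := by
        intro f g
        funext i
        fin_cases i
        · show (f + g) _ + (f + g) _ = _ + _ + (_ + _)
          simp only [Pi.add_apply]
          ring
        · show (f + g) _ + (f + g) _ = _ + _ + (_ + _)
          simp only [Pi.add_apply]
          ring
      map_smul' := by
        intro c f
        funext i
        fin_cases i
        · show (c • f) _ + (c • f) _ = c * (_ + _)
          simp only [Pi.smul_apply, smul_eq_mul]
          ring
        · show (c • f) _ + (c • f) _ = c * (_ + _)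
          simp only [Pi.smul_apply, smul_eq_mul]
          ring }
  have hφ : ∀ f ∈ G.Inv tw, φ f = 0 → (∀ d o, f (Q.e2, d, o) = f (Q.e2, d, !o)) ∧
      ∀ d o, f (Q.e4, d, o) = f (Q.e4, d, !o) := by
    intro f hf hφ0
    exact ⟨FaceSq_same hf (congrFun hφ0 0), FaceSq_same hf (congrFun hφ0 1)⟩
  refine ⟨fun a => if a.1 = Q.x then xor (xor (tw Q.y) (tw Q.e1)) (tw Q.x) else
    if a.1 = Q.z then xor (xor (tw Q.w) (tw Q.e3)) (tw Q.z) else tw a.1,
    FaceSq_gen Q.redn _ 2 φ ?_ ?_ ?_ h⟩
  · rw [Q.redn_R]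
    rw [Finset.card_insert_of_notMem, Finset.card_insert_of_notMem, Finset.card_insert_of_notMem,
      Finset.card_insert_of_notMem, Finset.card_insert_of_notMem, Finset.card_singleton]
    all_goals simp only [Finset.mem_insert, Finset.mem_singleton]; tauto
  · intro f hf h0 a o
    obtain ⟨h2, h4⟩ := hφ f hf h0
    by_cases hax : a.1 = Q.x
    · rw [if_pos hax, hax, thx, FaceSq_key hf Q.tb Q.ta h2 h4]
      congr 3
      cases o <;> cases tw Q.y <;> cases tw Q.e1 <;> cases tw Q.x <;> rfl
    · by_cases haz : a.1 = Q.z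
      · rw [if_neg hax, if_pos haz, haz, thz, FaceSq_key hf Q.td Q.tc h4 h2]
        congr 3
        cases o <;> cases tw Q.w <;> cases tw Q.e3 <;> cases tw Q.z <;> rfl
      · rw [if_neg hax, if_neg haz, tho a.1 a.2 hax haz, Bool.xor_self, Bool.xor_false]
  · intro f hf h0 hz0
    obtain ⟨h2, h4⟩ := hφ f hf h0
    have zy : ∀ d o, f (Q.y, d, o) = 0 := FaceSq_zero hf (d := true) (fun o => by
      have := (hz0 Q.x hx o).2
      rwa [thx] at this)
    have zw : ∀ d o, f (Q.w, d, o) = 0 := FaceSq_zero hf (d := true) (fun o => by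
      have := (hz0 Q.z hz o).2
      rwa [thz] at this)
    have z1 : ∀ d o, f (Q.e1, d, o) = 0 := FaceSq_e1 hf Q.tb h2 (zy true)
    have z3 : ∀ d o, f (Q.e3, d, o) = 0 := FaceSq_e1 hf Q.td h4 (zw true)
    have z2 : ∀ d o, f (Q.e2, d, o) = 0 := FaceSq_zero hf (d := false)
      (fun o => van_t G tw hf Q.tb (zy true) (z1 true) o)
    have zx : ∀ d o, f (Q.x, d, o) = 0 := FaceSq_zero hf (d := false) (fun o => (hz0 Q.x hx o).1)
    have z4 : ∀ d o, f (Q.e4, d, o) = 0 := FaceSq_zero hf (d := true)
      (fun o => van_s G tw hf Q.ta (zx false) (z1 false) o)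
    funext ⟨a, d, o⟩
    by_cases ha : a ∈ Q.redn.R
    · rw [Q.redn_R] at ha
      simp only [Finset.mem_insert, Finset.mem_singleton] at ha
      rcases ha with rfl | rfl | rfl | rfl | rfl | rfl
      · exact z1 d o
      · exact z2 d o
      · exact z3 d o
      · exact z4 d o
      · exact zy d o
      · exact zw d o
    · exact FaceSq_zero hf (d := false) (fun o => (hz0 a ha o).1) d o

theorem Dg.chi {G : CB E} (Q : Dg G) (tw : E → Bool) (h : G.Chi1 tw) : ∃ tw', (G.red Q.redn).Chi1 tw' := by
  obtain ⟨a1, a2, a3⟩ := Q.tg.ne G.s1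
  obtain ⟨b1, b2, b3⟩ := Q.th.ne G.t1
  have hgh := Q.gh
  have hg : Q.g ∉ Q.redn.R := by
    rw [Q.redn_R]
    simp only [Finset.mem_insert, Finset.mem_singleton]
    tauto
  have thg : Q.redn.th Q.g = Q.h := by
    rw [Q.redn_th, Equiv.swap_apply_left]
  have tho : ∀ a, a ∉ Q.redn.R → a ≠ Q.g → Q.redn.th a = a := by
    intro a ha hag
    rw [Q.redn_R] at ha
    simp only [Finset.mem_insert, Finset.mem_singleton, not_or] at ha
    rw [Q.redn_th, Equiv.swap_apply_of_ne_of_ne hag ha.2.2]
  let φ : (E × Bool × Bool → ZMod 2) →ₗ[ZMod 2] (Fin 1 → ZMod 2) :=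
    { toFun := fun f => ![f (Q.f, false, true) + f (Q.f, false, false)]
      map_add' := by
        intro f g
        funext i
        fin_cases i
        show (f + g) _ + (f + g) _ = _ + _ + (_ + _)
        simp only [Pi.add_apply]
        ring
      map_smul' := by
        intro c f
        funext i
        fin_cases i
        show (c • f) _ + (c • f) _ = c * (_ + _)
        simp only [Pi.smul_apply, smul_eq_mul]
        ring }
  have hφ : ∀ f ∈ G.Inv tw, φ f = 0 → ∀ d o, f (Q.f, d, o) = f (Q.f, d, !o) := by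
    intro f hf hφ0
    exact FaceSq_same hf (congrFun hφ0 0)
  refine ⟨fun a => if a.1 = Q.g then xor (xor (tw Q.h) (tw Q.e)) (tw Q.g) else tw a.1,
    FaceSq_gen Q.redn _ 1 φ ?_ ?_ ?_ h⟩
  · rw [Q.redn_R]
    rw [Finset.card_insert_of_notMem, Finset.card_insert_of_notMem, Finset.card_singleton]
    all_goals simp only [Finset.mem_insert, Finset.mem_singleton]; tauto
  · intro f hf h0 a o
    have h2 := hφ f hf h0
    by_cases hag : a.1 = Q.g
    · rw [if_pos hag, hag, thg, FaceSq_key hf Q.th Q.tg h2 h2]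
      congr 3
      cases o <;> cases tw Q.h <;> cases tw Q.e <;> cases tw Q.g <;> rfl
    · rw [if_neg hag, tho a.1 a.2 hag, Bool.xor_self, Bool.xor_false]
  · intro f hf h0 hz0
    have h2 := hφ f hf h0
    have zh : ∀ d o, f (Q.h, d, o) = 0 := FaceSq_zero hf (d := true) (fun o => by
      have := (hz0 Q.g hg o).2
      rwa [thg] at this)
    have z1 : ∀ d o, f (Q.e, d, o) = 0 := FaceSq_e1 hf Q.th h2 (zh true)
    have z2 : ∀ d o, f (Q.f, d, o) = 0 := FaceSq_zero hf (d := false)
      (fun o => van_t G tw hf Q.th (zh true) (z1 true) o)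
    funext ⟨a, d, o⟩
    by_cases ha : a ∈ Q.redn.R
    · rw [Q.redn_R] at ha
      simp only [Finset.mem_insert, Finset.mem_singleton] at ha
      rcases ha with rfl | rfl | rfl
      · exact z1 d o
      · exact z2 d o
      · exact zh d o
    · exact FaceSq_zero hf (d := false) (fun o => (hz0 a ha o).1) d o

end Pool.Agent.PP
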