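import Pool.Agent.Lib_MP_7c0803_pp.Parity

/-!
Proof plan.  States `(e, d, o)`, `G.nx`, `G.rv` as in `Defs.lean`, `G.Inv tw` = functions constant on the faces.

For a state `a` let `K a` be `ind k` of the colour of the edge opposite to the corner at the start of `a`:
`K (e, true, true) = ind k (c (s e))`, `K (e, true, false) = ind k (c (s⁻¹ e))`, `K (e, false, true) = ind k (c (t e))`,
`K (e, false, false) = ind k (c (t⁻¹ e))` (`s⁻¹ e = s (s e)`).  `ind k (c e) + ind k (c (s e)) + ind k (c (s (s e))) = 0`.
Key identity (1): `K a + K (nx a) = twi e * ind k (c e)` for `a = (e, d, o)`.  (E.g. `a = (e, true, o)`, `o' = o + tw e`,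
`nx a = (t^± e, false, o')`, `K (nx a) = ind k (c (t^∓ e))`, for `o' = true`: `t e` is the next edge and the opposite edge is
`t (t e) = t⁻¹ e`.  All colours at both vertices are determined by `c e` and the two signs; finite check by `decide`.)
Also `K (rv (a))`: the corner at the start of `a` is also the corner at the end of the reversed state of the previous one:
(2) for `a = (e, true, true)` and `b = (s⁻¹ e, true, false)`: `K a = K b` and `f a = f b` for `f ∈ Inv`
(`a = nx (s⁻¹ e, false, o1)` with `o1 = ! tw (s⁻¹ e)`, `rv (s⁻¹ e, false, o1) = (s⁻¹ e, true, !(o1 + tw)) = b`); the same at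
`Y`-vertices with `t` and direction `false`.

* `Bd_iff`, `←`: `f (e, true, o) = p e + K (e, true, o)`, `f (e, false, o) = q e + K (e, false, o)`; `f ∈ Inv` for `nx` by (1)
  (`p (s e) = p e` etc.), for `rv`: `f (e, true, o)` against `f (e, false, !(o + tw e))`, finite check with
  `p e + q e = twi e * ind k (c e)`.  `f (e, true, true) + f (e, true, false) = ind k (c (s e)) + ind k (c (s⁻¹ e)) =
  ind k (c e)`.
* `Bd_iff`, `→`: `p e = f (e, true, true) + K (e, true, true)` and also `= f (e, true, false) + K (e, true, false)` (the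
  boundary condition); `p` is `s`-invariant by (2).  `q` in the same way from `f (e, false, ·)` (use `rv` to get the boundary
  condition for `d = false`).  `p e + q e = twi e * ind k (c e)` by (1) or by `rv` and a finite check.
* `lam_bd`: `∑_e (f (e,true,true) + f (e,true,false)) * (twi e * ind k (c e)) = ∑_{e,o} f (a) (K a + K (nx a))`,
  `a = (e, true, o)`, `= ∑_{e,o} f (e,true,o) K (e,true,o) + ∑_{e,o} f (e,false,o) K (e,false,o)` (`nx` is a bijection from the
  states with direction `true` to those with direction `false`, `f (nx a) = f a`), and both sums are `0` by (2) (the terms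
  cancel in pairs, re-index by `s`, `t`).
* `facial_iff_Bd`: components of `kap`: first component `ind 1`, second component `ind 0`; `ind 2 = ind 0 + ind 1`.
-/

set_option autoImplicit false

open Finset Function

namespace Pool.Agent.PP

universe u

variable {E : Type u}

/-- `[j ≠ k]` -/
def ind (k j : Fin 3) : ZMod 2 := if j = k then 0 else 1

/-- a Boolean as an element of `ZMod 2` -/
def b2 (b : Bool) : ZMod 2 := if b then 1 else 0

/-- twist of the edge `e` relative to the colouring `c` -/
def CB.twi (G : CB E) (tw : E → Bool) (c : E → Fin 3) (e : E) : ZMod 2 :=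
  sg (c (G.s e) - c e) + sg (c (G.t e) - c e) + b2 (tw e) + 1

/-- `v` is the boundary of a set of faces -/
def CB.Bd (G : CB E) (tw : E → Bool) (v : E → ZMod 2) : Prop :=
  ∃ f ∈ G.Inv tw, ∀ e, f (e, true, true) + f (e, true, false) = v e

/-! ### helper lemmas -/

private lemma FacialA_fin : ∀ x y y' z z' : Fin 3, y ≠ x → y' ≠ x → y' ≠ y → z ≠ x → z' ≠ x → z' ≠ z →
    ∀ k : Fin 3, ∀ o w : Bool, ind k (if o then y else y') + ind k (if xor o w then z' else z) =
      (sg (y - x) + sg (z - x) + b2 w + 1) * ind k x := by
  unfold ind sg b2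
  decide

private lemma FacialA_ind : ∀ x y z k : Fin 3, y ≠ x → z ≠ x → z ≠ y → ind k y + ind k z = ind k x := by
  unfold ind
  decide

/-- indicator of the colour of the edge opposite to the corner at the start of a state -/
private def FacialA_K (G : CB E) (c : E → Fin 3) (k : Fin 3) : E × Bool × Bool → ZMod 2
  | (e, true, o) => ind k (if o then c (G.s e) else c (G.s (G.s e)))
  | (e, false, o) => ind k (if o then c (G.t e) else c (G.t (G.t e)))

private lemma FacialA_ssym (G : CB E) (e : E) : G.s.symm e = G.s (G.s e) := by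
  rw [Equiv.symm_apply_eq, G.s3]

private lemma FacialA_tsym (G : CB E) (e : E) : G.t.symm e = G.t (G.t e) := by
  rw [Equiv.symm_apply_eq, G.t3]

/-- colours at the two ends of an edge -/
private lemma FacialA_col (G : CB E) {c : E → Fin 3} (hc : G.P c) (e : E) :
    (c (G.s e) ≠ c e ∧ c (G.s (G.s e)) ≠ c e ∧ c (G.s (G.s e)) ≠ c (G.s e)) ∧
      (c (G.t e) ≠ c e ∧ c (G.t (G.t e)) ≠ c e ∧ c (G.t (G.t e)) ≠ c (G.t e)) := by
  have h1 := (hc (G.s (G.s e))).1
  have h2 := (hc (G.t (G.t e))).2
  rw [G.s3] at h1
  rw [G.t3] at h2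
  exact ⟨⟨(hc e).1, h1.symm, (hc _).1⟩, ⟨(hc e).2, h2.symm, (hc _).2⟩⟩

/-- `K` at the next state and at the reversed state -/
private lemma FacialA_K_nx (G : CB E) (tw : E → Bool) (c : E → Fin 3) (k : Fin 3) (a : E × Bool × Bool) :
    FacialA_K G c k (G.nx tw a) = FacialA_K G c k (G.rv tw a) := by
  obtain ⟨e, d, o⟩ := a
  cases d
  · simp only [CB.nx, CB.rv, FacialA_K, FacialA_ssym]
    cases h : xor o (tw e) <;> simp [G.s3]
  · simp only [CB.nx, CB.rv, FacialA_K, FacialA_tsym]
    cases h : xor o (tw e) <;> simp [G.t3]

/-- key identity -/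
private lemma FacialA_key (G : CB E) (tw : E → Bool) {c : E → Fin 3} (hc : G.P c) (k : Fin 3) (e : E)
    (d o : Bool) :
    FacialA_K G c k (e, d, o) + FacialA_K G c k (G.rv tw (e, d, o)) = G.twi tw c e * ind k (c e) := by
  obtain ⟨⟨h1, h2, h3⟩, ⟨h4, h5, h6⟩⟩ := FacialA_col G hc e
  cases d
  · have h := FacialA_fin (c e) (c (G.t e)) (c (G.t (G.t e))) (c (G.s e)) (c (G.s (G.s e))) h4 h5 h6 h1
      h2 h3 k o (tw e)
    simp only [CB.rv, FacialA_K, CB.twi, Bool.not_false]
    rw [add_comm (sg (c (G.s e) - c e)) (sg (c (G.t e) - c e)), ← h]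
    cases o <;> cases tw e <;> rfl
  · have h := FacialA_fin (c e) (c (G.s e)) (c (G.s (G.s e))) (c (G.t e)) (c (G.t (G.t e))) h1 h2 h3 h4
      h5 h6 k o (tw e)
    simp only [CB.rv, FacialA_K, CB.twi, Bool.not_true]
    rw [← h]
    cases o <;> cases tw e <;> rfl

private lemma FacialA_K_s (G : CB E) (c : E → Fin 3) (k : Fin 3) (e : E) :
    FacialA_K G c k (G.s e, true, true) = FacialA_K G c k (e, true, false) := rfl

private lemma FacialA_K_t (G : CB E) (c : E → Fin 3) (k : Fin 3) (e : E) :
    FacialA_K G c k (G.t e, false, true) = FacialA_K G c k (e, false, false) := rfl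

private lemma FacialA_K_sum (G : CB E) {c : E → Fin 3} (hc : G.P c) (k : Fin 3) (e : E) (d : Bool) :
    FacialA_K G c k (e, d, true) + FacialA_K G c k (e, d, false) = ind k (c e) := by
  obtain ⟨⟨h1, h2, h3⟩, ⟨h4, h5, h6⟩⟩ := FacialA_col G hc e
  cases d
  · exact FacialA_ind _ _ _ k h4 h5 h6
  · exact FacialA_ind _ _ _ k h1 h2 h3

private lemma FacialA_f_s {G : CB E} {tw : E → Bool} {f : E × Bool × Bool → ZMod 2} (hf : f ∈ G.Inv tw)
    (e : E) : f (G.s e, true, true) = f (e, true, false) := by
  have h := hf (e, false, !(tw e))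
  have e1 : G.nx tw (e, false, !(tw e)) = (G.s e, true, true) := by
    simp only [CB.nx]
    cases tw e <;> rfl
  have e2 : G.rv tw (e, false, !(tw e)) = (e, true, false) := by
    simp only [CB.rv]
    cases tw e <;> rfl
  rw [e1, e2] at h
  rw [h.1, h.2]

private lemma FacialA_f_t {G : CB E} {tw : E → Bool} {f : E × Bool × Bool → ZMod 2} (hf : f ∈ G.Inv tw)
    (e : E) : f (G.t e, false, true) = f (e, false, false) := by
  have h := hf (e, true, !(tw e))
  have e1 : G.nx tw (e, true, !(tw e)) = (G.t e, false, true) := by
    simp only [CB.nx]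
    cases tw e <;> rfl
  have e2 : G.rv tw (e, true, !(tw e)) = (e, false, false) := by
    simp only [CB.rv]
    cases tw e <;> rfl
  rw [e1, e2] at h
  rw [h.1, h.2]

/-- a sum over the two orientations is the same for the two directions -/
private lemma FacialA_flip {G : CB E} {tw : E → Bool} {f : E × Bool × Bool → ZMod 2}
    (hf : ∀ a, f (G.rv tw a) = f a) (e : E) :
    f (e, false, true) + f (e, false, false) = f (e, true, true) + f (e, true, false) := by
  have h1 := hf (e, true, true)
  have h2 := hf (e, true, false)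
  simp only [CB.rv, Bool.not_true] at h1 h2
  rw [← h1, ← h2]
  cases tw e
  · simp only [Bool.xor_false, Bool.not_true, Bool.not_false]
    rw [add_comm]
  · simp only [Bool.xor_true, Bool.not_true, Bool.not_false]

private lemma FacialA_all {G : CB E} {tw : E → Bool} {v : E → ZMod 2} {f : E × Bool × Bool → ZMod 2}
    (hf : f ∈ G.Inv tw) (hv : ∀ e, f (e, true, true) + f (e, true, false) = v e) (e : E) (d o : Bool) :
    f (e, d, o) + f (e, d, !o) = v e := by
  have h1 : f (e, false, true) + f (e, false, false) = v e :=
    (FacialA_flip (fun a => (hf a).2) e).trans (hv e)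
  cases d <;> cases o
  · rw [Bool.not_false, add_comm]
    exact h1
  · exact h1
  · rw [Bool.not_false, add_comm]
    exact hv e
  · exact hv e

private lemma FacialA_z2 : ∀ a b x y : ZMod 2, a + b = x + y → b + y = a + x := by decide

private lemma FacialA_z2' : ∀ a b x y v : ZMod 2, a + b = v → x + y = v → a + x = b + y := by decide

private lemma FacialA_kap : ∀ j : Fin 3, kap j = (ind 1 j, ind 0 j) := by
  unfold kap ind
  decide

private lemma FacialA_ind2 : ∀ j : Fin 3, ind 1 j + ind 0 j = ind 2 j := by
  unfold ind
  decide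

theorem facial_iff_Bd (G : CB E) (tw : E → Bool) (c : E → Fin 3) :
    G.Facial tw c ↔ ∀ k, G.Bd tw (fun e => ind k (c e)) := by
  constructor
  · rintro ⟨F, hF, hb⟩ k
    have hb' : ∀ e, F (e, true, true) + F (e, true, false) = (ind 1 (c e), ind 0 (c e)) := fun e => by
      rw [← FacialA_kap]
      exact hb e true true
    have hk : k = 0 ∨ k = 1 ∨ k = 2 := by
      revert k
      decide
    rcases hk with rfl | rfl | rfl
    · refine ⟨fun a => (F a).2, fun a => ⟨congrArg Prod.snd (hF a).1, congrArg Prod.snd (hF a).2⟩, ?_⟩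
      intro e
      exact congrArg Prod.snd (hb' e)
    · refine ⟨fun a => (F a).1, fun a => ⟨congrArg Prod.fst (hF a).1, congrArg Prod.fst (hF a).2⟩, ?_⟩
      intro e
      exact congrArg Prod.fst (hb' e)
    · refine ⟨fun a => (F a).1 + (F a).2, fun a => ?_, ?_⟩
      · simp only
        rw [(hF a).1, (hF a).2]
        exact ⟨rfl, rfl⟩
      · intro e
        have h1 := congrArg Prod.fst (hb' e)
        have h2 := congrArg Prod.snd (hb' e)
        simp only [Prod.fst_add, Prod.snd_add] at h1 h2
        simp only
        rw [← FacialA_ind2, ← h1, ← h2]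
        ring
  · intro h
    obtain ⟨f1, hf1, hb1⟩ := h 1
    obtain ⟨f0, hf0, hb0⟩ := h 0
    refine ⟨fun a => (f1 a, f0 a), fun a => ?_, fun e d o => ?_⟩
    · simp only
      rw [(hf1 a).1, (hf1 a).2, (hf0 a).1, (hf0 a).2]
      exact ⟨rfl, rfl⟩
    · rw [FacialA_kap]
      exact Prod.ext (FacialA_all hf1 hb1 e d o) (FacialA_all hf0 hb0 e d o)

theorem Bd_iff (G : CB E) (tw : E → Bool) {c : E → Fin 3} (hc : G.P c) (k : Fin 3) :
    G.Bd tw (fun e => ind k (c e)) ↔ ∃ p q : E → ZMod 2, (∀ e, p (G.s e) = p e) ∧ (∀ e, q (G.t e) = q e) ∧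
      ∀ e, p e + q e = G.twi tw c e * ind k (c e) := by
  constructor
  · rintro ⟨f, hf, hb⟩
    have hp : ∀ e o, f (e, true, o) + FacialA_K G c k (e, true, o) =
        f (e, true, true) + FacialA_K G c k (e, true, true) := by
      intro e o
      cases o
      · exact (FacialA_z2' _ _ _ _ _ (hb e) (FacialA_K_sum G hc k e true)).symm
      · rfl
    have hq : ∀ e, f (e, false, false) + FacialA_K G c k (e, false, false) =
        f (e, false, true) + FacialA_K G c k (e, false, true) := fun e =>
      (FacialA_z2' _ _ _ _ _ (FacialA_all hf hb e false true) (FacialA_K_sum G hc k e false)).symm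
    refine ⟨fun e => f (e, true, true) + FacialA_K G c k (e, true, true),
      fun e => f (e, false, true) + FacialA_K G c k (e, false, true), ?_, ?_, ?_⟩
    · intro e
      simp only
      rw [FacialA_f_s hf, FacialA_K_s]
      exact hp e false
    · intro e
      simp only
      rw [FacialA_f_t hf, FacialA_K_t]
      exact hq e
    · intro e
      simp only
      rw [← hp e (tw e), ← FacialA_key G tw hc k e true (tw e)]
      have h1 := (hf (e, true, tw e)).2
      have e1 : G.rv tw (e, true, tw e) = (e, false, true) := by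
        simp only [CB.rv]
        cases tw e <;> rfl
      rw [e1] at h1 ⊢
      rw [h1]
      have : ∀ a x y : ZMod 2, a + x + (a + y) = x + y := by decide
      exact this _ _ _
  · rintro ⟨p, q, hp, hq, hpq⟩
    have hp' : ∀ e, p (G.s.symm e) = p e := fun e => by rw [FacialA_ssym, hp, hp]
    have hq' : ∀ e, q (G.t.symm e) = q e := fun e => by rw [FacialA_tsym, hq, hq]
    let f : E × Bool × Bool → ZMod 2 := fun a => (if a.2.1 then p a.1 else q a.1) + FacialA_K G c k a
    have hft : ∀ e o, f (e, true, o) = p e + FacialA_K G c k (e, true, o) := fun e o => rfl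
    have hff : ∀ e o, f (e, false, o) = q e + FacialA_K G c k (e, false, o) := fun e o => rfl
    have hnx : ∀ a, f (G.nx tw a) = f a ∧ f (G.rv tw a) = f a := by
      rintro ⟨e, d, o⟩
      have hK := FacialA_K_nx G tw c k (e, d, o)
      have hkey := FacialA_key G tw hc k e d o
      rw [← hpq e] at hkey
      cases d
      · have e1 : f (G.nx tw (e, false, o)) = p e + FacialA_K G c k (G.nx tw (e, false, o)) := by
          simp only [CB.nx]
          rw [hft]
          cases xor o (tw e)
          · simp only [Bool.false_eq_true, if_false, hp']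
          · simp only [if_true, hp]
        have e2 : f (G.rv tw (e, false, o)) = p e + FacialA_K G c k (G.rv tw (e, false, o)) := rfl
        rw [e1, e2, hff, hK]
        have : ∀ x y u v : ZMod 2, x + y = u + v → u + y = v + x := by decide
        exact ⟨this _ _ _ _ hkey, this _ _ _ _ hkey⟩
      · have e1 : f (G.nx tw (e, true, o)) = q e + FacialA_K G c k (G.nx tw (e, true, o)) := by
          simp only [CB.nx]
          rw [hff]
          cases xor o (tw e)
          · simp only [Bool.false_eq_true, if_false, hq']
          · simp only [if_true, hq]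
        have e2 : f (G.rv tw (e, true, o)) = q e + FacialA_K G c k (G.rv tw (e, true, o)) := rfl
        rw [e1, e2, hft, hK]
        have : ∀ x y u v : ZMod 2, x + y = u + v → v + y = u + x := by decide
        exact ⟨this _ _ _ _ hkey, this _ _ _ _ hkey⟩
    refine ⟨f, hnx, fun e => ?_⟩
    show f (e, true, true) + f (e, true, false) = ind k (c e)
    rw [hft, hft, ← FacialA_K_sum G hc k e true]
    have : ∀ a x y : ZMod 2, a + x + (a + y) = x + y := by decide
    exact this _ _ _

theorem lam_bd [Fintype E] (G : CB E) (tw : E → Bool) {c : E → Fin 3} (hc : G.P c) (k : Fin 3)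
    {f : E × Bool × Bool → ZMod 2} (hf : f ∈ G.Inv tw) :
    ∑ e, (f (e, true, true) + f (e, true, false)) * (G.twi tw c e * ind k (c e)) = 0 := by
  have hz : ∀ x : ZMod 2, x + x = 0 := by decide
  have h1 : ∀ e, (f (e, true, true) + f (e, true, false)) * (G.twi tw c e * ind k (c e)) =
      (f (e, true, true) * FacialA_K G c k (e, true, true) +
        f (e, true, false) * FacialA_K G c k (e, true, false)) +
      (f (e, false, true) * FacialA_K G c k (e, false, true) +
        f (e, false, false) * FacialA_K G c k (e, false, false)) := by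
    intro e
    have k1 := FacialA_key G tw hc k e true true
    have k2 := FacialA_key G tw hc k e true false
    have e3 : f (G.rv tw (e, true, true)) * FacialA_K G c k (G.rv tw (e, true, true)) +
        f (G.rv tw (e, true, false)) * FacialA_K G c k (G.rv tw (e, true, false)) =
        f (e, false, true) * FacialA_K G c k (e, false, true) +
        f (e, false, false) * FacialA_K G c k (e, false, false) := by
      simp only [CB.rv]
      cases tw e
      · simp only [Bool.xor_false, Bool.not_true, Bool.not_false]
        rw [add_comm]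
      · simp only [Bool.xor_true, Bool.not_true, Bool.not_false]
    rw [(hf _).2, (hf _).2] at e3
    rw [← e3, add_mul]
    nth_rewrite 1 [← k1]
    rw [← k2]
    ring
  have h2 : ∑ e, f (e, true, true) * FacialA_K G c k (e, true, true) =
      ∑ e, f (e, true, false) * FacialA_K G c k (e, true, false) := by
    rw [← Equiv.sum_comp G.s (fun e => f (e, true, true) * FacialA_K G c k (e, true, true))]
    refine Finset.sum_congr rfl fun e _ => ?_
    rw [FacialA_f_s hf, FacialA_K_s]
  have h3 : ∑ e, f (e, false, true) * FacialA_K G c k (e, false, true) =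
      ∑ e, f (e, false, false) * FacialA_K G c k (e, false, false) := by
    rw [← Equiv.sum_comp G.t (fun e => f (e, false, true) * FacialA_K G c k (e, false, true))]
    refine Finset.sum_congr rfl fun e _ => ?_
    rw [FacialA_f_t hf, FacialA_K_t]
  rw [Finset.sum_congr rfl fun e _ => h1 e, Finset.sum_add_distrib, Finset.sum_add_distrib,
    Finset.sum_add_distrib, h2, h3, hz, hz, add_zero]

end Pool.Agent.PP
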