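import Pool.Agent.Lib_MP_7c0803_pp.FacialA
import Pool.Agent.Lib_MP_7c0803_pp.Face0

/-!
Proof plan for `dim_step` (linear algebra in `E → ZMod 2`, `|E| = 3 n`).

* `Bs = {p | p ∘ s = p}`, `Bt = {q | q ∘ t = q}`: `3 * finrank Bs ≥ |E|`: with the proper colouring `c`,
  `{e // c e = 0} → ZMod 2` embeds linearly in `Bs` (`g ↦ (e ↦ g (the edge of colour 0 in the s-orbit of e))`), and
  `3 * card {e // c e = 0} = |E|` (every `s`-orbit has exactly one edge of colour 0: count `∑_e ([c e = 0] + [c (s e) = 0] +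
  [c (s (s e)) = 0]) = |E|`).  The same for `t`.
* `finrank (Bs ⊓ Bt) ≤ 1`: such functions are constant by `G.Cn` (the set `{e | p e = p e₀}` is closed).  So
  `finrank (Bs ⊔ Bt) ≥ 2 n - 1`.
* `B` = range of `∂ : G.Inv tw → (E → ZMod 2)`, `∂ f e = f (e,true,true) + f (e,true,false)`; the kernel consists of the
  constant functions (on the kernel `f (e, d, o)` does not depend on `o`, by `rv` not on `d`, and by `nx` it is invariant under
  `s` and `t`, so constant by `G.Cn`), so `finrank B ≥ #Fc - 1 ≥ n` (`finrank_Inv`, `Chi1`; `Chi1` forces `E` nonempty).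
* `v ∉ B`, so `W = B ⊔ span {v}` has `finrank ≥ n + 1`, and its orthogonal space for the dot product has
  `finrank ≤ 3 n - (n + 1) = 2 n - 1` (`LinearMap.BilinForm.finrank_orthogonal`).  `Bs ⊔ Bt` is contained in it (`hs`, `ht` for
  `v`; for `B`: `∑_e p e * ∂ f e = 0` for `p` `s`-invariant: the corner argument: `f (e, true, true) = f (s⁻¹ e, true, false)`;
  for `q` `t`-invariant use `∂ f e = f (e,false,true) + f (e,false,false)` (by `rv`) and `f (e, false, true) =
  f (t⁻¹ e, false, false)`).  So they are equal, and `lam` is orthogonal to `W`, so `lam ∈ Bs ⊔ Bt`.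
-/

set_option autoImplicit false

open Finset Function

namespace Pool.Agent.PP

universe u

/-! ### helper lemmas -/

section aux
variable {E : Type u}

lemma FacialB_span {W : Type u} [AddCommGroup W] [Module (ZMod 2) W] (w : W) :
    Module.finrank (ZMod 2) (Submodule.span (ZMod 2) {w}) ≤ 1 := by
  have h := finrank_span_le_card (R := ZMod 2) ({w} : Set W)
  simpa using h

/-- functions invariant under a permutation -/
def FacialB_inv (s : Equiv.Perm E) : Submodule (ZMod 2) (E → ZMod 2) where
  carrier := {p | ∀ e, p (s e) = p e}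
  add_mem' := by
    intro p q hp hq e
    simp only [Pi.add_apply]
    rw [hp, hq]
  zero_mem' := fun _ => rfl
  smul_mem' := by
    intro r p hp e
    simp only [Pi.smul_apply]
    rw [hp]

lemma FacialB_mem {s : Equiv.Perm E} {p : E → ZMod 2} :
    p ∈ FacialB_inv s ↔ ∀ e, p (s e) = p e := Iff.rfl

/-- extension by zero -/
noncomputable def FacialB_ext (c : E → Fin 3) (g : {e // c e = 0} → ZMod 2) (e : E) : ZMod 2 :=
  if h : c e = 0 then g ⟨e, h⟩ else 0

noncomputable def FacialB_emb (s : Equiv.Perm E) (s3 : ∀ e, s (s (s e)) = e) (c : E → Fin 3) :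
    ({e // c e = 0} → ZMod 2) →ₗ[ZMod 2] FacialB_inv s where
  toFun g := ⟨fun e => FacialB_ext c g e + FacialB_ext c g (s e) + FacialB_ext c g (s (s e)), by
    intro e
    simp only
    rw [s3]
    ring⟩
  map_add' g g' := by
    apply Subtype.ext
    funext e
    simp only [FacialB_ext, Submodule.coe_add, Pi.add_apply]
    split_ifs <;> ring
  map_smul' r g := by
    apply Subtype.ext
    funext e
    simp only [FacialB_ext, Submodule.coe_smul, Pi.smul_apply, smul_eq_mul, RingHom.id_apply]
    split_ifs <;> ring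

lemma FacialB_emb_inj (s : Equiv.Perm E) (s3 : ∀ e, s (s (s e)) = e) (c : E → Fin 3)
    (hc : ∀ e, c (s e) ≠ c e) : Injective (FacialB_emb s s3 c) := by
  rw [← LinearMap.ker_eq_bot, LinearMap.ker_eq_bot']
  intro g hg
  funext ⟨e, he⟩
  have h1 : c (s e) ≠ 0 := by
    rw [← he]
    exact hc e
  have h2 : c (s (s e)) ≠ 0 := by
    have h := hc (s (s e))
    rw [s3] at h
    rw [← he]
    exact h.symm
  have h3 := congrFun (congrArg Subtype.val hg) e
  have h4 : FacialB_ext c g e + FacialB_ext c g (s e) + FacialB_ext c g (s (s e)) = 0 := h3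
  unfold FacialB_ext at h4
  rw [dif_pos he, dif_neg h1, dif_neg h2, add_zero, add_zero] at h4
  exact h4

variable [Fintype E]

lemma FacialB_count (s : Equiv.Perm E) (s3 : ∀ e, s (s (s e)) = e) (c : E → Fin 3)
    (hc : ∀ e, c (s e) ≠ c e) : 3 * Fintype.card {e // c e = 0} = Fintype.card E := by
  classical
  have h1 : ∀ e, (1 : ℕ) = (if c e = 0 then 1 else 0) + (if c (s e) = 0 then 1 else 0) +
      (if c (s (s e)) = 0 then 1 else 0) := by
    intro e
    have ha := hc e
    have hb := hc (s e)
    have hd := hc (s (s e))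
    rw [s3] at hd
    have key : ∀ x y z : Fin 3, y ≠ x → z ≠ y → x ≠ z → (1 : ℕ) = (if x = 0 then 1 else 0) +
      (if y = 0 then 1 else 0) + (if z = 0 then 1 else 0) := by decide
    exact key _ _ _ ha hb hd
  have h2 : ∑ e, (if c (s e) = 0 then 1 else 0) = ∑ e, if c e = 0 then 1 else 0 :=
    Equiv.sum_comp s (fun e => if c e = 0 then 1 else 0)
  have h3 : ∑ e, (if c (s (s e)) = 0 then 1 else 0) = ∑ e, if c e = 0 then 1 else 0 := by
    rw [← h2]
    exact Equiv.sum_comp s (fun e => if c (s e) = 0 then 1 else 0)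
  have h4 : Fintype.card E = (∑ e, if c e = 0 then 1 else 0) + (∑ e, if c (s e) = 0 then 1 else 0) +
      (∑ e, if c (s (s e)) = 0 then 1 else 0) := by
    rw [← Finset.sum_add_distrib, ← Finset.sum_add_distrib, Fintype.card_eq_sum_ones]
    exact Finset.sum_congr rfl (fun e _ => h1 e)
  have h5 : Fintype.card {e // c e = 0} = ∑ e, if c e = 0 then 1 else 0 := by
    rw [Fintype.card_subtype, Finset.card_filter]
  rw [h4, h3, h2, h5]
  ring

lemma FacialB_rank (s : Equiv.Perm E) (s3 : ∀ e, s (s (s e)) = e) (c : E → Fin 3)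
    (hc : ∀ e, c (s e) ≠ c e) : Fintype.card {e // c e = 0} ≤ Module.finrank (ZMod 2) (FacialB_inv s) := by
  rw [← Module.finrank_fintype_fun_eq_card (ZMod 2)]
  exact LinearMap.finrank_le_finrank_of_injective (FacialB_emb_inj s s3 c hc)

omit [Fintype E] in
lemma FacialB_const (G : CB E) (hC : G.Cn) (p : E → ZMod 2) (hs : ∀ e, p (G.s e) = p e)
    (ht : ∀ e, p (G.t e) = p e) : ∃ r : ZMod 2, p = fun _ => r := by
  by_cases h : Nonempty E
  · obtain ⟨e₀⟩ := h
    have := hC {e | p e = p e₀} ⟨e₀, rfl⟩ (fun e he => ⟨(hs e).trans he, (ht e).trans he⟩)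
    refine ⟨p e₀, funext fun e => ?_⟩
    have h2 : e ∈ {e | p e = p e₀} := by rw [this]; trivial
    exact h2
  · exact ⟨0, funext fun e => (h ⟨e⟩).elim⟩

lemma FacialB_inf (G : CB E) (hC : G.Cn) :
    Module.finrank (ZMod 2) (FacialB_inv G.s ⊓ FacialB_inv G.t : Submodule (ZMod 2) (E → ZMod 2)) ≤ 1 := by
  have h : FacialB_inv G.s ⊓ FacialB_inv G.t ≤ Submodule.span (ZMod 2) {fun _ : E => (1 : ZMod 2)} := by
    rintro p ⟨h1, h2⟩
    obtain ⟨r, rfl⟩ := FacialB_const G hC p h1 h2
    rw [Submodule.mem_span_singleton]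
    exact ⟨r, funext fun _ => by simp⟩
  exact (Submodule.finrank_mono h).trans (FacialB_span _)

/-- the boundary map -/
def FacialB_bd (G : CB E) (tw : E → Bool) : G.Inv tw →ₗ[ZMod 2] (E → ZMod 2) where
  toFun f := fun e => f.1 (e, true, true) + f.1 (e, true, false)
  map_add' f g := by
    funext e
    simp only [Submodule.coe_add, Pi.add_apply]
    ring
  map_smul' r f := by
    funext e
    simp only [Submodule.coe_smul, Pi.smul_apply, smul_eq_mul, RingHom.id_apply]
    ring

lemma FacialB_z : ∀ a b : ZMod 2, a + b = 0 → a = b := by decide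

lemma FacialB_ker (G : CB E) (tw : E → Bool) (hC : G.Cn) :
    Module.finrank (ZMod 2) (LinearMap.ker (FacialB_bd G tw)) ≤ 1 := by
  have h : ∀ f ∈ LinearMap.ker (FacialB_bd G tw), ∃ r : ZMod 2, ∀ a, f.1 a = r := by
    intro f hf
    rw [LinearMap.mem_ker] at hf
    have h1 : ∀ e, f.1 (e, true, true) = f.1 (e, true, false) := fun e => FacialB_z _ _ (congrFun hf e)
    have h1' : ∀ e o, f.1 (e, true, o) = f.1 (e, true, true) := by
      intro e o
      cases o
      · exact (h1 e).symm
      · rfl
    have h2 : ∀ e o, f.1 (e, false, o) = f.1 (e, true, true) := by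
      intro e o
      have := (f.2 (e, false, o)).2
      rw [← this]
      exact h1' e _
    have hs : ∀ e, f.1 (G.s e, true, true) = f.1 (e, true, true) := by
      intro e
      have h3 := (f.2 (e, false, !(tw e))).1
      have e1 : G.nx tw (e, false, !(tw e)) = (G.s e, true, true) := by
        simp only [CB.nx]
        cases tw e <;> rfl
      rw [e1, h2] at h3
      exact h3
    have ht : ∀ e, f.1 (G.t e, true, true) = f.1 (e, true, true) := by
      intro e
      have h3 := (f.2 (e, true, !(tw e))).1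
      have e1 : G.nx tw (e, true, !(tw e)) = (G.t e, false, true) := by
        simp only [CB.nx]
        cases tw e <;> rfl
      rw [e1, h2, h1' e (!(tw e))] at h3
      exact h3
    obtain ⟨r, hr⟩ := FacialB_const G hC (fun e => f.1 (e, true, true)) hs ht
    refine ⟨r, ?_⟩
    rintro ⟨e, d, o⟩
    cases d
    · rw [h2]
      exact congrFun hr e
    · rw [h1']
      exact congrFun hr e
  let one : G.Inv tw := ⟨fun _ => 1, fun _ => ⟨rfl, rfl⟩⟩
  have hle : LinearMap.ker (FacialB_bd G tw) ≤ Submodule.span (ZMod 2) {one} := by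
    intro f hf
    obtain ⟨r, hr⟩ := h f hf
    rw [Submodule.mem_span_singleton]
    refine ⟨r, Subtype.ext (funext fun a => ?_)⟩
    rw [hr a]
    show r * 1 = r
    ring
  exact (Submodule.finrank_mono hle).trans (FacialB_span _)

lemma FacialB_range (G : CB E) (tw : E → Bool) (hC : G.Cn) :
    Nat.card (G.Fc tw) ≤ Module.finrank (ZMod 2) (LinearMap.range (FacialB_bd G tw)) + 1 := by
  have h1 := LinearMap.finrank_range_add_finrank_ker (FacialB_bd G tw)
  have h2 := finrank_Inv G tw
  have h3 := FacialB_ker G tw hC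
  omega

omit [Fintype E] in
lemma FacialB_mem_range (G : CB E) (tw : E → Bool) (v : E → ZMod 2) :
    v ∈ LinearMap.range (FacialB_bd G tw) ↔ G.Bd tw v := by
  constructor
  · rintro ⟨f, rfl⟩
    exact ⟨f.1, f.2, fun e => rfl⟩
  · rintro ⟨f, hf, h⟩
    exact ⟨⟨f, hf⟩, funext h⟩

/-- boundaries are orthogonal to `s`-invariant functions -/
lemma FacialB_orth_s (G : CB E) (tw : E → Bool) {f : E × Bool × Bool → ZMod 2} (hf : f ∈ G.Inv tw)
    {p : E → ZMod 2} (hp : ∀ e, p (G.s e) = p e) :
    ∑ e, p e * (f (e, true, true) + f (e, true, false)) = 0 := by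
  have h1 : ∀ e, f (G.s e, true, true) = f (e, true, false) := by
    intro e
    have h := hf (e, false, !(tw e))
    have e1 : G.nx tw (e, false, !(tw e)) = (G.s e, true, true) := by
      simp only [CB.nx]
      cases tw e <;> rfl
    have e2 : G.rv tw (e, false, !(tw e)) = (e, true, false) := by
      simp only [CB.rv]
      cases tw e <;> rfl
    rw [e1, e2] at h
    rw [h.1, h.2]
  have h2 : ∑ e, p e * f (e, true, true) = ∑ e, p e * f (e, true, false) := by
    rw [← Equiv.sum_comp G.s (fun e => p e * f (e, true, true))]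
    refine Finset.sum_congr rfl fun e _ => ?_
    rw [hp, h1]
  simp only [mul_add]
  rw [Finset.sum_add_distrib, h2]
  have : ∀ a : ZMod 2, a + a = 0 := by decide
  exact this _

/-- boundaries are orthogonal to `t`-invariant functions -/
lemma FacialB_orth_t (G : CB E) (tw : E → Bool) {f : E × Bool × Bool → ZMod 2} (hf : f ∈ G.Inv tw)
    {p : E → ZMod 2} (hp : ∀ e, p (G.t e) = p e) :
    ∑ e, p e * (f (e, true, true) + f (e, true, false)) = 0 := by
  have h1 : ∀ e, f (G.t e, false, true) = f (e, false, false) := by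
    intro e
    have h := hf (e, true, !(tw e))
    have e1 : G.nx tw (e, true, !(tw e)) = (G.t e, false, true) := by
      simp only [CB.nx]
      cases tw e <;> rfl
    have e2 : G.rv tw (e, true, !(tw e)) = (e, false, false) := by
      simp only [CB.rv]
      cases tw e <;> rfl
    rw [e1, e2] at h
    rw [h.1, h.2]
  have h0 : ∀ e, f (e, true, true) + f (e, true, false) = f (e, false, true) + f (e, false, false) := by
    intro e
    have h1 := (hf (e, true, true)).2
    have h2 := (hf (e, true, false)).2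
    simp only [CB.rv, Bool.not_true] at h1 h2
    rw [← h1, ← h2]
    cases tw e
    · simp only [Bool.xor_false, Bool.not_true, Bool.not_false]
      rw [add_comm]
    · simp only [Bool.xor_true, Bool.not_true, Bool.not_false]
  have h2 : ∑ e, p e * f (e, false, true) = ∑ e, p e * f (e, false, false) := by
    rw [← Equiv.sum_comp G.t (fun e => p e * f (e, false, true))]
    refine Finset.sum_congr rfl fun e _ => ?_
    rw [hp, h1]
  simp only [h0, mul_add]
  rw [Finset.sum_add_distrib, h2]
  have : ∀ a : ZMod 2, a + a = 0 := by decide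
  exact this _

end aux

variable {E : Type u} [Fintype E]

theorem dim_step (G : CB E) (tw : E → Bool) (hC : G.Cn) (hχ : G.Chi1 tw) {c : E → Fin 3} (hc : G.P c)
    (v : E → ZMod 2) (hv : ¬ G.Bd tw v) (hs : ∀ p : E → ZMod 2, (∀ e, p (G.s e) = p e) → ∑ e, p e * v e = 0)
    (ht : ∀ q : E → ZMod 2, (∀ e, q (G.t e) = q e) → ∑ e, q e * v e = 0) (lam : E → ZMod 2)
    (hl : ∀ f ∈ G.Inv tw, ∑ e, (f (e, true, true) + f (e, true, false)) * lam e = 0) (h0 : ∑ e, v e * lam e = 0) :
    ∃ p q : E → ZMod 2, (∀ e, p (G.s e) = p e) ∧ (∀ e, q (G.t e) = q e) ∧ ∀ e, p e + q e = lam e := by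
  classical
  have hm := FacialB_count G.s G.s3 c (fun e => (hc e).1)
  have r1 := FacialB_rank G.s G.s3 c (fun e => (hc e).1)
  have r2 := FacialB_rank G.t G.t3 c (fun e => (hc e).2)
  have r3 := FacialB_inf G hC
  have r4 := Submodule.finrank_sup_add_finrank_inf_eq (FacialB_inv G.s) (FacialB_inv G.t)
  have r5 := FacialB_range G tw hC
  unfold CB.Chi1 at hχ
  rw [Nat.card_eq_fintype_card] at hχ
  set B := LinearMap.range (FacialB_bd G tw) with hB
  have hvB : v ∉ B := by
    rw [FacialB_mem_range]
    exact hv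
  have r6 : Module.finrank (ZMod 2) B + 1 ≤
      Module.finrank (ZMod 2) (B ⊔ Submodule.span (ZMod 2) {v} : Submodule (ZMod 2) (E → ZMod 2)) := by
    apply Submodule.finrank_lt_finrank_of_lt
    refine lt_of_le_of_ne le_sup_left ?_
    intro h
    apply hvB
    rw [h]
    exact Submodule.mem_sup_right (Submodule.mem_span_singleton_self v)
  let β : LinearMap.BilinForm (ZMod 2) (E → ZMod 2) := dotProductBilin (ZMod 2) (ZMod 2)
  have hβ : ∀ x y, β x y = ∑ e, x e * y e := fun x y => rfl
  have hnd : β.Nondegenerate := by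
    constructor
    · intro x hx
      exact dotProduct_eq_zero x (fun w => hx w)
    · intro x hx
      exact dotProduct_eq_zero x (fun w => by
        rw [dotProduct_comm]
        exact hx w)
  have r7 := LinearMap.BilinForm.finrank_orthogonal hnd (B ⊔ Submodule.span (ZMod 2) {v})
  have hsw : ∀ x y : E → ZMod 2, ∑ e, x e * y e = ∑ e, y e * x e := fun x y =>
    Finset.sum_congr rfl fun e _ => mul_comm _ _
  have horth : ∀ x : E → ZMod 2, (∀ f ∈ G.Inv tw, ∑ e, (f (e, true, true) + f (e, true, false)) * x e = 0) →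
      ∑ e, v e * x e = 0 → x ∈ β.orthogonal (B ⊔ Submodule.span (ZMod 2) {v}) := by
    intro x hx1 hx2
    rw [LinearMap.BilinForm.mem_orthogonal_iff]
    intro w hw
    obtain ⟨b, hb, y, hy, rfl⟩ := Submodule.mem_sup.1 hw
    obtain ⟨r, rfl⟩ := Submodule.mem_span_singleton.1 hy
    obtain ⟨f, rfl⟩ := hb
    show β _ _ = 0
    rw [map_add, LinearMap.add_apply, map_smul, LinearMap.smul_apply, hβ, hβ, hx2, smul_zero, add_zero]
    exact hx1 f.1 f.2
  have hle : FacialB_inv G.s ⊔ FacialB_inv G.t ≤ β.orthogonal (B ⊔ Submodule.span (ZMod 2) {v}) := by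
    rw [sup_le_iff]
    constructor
    · intro p hp
      refine horth p (fun f hf => ?_) ?_
      · rw [hsw]
        exact FacialB_orth_s G tw hf hp
      · rw [hsw]
        exact hs p hp
    · intro p hp
      refine horth p (fun f hf => ?_) ?_
      · rw [hsw]
        exact FacialB_orth_t G tw hf hp
      · rw [hsw]
        exact ht p hp
  have heq : FacialB_inv G.s ⊔ FacialB_inv G.t = β.orthogonal (B ⊔ Submodule.span (ZMod 2) {v}) := by
    apply Submodule.eq_of_le_of_finrank_le hle
    rw [r7, Module.finrank_fintype_fun_eq_card]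
    have hm' := FacialB_count G.t G.t3 c (fun e => (hc e).2)
    omega
  have hlam := horth lam hl h0
  rw [← heq] at hlam
  obtain ⟨p, hp, q, hq, rfl⟩ := Submodule.mem_sup.1 hlam
  exact ⟨p, q, hp, hq, fun e => rfl⟩

end Pool.Agent.PP
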