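import Pool.Agent.Lib_MP_7c0803_pp.FacialB

set_option autoImplicit false

open Finset Function

namespace Pool.Agent.PP

universe u

variable {E : Type u} [Fintype E]

/-- sum of the twists over a colour class -/
private def T (G : CB E) (tw : E → Bool) (c : E → Fin 3) (j : Fin 3) : ZMod 2 :=
  ∑ e, if c e = j then G.twi tw c e else 0

private lemma T_sum (G : CB E) (tw : E → Bool) (c : E → Fin 3) :
    T G tw c 0 + T G tw c 1 + T G tw c 2 = ∑ e, G.twi tw c e := by
  unfold T
  rw [← Finset.sum_add_distrib, ← Finset.sum_add_distrib]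
  apply Finset.sum_congr rfl
  intro e _
  have : c e = 0 ∨ c e = 1 ∨ c e = 2 := by
    generalize c e = k; revert k; decide
  rcases this with h | h | h <;> simp [h]

private lemma twi_sum (G : CB E) (tw : E → Bool) (c : E → Fin 3) :
    ∑ e, G.twi tw c e = G.par c + ∑ e, (b2 (tw e) + 1) := by
  unfold CB.twi CB.par
  rw [← Finset.sum_add_distrib, ← Finset.sum_add_distrib]
  apply Finset.sum_congr rfl
  intro e _
  ring

private lemma ind_orth {c : E → Fin 3} (s : Equiv.Perm E) (s3 : ∀ e, s (s (s e)) = e) (hc : ∀ e, c (s e) ≠ c e)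
    (k : Fin 3) (p : E → ZMod 2) (hp : ∀ e, p (s e) = p e) : ∑ e, p e * ind k (c e) = 0 := by
  have h0 : ∀ j, ∑ e, p e = ∑ e, if c e = j then p e else 0 := fun j => sum_class s s3 c hc p hp j
  have h1 : ∑ e, p e * ind k (c e) = (∑ e, if c e = k + 1 then p e else 0) + ∑ e, if c e = k + 2 then p e else 0 := by
    rw [← Finset.sum_add_distrib]
    apply Finset.sum_congr rfl
    intro e _
    have : ∀ k j : Fin 3, ∀ x : ZMod 2, x * ind k j = (if j = k + 1 then x else 0) + if j = k + 2 then x else 0 := by
      decide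
    exact this _ _ _
  rw [h1, ← h0, ← h0]
  have : ∀ x : ZMod 2, x + x = 0 := by decide
  exact this _

/-- for Euler characteristic at least one the facial colourings are those of a certain parity -/
theorem facial_iff (G : CB E) (tw : E → Bool) (hC : G.Cn) (hχ : G.Chi1 tw) :
    ∃ p0 : ZMod 2, ∀ c, G.P c → (G.Facial tw c ↔ G.par c = p0) := by
  refine ⟨∑ e, (b2 (tw e) + 1), ?_⟩
  intro c hc
  have key : G.par c = ∑ e, (b2 (tw e) + 1) ↔ T G tw c 0 + T G tw c 1 + T G tw c 2 = 0 := by
    rw [T_sum, twi_sum]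
    generalize G.par c = a
    generalize ∑ e, (b2 (tw e) + 1) = b
    revert a b
    decide
  rw [key]
  have hpt1 : ∀ i j k x : Fin 3, ∀ w : ZMod 2, i ≠ j → i ≠ k → j ≠ k →
      ind i x * (w * ind i x) = (if x = j then w else 0) + if x = k then w else 0 := by decide
  have hpt2 : ∀ i j k x : Fin 3, ∀ w : ZMod 2, i ≠ j → i ≠ k → j ≠ k →
      ind k x * (w * ind i x) = (if x = j then w else 0) := by decide
  have hα : ∀ i j k : Fin 3, i ≠ j → i ≠ k → j ≠ k → ¬ G.Bd tw (fun e => ind i (c e)) →
      T G tw c j + T G tw c k = 1 := by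
    intro i j k h1 h2 h3 hB
    have hT : ∑ e, ind i (c e) * (G.twi tw c e * ind i (c e)) = T G tw c j + T G tw c k := by
      unfold T
      rw [← Finset.sum_add_distrib]
      exact Finset.sum_congr rfl (fun e _ => hpt1 i j k (c e) _ h1 h2 h3)
    by_contra hne
    have h0 : T G tw c j + T G tw c k = 0 := by
      revert hne
      generalize T G tw c j + T G tw c k = a
      revert a
      decide
    rw [h0] at hT
    exact hB ((Bd_iff G tw hc i).2 (dim_step G tw hC hχ hc (fun e => ind i (c e)) hB
      (fun p hp => ind_orth G.s G.s3 (fun e => (hc e).1) i p hp)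
      (fun p hp => ind_orth G.t G.t3 (fun e => (hc e).2) i p hp) _
      (fun f hf => lam_bd G tw hc i hf) hT))
  have hβ : ∀ k j : Fin 3, j ≠ k → G.Bd tw (fun e => ind k (c e)) → T G tw c j = 0 := by
    intro k j hjk hB
    obtain ⟨f, hf, hfe⟩ := hB
    have h3 : ∀ k j : Fin 3, j ≠ k → ∃ i, i ≠ j ∧ i ≠ k := by decide
    obtain ⟨i, hij, hik⟩ := h3 k j hjk
    have h1 := lam_bd G tw hc i hf
    have h2 : ∑ e, (f (e, true, true) + f (e, true, false)) * (G.twi tw c e * ind i (c e)) = T G tw c j := by
      unfold T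
      apply Finset.sum_congr rfl
      intro e _
      rw [hfe e]
      exact hpt2 i j k (c e) _ hij hik hjk
    rw [h2] at h1
    exact h1
  rw [facial_iff_Bd]
  constructor
  · intro h
    rw [hβ 0 1 (by decide) (h 0), hβ 0 2 (by decide) (h 0), hβ 1 0 (by decide) (h 1)]
    decide
  · intro h0 i
    by_contra hi
    have h3 : ∀ i : Fin 3, ∃ j k : Fin 3, i ≠ j ∧ i ≠ k ∧ j ≠ k ∧
        ∀ a : Fin 3 → ZMod 2, a 0 + a 1 + a 2 = a i + a j + a k := by
      intro i
      fin_cases i
      · exact ⟨1, 2, by decide, by decide, by decide, fun a => rfl⟩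
      · exact ⟨0, 2, by decide, by decide, by decide, fun a => by
          show a 0 + a 1 + a 2 = a 1 + a 0 + a 2
          ring⟩
      · exact ⟨0, 1, by decide, by decide, by decide, fun a => by
          show a 0 + a 1 + a 2 = a 2 + a 0 + a 1
          ring⟩
    obtain ⟨j, k, h1, h2, h4, hs⟩ := h3 i
    have hs' := hs (fun j => T G tw c j)
    rw [h0] at hs'
    have a1 := hα i j k h1 h2 h4 hi
    by_cases hj : G.Bd tw (fun e => ind j (c e))
    · rw [hβ j i h1 hj, hβ j k (Ne.symm h4) hj] at hs'
      rw [hβ j k (Ne.symm h4) hj] at a1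
      rw [add_zero] at a1
      rw [a1] at hs'
      revert hs'
      decide
    · by_cases hk : G.Bd tw (fun e => ind k (c e))
      · rw [hβ k i h2 hk, hβ k j h4 hk] at hs'
        rw [hβ k j h4 hk] at a1
        rw [zero_add] at a1
        rw [a1] at hs'
        revert hs'
        decide
      · have a2 := hα j i k (Ne.symm h1) h4 h2 hj
        have a3 := hα k i j (Ne.symm h2) (Ne.symm h4) h1 hk
        revert hs' a1 a2 a3
        generalize T G tw c i = p
        generalize T G tw c j = q
        generalize T G tw c k = r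
        revert p q r
        decide

end Pool.Agent.PP
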