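import Pool.Agent.Lib_MP_7c0803_pp.Induct
import Pool.Agent.Lib_MP_7c0803_pp.FacialC
import Pool.Agent.Lib_MP_7c0803_pp.Kempe
import Pool.Agent.Lib_MP_7c0803_pp.EmbB

set_option autoImplicit false

open Finset Function

namespace Pool.Agent.PP

open SimpleGraph

universe u

variable {V : Type u} {G : SimpleGraph V}

/-- parity constant, for the graph and for the multigraph on its edges -/
theorem PC_iff [Finite V] [Fintype G.edgeSet] (M : Emb G) (κ : G.Coloring Bool)
    (hcub : ∀ v, (G.neighborSet v).ncard = 3) :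
    (toCB M κ hcub).PC ↔ ∀ c c' : G.lineGraph.Coloring (Fin 3), Even (flips c c').ncard := by
  constructor
  · intro h c c'
    exact (par_iff M κ hcub c c').1 (h _ _ (P_col M κ hcub c) (P_col M κ hcub c'))
  · intro h c c' hc hc'
    obtain ⟨d, rfl⟩ := exists_col M κ hcub c hc
    obtain ⟨d', rfl⟩ := exists_col M κ hcub c' hc'
    exact (par_iff M κ hcub d d').2 (h d d')

theorem kc_necessary [Finite V] (M : Emb G) (κ : G.Coloring Bool) (hcub : ∀ v, (G.neighborSet v).ncard = 3)
    (h : Kc G.lineGraph 3 = 1) (c c' : G.lineGraph.Coloring (Fin 3)) : Even (flips c c').ncard := by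
  classical
  have : Fintype G.edgeSet := Fintype.ofFinite _
  exact (PC_iff M κ hcub).1 (Con_PC _ ((Kc_iff M κ hcub).1 h)) c c'

theorem kc_red [Finite V] (M : Emb G) (κ : G.Coloring Bool) (hcub : ∀ v, (G.neighborSet v).ncard = 3)
    (hR : Red G.edgeSet (toCB M κ hcub)) :
    Kc G.lineGraph 3 = 1 ↔ ∀ c c' : G.lineGraph.Coloring (Fin 3), Even (flips c c').ncard := by
  classical
  have : Fintype G.edgeSet := Fintype.ofFinite _
  rw [Kc_iff M κ hcub, red_iff _ _ hR, PC_iff]

theorem kc_chi [Finite V] (M : Emb G) (κ : G.Coloring Bool) (hcub : ∀ v, (G.neighborSet v).ncard = 3)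
    (hG : G.Connected) (hχ : M.ChiPos) :
    (Kc G.lineGraph 3 = 1 ↔ ∀ c c' : G.lineGraph.Coloring (Fin 3), Even (flips c c').ncard) ∧
      (Kc G.lineGraph 3 = 1 ↔ (∀ c, M.FacialCol c) ∨ ∀ c, ¬ M.FacialCol c) := by
  classical
  have : Fintype G.edgeSet := Fintype.ofFinite _
  have hC := cn_of_connected M κ hcub hG
  have hχ' := (chi_iff M κ hcub).1 hχ
  have h1 := chi_con (toCB M κ hcub) (twE M κ) hC hχ'
  refine ⟨by rw [Kc_iff M κ hcub, h1, PC_iff], ?_⟩
  rw [Kc_iff M κ hcub, h1]
  obtain ⟨p0, hp0⟩ := facial_iff (toCB M κ hcub) (twE M κ) hC hχ'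
  have hf : ∀ c : G.lineGraph.Coloring (Fin 3), M.FacialCol c ↔ (toCB M κ hcub).par (fun e => c e) = p0 := by
    intro c
    rw [facial_iff' M κ hcub, hp0 _ (P_col M κ hcub c)]
  constructor
  · intro h
    by_cases hex : ∃ c : G.lineGraph.Coloring (Fin 3), M.FacialCol c
    · left
      obtain ⟨c0, hc0⟩ := hex
      intro c
      rw [hf] at hc0 ⊢
      rw [← hc0]
      exact h _ _ (P_col M κ hcub c) (P_col M κ hcub c0)
    · right
      intro c hc
      exact hex ⟨c, hc⟩
  · rintro (h | h)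
    · intro c c' hc hc'
      obtain ⟨d, rfl⟩ := exists_col M κ hcub c hc
      obtain ⟨d', rfl⟩ := exists_col M κ hcub c' hc'
      rw [(hf d).1 (h d), (hf d').1 (h d')]
    · intro c c' hc hc'
      obtain ⟨d, rfl⟩ := exists_col M κ hcub c hc
      obtain ⟨d', rfl⟩ := exists_col M κ hcub c' hc'
      have e1 : (toCB M κ hcub).par (fun e => d e) ≠ p0 := fun h' => h d ((hf d).2 h')
      have e2 : (toCB M κ hcub).par (fun e => d' e) ≠ p0 := fun h' => h d' ((hf d').2 h')
      have key : ∀ a b p : ZMod 2, a ≠ p → b ≠ p → a = b := by decide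
      exact key _ _ _ e1 e2

end Pool.Agent.PP
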