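import Pool.Agent.Lib_MP_7c0803_pp.Konig

/-!
`potential`: if all perfect matchings (= classes of colour `0` of proper colourings) of a connected cubic bipartite multigraph have
the same `z`-weight `κ ∈ ZMod 2`, then `z = p + q` with `p` constant at the `X`-vertices and `q` constant at the `Y`-vertices.

Proof plan.  Fix a proper colouring `c` (`exists_P`).  `M = {e | c e = 0}`.  For `i ∈ {1, 2}` and an edge `e`, let `X_i e` be the edge
of colour `i` in the `s`-orbit of `e` (`X_0 e` the one of colour `0`), `Y_0 e` the edge of colour `0` in the `t`-orbit of `e`.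
For `e ∈ M`: `α_i e = Y_0 (X_i e) ∈ M` and the weight `w_i e = z (X_i e) + z (α_i e)`.  `α_1, α_2` are injective on `M`.

(1) No closed walk has odd weight: there are no `k > 0`, `f : ℕ → E`, `i : ℕ → Fin 3` with `c (f j) = 0`, `i j ≠ 0`,
    `f (j + 1) = α_{i j} (f j)` for `j < k`, `f k = f 0` and `∑_{j<k} w_{i j} (f j) = 1`.  Take a shortest one.  Then
    `f 0, .., f (k-1)` are different: if `f a = f b`, `0 ≤ a < b < k` (or more generally `b - a < k`), then one of the closed walks
    `f a, .., f b` and `f 0, .., f a = f b, .., f k` has odd weight and is shorter.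
    For a closed walk with different vertices `V = {f j | j < k}` let
    `M' g := (c g = 0 ∧ g ∉ V) ∨ ∃ j < k, g = X_{i j} (f j)`.
    `M'` has exactly one edge in every `s`-orbit (the orbit of `e ∈ M`: `e` if `e ∉ V`; `X_{i j} (f j)` if `e = f j`) and exactly
    one in every `t`-orbit (the orbit of `e ∈ M`: if `e ∉ V`: `e`; if `e ∈ V`: `e = f (j+1)` for exactly one `j < k`, and it
    contains `X_{i j} (f j)`).  By `matching_col` there is a proper `c'` with `c' g = 0 ↔ M' g`, so
    `κ = ∑_{M'} z = ∑_{M} z + ∑_{j<k} z (f j) + ∑_{j<k} z (X_{i j} (f j))`, and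
    `∑_{j<k} w_{i j} (f j) = ∑ z (X_{i j} (f j)) + ∑ z (f (j+1)) = ∑ z (X_{i j} (f j)) + ∑ z (f j) = 0`.
(2) Every `b ∈ M` can be reached from a fixed root `r ∈ M` by a walk, and conversely: the set `A` of elements of `M` reachable
    from `a` satisfies `α_i A ⊆ A`, so `α_i A = A` (finite, injective), so the set of edges whose `X_0` is in `A` is closed
    under `s` and `t` (an edge `g` of colour `i` has `Y_0 g = α_i (X_0 g)`, so `X_0 g ∈ A ↔ Y_0 g ∈ A`), so it is everything by `G.Cn`.
(3) Define `φ b` as the weight of some walk from `r` to `b`.  By (1) and a walk back it does not depend on the walk.  So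
    `φ (α_i b) = φ b + w_i b`.  `p g = φ (X_0 g)`, `q g = φ (Y_0 g) + z (Y_0 g)`; for `c g = i ≠ 0`:
    `p g + q g = φ (X_0 g) + φ (α_i (X_0 g)) + z (Y_0 g) = w_i (X_0 g) + z (Y_0 g) = z g`; for `c g = 0`: `φ g + φ g + z g`.
(`E` empty is trivial.)  Walks may be modelled by an inductive predicate `W a b n w` (length `n`, weight `w`) together with the
list / function of the vertices.
-/

set_option autoImplicit false

open Finset Function

namespace Pool.Agent.PP

universe u

section aux

variable {E : Type u}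

/-- `f` is in the orbit of `e` -/
private def Potential_O (s : Equiv.Perm E) (e f : E) : Prop := f = e ∨ f = s e ∨ f = s (s e)

private lemma Potential_O_symm {s : Equiv.Perm E} (s3 : ∀ e, s (s (s e)) = e) {e f : E}
    (h : Potential_O s e f) : Potential_O s f e := by
  rcases h with rfl | rfl | rfl
  · exact Or.inl rfl
  · exact Or.inr (Or.inr (s3 e).symm)
  · exact Or.inr (Or.inl (s3 e).symm)

private lemma Potential_O_trans {s : Equiv.Perm E} (s3 : ∀ e, s (s (s e)) = e) {e f g : E}
    (h : Potential_O s e f) (h' : Potential_O s f g) : Potential_O s e g := by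
  unfold Potential_O at *
  rcases h with rfl | rfl | rfl <;> rcases h' with rfl | rfl | rfl <;> simp [s3]

/-- the edge of colour `k` in the orbit of `e` -/
private def Potential_X (s : Equiv.Perm E) (c : E → Fin 3) (k : Fin 3) (e : E) : E :=
  if c e = k then e else if c (s e) = k then s e else s (s e)

private lemma Potential_X_orb (s : Equiv.Perm E) (c : E → Fin 3) (k : Fin 3) (e : E) :
    Potential_O s e (Potential_X s c k e) := by
  unfold Potential_X Potential_O
  split_ifs
  · exact Or.inl rfl
  · exact Or.inr (Or.inl rfl)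
  · exact Or.inr (Or.inr rfl)

private lemma Potential_X_col {s : Equiv.Perm E} {c : E → Fin 3} (s3 : ∀ e, s (s (s e)) = e)
    (hc : ∀ e, c (s e) ≠ c e) (k : Fin 3) (e : E) : c (Potential_X s c k e) = k := by
  unfold Potential_X
  split_ifs with h1 h2
  · exact h1
  · exact h2
  · have a := hc e
    have b := hc (s e)
    have d := hc (s (s e))
    rw [s3] at d
    have key : ∀ x y z k : Fin 3, y ≠ x → z ≠ y → x ≠ z → x ≠ k → y ≠ k → z = k := by decide
    exact key _ _ _ _ a b d h1 h2

private lemma Potential_X_uniq {s : Equiv.Perm E} {c : E → Fin 3} (s3 : ∀ e, s (s (s e)) = e)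
    (hc : ∀ e, c (s e) ≠ c e) {k : Fin 3} {e f : E} (h : Potential_O s e f) (hf : c f = k) :
    f = Potential_X s c k e := by
  have a := hc e
  have b := hc (s e)
  have d := hc (s (s e))
  rw [s3] at d
  unfold Potential_X
  rcases h with rfl | rfl | rfl
  · rw [if_pos hf]
  · rw [if_neg (by rw [← hf]; exact a.symm), if_pos hf]
  · rw [if_neg (by rw [← hf]; exact d), if_neg (by rw [← hf]; exact b.symm)]

private lemma Potential_X_inv {s : Equiv.Perm E} {c : E → Fin 3} (s3 : ∀ e, s (s (s e)) = e)
    (hc : ∀ e, c (s e) ≠ c e) (k : Fin 3) {e f : E} (h : Potential_O s e f) :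
    Potential_X s c k f = Potential_X s c k e :=
  Potential_X_uniq s3 hc (Potential_O_trans s3 h (Potential_X_orb s c k f))
    (Potential_X_col s3 hc k f)

private lemma Potential_X_self {s : Equiv.Perm E} {c : E → Fin 3} {k : Fin 3} {e : E} (h : c e = k) :
    Potential_X s c k e = e := by
  unfold Potential_X
  rw [if_pos h]

private lemma Potential_X_X {s : Equiv.Perm E} {c : E → Fin 3} (s3 : ∀ e, s (s (s e)) = e)
    (hc : ∀ e, c (s e) ≠ c e) (k l : Fin 3) (e : E) :
    Potential_X s c k (Potential_X s c l e) = Potential_X s c k e :=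
  Potential_X_inv s3 hc k (Potential_X_orb s c l e)

/-! ### Walks -/

/-- closed walks have weight zero if those without repeated vertices have -/
private lemma Potential_closed (M : E → Prop) (α : Fin 3 → E → E) (w : Fin 3 → E → ZMod 2)
    (hM : ∀ i e, M e → M (α i e))
    (hinj : ∀ (k : ℕ) (f : ℕ → E) (i : ℕ → Fin 3), M (f 0) →
      (∀ j < k, i j ≠ 0 ∧ f (j + 1) = α (i j) (f j)) → f k = f 0 →
      (∀ a < k, ∀ b < k, f a = f b → a = b) → ∑ j ∈ range k, w (i j) (f j) = 0) :
    ∀ (k : ℕ) (f : ℕ → E) (i : ℕ → Fin 3), M (f 0) →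
      (∀ j < k, i j ≠ 0 ∧ f (j + 1) = α (i j) (f j)) → f k = f 0 →
      ∑ j ∈ range k, w (i j) (f j) = 0 := by
  intro k
  induction k using Nat.strong_induction_on with
  | _ k ih =>
    intro f i h0 hs hk
    have key : ∀ a b, a < b → b < k → f a = f b → ∑ j ∈ range k, w (i j) (f j) = 0 := by
      intro a b hab hb hf
      have hMf : ∀ j ≤ k, M (f j) := by
        intro j
        induction j with
        | zero => exact fun _ => h0
        | succ j ihj =>
          intro hj
          rw [(hs j (by omega)).2]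
          exact hM _ _ (ihj (by omega))
      have e1 := ih (b - a) (by omega) (fun j => f (a + j)) (fun j => i (a + j)) (hMf a (by omega))
        (fun j hj => hs (a + j) (by omega)) (by
          show f (a + (b - a)) = f (a + 0)
          rw [Nat.add_sub_cancel' hab.le, add_zero, hf])
      have e2 := ih (a + (k - b)) (by omega) (fun j => if j ≤ a then f j else f (j + (b - a)))
        (fun j => if j < a then i j else i (j + (b - a))) (by
          show M (if 0 ≤ a then f 0 else _)
          rw [if_pos (Nat.zero_le a)]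
          exact h0) (by
          intro j hj
          show (if j < a then i j else i (j + (b - a))) ≠ 0 ∧
            (if j + 1 ≤ a then f (j + 1) else f (j + 1 + (b - a))) =
              α (if j < a then i j else i (j + (b - a))) (if j ≤ a then f j else f (j + (b - a)))
          by_cases h1 : j < a
          · rw [if_pos h1, if_pos (by omega : j + 1 ≤ a), if_pos h1.le]
            exact hs j (by omega)
          · rw [if_neg h1, if_neg (by omega : ¬ j + 1 ≤ a)]
            have h2 := hs (j + (b - a)) (by omega)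
            have h3 : (if j ≤ a then f j else f (j + (b - a))) = f (j + (b - a)) := by
              split_ifs with h4
              · have h5 : j = a := by omega
                rw [h5, Nat.add_sub_cancel' hab.le, hf]
              · rfl
            rw [h3, show j + 1 + (b - a) = j + (b - a) + 1 by omega]
            exact h2) (by
          show (if a + (k - b) ≤ a then f (a + (k - b)) else f (a + (k - b) + (b - a))) =
            (if 0 ≤ a then f 0 else _)
          rw [if_neg (by omega), if_pos (Nat.zero_le a), show a + (k - b) + (b - a) = k by omega, hk])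
      rw [Finset.sum_range_add] at e2
      have e3 : ∑ j ∈ range a, w ((fun j => if j < a then i j else i (j + (b - a))) j)
          ((fun j => if j ≤ a then f j else f (j + (b - a))) j) = ∑ j ∈ range a, w (i j) (f j) := by
        refine Finset.sum_congr rfl fun j hj => ?_
        have hj' : j < a := Finset.mem_range.1 hj
        show w (if j < a then i j else i (j + (b - a))) (if j ≤ a then f j else f (j + (b - a))) = _
        rw [if_pos hj', if_pos hj'.le]
      have e4 : ∑ j ∈ range (k - b), w ((fun j => if j < a then i j else i (j + (b - a))) (a + j))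
          ((fun j => if j ≤ a then f j else f (j + (b - a))) (a + j)) =
          ∑ j ∈ range (k - b), w (i (b + j)) (f (b + j)) := by
        refine Finset.sum_congr rfl fun j hj => ?_
        show w (if a + j < a then i (a + j) else i (a + j + (b - a)))
          (if a + j ≤ a then f (a + j) else f (a + j + (b - a))) = _
        have h5 : a + j + (b - a) = b + j := by omega
        rw [if_neg (by omega), h5]
        congr 1
        split_ifs with h4
        · have h6 : j = 0 := by omega
          rw [h6, add_zero, add_zero, hf]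
        · rfl
      have e5 : ∑ j ∈ range k, w (i j) (f j) = ∑ j ∈ range a, w (i j) (f j) +
          ∑ j ∈ range (b - a), w (i (a + j)) (f (a + j)) +
          ∑ j ∈ range (k - b), w (i (b + j)) (f (b + j)) := by
        have h6 : k = a + (b - a) + (k - b) := by omega
        have h7 : a + (b - a) = b := by omega
        conv_lhs => rw [h6]
        rw [Finset.sum_range_add, Finset.sum_range_add, h7]
      rw [e5, show ∑ j ∈ range (b - a), w (i (a + j)) (f (a + j)) = 0 from e1, add_zero]
      rw [e3, e4] at e2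
      exact e2
    by_cases hi : ∀ a < k, ∀ b < k, f a = f b → a = b
    · exact hinj k f i h0 hs hk hi
    · push Not at hi
      obtain ⟨a, ha, b, hb, hab, hne⟩ := hi
      rcases lt_or_gt_of_ne hne with h | h
      · exact key a b h hb hab
      · exact key b a h ha hab.symm

/-- there is a walk from `a` to `b` of weight `v` -/
private inductive Potential_R (α : Fin 3 → E → E) (w : Fin 3 → E → ZMod 2) (a : E) : E → ZMod 2 → Prop
  | refl : Potential_R α w a a 0
  | step {b : E} {v : ZMod 2} (i : Fin 3) (hi : i ≠ 0) (h : Potential_R α w a b v) :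
      Potential_R α w a (α i b) (v + w i b)

private lemma Potential_R_trans {α : Fin 3 → E → E} {w : Fin 3 → E → ZMod 2} {a b d : E} {v v' : ZMod 2}
    (h : Potential_R α w a b v) (h' : Potential_R α w b d v') : Potential_R α w a d (v + v') := by
  induction h' with
  | refl => rw [add_zero]; exact h
  | step i hi h' ih => rw [← add_assoc]; exact Potential_R.step i hi ih

private lemma Potential_R_walk {α : Fin 3 → E → E} {w : Fin 3 → E → ZMod 2} {a b : E} {v : ZMod 2}
    (h : Potential_R α w a b v) : ∃ (k : ℕ) (f : ℕ → E) (i : ℕ → Fin 3), f 0 = a ∧ f k = b ∧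
      (∀ j < k, i j ≠ 0 ∧ f (j + 1) = α (i j) (f j)) ∧ ∑ j ∈ range k, w (i j) (f j) = v := by
  induction h with
  | refl => exact ⟨0, fun _ => a, fun _ => 0, rfl, rfl, fun j hj => absurd hj (Nat.not_lt_zero j), rfl⟩
  | @step b v i hi h ih =>
    obtain ⟨k, f, l, h0, hk, hs, hv⟩ := ih
    refine ⟨k + 1, fun j => if j ≤ k then f j else α i b, fun j => if j < k then l j else i, ?_, ?_, ?_, ?_⟩
    · show (if 0 ≤ k then f 0 else _) = a
      rw [if_pos (Nat.zero_le k), h0]
    · show (if k + 1 ≤ k then _ else α i b) = α i b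
      rw [if_neg (by omega)]
    · intro j hj
      show (if j < k then l j else i) ≠ 0 ∧ (if j + 1 ≤ k then f (j + 1) else α i b) =
        α (if j < k then l j else i) (if j ≤ k then f j else α i b)
      by_cases h1 : j < k
      · rw [if_pos h1, if_pos (by omega : j + 1 ≤ k), if_pos h1.le]
        exact hs j h1
      · have h2 : j = k := by omega
        subst h2
        rw [if_neg h1, if_neg (by omega), if_pos le_rfl, hk]
        exact ⟨hi, rfl⟩
    · rw [Finset.sum_range_succ]
      show _ + w (if k < k then l k else i) (if k ≤ k then f k else α i b) = _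
      rw [if_neg (lt_irrefl k), if_pos le_rfl, hk, ← hv]
      congr 1
      refine Finset.sum_congr rfl fun j hj => ?_
      have hj' : j < k := Finset.mem_range.1 hj
      show w (if j < k then l j else i) (if j ≤ k then f j else α i b) = _
      rw [if_pos hj', if_pos hj'.le]

end aux

variable {E : Type u} [Fintype E]

/-- closed walks without repeated vertices -/
private lemma Potential_cyc (G : CB E) (z : E → ZMod 2) (κ : ZMod 2)
    (hz : ∀ c, G.P c → ∑ e, (if c e = 0 then z e else 0) = κ) (c : E → Fin 3) (hc : G.P c)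
    (k : ℕ) (f : ℕ → E) (i : ℕ → Fin 3) (h0 : c (f 0) = 0)
    (hs : ∀ j < k, i j ≠ 0 ∧ f (j + 1) = Potential_X G.t c 0 (Potential_X G.s c (i j) (f j)))
    (hk : f k = f 0) (hi : ∀ a < k, ∀ b < k, f a = f b → a = b) :
    ∑ j ∈ range k, (z (Potential_X G.s c (i j) (f j)) +
      z (Potential_X G.t c 0 (Potential_X G.s c (i j) (f j)))) = 0 := by
  classical
  have cs : ∀ e, c (G.s e) ≠ c e := fun e => (hc e).1
  have ct : ∀ e, c (G.t e) ≠ c e := fun e => (hc e).2
  have hcf : ∀ j ≤ k, c (f j) = 0 := by
    intro j hj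
    cases j with
    | zero => exact h0
    | succ j =>
      rw [(hs j (by omega)).2]
      exact Potential_X_col G.t3 ct 0 _
  set g : ℕ → E := fun j => Potential_X G.s c (i j) (f j) with hg
  have hgc : ∀ j, c (g j) = i j := fun j => Potential_X_col G.s3 cs (i j) (f j)
  have hgX : ∀ j < k, Potential_X G.s c 0 (g j) = f j := by
    intro j hj
    rw [hg]
    show Potential_X G.s c 0 (Potential_X G.s c (i j) (f j)) = f j
    rw [Potential_X_X G.s3 cs]
    exact Potential_X_self (hcf j hj.le)
  have hgY : ∀ j < k, Potential_X G.t c 0 (g j) = f (j + 1) := fun j hj => ((hs j hj).2).symm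
  have hgi : ∀ a < k, ∀ b < k, g a = g b → a = b := by
    intro a ha b hb hab
    apply hi a ha b hb
    rw [← hgX a ha, ← hgX b hb, hab]
  have hi' : ∀ a < k, ∀ b < k, f (a + 1) = f (b + 1) → a = b := by
    intro a ha b hb hab
    by_cases h1 : a + 1 < k <;> by_cases h2 : b + 1 < k
    · have := hi _ h1 _ h2 hab
      omega
    · have h3 : b + 1 = k := by omega
      rw [h3, hk] at hab
      have := hi _ h1 0 (by omega) hab
      omega
    · have h3 : a + 1 = k := by omega
      rw [h3, hk] at hab
      have := hi 0 (by omega) _ h2 hab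
      omega
    · omega
  set V : Finset E := (range k).image f with hV
  have memV : ∀ e, e ∈ V ↔ ∃ j < k, f j = e := by
    intro e
    simp [hV]
  have memV' : ∀ e, e ∈ V ↔ ∃ j < k, f (j + 1) = e := by
    intro e
    rw [memV]
    constructor
    · rintro ⟨j, hj, rfl⟩
      rcases Nat.eq_zero_or_pos j with rfl | h
      · refine ⟨k - 1, by omega, ?_⟩
        rw [show k - 1 + 1 = k by omega, hk]
      · refine ⟨j - 1, by omega, ?_⟩
        rw [show j - 1 + 1 = j by omega]
    · rintro ⟨j, hj, rfl⟩
      by_cases h : j + 1 < k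
      · exact ⟨j + 1, h, rfl⟩
      · have h3 : j + 1 = k := by omega
        exact ⟨0, by omega, by rw [h3, hk]⟩
  -- the new matching
  have hS : ∀ e, ∃! x, (x = e ∨ x = G.s e ∨ x = G.s (G.s e)) ∧
      ((c x = 0 ∧ x ∉ V) ∨ ∃ j < k, x = g j) := by
    intro e
    by_cases ha : Potential_X G.s c 0 e ∈ V
    · obtain ⟨j, hj, hja⟩ := (memV _).1 ha
      have ho : Potential_O G.s e (g j) := by
        have h1 : Potential_O G.s e (f j) := by rw [hja]; exact Potential_X_orb G.s c 0 e
        exact Potential_O_trans G.s3 h1 (Potential_X_orb G.s c (i j) (f j))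
      refine ⟨g j, ⟨ho, Or.inr ⟨j, hj, rfl⟩⟩, ?_⟩
      rintro x ⟨hx, ⟨hx0, hxV⟩ | ⟨j', hj', rfl⟩⟩
      · exfalso
        have h1 := Potential_X_uniq G.s3 cs (k := 0) hx hx0
        exact hxV (h1 ▸ ha)
      · have h1 := Potential_X_inv G.s3 cs 0 hx
        rw [hgX j' hj', ← hja] at h1
        rw [hi j' hj' j hj h1]
    · refine ⟨Potential_X G.s c 0 e, ⟨Potential_X_orb G.s c 0 e,
        Or.inl ⟨Potential_X_col G.s3 cs 0 e, ha⟩⟩, ?_⟩
      rintro x ⟨hx, ⟨hx0, hxV⟩ | ⟨j', hj', rfl⟩⟩
      · exact Potential_X_uniq G.s3 cs hx hx0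
      · exfalso
        have h1 := Potential_X_inv G.s3 cs 0 hx
        rw [hgX j' hj'] at h1
        exact ha ((memV _).2 ⟨j', hj', h1⟩)
  have hT : ∀ e, ∃! x, (x = e ∨ x = G.t e ∨ x = G.t (G.t e)) ∧
      ((c x = 0 ∧ x ∉ V) ∨ ∃ j < k, x = g j) := by
    intro e
    by_cases ha : Potential_X G.t c 0 e ∈ V
    · obtain ⟨j, hj, hja⟩ := (memV' _).1 ha
      have ho : Potential_O G.t e (g j) := by
        have h1 : Potential_O G.t e (f (j + 1)) := by rw [hja]; exact Potential_X_orb G.t c 0 e
        have h2 : Potential_O G.t (g j) (f (j + 1)) := by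
          rw [← hgY j hj]; exact Potential_X_orb G.t c 0 (g j)
        exact Potential_O_trans G.t3 h1 (Potential_O_symm G.t3 h2)
      refine ⟨g j, ⟨ho, Or.inr ⟨j, hj, rfl⟩⟩, ?_⟩
      rintro x ⟨hx, ⟨hx0, hxV⟩ | ⟨j', hj', rfl⟩⟩
      · exfalso
        have h1 := Potential_X_uniq G.t3 ct (k := 0) hx hx0
        exact hxV (h1 ▸ ha)
      · have h1 := Potential_X_inv G.t3 ct 0 hx
        rw [hgY j' hj', ← hja] at h1
        rw [hi' j' hj' j hj h1]
    · refine ⟨Potential_X G.t c 0 e, ⟨Potential_X_orb G.t c 0 e,
        Or.inl ⟨Potential_X_col G.t3 ct 0 e, ha⟩⟩, ?_⟩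
      rintro x ⟨hx, ⟨hx0, hxV⟩ | ⟨j', hj', rfl⟩⟩
      · exact Potential_X_uniq G.t3 ct hx hx0
      · exfalso
        have h1 := Potential_X_inv G.t3 ct 0 hx
        rw [hgY j' hj'] at h1
        exact ha ((memV' _).2 ⟨j', hj', h1⟩)
  obtain ⟨c', hc', hcM⟩ := matching_col G _ hS hT
  have k1 := hz c hc
  have k2 := hz c' hc'
  rw [← Finset.sum_filter] at k1 k2
  have f1 : univ.filter (fun e => c e = 0) = (univ.filter (fun e => c e = 0 ∧ e ∉ V)) ∪ V := by
    ext e
    simp only [Finset.mem_filter, Finset.mem_univ, true_and, Finset.mem_union]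
    constructor
    · intro h
      by_cases hV' : e ∈ V
      · exact Or.inr hV'
      · exact Or.inl ⟨h, hV'⟩
    · rintro (h | h)
      · exact h.1
      · obtain ⟨j, hj, rfl⟩ := (memV e).1 h
        exact hcf j hj.le
  have f2 : univ.filter (fun e => c' e = 0) = (univ.filter (fun e => c e = 0 ∧ e ∉ V)) ∪
      (range k).image g := by
    ext e
    simp only [Finset.mem_filter, Finset.mem_univ, true_and, Finset.mem_union, Finset.mem_image,
      Finset.mem_range]
    rw [hcM]
    constructor
    · rintro (h | ⟨j, hj, h⟩)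
      · exact Or.inl h
      · exact Or.inr ⟨j, hj, h.symm⟩
    · rintro (h | ⟨j, hj, h⟩)
      · exact Or.inl h
      · exact Or.inr ⟨j, hj, h.symm⟩
  have d1 : Disjoint (univ.filter (fun e => c e = 0 ∧ e ∉ V)) V := by
    rw [Finset.disjoint_left]
    intro e he he'
    exact (Finset.mem_filter.1 he).2.2 he'
  have d2 : Disjoint (univ.filter (fun e => c e = 0 ∧ e ∉ V)) ((range k).image g) := by
    rw [Finset.disjoint_left]
    intro e he he'
    obtain ⟨j, hj, rfl⟩ := Finset.mem_image.1 he'
    have h1 := (Finset.mem_filter.1 he).2.1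
    rw [hgc j] at h1
    exact (hs j (Finset.mem_range.1 hj)).1 h1
  rw [f1, Finset.sum_union d1, hV, Finset.sum_image (fun a ha b hb h =>
    hi a (Finset.mem_range.1 ha) b (Finset.mem_range.1 hb) h)] at k1
  rw [f2, Finset.sum_union d2, Finset.sum_image (fun a ha b hb h =>
    hgi a (Finset.mem_range.1 ha) b (Finset.mem_range.1 hb) h)] at k2
  have k3 : ∑ j ∈ range k, z (f j) = ∑ j ∈ range k, z (g j) := add_left_cancel (k1.trans k2.symm)
  have k4 : ∑ j ∈ range k, z (f (j + 1)) = ∑ j ∈ range k, z (f j) := by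
    have h1 := Finset.sum_range_succ (fun j => z (f j)) k
    have h2 := Finset.sum_range_succ' (fun j => z (f j)) k
    rw [h1, hk] at h2
    exact (add_right_cancel h2).symm
  rw [Finset.sum_add_distrib]
  have k5 : ∑ j ∈ range k, z (Potential_X G.t c 0 (Potential_X G.s c (i j) (f j))) =
      ∑ j ∈ range k, z (f (j + 1)) :=
    Finset.sum_congr rfl fun j hj => by rw [(hs j (Finset.mem_range.1 hj)).2]
  rw [k5, k4, k3]
  exact CharTwo.add_self_eq_zero _

theorem potential (G : CB E) (hC : G.Cn) (z : E → ZMod 2) (κ : ZMod 2)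
    (hz : ∀ c, G.P c → ∑ e, (if c e = 0 then z e else 0) = κ) :
    ∃ p q : E → ZMod 2, (∀ e, p (G.s e) = p e) ∧ (∀ e, q (G.t e) = q e) ∧ ∀ e, p e + q e = z e := by
  classical
  obtain ⟨c, hc⟩ := exists_P G
  have cs : ∀ e, c (G.s e) ≠ c e := fun e => (hc e).1
  have ct : ∀ e, c (G.t e) ≠ c e := fun e => (hc e).2
  by_cases hE : IsEmpty E
  · exact ⟨fun _ => 0, fun _ => 0, fun _ => rfl, fun _ => rfl, fun e => hE.elim e⟩
  rw [not_isEmpty_iff] at hE
  obtain ⟨e₀⟩ := hE
  set X : Fin 3 → E → E := Potential_X G.s c with hX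
  set Y : Fin 3 → E → E := Potential_X G.t c with hY
  set α : Fin 3 → E → E := fun i e => Y 0 (X i e) with hα
  set w : Fin 3 → E → ZMod 2 := fun i e => z (X i e) + z (α i e) with hw
  have hM : ∀ i e, c e = 0 → c (α i e) = 0 := fun i e _ => Potential_X_col G.t3 ct 0 _
  have hclosed := Potential_closed (fun e => c e = 0) α w hM
    (fun k f i h0 hs hk hi => Potential_cyc G z κ hz c hc k f i h0 hs hk hi)
  have hRc : ∀ a v, c a = 0 → Potential_R α w a a v → v = 0 := by
    intro a v ha h
    obtain ⟨k, f, i, h0, hk, hs, hv⟩ := Potential_R_walk h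
    rw [← hv]
    exact hclosed k f i (by show c (f 0) = 0; rw [h0]; exact ha) hs (hk.trans h0.symm)
  have hRM : ∀ a b v, c a = 0 → Potential_R α w a b v → c b = 0 := by
    intro a b v ha h
    induction h with
    | refl => exact ha
    | step i hi h ih => exact hM _ _ ih
  -- `Y 0 g` in terms of `X 0 g`
  have hXY0 : ∀ g, c g = 0 → X 0 g = g ∧ Y 0 g = g := fun g hg =>
    ⟨Potential_X_self hg, Potential_X_self hg⟩
  have hXg : ∀ g, X (c g) (X 0 g) = g := by
    intro g
    rw [hX, Potential_X_X G.s3 cs]
    exact Potential_X_self rfl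
  have hXY : ∀ g, Y 0 g = α (c g) (X 0 g) := by
    intro g
    show Y 0 g = Y 0 (X (c g) (X 0 g))
    rw [hXg]
  -- injectivity
  have hαi : ∀ i, i ≠ 0 → ∀ a b, c a = 0 → c b = 0 → α i a = α i b → a = b := by
    intro i _ a b ha hb hab
    have h1 : Y 0 (X i a) = Y 0 (X i b) := hab
    have h2 : Potential_O G.t (X i a) (X i b) :=
      Potential_O_trans G.t3 (Potential_X_orb G.t c 0 (X i a))
        (Potential_O_symm G.t3 (by
          have h3 := Potential_X_orb G.t c 0 (X i b)
          have h4 : Potential_X G.t c 0 (X i b) = Potential_X G.t c 0 (X i a) := h1.symm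
          rw [h4] at h3
          exact h3))
    have h5 : X i b = Y i (X i a) :=
      Potential_X_uniq G.t3 ct h2 (Potential_X_col G.s3 cs i b)
    have h6 : Y i (X i a) = X i a := Potential_X_self (Potential_X_col G.s3 cs i a)
    rw [h6] at h5
    have h7 : X 0 (X i a) = a := by
      rw [hX, Potential_X_X G.s3 cs]; exact Potential_X_self ha
    have h8 : X 0 (X i b) = b := by
      rw [hX, Potential_X_X G.s3 cs]; exact Potential_X_self hb
    rw [← h7, ← h8, h5]
  -- everything can be reached
  have hreach : ∀ a, c a = 0 → ∀ b, c b = 0 → ∃ v, Potential_R α w a b v := by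
    intro a ha
    set A : Finset E := univ.filter (fun b => ∃ v, Potential_R α w a b v) with hA
    have memA : ∀ b, b ∈ A ↔ ∃ v, Potential_R α w a b v := by
      intro b
      simp [hA]
    have hA0 : ∀ b ∈ A, c b = 0 := by
      intro b hb
      obtain ⟨v, hv⟩ := (memA b).1 hb
      exact hRM a b v ha hv
    have hAα : ∀ i, i ≠ 0 → ∀ b ∈ A, α i b ∈ A := by
      intro i hi b hb
      obtain ⟨v, hv⟩ := (memA b).1 hb
      exact (memA _).2 ⟨_, Potential_R.step i hi hv⟩
    have hAα' : ∀ i, i ≠ 0 → ∀ b, c b = 0 → α i b ∈ A → b ∈ A := by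
      intro i hi b hb h
      have h1 : A.image (α i) = A := by
        apply Finset.eq_of_subset_of_card_le
        · intro x hx
          obtain ⟨y, hy, rfl⟩ := Finset.mem_image.1 hx
          exact hAα i hi y hy
        · rw [Finset.card_image_of_injOn]
          intro x hx y hy hxy
          exact hαi i hi x y (hA0 x hx) (hA0 y hy) hxy
      rw [← h1] at h
      obtain ⟨y, hy, hyb⟩ := Finset.mem_image.1 h
      rw [← hαi i hi y b (hA0 y hy) hb hyb]
      exact hy
    have hXYA : ∀ g, X 0 g ∈ A ↔ Y 0 g ∈ A := by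
      intro g
      by_cases hg : c g = 0
      · rw [(hXY0 g hg).1, (hXY0 g hg).2]
      · rw [hXY g]
        exact ⟨hAα _ hg _, hAα' _ hg _ (Potential_X_col G.s3 cs 0 g)⟩
    have huniv := hC {g | X 0 g ∈ A} ⟨a, by
      show X 0 a ∈ A
      rw [(hXY0 a ha).1]
      exact (memA a).2 ⟨0, Potential_R.refl⟩⟩ (by
      intro e he
      have he' : X 0 e ∈ A := he
      constructor
      · show X 0 (G.s e) ∈ A
        have h1 : X 0 (G.s e) = X 0 e := Potential_X_inv G.s3 cs 0 (Or.inr (Or.inl rfl))
        rw [h1]
        exact he'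
      · show X 0 (G.t e) ∈ A
        have h1 : Y 0 (G.t e) = Y 0 e := Potential_X_inv G.t3 ct 0 (Or.inr (Or.inl rfl))
        rw [hXYA, h1, ← hXYA]
        exact he')
    intro b hb
    have h1 : b ∈ {g | X 0 g ∈ A} := by rw [huniv]; trivial
    have h2 : X 0 b ∈ A := h1
    rw [(hXY0 b hb).1] at h2
    exact (memA b).1 h2
  -- the potential
  set r : E := X 0 e₀ with hr
  have hr0 : c r = 0 := Potential_X_col G.s3 cs 0 e₀
  have hφ : ∀ b, ∃ v, c b = 0 → Potential_R α w r b v := by
    intro b
    by_cases hb : c b = 0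
    · obtain ⟨v, hv⟩ := hreach r hr0 b hb
      exact ⟨v, fun _ => hv⟩
    · exact ⟨0, fun h => absurd h hb⟩
  choose φ hφ using hφ
  have huniq : ∀ b v v', c b = 0 → Potential_R α w r b v → Potential_R α w r b v' → v = v' := by
    intro b v v' hb h h'
    obtain ⟨u, hu⟩ := hreach b hb r hr0
    have h1 := hRc r _ hr0 (Potential_R_trans h hu)
    have h2 := hRc r _ hr0 (Potential_R_trans h' hu)
    exact add_right_cancel (h1.trans h2.symm)
  have hφα : ∀ i, i ≠ 0 → ∀ b, c b = 0 → φ (α i b) = φ b + w i b := by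
    intro i hi b hb
    exact huniq _ _ _ (hM i b hb) (hφ _ (hM i b hb)) (Potential_R.step i hi (hφ b hb))
  refine ⟨fun g => φ (X 0 g), fun g => φ (Y 0 g) + z (Y 0 g), ?_, ?_, ?_⟩
  · intro e
    show φ (X 0 (G.s e)) = φ (X 0 e)
    have h1 : X 0 (G.s e) = X 0 e := Potential_X_inv G.s3 cs 0 (Or.inr (Or.inl rfl))
    rw [h1]
  · intro e
    show φ (Y 0 (G.t e)) + z (Y 0 (G.t e)) = φ (Y 0 e) + z (Y 0 e)
    have h1 : Y 0 (G.t e) = Y 0 e := Potential_X_inv G.t3 ct 0 (Or.inr (Or.inl rfl))
    rw [h1]
  · intro g
    show φ (X 0 g) + (φ (Y 0 g) + z (Y 0 g)) = z g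
    have two : ∀ x : ZMod 2, x + x = 0 := fun x => CharTwo.add_self_eq_zero x
    by_cases hg : c g = 0
    · rw [(hXY0 g hg).1, (hXY0 g hg).2, ← add_assoc, two, zero_add]
    · have h1 : φ (Y 0 g) = φ (X 0 g) + (z g + z (Y 0 g)) := by
        have h2 := hφα (c g) hg (X 0 g) (Potential_X_col G.s3 cs 0 g)
        have h3 : w (c g) (X 0 g) = z g + z (Y 0 g) := by
          show z (X (c g) (X 0 g)) + z (α (c g) (X 0 g)) = _
          rw [hXg, ← hXY]
        rw [← hXY, h3] at h2
        exact h2
      rw [h1]
      have key : ∀ a b d : ZMod 2, a + (a + (b + d) + d) = b := by decide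
      exact key _ _ _

end Pool.Agent.PP
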