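import Pool.Agent.Lib_MP_7c0803_pp.EmbB

/-!
Proof plan (all proved below).

* `tait`: `→`: choose a bijection `j : Fin 4 → ZMod 2 × ZMod 2` and put `F' = j ∘ F`.  For every edge `F' (e, d, o) + F' (e, d, !o) ≠ 0`
  is one of the three nonzero elements; it does not depend on `o` (commutative) and not on `d` (by `rv`: `rv (e, true, o) =
  (e, false, !(o + tw e))`, so the two sides are the same two faces).  Let `c e` be the colour with this value `kap (c e)` (`kap` is a
  bijection onto the nonzero elements).  `c` is proper: at an `X`-vertex the three corner values are `a₁, a₂, a₃` with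
  differences `kap (c e)`, ..: `F' (s e, true, true) = F' (e, true, false)` (as `(s e, true, true) = nx (e, false, ! tw e)` and
  `rv (e, false, ! tw e) = (e, true, false)`), so `kap (c e) + kap (c (s e)) + kap (c (s (s e))) = 0` by telescoping; three nonzero
  elements of `(ZMod 2)²` with sum zero are pairwise different.  The same at `Y`-vertices.
  `←`: compose `F` with a bijection `ZMod 2 × ZMod 2 → Fin 4`; `kap k ≠ 0`.
* `four_iff`: transport along the bijection of the states, as in `facial_iff'` (`EmbB.lean`; make private lemmas there public if you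
  need them).
* `chi_eq_iff`, `chi_eq_iff2`: as `chi_iff`, with `faces_card` and `3 |V| = 2 |E|`.
-/

set_option autoImplicit false

open Finset Function

namespace Pool.Agent.PP

open SimpleGraph

universe u

/-- the faces can be properly coloured with four colours -/
def CB.Four {E : Type u} (G : CB E) (tw : E → Bool) : Prop :=
  ∃ F : E × Bool × Bool → Fin 4, (∀ a, F (G.nx tw a) = F a ∧ F (G.rv tw a) = F a) ∧ ∀ e d o, F (e, d, o) ≠ F (e, d, !o)

/-! ### `tait` -/

private def Tait_j (i : Fin 4) : ZMod 2 × ZMod 2 :=
  if i = 0 then (0, 0) else if i = 1 then (1, 0) else if i = 2 then (0, 1) else (1, 1)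

private def Tait_g (x : ZMod 2 × ZMod 2) : Fin 4 :=
  if x = (0, 0) then 0 else if x = (1, 0) then 1 else if x = (0, 1) then 2 else 3

private def Tait_k (x : ZMod 2 × ZMod 2) : Fin 3 :=
  if x = (1, 0) then 0 else if x = (0, 1) then 1 else 2

private lemma Tait_j_inj : ∀ a b : Fin 4, Tait_j a = Tait_j b → a = b := by decide

private lemma Tait_g_inj : ∀ a b : ZMod 2 × ZMod 2, Tait_g a = Tait_g b → a = b := by decide

private lemma Tait_kap : ∀ x : ZMod 2 × ZMod 2, x ≠ 0 → kap (Tait_k x) = x := by decide

private lemma Tait_kap_ne : ∀ k : Fin 3, kap k ≠ 0 := by decide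

private lemma Tait_self : ∀ x : ZMod 2 × ZMod 2, x + x = 0 := by decide

private lemma Tait_eq : ∀ x y : ZMod 2 × ZMod 2, x + y = 0 → x = y := by decide

/-- the corner of `e` and the next edge at the `X`-end -/
private lemma Tait_X {E : Type u} {T : Type*} (G : CB E) (tw : E → Bool) (F : E × Bool × Bool → T)
    (hF : ∀ a, F (G.nx tw a) = F a ∧ F (G.rv tw a) = F a) (e : E) :
    F (G.s e, true, true) = F (e, true, false) := by
  have h1 := hF (e, false, !(tw e))
  have h2 : G.nx tw (e, false, !(tw e)) = (G.s e, true, true) := by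
    show ((if xor (!(tw e)) (tw e) then G.s e else G.s.symm e), true, xor (!(tw e)) (tw e)) = _
    cases tw e <;> rfl
  have h3 : G.rv tw (e, false, !(tw e)) = (e, true, false) := by
    show (e, !false, !(xor (!(tw e)) (tw e))) = _
    cases tw e <;> rfl
  rw [h2, h3] at h1
  exact h1.1.trans h1.2.symm

/-- the corner of `e` and the next edge at the `Y`-end -/
private lemma Tait_Y {E : Type u} {T : Type*} (G : CB E) (tw : E → Bool) (F : E × Bool × Bool → T)
    (hF : ∀ a, F (G.nx tw a) = F a ∧ F (G.rv tw a) = F a) (e : E) :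
    F (G.t e, false, true) = F (e, false, false) := by
  have h1 := hF (e, true, !(tw e))
  have h2 : G.nx tw (e, true, !(tw e)) = (G.t e, false, true) := by
    show ((if xor (!(tw e)) (tw e) then G.t e else G.t.symm e), false, xor (!(tw e)) (tw e)) = _
    cases tw e <;> rfl
  have h3 : G.rv tw (e, true, !(tw e)) = (e, false, false) := by
    show (e, !true, !(xor (!(tw e)) (tw e))) = _
    cases tw e <;> rfl
  rw [h2, h3] at h1
  exact h1.1.trans h1.2.symm

/-- the two sides seen from the other end -/
private lemma Tait_rv {E : Type u} (G : CB E) (tw : E → Bool) (F : E × Bool × Bool → ZMod 2 × ZMod 2)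
    (hF : ∀ a, F (G.nx tw a) = F a ∧ F (G.rv tw a) = F a) (e : E) :
    F (e, false, true) + F (e, false, false) = F (e, true, true) + F (e, true, false) := by
  have h1 := (hF (e, true, true)).2
  have h2 := (hF (e, true, false)).2
  have h3 : G.rv tw (e, true, true) = (e, false, tw e) := by
    show (e, !true, !(xor true (tw e))) = _
    cases tw e <;> rfl
  have h4 : G.rv tw (e, true, false) = (e, false, !(tw e)) := by
    show (e, !true, !(xor false (tw e))) = _
    cases tw e <;> rfl
  rw [h3] at h1
  rw [h4] at h2
  rw [← h1, ← h2]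
  cases tw e with
  | true => rfl
  | false => exact add_comm _ _

/-- three nonzero differences around a triangle -/
private lemma Tait_tel (a b d : ZMod 2 × ZMod 2) (k l m : Fin 3) (h1 : kap k = a + b) (h2 : kap l = b + d)
    (h3 : kap m = d + a) : l ≠ k := by
  rintro rfl
  have h4 : a = d := by
    have h5 : a + b = b + d := h1.symm.trans h2
    rw [add_comm b d] at h5
    exact add_right_cancel h5
  rw [h4, Tait_self] at h3
  exact Tait_kap_ne m h3

theorem tait {E : Type u} (G : CB E) (tw : E → Bool) : G.Four tw ↔ ∃ c, G.P c ∧ G.Facial tw c := by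
  constructor
  · rintro ⟨F, hF1, hF2⟩
    set F' : E × Bool × Bool → ZMod 2 × ZMod 2 := fun a => Tait_j (F a) with hF'
    have hI : ∀ a, F' (G.nx tw a) = F' a ∧ F' (G.rv tw a) = F' a := fun a =>
      ⟨congrArg Tait_j (hF1 a).1, congrArg Tait_j (hF1 a).2⟩
    have hne : ∀ e d, F' (e, d, true) + F' (e, d, false) ≠ 0 := by
      intro e d h
      exact hF2 e d true (Tait_j_inj _ _ (Tait_eq _ _ h))
    have hrv := Tait_rv G tw F' hI
    set c : E → Fin 3 := fun e => Tait_k (F' (e, true, true) + F' (e, true, false)) with hc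
    have hk : ∀ e d, kap (c e) = F' (e, d, true) + F' (e, d, false) := by
      intro e d
      have h1 : kap (c e) = F' (e, true, true) + F' (e, true, false) := Tait_kap _ (hne e true)
      cases d with
      | true => exact h1
      | false => rw [h1, hrv]
    have hX := Tait_X G tw F' hI
    have hY := Tait_Y G tw F' hI
    refine ⟨c, ?_, F', hI, ?_⟩
    · intro e
      constructor
      · have h1 := hk e true
        have h2 := hk (G.s e) true
        have h3 := hk (G.s (G.s e)) true
        have h4 := hX (G.s (G.s e))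
        rw [G.s3] at h4
        rw [← hX e] at h1
        rw [← hX (G.s e)] at h2
        rw [← h4] at h3
        exact Tait_tel _ _ _ _ _ _ h1 h2 h3
      · have h1 := hk e false
        have h2 := hk (G.t e) false
        have h3 := hk (G.t (G.t e)) false
        have h4 := hY (G.t (G.t e))
        rw [G.t3] at h4
        rw [← hY e] at h1
        rw [← hY (G.t e)] at h2
        rw [← h4] at h3
        exact Tait_tel _ _ _ _ _ _ h1 h2 h3
    · intro e d o
      cases o with
      | true => exact (hk e d).symm
      | false => exact (add_comm _ _).trans (hk e d).symm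
  · rintro ⟨c, _, F, hF1, hF2⟩
    refine ⟨fun a => Tait_g (F a), fun a => ⟨congrArg Tait_g (hF1 a).1, congrArg Tait_g (hF1 a).2⟩, ?_⟩
    intro e d o h
    have h1 : F (e, d, o) = F (e, d, !o) := Tait_g_inj _ _ h
    have h2 := hF2 e d o
    rw [← h1, Tait_self] at h2
    exact Tait_kap_ne _ h2.symm

variable {V : Type u} {G : SimpleGraph V}

/-- The faces of the embedding can be properly coloured with four colours: the faces at the two sides of every edge have
different colours. -/
def Emb.FourColorable (M : Emb G) : Prop :=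
  ∃ F : M.Face → Fin 4, ∀ (d : G.Dart) (o : Bool), F (M.face d o) ≠ F (M.face d !o)

/-! ### Transfer -/

private lemma Tait_de_symm (d : G.Dart) : de d.symm = de d := Subtype.ext d.edge_symm

private lemma Tait_inv (κ : G.Coloring Bool) (d : G.Dart) :
    (dartEquiv κ).symm (de d, κ d.fst) = d := by
  rw [← dartEquiv_apply, Equiv.symm_apply_apply]

private lemma Tait_snd (κ : G.Coloring Bool) (d : G.Dart) : κ d.snd = !(κ d.fst) := by
  have h := κ.valid d.adj
  have h' : κ d.fst ≠ κ d.snd := h
  revert h'
  generalize κ d.fst = p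
  generalize κ d.snd = q
  revert p q
  decide

private lemma Tait_symm (κ : G.Coloring Bool) (d : G.Dart) :
    d.symm = (dartEquiv κ).symm (de d, !(κ d.fst)) := by
  rw [Equiv.eq_symm_apply, dartEquiv_apply, Tait_de_symm]
  exact Prod.ext rfl (Tait_snd κ d)

private lemma Tait_rot_symm_dart (M : Emb G) (κ : G.Coloring Bool) (e : G.edgeSet) (b : Bool) :
    M.rot.symm ((dartEquiv κ).symm (e, b)) = (dartEquiv κ).symm ((rotB M κ b).symm e, b) := by
  rw [Equiv.symm_apply_eq, rot_symm_dart, Equiv.apply_symm_apply]

/-- states of `M` and of `toCB M` -/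
private noncomputable def Tait_st (κ : G.Coloring Bool) :
    G.Dart × Bool ≃ G.edgeSet × Bool × Bool :=
  ((dartEquiv κ).prodCongr (Equiv.refl Bool)).trans (Equiv.prodAssoc _ _ _)

private lemma Tait_st_apply (κ : G.Coloring Bool) (d : G.Dart) (o : Bool) :
    Tait_st κ (d, o) = (de d, κ d.fst, o) := rfl

private lemma Tait_st_symm (κ : G.Coloring Bool) (e : G.edgeSet) (b o : Bool) :
    (Tait_st κ).symm (e, b, o) = ((dartEquiv κ).symm (e, b), o) := rfl

private lemma Tait_next (M : Emb G) (κ : G.Coloring Bool)
    (hcub : ∀ v, (G.neighborSet v).ncard = 3) (a : G.Dart × Bool) :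
    Tait_st κ (M.next a) = (toCB M κ hcub).nx (twE M κ) (Tait_st κ a) := by
  obtain ⟨d, o⟩ := a
  have h1 : M.next (d, o) = (if xor o (M.tw d) then M.rot d.symm else M.rot.symm d.symm,
    xor o (M.tw d)) := rfl
  rw [h1, Tait_st_apply κ d o, Tait_symm κ d, rot_symm_dart, Tait_rot_symm_dart]
  cases hb : κ d.fst with
  | true =>
    have h2 : (toCB M κ hcub).nx (twE M κ) (de d, true, o) =
      (if xor o (twE M κ (de d)) then rotB M κ false (de d) else (rotB M κ false).symm (de d),
        false, xor o (twE M κ (de d))) := rfl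
    rw [h2, twE_eq]
    cases hx : xor o (M.tw d) with
    | true =>
      simp only [Bool.not_true, if_true]
      rw [Tait_st_apply, de_symm_apply, col_symm_apply]
    | false =>
      simp only [Bool.not_true, Bool.false_eq_true, if_false]
      rw [Tait_st_apply, de_symm_apply, col_symm_apply]
  | false =>
    have h2 : (toCB M κ hcub).nx (twE M κ) (de d, false, o) =
      (if xor o (twE M κ (de d)) then rotB M κ true (de d) else (rotB M κ true).symm (de d),
        true, xor o (twE M κ (de d))) := rfl
    rw [h2, twE_eq]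
    cases hx : xor o (M.tw d) with
    | true =>
      simp only [Bool.not_false, if_true]
      rw [Tait_st_apply, de_symm_apply, col_symm_apply]
    | false =>
      simp only [Bool.not_false, Bool.false_eq_true, if_false]
      rw [Tait_st_apply, de_symm_apply, col_symm_apply]

private lemma Tait_back (M : Emb G) (κ : G.Coloring Bool)
    (hcub : ∀ v, (G.neighborSet v).ncard = 3) (a : G.Dart × Bool) :
    Tait_st κ (M.back a) = (toCB M κ hcub).rv (twE M κ) (Tait_st κ a) := by
  obtain ⟨d, o⟩ := a
  have h1 : M.back (d, o) = (d.symm, !(xor o (M.tw d))) := rfl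
  have h2 : (toCB M κ hcub).rv (twE M κ) (Tait_st κ (d, o)) =
    (de d, !(κ d.fst), !(xor o (twE M κ (de d)))) := rfl
  rw [h1, h2, Tait_st_apply, Tait_de_symm, twE_eq]
  have h3 : κ d.symm.fst = !(κ d.fst) := Tait_snd κ d
  rw [h3]

private lemma Tait_count [Finite V] (κ : G.Coloring Bool)
    (hcub : ∀ v, (G.neighborSet v).ncard = 3) : 3 * Nat.card V = 2 * Nat.card G.edgeSet := by
  classical
  haveI : Fintype V := Fintype.ofFinite V
  haveI : Finite G.edgeSet := inferInstance
  haveI : Finite G.Dart := Finite.of_equiv _ (dartEquiv κ).symm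
  have h1 : Nat.card G.Dart = Nat.card G.edgeSet * 2 := by
    rw [Nat.card_congr (dartEquiv κ), Nat.card_prod]
    simp
  have h2 : Nat.card G.Dart = ∑ v : V, Nat.card {d : G.Dart // d.fst = v} := by
    rw [← Nat.card_congr (Equiv.sigmaFiberEquiv (fun d : G.Dart => d.fst)), Nat.card_sigma]
  have h3 : ∀ v : V, Nat.card {d : G.Dart // d.fst = v} = 3 := by
    intro v
    have := card_out hcub v
    rw [← Nat.card_coe_set_eq] at this
    exact this
  simp_rw [h3] at h2
  rw [Finset.sum_const, Finset.card_univ, smul_eq_mul, ← Nat.card_eq_fintype_card] at h2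
  omega

theorem four_iff (M : Emb G) (κ : G.Coloring Bool) (hcub : ∀ v, (G.neighborSet v).ncard = 3) :
    M.FourColorable ↔ (toCB M κ hcub).Four (twE M κ) := by
  constructor
  · rintro ⟨F, hF⟩
    refine ⟨fun x => F (Quot.mk _ ((Tait_st κ).symm x)), ?_, ?_⟩
    · intro a
      obtain ⟨b, rfl⟩ := (Tait_st κ).surjective a
      rw [← Tait_next, ← Tait_back]
      simp only [Equiv.symm_apply_apply]
      exact ⟨congrArg F (Quot.sound (r := fun a b => M.next a = b ∨ M.back a = b)
          (Or.inl rfl)).symm,
        congrArg F (Quot.sound (r := fun a b => M.next a = b ∨ M.back a = b) (Or.inr rfl)).symm⟩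
    · intro e d o
      exact hF ((dartEquiv κ).symm (e, d)) o
  · rintro ⟨F, hF1, hF2⟩
    refine ⟨Quot.lift (fun a => F (Tait_st κ a)) ?_, ?_⟩
    · rintro a b (rfl | rfl)
      · rw [Tait_next M κ hcub]
        exact (hF1 _).1.symm
      · rw [Tait_back M κ hcub]
        exact (hF1 _).2.symm
    · intro d o
      exact hF2 (de d) (κ d.fst) o

theorem chi_eq_iff [Finite V] (M : Emb G) (κ : G.Coloring Bool) (hcub : ∀ v, (G.neighborSet v).ncard = 3) :
    Nat.card V + Nat.card M.Face = Nat.card G.edgeSet + 1 ↔
      3 * Nat.card ((toCB M κ hcub).Fc (twE M κ)) = Nat.card G.edgeSet + 3 := by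
  rw [faces_card M κ hcub]
  have h := Tait_count κ hcub
  omega

theorem chi_eq_iff2 [Finite V] (M : Emb G) (κ : G.Coloring Bool) (hcub : ∀ v, (G.neighborSet v).ncard = 3) :
    Nat.card V + Nat.card M.Face = Nat.card G.edgeSet + 2 ↔
      3 * Nat.card ((toCB M κ hcub).Fc (twE M κ)) = Nat.card G.edgeSet + 6 := by
  rw [faces_card M κ hcub]
  have h := Tait_count κ hcub
  omega

end Pool.Agent.PP
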