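import Pool.Agent.Lib_MP_7c0803_pp.Final
import Pool.Agent.Lib_MP_7c0803_pp.Potential
import Pool.Agent.Lib_MP_7c0803_pp.Dim2
import Pool.Agent.Lib_MP_7c0803_pp.Tait

set_option autoImplicit false

open Finset Function

namespace Pool.Agent.PP

open SimpleGraph

universe u

private lemma Final2_orth {E : Type u} [Fintype E] {c : E → Fin 3} (s : Equiv.Perm E) (s3 : ∀ e, s (s (s e)) = e)
    (hc : ∀ e, c (s e) ≠ c e) (k : Fin 3) (p : E → ZMod 2) (hp : ∀ e, p (s e) = p e) : ∑ e, p e * ind k (c e) = 0 := by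
  have h0 : ∀ j, ∑ e, p e = ∑ e, if c e = j then p e else 0 := fun j => sum_class s s3 c hc p hp j
  have h1 : ∑ e, p e * ind k (c e) = (∑ e, if c e = k + 1 then p e else 0) + ∑ e, if c e = k + 2 then p e else 0 := by
    rw [← Finset.sum_add_distrib]
    apply Finset.sum_congr rfl
    intro e _
    have : ∀ k j : Fin 3, ∀ x : ZMod 2, x * ind k j = (if j = k + 1 then x else 0) + if j = k + 2 then x else 0 := by
      decide
    exact this _ _ _
  rw [h1, ← h0, ← h0]
  have : ∀ x : ZMod 2, x + x = 0 := by decide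
  exact this _

/-- in the sphere every colouring is facial -/
theorem sphere_facial {E : Type u} [Fintype E] (G : CB E) (tw : E → Bool) (hC : G.Cn)
    (hχ : Nat.card E + 6 ≤ 3 * Nat.card (G.Fc tw)) {c : E → Fin 3} (hc : G.P c) : G.Facial tw c := by
  rw [facial_iff_Bd]
  intro k
  exact dim_sphere G tw hC hχ hc _ (fun p hp => Final2_orth G.s G.s3 (fun e => (hc e).1) k p hp)
    (fun p hp => Final2_orth G.t G.t3 (fun e => (hc e).2) k p hp)

/-- in the projective plane there is a colouring which is not facial -/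
theorem exists_nonfacial {E : Type u} [Fintype E] (G : CB E) (tw : E → Bool) (hC : G.Cn) (hE : Nonempty E)
    (hχ : 3 * Nat.card (G.Fc tw) ≤ Nat.card E + 3) : ∃ c, G.P c ∧ ¬ G.Facial tw c := by
  by_contra hall
  push Not at hall
  obtain ⟨c0, hc0⟩ := exists_P G
  obtain ⟨z, hz, hnz⟩ := dim_proj G tw hE hχ hc0
  apply hnz
  apply potential G hC z (∑ e, z e)
  intro c hc
  have hf := hall c hc
  rw [facial_iff_Bd] at hf
  obtain ⟨f, hf1, hf2⟩ := hf 0
  have h1 := hz f hf1
  have h2 : ∑ e, (f (e, true, true) + f (e, true, false)) * z e = ∑ e, (z e + if c e = 0 then z e else 0) := by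
    apply Finset.sum_congr rfl
    intro e _
    rw [hf2 e]
    have : ∀ k : Fin 3, ∀ x : ZMod 2, ind 0 k * x = x + if k = 0 then x else 0 := by decide
    exact this _ _
  rw [h2, Finset.sum_add_distrib] at h1
  have : ∀ a b : ZMod 2, a + b = 0 → b = a := by decide
  exact this _ _ h1

variable {V : Type u} {G : SimpleGraph V}

private lemma Final2_nonempty (hcub : ∀ v, (G.neighborSet v).ncard = 3) (hG : G.Connected) : Nonempty G.edgeSet := by
  obtain ⟨v⟩ := hG.nonempty
  have h : (G.neighborSet v).Nonempty := by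
    rw [Set.nonempty_iff_ne_empty]
    intro h
    have := hcub v
    rw [h, Set.ncard_empty] at this
    omega
  obtain ⟨w, hw⟩ := h
  exact ⟨⟨s(v, w), hw⟩⟩

/-- **Sphere.** -/
theorem kc_sphere [Finite V] (M : Emb G) (κ : G.Coloring Bool) (hcub : ∀ v, (G.neighborSet v).ncard = 3)
    (hG : G.Connected) (hχ : Nat.card V + Nat.card M.Face = Nat.card G.edgeSet + 2) : Kc G.lineGraph 3 = 1 := by
  classical
  have : Fintype G.edgeSet := Fintype.ofFinite _
  have hC := cn_of_connected M κ hcub hG
  have h2 := (chi_eq_iff2 M κ hcub).1 hχ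
  have hpos : M.ChiPos := by unfold Emb.ChiPos; omega
  rw [(kc_chi M κ hcub hG hpos).2]
  left
  intro c
  rw [facial_iff' M κ hcub]
  exact sphere_facial _ _ hC (by omega) (P_col M κ hcub c)

/-- **Projective plane.** -/
theorem kc_proj [Finite V] (M : Emb G) (κ : G.Coloring Bool) (hcub : ∀ v, (G.neighborSet v).ncard = 3)
    (hG : G.Connected) (hχ : Nat.card V + Nat.card M.Face = Nat.card G.edgeSet + 1) :
    Kc G.lineGraph 3 = 1 ↔ ¬ M.FourColorable := by
  classical
  have : Fintype G.edgeSet := Fintype.ofFinite _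
  have hC := cn_of_connected M κ hcub hG
  have h2 := (chi_eq_iff M κ hcub).1 hχ
  have hpos : M.ChiPos := by unfold Emb.ChiPos; omega
  have hE := Final2_nonempty hcub hG
  rw [(kc_chi M κ hcub hG hpos).2, four_iff M κ hcub, tait]
  obtain ⟨c0, hc0, hn0⟩ := exists_nonfacial (toCB M κ hcub) (twE M κ) hC hE (by omega)
  obtain ⟨d0, rfl⟩ := exists_col M κ hcub c0 hc0
  constructor
  · rintro (h | h)
    · exact absurd ((facial_iff' M κ hcub d0).1 (h d0)) hn0
    · rintro ⟨c, hc, hf⟩
      obtain ⟨d, rfl⟩ := exists_col M κ hcub c hc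
      exact h d ((facial_iff' M κ hcub d).2 hf)
  · intro h
    right
    intro c hc
    exact h ⟨_, P_col M κ hcub c, (facial_iff' M κ hcub c).1 hc⟩

end Pool.Agent.PP
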