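import Pool.Agent.Lib_MP_7c0803_pp.Kempe
import Pool.Agent.Lib_MP_7c0803_pp.EmbB

/-!
The Heawood graph: constant parity, but more than one Kempe class.  (So the parity criterion fails in general, and the number 12
in `red_of_quads` is best possible.)

`V = Fin 7 × Bool`, `(i, true)` adjacent to `(j, false)` iff `j - i ∈ {0, 1, 3}` (mod 7).  21 edges, indexed by `Fin 7 × Fin 3`:
`(i, d)` = the edge from `(i, true)` to `(i + δ d, false)`, `δ = ![0, 1, 3]`.

Proof plan.
(1) A proper 3-edge-colouring is a function `c : Fin 7 × Fin 3 → Fin 3` which is injective at every vertex.  There are 24 perfect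
    matchings and 8 factorizations into three perfect matchings, so 48 colourings.  Normalise by a permutation of the colours:
    `c (0, d) = d`.  Then there are 8 colourings.  Prove completeness of the list by a pruned search: write the colouring as
    `![..]` of 21 variables (or six more `X`-vertices, each a permutation of the three colours), and use `decide` on a nested
    statement `∀ a, ok a → ∀ b, ok b → ..` with the tests as early as possible (implications short-circuit, so the search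
    tree is small), or case by case lemmas.
(2) In each of the 8 factorizations the union of any two of the three perfect matchings is a Hamiltonian cycle (14 edges), so a
    colouring sharing a class with `c` is `c` or `c` with the two other colours exchanged: check `Rel` on the list: two normalised
    colourings `c ≠ c'` are never related by `Rel (π ∘ c) (π' ∘ c')`: i.e. no class of `c` is a class of `c'` (the 24 perfect matchings
    are different).  So the property of being a permutation of the first colouring is invariant under `KE`, and the second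
    colouring does not have it: not `Con`, so `Kc ≠ 1` by `Kc_iff` (for any `M : Emb G`; `Con` only depends on which maps are
    proper, `adj_iff`).
(3) Parity: `flips c c'` for colourings: exchanging two colours changes all 14 vertices (even); for the 8 normalised colourings
    check the number of vertices where exactly one edge keeps its colour (28 pairs, or against the first one and use
    additivity: the sign of the local permutation).  A convenient way: `par_iff` with a concrete rotation system, or directly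
    count in `Fin 7 × Bool` by `decide` on the list (48 × 48 pairs, or 8 × 8 pairs times one permutation of the colours).
-/

set_option autoImplicit false

open Finset Function

namespace Pool.Agent.PP

open SimpleGraph

private def Heawood_dl : Fin 3 → Fin 7
  | 0 => 0
  | 1 => 1
  | 2 => 3

private def Heawood_T : Fin 6 → Fin 3 → Fin 3
  | 0, 0 => 0 | 0, 1 => 1 | 0, 2 => 2
  | 1, 0 => 0 | 1, 1 => 2 | 1, 2 => 1
  | 2, 0 => 1 | 2, 1 => 0 | 2, 2 => 2
  | 3, 0 => 1 | 3, 1 => 2 | 3, 2 => 0
  | 4, 0 => 2 | 4, 1 => 0 | 4, 2 => 1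
  | 5, 0 => 2 | 5, 1 => 1 | 5, 2 => 0

private lemma Heawood_T_surj : ∀ a b c : Fin 3, a ≠ b → a ≠ c → b ≠ c →
    ∃ r, Heawood_T r 0 = a ∧ Heawood_T r 1 = b ∧ Heawood_T r 2 = c := by decide

private def Heawood_G : SimpleGraph (Fin 7 × Bool) where
  Adj u v := (u.2 = true ∧ v.2 = false ∧ ∃ d, v.1 = u.1 + Heawood_dl d) ∨
    (u.2 = false ∧ v.2 = true ∧ ∃ d, u.1 = v.1 + Heawood_dl d)
  symm := by
    constructor
    rintro u v (⟨h1, h2, h3⟩ | ⟨h1, h2, h3⟩)
    · exact Or.inr ⟨h2, h1, h3⟩
    · exact Or.inl ⟨h2, h1, h3⟩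
  loopless := by
    constructor
    rintro u (⟨h1, h2, h3⟩ | ⟨h1, h2, h3⟩)
    · rw [h1] at h2
      exact absurd h2 (by decide)
    · rw [h1] at h2
      exact absurd h2 (by decide)

private instance Heawood_dec : DecidableRel Heawood_G.Adj := fun u v =>
  inferInstanceAs (Decidable ((u.2 = true ∧ v.2 = false ∧ ∃ d, v.1 = u.1 + Heawood_dl d) ∨
    (u.2 = false ∧ v.2 = true ∧ ∃ d, u.1 = v.1 + Heawood_dl d)))

private lemma Heawood_adj (i : Fin 7) (d : Fin 3) :
    Heawood_G.Adj (i, true) (i + Heawood_dl d, false) := Or.inl ⟨rfl, rfl, d, rfl⟩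

private def Heawood_e (p : Fin 7 × Fin 3) : Heawood_G.edgeSet :=
  ⟨s((p.1, true), (p.1 + Heawood_dl p.2, false)), Heawood_adj p.1 p.2⟩

private lemma Heawood_dl_inj : Function.Injective Heawood_dl := by decide

private lemma Heawood_e_inj : Function.Injective Heawood_e := by
  rintro ⟨i, d⟩ ⟨j, d'⟩ h
  have h1 : (s((i, true), (i + Heawood_dl d, false)) : Sym2 (Fin 7 × Bool)) =
      s((j, true), (j + Heawood_dl d', false)) := congrArg Subtype.val h
  rcases Sym2.eq_iff.1 h1 with ⟨h2, h3⟩ | ⟨h2, -⟩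
  · have h4 : i = j := congrArg Prod.fst h2
    subst h4
    have h5 : i + Heawood_dl d = i + Heawood_dl d' := congrArg Prod.fst h3
    rw [Heawood_dl_inj (add_left_cancel h5)]
  · have h3 : true = false := congrArg Prod.snd h2
    exact absurd h3 (by decide)

private lemma Heawood_e_surj : Function.Surjective Heawood_e := by
  rintro ⟨e, he⟩
  induction e using Sym2.ind with
  | _ u v =>
    obtain ⟨i, b⟩ := u
    obtain ⟨j, b'⟩ := v
    rcases he with ⟨h1, h2, d, h3⟩ | ⟨h1, h2, d, h3⟩
    · have h1' : b = true := h1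
      have h2' : b' = false := h2
      have h3' : j = i + Heawood_dl d := h3
      subst h1' h2' h3'
      exact ⟨(i, d), rfl⟩
    · have h1' : b = false := h1
      have h2' : b' = true := h2
      have h3' : i = j + Heawood_dl d := h3
      subst h1' h2' h3'
      exact ⟨(j, d), Subtype.ext Sym2.eq_swap⟩

private noncomputable def Heawood_E : Fin 7 × Fin 3 ≃ Heawood_G.edgeSet :=
  Equiv.ofBijective Heawood_e ⟨Heawood_e_inj, Heawood_e_surj⟩

/-- the edges at a vertex -/
private def Heawood_P (v : Fin 7 × Bool) (d : Fin 3) : Fin 7 × Fin 3 :=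
  if v.2 = true then (v.1, d) else (v.1 - Heawood_dl d, d)

private lemma Heawood_P_inj (v : Fin 7 × Bool) : Function.Injective (Heawood_P v) := by
  intro d d' h
  have h1 := congrArg Prod.snd h
  unfold Heawood_P at h1
  split_ifs at h1
  · exact h1
  · exact h1

private lemma Heawood_mem (v : Fin 7 × Bool) (p : Fin 7 × Fin 3) :
    v ∈ (Heawood_e p : Sym2 (Fin 7 × Bool)) ↔ ∃ d, p = Heawood_P v d := by
  obtain ⟨i, b⟩ := v
  obtain ⟨j, d⟩ := p
  have h0 : (i, b) ∈ (Heawood_e (j, d) : Sym2 (Fin 7 × Bool)) ↔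
      (i, b) = (j, true) ∨ (i, b) = (j + Heawood_dl d, false) := Sym2.mem_iff
  rw [h0]
  cases b with
  | true =>
    constructor
    · rintro (h | h)
      · have h1 : i = j := congrArg Prod.fst h
        exact ⟨d, by rw [h1]; rfl⟩
      · have h1 : true = false := congrArg Prod.snd h
        exact absurd h1 (by decide)
    · rintro ⟨d', h⟩
      have h1 : j = i := congrArg Prod.fst h
      left
      rw [h1]
  | false =>
    constructor
    · rintro (h | h)
      · have h1 : false = true := congrArg Prod.snd h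
        exact absurd h1 (by decide)
      · have h1 : i = j + Heawood_dl d := congrArg Prod.fst h
        refine ⟨d, ?_⟩
        show (j, d) = (i - Heawood_dl d, d)
        rw [h1, add_sub_cancel_right]
    · rintro ⟨d', h⟩
      have h1 : j = i - Heawood_dl d' := congrArg Prod.fst h
      have h2 : d = d' := congrArg Prod.snd h
      right
      rw [h1, h2, sub_add_cancel]

/-- proper colourings as functions on the index set -/
private def Heawood_Pr (m : Fin 7 × Fin 3 → Fin 3) : Prop :=
  ∀ (v : Fin 7 × Bool) (d d' : Fin 3), d ≠ d' → m (Heawood_P v d) ≠ m (Heawood_P v d')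

private lemma Heawood_Pr_col (c : Heawood_G.lineGraph.Coloring (Fin 3)) :
    Heawood_Pr (fun p => c (Heawood_e p)) := by
  intro v d d' hd
  apply c.valid
  rw [SimpleGraph.lineGraph_adj_iff_exists]
  exact ⟨fun h => hd (Heawood_P_inj v (Heawood_e_inj h)), v, (Heawood_mem v _).2 ⟨d, rfl⟩,
    (Heawood_mem v _).2 ⟨d', rfl⟩⟩

private lemma Heawood_exists_col (m : Fin 7 × Fin 3 → Fin 3) (hm : Heawood_Pr m) :
    ∃ c : Heawood_G.lineGraph.Coloring (Fin 3), ∀ p, c (Heawood_e p) = m p := by
  refine ⟨SimpleGraph.Coloring.mk (fun e => m (Heawood_E.symm e)) ?_, ?_⟩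
  · intro e e' h
    rw [SimpleGraph.lineGraph_adj_iff_exists] at h
    obtain ⟨hne, v, hv, hv'⟩ := h
    obtain ⟨p, rfl⟩ := Heawood_E.surjective e
    obtain ⟨p', rfl⟩ := Heawood_E.surjective e'
    obtain ⟨d, rfl⟩ := (Heawood_mem v p).1 hv
    obtain ⟨d', rfl⟩ := (Heawood_mem v p').1 hv'
    rw [Equiv.symm_apply_apply, Equiv.symm_apply_apply]
    apply hm
    rintro rfl
    exact hne rfl
  · intro p
    exact congrArg m (Heawood_E.symm_apply_apply p)

/-! ### The search -/

private def Heawood_R1 (a b : Fin 6) : Bool := decide (Heawood_T b 0 ≠ Heawood_T a 1)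

private def Heawood_R2 (a b : Fin 6) : Bool := decide (Heawood_T b 1 ≠ Heawood_T a 2)

private def Heawood_R3 (a b : Fin 6) : Bool := decide (Heawood_T b 0 ≠ Heawood_T a 2)

private def Heawood_sg (a b : Fin 3) : ZMod 2 := if b = a + 1 then 0 else 1

private def Heawood_S (m : Fin 7 × Fin 3 → Fin 3) : ZMod 2 :=
  ∑ i : Fin 7, (Heawood_sg (m (i, 0)) (m (i, 1)) + Heawood_sg (m (i - 0, 0)) (m (i - 1, 1)))

private def Heawood_mm (r : Fin 7 → Fin 6) : Fin 7 × Fin 3 → Fin 3 := fun p => Heawood_T (r p.1) p.2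

private def Heawood_leaf (r : Fin 7 → Fin 6) : Bool :=
  decide (Heawood_S (Heawood_mm r) = 0 ∧
    ((∃ k k0 : Fin 3, ∀ (i : Fin 7) (d : Fin 3), Heawood_mm r (i, d) = k ↔ d = k0) →
      ∀ (i : Fin 7) (d : Fin 3), Heawood_mm r (i, d) = Heawood_mm r (0, d)))

set_option synthInstance.maxSize 5000 in
set_option maxRecDepth 10000 in
private lemma Heawood_search : ∀ r0 r1 : Fin 6, Heawood_R1 r0 r1 = true →
    ∀ r2 : Fin 6, Heawood_R2 r0 r2 = true → Heawood_R1 r1 r2 = true →
    ∀ r3 : Fin 6, Heawood_R3 r0 r3 = true → Heawood_R2 r1 r3 = true → Heawood_R1 r2 r3 = true →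
    ∀ r4 : Fin 6, Heawood_R3 r4 r0 = true → Heawood_R3 r1 r4 = true → Heawood_R2 r2 r4 = true →
      Heawood_R1 r3 r4 = true →
    ∀ r5 : Fin 6, Heawood_R2 r5 r0 = true → Heawood_R3 r5 r1 = true → Heawood_R3 r2 r5 = true →
      Heawood_R2 r3 r5 = true → Heawood_R1 r4 r5 = true →
    ∀ r6 : Fin 6, Heawood_R1 r6 r0 = true → Heawood_R2 r6 r1 = true → Heawood_R3 r6 r2 = true →
      Heawood_R3 r3 r6 = true → Heawood_R2 r4 r6 = true → Heawood_R1 r5 r6 = true →
      Heawood_leaf ![r0, r1, r2, r3, r4, r5, r6] = true := by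
  decide +kernel

private lemma Heawood_key (m : Fin 7 × Fin 3 → Fin 3) (hm : Heawood_Pr m) :
    Heawood_S m = 0 ∧ ((∃ k k0 : Fin 3, ∀ (i : Fin 7) (d : Fin 3), m (i, d) = k ↔ d = k0) →
      ∀ (i : Fin 7) (d : Fin 3), m (i, d) = m (0, d)) := by
  have h0 : ∀ i : Fin 7, ∃ r, Heawood_T r 0 = m (i, 0) ∧ Heawood_T r 1 = m (i, 1) ∧
      Heawood_T r 2 = m (i, 2) := by
    intro i
    exact Heawood_T_surj _ _ _ (hm (i, true) 0 1 (by decide)) (hm (i, true) 0 2 (by decide))
      (hm (i, true) 1 2 (by decide))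
  choose r hr using h0
  have hmr : Heawood_mm r = m := by
    funext p
    obtain ⟨i, d⟩ := p
    obtain ⟨h1, h2, h3⟩ := hr i
    show Heawood_T (r i) d = m (i, d)
    revert d
    rw [Fin.forall_fin_succ, Fin.forall_fin_succ, Fin.forall_fin_succ]
    exact ⟨h1, h2, h3, fun d => d.elim0⟩
  have g1 : ∀ i, Heawood_R1 (r i) (r (i + 1)) = true := by
    intro i
    have h1 := hm (i + 1, false) 0 1 (by decide)
    have h2 : Heawood_P (i + 1, false) 0 = (i + 1, 0) := by
      show (i + 1 - 0, (0 : Fin 3)) = (i + 1, 0)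
      rw [sub_zero]
    have h3 : Heawood_P (i + 1, false) 1 = (i, 1) := by
      show (i + 1 - 1, (1 : Fin 3)) = (i, 1)
      rw [add_sub_cancel_right]
    rw [h2, h3, ← hmr] at h1
    exact decide_eq_true h1
  have g2 : ∀ i, Heawood_R2 (r i) (r (i + 2)) = true := by
    intro i
    have h1 := hm (i + 3, false) 1 2 (by decide)
    have h2 : Heawood_P (i + 3, false) 1 = (i + 2, 1) := by
      show (i + 3 - 1, (1 : Fin 3)) = (i + 2, 1)
      rw [add_sub_assoc]
      rfl
    have h3 : Heawood_P (i + 3, false) 2 = (i, 2) := by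
      show (i + 3 - 3, (2 : Fin 3)) = (i, 2)
      rw [add_sub_cancel_right]
    rw [h2, h3, ← hmr] at h1
    exact decide_eq_true h1
  have g3 : ∀ i, Heawood_R3 (r i) (r (i + 3)) = true := by
    intro i
    have h1 := hm (i + 3, false) 0 2 (by decide)
    have h2 : Heawood_P (i + 3, false) 0 = (i + 3, 0) := by
      show (i + 3 - 0, (0 : Fin 3)) = (i + 3, 0)
      rw [sub_zero]
    have h3 : Heawood_P (i + 3, false) 2 = (i, 2) := by
      show (i + 3 - 3, (2 : Fin 3)) = (i, 2)
      rw [add_sub_cancel_right]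
    rw [h2, h3, ← hmr] at h1
    exact decide_eq_true h1
  have h5 := Heawood_search (r 0) (r 1) (g1 0) (r 2) (g2 0) (g1 1) (r 3) (g3 0) (g2 1) (g1 2)
    (r 4) (g3 4) (g3 1) (g2 2) (g1 3) (r 5) (g2 5) (g3 5) (g3 2) (g2 3) (g1 4)
    (r 6) (g1 6) (g2 6) (g3 6) (g3 3) (g2 4) (g1 5)
  have h6 : ![r 0, r 1, r 2, r 3, r 4, r 5, r 6] = r := by
    funext i
    fin_cases i <;> rfl
  rw [h6] at h5
  have h7 := of_decide_eq_true h5
  rw [hmr] at h7
  exact h7

/-! ### Parity -/

set_option synthInstance.maxSize 1000 in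
private lemma Heawood_fin : ∀ a b x a' b' x' : Fin 3, a ≠ b → a ≠ x → b ≠ x → a' ≠ b' → a' ≠ x' →
    b' ≠ x' → (if (a = a' ∧ b ≠ b' ∧ x ≠ x') ∨ (a ≠ a' ∧ b = b' ∧ x ≠ x') ∨ (a ≠ a' ∧ b ≠ b' ∧ x = x')
      then (1 : ZMod 2) else 0) = Heawood_sg a b + Heawood_sg a' b' := by decide +kernel

private lemma Heawood_three (p : Fin 3 → Prop) : (∃! d, p d) ↔
    (p 0 ∧ ¬ p 1 ∧ ¬ p 2) ∨ (¬ p 0 ∧ p 1 ∧ ¬ p 2) ∨ (¬ p 0 ∧ ¬ p 1 ∧ p 2) := by
  have h01 : (0 : Fin 3) ≠ 1 := by decide
  have h02 : (0 : Fin 3) ≠ 2 := by decide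
  have h12 : (1 : Fin 3) ≠ 2 := by decide
  have hall : ∀ d : Fin 3, d = 0 ∨ d = 1 ∨ d = 2 := by decide
  constructor
  · rintro ⟨d, hd, hu⟩
    rcases hall d with rfl | rfl | rfl
    · exact Or.inl ⟨hd, fun h => h01 (hu 1 h).symm, fun h => h02 (hu 2 h).symm⟩
    · exact Or.inr (Or.inl ⟨fun h => h01 (hu 0 h), hd, fun h => h12 (hu 2 h).symm⟩)
    · exact Or.inr (Or.inr ⟨fun h => h02 (hu 0 h), fun h => h12 (hu 1 h), hd⟩)
  · rintro (⟨h0, h1, h2⟩ | ⟨h0, h1, h2⟩ | ⟨h0, h1, h2⟩)
    · refine ⟨0, h0, fun d hd => ?_⟩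
      rcases hall d with rfl | rfl | rfl
      · rfl
      · exact absurd hd h1
      · exact absurd hd h2
    · refine ⟨1, h1, fun d hd => ?_⟩
      rcases hall d with rfl | rfl | rfl
      · exact absurd hd h0
      · rfl
      · exact absurd hd h2
    · refine ⟨2, h2, fun d hd => ?_⟩
      rcases hall d with rfl | rfl | rfl
      · exact absurd hd h0
      · exact absurd hd h1
      · rfl

private lemma Heawood_flips (c c' : Heawood_G.lineGraph.Coloring (Fin 3)) (v : Fin 7 × Bool) :
    v ∈ flips c c' ↔ ∃! d, c (Heawood_e (Heawood_P v d)) = c' (Heawood_e (Heawood_P v d)) := by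
  unfold flips
  rw [Set.mem_ofPred_eq]
  constructor
  · rintro ⟨e, ⟨he1, he2⟩, he3⟩
    obtain ⟨p, rfl⟩ := Heawood_e_surj e
    obtain ⟨d, rfl⟩ := (Heawood_mem v p).1 he1
    refine ⟨d, he2, fun d' hd' => ?_⟩
    exact Heawood_P_inj v (Heawood_e_inj (he3 _ ⟨(Heawood_mem v _).2 ⟨d', rfl⟩, hd'⟩))
  · rintro ⟨d, hd1, hd2⟩
    refine ⟨Heawood_e (Heawood_P v d), ⟨(Heawood_mem v _).2 ⟨d, rfl⟩, hd1⟩, ?_⟩
    rintro e ⟨he1, he2⟩
    obtain ⟨p, rfl⟩ := Heawood_e_surj e
    obtain ⟨d', rfl⟩ := (Heawood_mem v p).1 he1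
    rw [hd2 d' he2]

private lemma Heawood_parity (c c' : Heawood_G.lineGraph.Coloring (Fin 3)) :
    Even (flips c c').ncard := by
  classical
  have hm := Heawood_Pr_col c
  have hm' := Heawood_Pr_col c'
  have h1 : ∀ v : Fin 7 × Bool, (if v ∈ flips c c' then (1 : ZMod 2) else 0) =
      Heawood_sg (c (Heawood_e (Heawood_P v 0))) (c (Heawood_e (Heawood_P v 1))) +
      Heawood_sg (c' (Heawood_e (Heawood_P v 0))) (c' (Heawood_e (Heawood_P v 1))) := by
    intro v
    rw [← Heawood_fin _ _ _ _ _ _ (hm v 0 1 (by decide)) (hm v 0 2 (by decide))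
      (hm v 1 2 (by decide)) (hm' v 0 1 (by decide)) (hm' v 0 2 (by decide))
      (hm' v 1 2 (by decide))]
    have h2 := (Heawood_flips c c' v).trans (Heawood_three _)
    by_cases hf : v ∈ flips c c'
    · rw [if_pos hf, if_pos (h2.1 hf)]
    · rw [if_neg hf, if_neg (fun h => hf (h2.2 h))]
  have h2 : ((flips c c').ncard : ZMod 2) = ∑ v : Fin 7 × Bool, if v ∈ flips c c' then (1 : ZMod 2) else 0 := by
    rw [Finset.sum_boole]
    congr 1
    rw [← Set.ncard_coe_finset]
    congr 1
    ext v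
    simp
  have h3 : ∀ c : Heawood_G.lineGraph.Coloring (Fin 3), ∑ v : Fin 7 × Bool,
      Heawood_sg (c (Heawood_e (Heawood_P v 0))) (c (Heawood_e (Heawood_P v 1))) = 0 := by
    intro c
    have h4 := (Heawood_key _ (Heawood_Pr_col c)).1
    rw [Fintype.sum_prod_type]
    simp only [Fintype.sum_bool]
    exact h4
  have h4 : ((flips c c').ncard : ZMod 2) = 0 := by
    rw [h2]
    simp_rw [h1]
    rw [Finset.sum_add_distrib, h3, h3, add_zero]
  rw [ZMod.natCast_eq_zero_iff] at h4
  exact even_iff_two_dvd.2 h4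

/-! ### Kempe classes -/

private def Heawood_Phi (c : Heawood_G.lineGraph.Coloring (Fin 3)) : Prop :=
  ∀ (i : Fin 7) (d : Fin 3), c (Heawood_e (i, d)) = c (Heawood_e (0, d))

private lemma Heawood_inj3 : ∀ f : Fin 3 → Fin 3, f 0 ≠ f 1 → f 0 ≠ f 2 → f 1 ≠ f 2 →
    ∀ k, ∃ d0, ∀ d, f d = k ↔ d = d0 := by decide +kernel

private lemma Heawood_rel (c c' : Heawood_G.lineGraph.Coloring (Fin 3))
    (h : Rel (fun e => c e) (fun e => c' e)) (hc : Heawood_Phi c) : Heawood_Phi c' := by
  obtain ⟨k, hk⟩ := h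
  have hm := Heawood_Pr_col c (0, true)
  obtain ⟨d0, hd0⟩ := Heawood_inj3 (fun d => c (Heawood_e (0, d))) (hm 0 1 (by decide))
    (hm 0 2 (by decide)) (hm 1 2 (by decide)) k
  refine (Heawood_key _ (Heawood_Pr_col c')).2 ⟨k, d0, fun i d => ?_⟩
  have h1 : c (Heawood_e (i, d)) = k ↔ c' (Heawood_e (i, d)) = k := hk _
  show c' (Heawood_e (i, d)) = k ↔ d = d0
  rw [← h1, hc i d]
  exact hd0 d

private lemma Heawood_eqv {c c' : Heawood_G.lineGraph.Coloring (Fin 3)}
    (h : Relation.EqvGen (KempeStep Heawood_G.lineGraph 3) c c') :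
    Heawood_Phi c ↔ Heawood_Phi c' := by
  induction h with
  | rel x y h =>
    obtain ⟨k, hk⟩ := rel_of_step x y h
    exact ⟨Heawood_rel x y ⟨k, hk⟩, Heawood_rel y x ⟨k, fun e => (hk e).symm⟩⟩
  | refl x => exact Iff.rfl
  | symm x y _ ih => exact ih.symm
  | trans x y z _ _ ih1 ih2 => exact ih1.trans ih2

private def Heawood_c1 (p : Fin 7 × Fin 3) : Fin 3 :=
  Heawood_T (![0, 0, 5, 0, 1, 2, 3] p.1) p.2

private lemma Heawood_two : Kc Heawood_G.lineGraph 3 ≠ 1 := by
  intro h
  unfold Kc at h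
  rw [Nat.card_eq_one_iff_unique] at h
  obtain ⟨hs, -⟩ := h
  obtain ⟨c0, hc0⟩ := Heawood_exists_col (fun p => p.2) (by unfold Heawood_Pr; decide +kernel)
  obtain ⟨c1, hc1⟩ := Heawood_exists_col Heawood_c1 (by unfold Heawood_Pr; decide +kernel)
  have h1 : Quot.mk (KempeStep Heawood_G.lineGraph 3) c0 =
      Quot.mk (KempeStep Heawood_G.lineGraph 3) c1 := Subsingleton.elim _ _
  have h2 := Heawood_eqv (Quot.eqvGen_exact h1)
  have h3 : Heawood_Phi c0 := by
    intro i d
    rw [hc0, hc0]
  have h4 := h2.1 h3 2 0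
  rw [hc1, hc1] at h4
  exact absurd h4 (by decide +kernel)

/-! ### The graph -/

private lemma Heawood_conn : Heawood_G.Connected := by
  have h1 : ∀ i : Fin 7, Heawood_G.Reachable (i, true) (i, false) := by
    intro i
    have h2 := Heawood_adj i 0
    have h3 : i + Heawood_dl 0 = i := add_zero i
    rw [h3] at h2
    exact h2.reachable
  have h2 : ∀ i : Fin 7, Heawood_G.Reachable (i, true) (i + 1, true) := by
    intro i
    exact (Heawood_adj i 1).reachable.trans (h1 (i + 1)).symm
  have h3 : ∀ i : Fin 7, Heawood_G.Reachable (0, true) (i, true) := by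
    intro i
    induction i using Fin.induction with
    | zero => exact SimpleGraph.Reachable.refl _
    | succ i ih =>
      have h4 := h2 i.castSucc
      rw [Fin.coeSucc_eq_succ] at h4
      exact ih.trans h4
  have h4 : ∀ v : Fin 7 × Bool, Heawood_G.Reachable (0, true) v := by
    rintro ⟨i, b⟩
    cases b with
    | true => exact h3 i
    | false => exact (h3 i).trans (h1 i)
  exact (SimpleGraph.connected_iff_exists_forall_reachable _).2 ⟨(0, true), h4⟩

private lemma Heawood_col2 : Heawood_G.Colorable 2 := by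
  have h1 : Heawood_G.Coloring Bool := SimpleGraph.Coloring.mk (fun v => v.2) (by
    rintro u v (⟨h1, h2, -⟩ | ⟨h1, h2, -⟩)
    · rw [h1, h2]
      decide
    · rw [h1, h2]
      decide)
  have h2 := h1.colorable
  rw [Fintype.card_bool] at h2
  exact h2

private lemma Heawood_cub (v : Fin 7 × Bool) : (Heawood_G.neighborSet v).ncard = 3 := by
  rw [Set.ncard_eq_toFinset_card']
  revert v
  decide +kernel

/-- the Heawood graph -/
theorem heawood_sharp : ∃ (V : Type) (_ : Fintype V) (G : SimpleGraph V), Fintype.card V = 14 ∧ G.Connected ∧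
    G.Colorable 2 ∧ (∀ v, (G.neighborSet v).ncard = 3) ∧
    (∀ c c' : G.lineGraph.Coloring (Fin 3), Even (flips c c').ncard) ∧ Kc G.lineGraph 3 ≠ 1 := by
  exact ⟨Fin 7 × Bool, inferInstance, Heawood_G, by decide, Heawood_conn, Heawood_col2, Heawood_cub,
    Heawood_parity, Heawood_two⟩

end Pool.Agent.PP
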