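import Pool.Agent.Lib_MP_7c0803_pp.Quad
import Pool.Agent.Lib_MP_7c0803_pp.Kempe
import Pool.Agent.Lib_MP_7c0803_pp.EmbB

/-!
Proof plan.

* `quads_toCB`: `q i j` the vertices of the `i`-th 4-cycle, `κ : G.Coloring Bool`.  After a cyclic shift of the 4-cycle we may assume
  `κ (q i 0) = true` (an `X`-vertex), so `κ (q i 1) = false`, `κ (q i 2) = true`, `κ (q i 3) = false`.  Put
  `Q (i, 0) = {q i 0, q i 1}`, `Q (i, 1) = {q i 1, q i 2}`, `Q (i, 2) = {q i 2, q i 3}`, `Q (i, 3) = {q i 3, q i 0}` (as elements of `G.edgeSet`).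
  `Q (i,0), Q (i,1)` share the vertex `q i 1` with `κ = false`: same `t`-orbit (`adj_iff` in `Kempe.lean` says that adjacent edges are in the same
  `s`- or `t`-orbit; two different edges of a simple graph sharing a vertex `v` with `κ v = false` are in the same `t`-orbit, as they
  are in the rotation at `v`; they can not share both ends), etc.  Injectivity from the injectivity of `q`.
* `emb_exists`: every cubic graph has a rotation system: choose for every vertex a cyclic order of its three darts (a bijection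
  of the set of darts at `v` with `Fin 3`, `rot` = add one), `tw = false`.
* `card_edges`: `2 |E| = 3 |V|` (private lemma `EmbB_count` in `EmbB.lean`; may be made public).
-/

set_option autoImplicit false

open Finset Function

namespace Pool.Agent.PP

open SimpleGraph

universe u

variable {V : Type u} {G : SimpleGraph V}

/-- vertex-disjoint 4-cycles `q i 0, q i 1, q i 2, q i 3` (`i < k`) in `G` -/
def DisjC4 (G : SimpleGraph V) (k : ℕ) : Prop :=
  ∃ q : Fin k → Fin 4 → V, (∀ i j, G.Adj (q i j) (q i (j + 1))) ∧ Function.Injective (fun p : Fin k × Fin 4 => q p.1 p.2)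

private lemma QuadG_fst (κ : G.Coloring Bool) {e : G.edgeSet} {v : V} (hv : v ∈ (e : Sym2 V)) :
    ((dartEquiv κ).symm (e, κ v)).fst = v := by
  obtain ⟨w, hw⟩ := hv
  have hadj : G.Adj v w := by
    have := e.2
    rw [hw] at this
    exact this
  have h1 : dartEquiv κ ⟨(v, w), hadj⟩ = (e, κ v) := by
    rw [dartEquiv_apply]
    refine Prod.ext ?_ rfl
    apply Subtype.ext
    exact hw.symm
  rw [← h1, Equiv.symm_apply_apply]

private lemma QuadG_of_share (M : Emb G) (κ : G.Coloring Bool)
    (hcub : ∀ v, (G.neighborSet v).ncard = 3) {e e' : G.edgeSet} (hne : e ≠ e') {v : V}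
    (hv : v ∈ (e : Sym2 V)) (hv' : v ∈ (e' : Sym2 V)) :
    e' = rotB M κ (κ v) e ∨ e' = rotB M κ (κ v) (rotB M κ (κ v) e) := by
  have f1 := QuadG_fst κ hv
  have f2 := QuadG_fst κ hv'
  obtain ⟨i, hi⟩ := M.rot_trans _ _ (f1.trans f2.symm)
  have key : ∀ (d : G.Dart) (i : ℕ), (M.rot ^ i) d = d ∨ (M.rot ^ i) d = M.rot d ∨
      (M.rot ^ i) d = M.rot (M.rot d) := by
    intro d i
    induction i with
    | zero => left; rfl
    | succ i ih =>
      rw [pow_succ', Equiv.Perm.mul_apply]
      rcases ih with h | h | h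
      · right; left; rw [h]
      · right; right; rw [h]
      · left; rw [h, rot3 M hcub]
  rcases key ((dartEquiv κ).symm (e, κ v)) i with h | h | h
  · exfalso
    rw [h] at hi
    have := (dartEquiv κ).symm.injective hi
    exact hne (congrArg Prod.fst this)
  · left
    rw [h, rot_symm_dart] at hi
    have := (dartEquiv κ).symm.injective hi
    exact (congrArg Prod.fst this).symm
  · right
    rw [h, rot_symm_dart, rot_symm_dart] at hi
    have := (dartEquiv κ).symm.injective hi
    exact (congrArg Prod.fst this).symm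

private lemma QuadG_bool : ∀ a b : Bool, a ≠ b → a = true → b = false := by decide

private lemma QuadG_bool' : ∀ a b : Bool, a ≠ b → a = false → b = true := by decide

private lemma QuadG_fin : ∀ a b : Fin 4, a = b + 1 → a + 1 = b → False := by decide

theorem quads_toCB (M : Emb G) (κ : G.Coloring Bool) (hcub : ∀ v, (G.neighborSet v).ncard = 3) (k : ℕ)
    (h : DisjC4 G k) : (toCB M κ hcub).QF k := by
  obtain ⟨q0, hadj0, hinj0⟩ := h
  -- shift such that the first vertex has colour `true`
  obtain ⟨q, hadj, hinj, hcol⟩ : ∃ q : Fin k → Fin 4 → V, (∀ i j, G.Adj (q i j) (q i (j + 1))) ∧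
      Function.Injective (fun p : Fin k × Fin 4 => q p.1 p.2) ∧ ∀ i, κ (q i 0) = true := by
    refine ⟨fun i j => q0 i (j + if κ (q0 i 0) = true then 0 else 1), ?_, ?_, ?_⟩
    · intro i j
      have h1 := hadj0 i (j + if κ (q0 i 0) = true then 0 else 1)
      rw [add_right_comm] at h1
      exact h1
    · rintro ⟨i, j⟩ ⟨i', j'⟩ h1
      have h2 := hinj0 (a₁ := (i, j + if κ (q0 i 0) = true then 0 else 1))
        (a₂ := (i', j' + if κ (q0 i' 0) = true then 0 else 1)) h1
      have h3 : i = i' := congrArg Prod.fst h2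
      subst h3
      have h4 := congrArg Prod.snd h2
      have h5 : j = j' := add_right_cancel h4
      rw [h5]
    · intro i
      show κ (q0 i (0 + if κ (q0 i 0) = true then 0 else 1)) = true
      by_cases h1 : κ (q0 i 0) = true
      · rw [if_pos h1, add_zero]
        exact h1
      · rw [if_neg h1]
        exact QuadG_bool' _ _ (κ.valid (hadj0 i 0)) (by simpa using h1)
  have c1 : ∀ i, κ (q i 1) = false := fun i => QuadG_bool _ _ (κ.valid (hadj i 0)) (hcol i)
  have c2 : ∀ i, κ (q i 2) = true := fun i => QuadG_bool' _ _ (κ.valid (hadj i 1)) (c1 i)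
  have c3 : ∀ i, κ (q i 3) = false := fun i => QuadG_bool _ _ (κ.valid (hadj i 2)) (c2 i)
  set Q : Fin k × Fin 4 → G.edgeSet :=
    fun p => ⟨s(q p.1 p.2, q p.1 (p.2 + 1)), hadj p.1 p.2⟩ with hQ
  have hQinj : Function.Injective Q := by
    rintro ⟨i, j⟩ ⟨i', j'⟩ h1
    have h2 : s(q i j, q i (j + 1)) = s(q i' j', q i' (j' + 1)) := congrArg Subtype.val h1
    rcases Sym2.eq_iff.1 h2 with ⟨h3, -⟩ | ⟨h3, h4⟩
    · exact hinj (a₁ := (i, j)) (a₂ := (i', j')) h3
    · exfalso
      have h5 := congrArg Prod.snd (hinj (a₁ := (i, j)) (a₂ := (i', j' + 1)) h3)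
      have h6 := congrArg Prod.snd (hinj (a₁ := (i, j + 1)) (a₂ := (i', j')) h4)
      exact QuadG_fin j j' h5 h6
  have hne : ∀ (i : Fin k) (j j' : Fin 4), j ≠ j' → Q (i, j) ≠ Q (i, j') := by
    intro i j j' h1 h2
    exact h1 (congrArg Prod.snd (hQinj h2))
  have key : ∀ (i : Fin k) (j : Fin 4), Q (i, j + 1) = rotB M κ (κ (q i (j + 1))) (Q (i, j)) ∨
      Q (i, j + 1) = rotB M κ (κ (q i (j + 1))) (rotB M κ (κ (q i (j + 1))) (Q (i, j))) := by
    intro i j
    refine QuadG_of_share M κ hcub (hne i j (j + 1) ?_) (v := q i (j + 1)) ?_ ?_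
    · revert j
      decide
    · exact Sym2.mem_mk_right _ _
    · exact Sym2.mem_mk_left _ _
  refine ⟨Q, hQinj, fun i => ⟨?_, ?_, ?_, ?_⟩⟩
  · have h1 := key i 0
    rw [show κ (q i (0 + 1)) = false from c1 i] at h1
    exact h1
  · have h1 := key i 1
    rw [show κ (q i (1 + 1)) = true from c2 i] at h1
    exact h1
  · have h1 := key i 2
    rw [show κ (q i (2 + 1)) = false from c3 i] at h1
    exact h1
  · have h1 := key i 3
    rw [show κ (q i (3 + 1)) = true from hcol i] at h1
    exact h1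

theorem emb_exists (hcub : ∀ v, (G.neighborSet v).ncard = 3) : Nonempty (Emb G) := by
  classical
  have hc : ∀ v : V, Nat.card {d : G.Dart // d.fst = v} = 3 := by
    intro v
    have h1 := card_out hcub v
    rw [← Nat.card_coe_set_eq] at h1
    exact h1
  have hφ : ∀ v : V, Nonempty ({d : G.Dart // d.fst = v} ≃ Fin 3) := by
    intro v
    haveI : Finite {d : G.Dart // d.fst = v} := Nat.finite_of_card_ne_zero (by rw [hc v]; decide)
    exact ⟨Finite.equivFinOfCardEq (hc v)⟩
  have φ : ∀ v : V, {d : G.Dart // d.fst = v} ≃ Fin 3 := fun v => Classical.choice (hφ v)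
  set f : Fin 3 → G.Dart → G.Dart := fun z d => ((φ d.fst).symm (φ d.fst ⟨d, rfl⟩ + z)).1 with hf
  have hf1 : ∀ (z : Fin 3) (v : V) (x : {d : G.Dart // d.fst = v}),
      f z x.1 = ((φ v).symm (φ v x + z)).1 := by
    rintro z v ⟨d, rfl⟩
    rfl
  have hf2 : ∀ z d, (f z d).fst = d.fst := fun z d => ((φ d.fst).symm (φ d.fst ⟨d, rfl⟩ + z)).2
  have hf3 : ∀ z z' d, f z' (f z d) = f (z + z') d := by
    intro z z' d
    have h1 := hf1 z' d.fst ((φ d.fst).symm (φ d.fst ⟨d, rfl⟩ + z))
    rw [Equiv.apply_symm_apply, add_assoc] at h1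
    exact h1
  have hf4 : ∀ d, f 0 d = d := by
    intro d
    show ((φ d.fst).symm (φ d.fst ⟨d, rfl⟩ + 0)).1 = d
    rw [add_zero, Equiv.symm_apply_apply]
  set r : Equiv.Perm G.Dart := ⟨f 1, f 2, fun d => by
    rw [hf3, show (1 : Fin 3) + 2 = 0 from rfl, hf4], fun d => by
    rw [hf3, show (2 : Fin 3) + 1 = 0 from rfl, hf4]⟩ with hr
  have hr1 : ∀ d, r d = f 1 d := fun d => rfl
  have hr2 : ∀ (i : ℕ) (d : G.Dart), (r ^ i) d = f (Fin.ofNat 3 i) d := by
    intro i
    induction i with
    | zero =>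
      intro d
      show d = f 0 d
      rw [hf4]
    | succ i ih =>
      intro d
      rw [pow_succ', Equiv.Perm.mul_apply, ih, hr1, hf3]
      congr 1
      apply Fin.ext
      show (i % 3 + 1 % 3) % 3 = (i + 1) % 3
      omega
  refine ⟨⟨r, fun d => hf2 1 d, ?_, fun _ => false, fun _ => rfl⟩⟩
  intro d d' hd
  refine ⟨(φ d.fst ⟨d', hd.symm⟩ - φ d.fst ⟨d, rfl⟩ : Fin 3).val, ?_⟩
  rw [hr2]
  show ((φ d.fst).symm (φ d.fst ⟨d, rfl⟩ + _)).1 = d'
  rw [Fin.ofNat_val_eq_self, add_sub_cancel, Equiv.symm_apply_apply]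

theorem card_edges [Finite V] (κ : G.Coloring Bool) (hcub : ∀ v, (G.neighborSet v).ncard = 3) :
    2 * Nat.card G.edgeSet = 3 * Nat.card V := by
  classical
  haveI : Fintype V := Fintype.ofFinite V
  haveI : Finite G.edgeSet := inferInstance
  haveI : Finite G.Dart := Finite.of_equiv _ (dartEquiv κ).symm
  have h1 : Nat.card G.Dart = Nat.card G.edgeSet * 2 := by
    rw [Nat.card_congr (dartEquiv κ), Nat.card_prod]
    simp
  have h2 : Nat.card G.Dart = ∑ v : V, Nat.card {d : G.Dart // d.fst = v} := by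
    rw [← Nat.card_congr (Equiv.sigmaFiberEquiv (fun d : G.Dart => d.fst)), Nat.card_sigma]
  have h3 : ∀ v : V, Nat.card {d : G.Dart // d.fst = v} = 3 := by
    intro v
    have := card_out hcub v
    rw [← Nat.card_coe_set_eq] at this
    exact this
  simp_rw [h3] at h2
  rw [Finset.sum_const, Finset.card_univ, smul_eq_mul, ← Nat.card_eq_fintype_card] at h2
  omega

end Pool.Agent.PP
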