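import Pool.Agent.Lib_MP_7c0803_pp.Final2
import Pool.Agent.Lib_MP_7c0803_pp.QuadG
import Pool.Agent.Lib_MP_7c0803_pp.Heawood

set_option autoImplicit false

open Finset Function

namespace Pool.Agent.PP

open SimpleGraph

universe u

variable {V : Type u} {G : SimpleGraph V}

/-- For any two proper 3-edge-colourings the number of vertices at which exactly one edge has the same colour in both is even. -/
def EvenFlips (G : SimpleGraph V) : Prop := ∀ c c' : G.lineGraph.Coloring (Fin 3), Even (flips c c').ncard

lemma col_of_colorable (h : G.Colorable 2) : Nonempty (G.Coloring Bool) := by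
  obtain ⟨c⟩ := h
  refine ⟨SimpleGraph.Coloring.mk (fun v => decide (c v = 0)) ?_⟩
  intro u v huv heq
  have h1 := c.valid huv
  revert heq h1
  generalize c u = a
  generalize c v = b
  revert a b
  decide

/-- graphs of any genus with disjoint 4-cycles covering all but at most 12 vertices -/
theorem kc_quads [Finite V] (κ : G.Coloring Bool) (hcub : ∀ v, (G.neighborSet v).ncard = 3) (k : ℕ)
    (h : DisjC4 G k) (hV : Nat.card V ≤ 4 * k + 12) : Kc G.lineGraph 3 = 1 ↔ EvenFlips G := by
  classical
  obtain ⟨M⟩ := emb_exists (G := G) hcub
  have : Fintype G.edgeSet := Fintype.ofFinite _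
  have h1 := quads_toCB M κ hcub k h
  have h2 := card_edges κ hcub
  apply kc_red M κ hcub
  apply red_of_quads k _ _ h1
  rw [← Nat.card_eq_fintype_card]
  omega

end Pool.Agent.PP
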