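import Mathlib

/-!
# Kempe equivalence of 3-edge-colourings: cubic graphs with a 2-factor of 4-cycles

Every finite cubic graph which has a 2-factor consisting of 4-cycles has exactly one Kempe class of
proper 3-edge-colourings.  In particular this holds for all cubic bipartite graphs (planar or not)
whose vertex set can be partitioned into 4-cycles.
-/

namespace Pool.Agent.PP

open SimpleGraph

variable {W : Type*}

/-- The subgraph of `H` formed by the vertices coloured `a` or `b`. -/
def kempeGraph (H : SimpleGraph W) {k : ℕ} (c : H.Coloring (Fin k)) (a b : Fin k) :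
    SimpleGraph W where
  Adj x y := H.Adj x y ∧ (c x = a ∨ c x = b) ∧ (c y = a ∨ c y = b)
  symm := ⟨fun _ _ h => ⟨h.1.symm, h.2.2, h.2.1⟩⟩
  loopless := ⟨fun x h => H.loopless.irrefl x h.1⟩

open Classical in
/-- One Kempe change: the colours `a` and `b` are exchanged on one connected component of the
subgraph formed by the vertices coloured `a` or `b`. -/
def KempeStep (H : SimpleGraph W) (k : ℕ) (c c' : H.Coloring (Fin k)) : Prop :=
  ∃ a b : Fin k, a ≠ b ∧ ∃ x : W, (c x = a ∨ c x = b) ∧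
    ∀ y, c' y = if (kempeGraph H c a b).Reachable x y then Equiv.swap a b (c y) else c y

/-- Number of Kempe equivalence classes of proper `k`-colourings of `H`. -/
noncomputable def Kc (H : SimpleGraph W) (k : ℕ) : ℕ := Nat.card (Quot (KempeStep H k))

open Classical in
/-- The colouring obtained by one Kempe change. -/
noncomputable def kempeChange (H : SimpleGraph W) {k : ℕ} (c : H.Coloring (Fin k)) (a b : Fin k)
    (x : W) : H.Coloring (Fin k) :=
  Coloring.mk (fun y => if (kempeGraph H c a b).Reachable x y then Equiv.swap a b (c y) else c y)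
    (by
      intro y z hyz hcol
      by_cases hy : (kempeGraph H c a b).Reachable x y <;>
        by_cases hz : (kempeGraph H c a b).Reachable x z
      · rw [if_pos hy, if_pos hz] at hcol
        exact c.valid hyz ((Equiv.swap a b).injective hcol)
      · rw [if_pos hy, if_neg hz] at hcol
        have h1 : ¬ (kempeGraph H c a b).Adj y z := fun h => hz (hy.trans h.reachable)
        have h2 : c y ≠ c z := c.valid hyz
        have h3 : ¬ ((c y = a ∨ c y = b) ∧ (c z = a ∨ c z = b)) := fun h => h1 ⟨hyz, h.1, h.2⟩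
        by_cases ha : c y = a
        · rw [ha, Equiv.swap_apply_left] at hcol
          exact h3 ⟨Or.inl ha, Or.inr hcol.symm⟩
        by_cases hb : c y = b
        · rw [hb, Equiv.swap_apply_right] at hcol
          exact h3 ⟨Or.inr hb, Or.inl hcol.symm⟩
        rw [Equiv.swap_apply_of_ne_of_ne ha hb] at hcol
        exact h2 hcol
      · rw [if_neg hy, if_pos hz] at hcol
        have h1 : ¬ (kempeGraph H c a b).Adj y z := fun h => hy (hz.trans h.symm.reachable)
        have h2 : c y ≠ c z := c.valid hyz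
        have h3 : ¬ ((c y = a ∨ c y = b) ∧ (c z = a ∨ c z = b)) := fun h => h1 ⟨hyz, h.1, h.2⟩
        by_cases ha : c z = a
        · rw [ha, Equiv.swap_apply_left] at hcol
          exact h3 ⟨Or.inr hcol, Or.inl ha⟩
        by_cases hb : c z = b
        · rw [hb, Equiv.swap_apply_right] at hcol
          exact h3 ⟨Or.inl hcol, Or.inr hb⟩
        rw [Equiv.swap_apply_of_ne_of_ne ha hb] at hcol
        exact h2 hcol
      · rw [if_neg hy, if_neg hz] at hcol
        exact c.valid hyz hcol)

open Classical in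
lemma kempeChange_apply (H : SimpleGraph W) {k : ℕ} (c : H.Coloring (Fin k)) (a b : Fin k)
    (x y : W) : kempeChange H c a b x y =
      if (kempeGraph H c a b).Reachable x y then Equiv.swap a b (c y) else c y := rfl

lemma kempeStep_kempeChange (H : SimpleGraph W) {k : ℕ} (c : H.Coloring (Fin k)) {a b : Fin k}
    (hab : a ≠ b) {x : W} (hx : c x = a ∨ c x = b) : KempeStep H k c (kempeChange H c a b x) :=
  ⟨a, b, hab, x, hx, fun _ => rfl⟩

/-- A labelling which is constant along adjacent vertices coloured `a` or `b` is constant on Kempe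
chains. -/
lemma const_of_reachable (H : SimpleGraph W) {k : ℕ} (c : H.Coloring (Fin k)) (a b : Fin k)
    {α : Type*} (φ : W → α)
    (hφ : ∀ x y, H.Adj x y → (c x = a ∨ c x = b) → (c y = a ∨ c y = b) → φ x = φ y)
    {x y : W} (h : (kempeGraph H c a b).Reachable x y) : φ x = φ y := by
  obtain ⟨p⟩ := h
  induction p with
  | nil => rfl
  | cons h p ih => exact (hφ _ _ h.1 h.2.1 h.2.2).trans ih

lemma col_of_reachable (H : SimpleGraph W) {k : ℕ} (c : H.Coloring (Fin k)) (a b : Fin k)
    {x y : W} (hx : c x = a ∨ c x = b) (h : (kempeGraph H c a b).Reachable x y) :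
    c y = a ∨ c y = b := by
  obtain ⟨p⟩ := h
  induction p with
  | nil => exact hx
  | cons h p ih => exact ih h.2.2

/-- `G` has a 2-factor all of whose components are 4-cycles: the vertex set is partitioned into
the vertex sets of 4-cycles `q i 0, q i 1, q i 2, q i 3` of `G`. -/
def HasC4Factor {V : Type*} (G : SimpleGraph V) : Prop :=
  ∃ (n : ℕ) (q : Fin n → Fin 4 → V), (∀ i j, G.Adj (q i j) (q i (j + 1))) ∧
    Function.Bijective (fun p : Fin n × Fin 4 => q p.1 p.2)

namespace C4

/-- label of a vertex with own outer colour `y0`, next outer colour `y1`, previous one `y3` -/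
def f (a b y0 y1 y3 : Fin 3) : Fin 3 :=
  if y0 = a ∨ y0 = b then y0 else if y1 = a ∨ y1 = b then y1 else
    if y3 = a ∨ y3 = b then y3 else y0

lemma third_eq : ∀ x y z : Fin 3, x ≠ y → z ≠ x → z ≠ y → z = -(x + y) := by decide

lemma f_local0 : ∀ a b : Fin 3, a ≠ b → ∀ x3 x0 : Fin 3, x3 ≠ x0 → ∀ x1 : Fin 3, x0 ≠ x1 →
    ∀ x2 : Fin 3, x1 ≠ x2 → x2 ≠ x3 → (x0 = a ∨ x0 = b) →
    f a b (-(x3 + x0)) (-(x0 + x1)) (-(x2 + x3)) =
      f a b (-(x0 + x1)) (-(x1 + x2)) (-(x3 + x0)) := by
  decide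

lemma f_local (a b : Fin 3) (hab : a ≠ b) (x y : Fin 4 → Fin 3) (hx : ∀ j, x j ≠ x (j + 1))
    (hy : ∀ j, y (j + 1) ≠ x j) (hy' : ∀ j, y j ≠ x j) (j : Fin 4) (h : x j = a ∨ x j = b) :
    f a b (y j) (y (j + 1)) (y (j + 3)) = f a b (y (j + 1)) (y (j + 2)) (y j) := by
  have e4 : j + 3 + 1 = j := by omega
  have e3 : j + 1 + 1 = j + 2 := by omega
  have e5 : j + 2 + 1 = j + 3 := by omega
  have h3 : y j = -(x (j + 3) + x j) :=
    third_eq _ _ _ (by have := hx (j + 3); rwa [e4] at this)
      (by have := hy (j + 3); rwa [e4] at this) (hy' j)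
  have h0 : y (j + 1) = -(x j + x (j + 1)) := third_eq _ _ _ (hx j) (hy j) (hy' _)
  have h1 : y (j + 2) = -(x (j + 1) + x (j + 2)) :=
    third_eq _ _ _ (by have := hx (j + 1); rwa [e3] at this)
      (by have := hy (j + 1); rwa [e3] at this) (hy' _)
  have h2 : y (j + 3) = -(x (j + 2) + x (j + 3)) :=
    third_eq _ _ _ (by have := hx (j + 2); rwa [e5] at this)
      (by have := hy (j + 2); rwa [e5] at this) (hy' _)
  rw [h3, h0, h1, h2]
  exact f_local0 a b hab _ _ (by have := hx (j + 3); rwa [e4] at this) _ (hx j) _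
    (by have := hx (j + 1); rwa [e3] at this) (by have := hx (j + 2); rwa [e5] at this) h

variable {V : Type*} {G : SimpleGraph V}

/-- edge as a vertex of the line graph -/
def ed {u v : V} (h : G.Adj u v) : G.edgeSet := ⟨s(u, v), h⟩

lemma ed_comm {u v : V} (h : G.Adj u v) : ed h = ed h.symm := by
  apply Subtype.ext; exact Sym2.eq_swap

lemma col_ne (c : G.lineGraph.Coloring (Fin 3)) {v u u' : V} (h : G.Adj v u) (h' : G.Adj v u')
    (hne : u ≠ u') : c (ed h) ≠ c (ed h') := by
  apply c.valid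
  rw [SimpleGraph.lineGraph_adj_iff_exists]
  refine ⟨?_, v, by simp [ed], by simp [ed]⟩
  intro he
  have := congrArg Subtype.val he
  simp only [ed, Sym2.eq_iff] at this
  rcases this with ⟨_, h2⟩ | ⟨h1, h2⟩
  · exact hne h2
  · exact hne (h2.trans h1)

/-- the data of a C4-factor in a cubic graph -/
structure Data (G : SimpleGraph V) (ι : Type) where
  q : ι → Fin 4 → V
  adj : ∀ i j, G.Adj (q i j) (q i (j + 1))
  idx : V → ι × Fin 4
  q_idx : ∀ v, q (idx v).1 (idx v).2 = v
  idx_q : ∀ i j, idx (q i j) = (i, j)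
  m : V → V
  adj_m : ∀ v, G.Adj v (m v)
  m_ne : ∀ i j, m (q i j) ≠ q i (j + 1)
  m_ne' : ∀ i j, m (q i j) ≠ q i (j + 3)
  nbr : ∀ i j u, G.Adj (q i j) u → u = q i (j + 1) ∨ u = q i (j + 3) ∨ u = m (q i j)

lemma exists_data (hcub : ∀ v, (G.neighborSet v).ncard = 3) (h : HasC4Factor G) :
    ∃ ι : Type, Nonempty (Data G ι) := by
  obtain ⟨n, q, hadj, hinj, hsur⟩ := h
  refine ⟨Fin n, ?_⟩
  have key : ∀ v, ∃ p : Fin n × Fin 4, q p.1 p.2 = v := hsur
  choose idx hidx using key
  have idx_q : ∀ i j, idx (q i j) = (i, j) := fun i j => hinj (hidx (q i j))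
  have e4 : ∀ j : Fin 4, j + 3 + 1 = j := by decide
  have hne : ∀ i (j : Fin 4), q i (j + 1) ≠ q i (j + 3) := by
    intro i j he
    have := hinj (a₁ := (i, j + 1)) (a₂ := (i, j + 3)) he
    have h2 : j + 1 = j + 3 := congrArg Prod.snd this
    exact absurd h2 ((by decide : ∀ j : Fin 4, j + 1 ≠ j + 3) j)
  have third : ∀ v, ∃ u, G.Adj v u ∧ u ≠ q (idx v).1 ((idx v).2 + 1) ∧
      u ≠ q (idx v).1 ((idx v).2 + 3) ∧ ∀ w, G.Adj v w →
        w = q (idx v).1 ((idx v).2 + 1) ∨ w = q (idx v).1 ((idx v).2 + 3) ∨ w = u := by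
    intro v
    rcases hp : idx v with ⟨i, j⟩
    have hv : q i j = v := by have := hidx v; rwa [hp] at this
    have h1 : q i (j + 1) ∈ G.neighborSet v := by rw [← hv]; exact hadj i j
    have h3 : q i (j + 3) ∈ G.neighborSet v := by
      rw [← hv]
      have := (hadj i (j + 3)).symm
      rwa [e4] at this
    obtain ⟨x, y, z, hxy, hxz, hyz, hS⟩ := Set.ncard_eq_three.mp (hcub v)
    have hn := hne i j
    rw [hS] at h1 h3
    simp only [Set.mem_insert_iff, Set.mem_singleton_iff] at h1 h3
    have hmem : ∀ w, G.Adj v w ↔ w = x ∨ w = y ∨ w = z := by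
      intro w
      have : w ∈ G.neighborSet v ↔ w ∈ ({x, y, z} : Set V) := by rw [hS]
      simpa using this
    rcases h1 with h1 | h1 | h1 <;> rcases h3 with h3 | h3 | h3
    · exact absurd (h1.trans h3.symm) hn
    · exact ⟨z, (hmem z).2 (by simp), by rw [h1]; exact hxz.symm, by rw [h3]; exact hyz.symm,
        fun w hw => by rw [h1, h3]; exact (hmem w).1 hw⟩
    · refine ⟨y, (hmem y).2 (by simp), by rw [h1]; exact hxy.symm, by rw [h3]; exact hyz,
        fun w hw => ?_⟩
      rw [h1, h3]; have := (hmem w).1 hw; tauto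
    · refine ⟨z, (hmem z).2 (by simp), by rw [h1]; exact hyz.symm, by rw [h3]; exact hxz.symm,
        fun w hw => ?_⟩
      rw [h1, h3]; have := (hmem w).1 hw; tauto
    · exact absurd (h1.trans h3.symm) hn
    · refine ⟨x, (hmem x).2 (by simp), by rw [h1]; exact hxy, by rw [h3]; exact hxz,
        fun w hw => ?_⟩
      rw [h1, h3]; have := (hmem w).1 hw; tauto
    · refine ⟨y, (hmem y).2 (by simp), by rw [h1]; exact hyz, by rw [h3]; exact hxy.symm,
        fun w hw => ?_⟩
      rw [h1, h3]; have := (hmem w).1 hw; tauto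
    · refine ⟨x, (hmem x).2 (by simp), by rw [h1]; exact hxz, by rw [h3]; exact hxy,
        fun w hw => ?_⟩
      rw [h1, h3]; have := (hmem w).1 hw; tauto
    · exact absurd (h1.trans h3.symm) hn
  choose m hm1 hm2 hm3 hm4 using third
  refine ⟨⟨q, hadj, idx, hidx, idx_q, m, hm1, ?_, ?_, ?_⟩⟩
  · intro i j; have := hm2 (q i j); rwa [idx_q] at this
  · intro i j; have := hm3 (q i j); rwa [idx_q] at this
  · intro i j u hu; have := hm4 (q i j) u hu; rwa [idx_q] at this

end C4
namespace C4
namespace Data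

variable {V : Type*} {G : SimpleGraph V} {ι : Type} (D : Data G ι)

lemma q_inj {i i' : ι} {j j' : Fin 4} (h : D.q i j = D.q i' j') : i = i' ∧ j = j' := by
  have := congrArg D.idx h
  rw [D.idx_q, D.idx_q] at this
  exact ⟨congrArg Prod.fst this, congrArg Prod.snd this⟩

lemma m_m (v : V) : D.m (D.m v) = v := by
  have h := (D.adj_m v).symm
  have h1 : D.q (D.idx (D.m v)).1 (D.idx (D.m v)).2 = D.m v := D.q_idx _
  generalize (D.idx (D.m v)).1 = i at h1
  generalize (D.idx (D.m v)).2 = j at h1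
  rw [← h1] at h
  rcases D.nbr i j v h with h2 | h2 | h2
  · exfalso
    have h3 := D.m_ne' i (j + 1)
    rw [← h2, show j + 1 + 3 = j by omega] at h3
    exact h3 h1.symm
  · exfalso
    have h3 := D.m_ne i (j + 3)
    rw [← h2, show j + 3 + 1 = j by omega] at h3
    exact h3 h1.symm
  · rw [h1] at h2; exact h2.symm

variable (c : G.lineGraph.Coloring (Fin 3))

/-- colour of an inner edge -/
def X (i : ι) (j : Fin 4) : Fin 3 := c (ed (D.adj i j))

/-- colour of the outer edge at `v` -/
def Y (v : V) : Fin 3 := c (ed (D.adj_m v))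

lemma ed_eq {u v u' v' : V} (h : G.Adj u v) (h' : G.Adj u' v') (he : s(u, v) = s(u', v')) :
    ed h = ed h' := Subtype.ext he

lemma X_ne (i : ι) (j : Fin 4) : D.X c i j ≠ D.X c i (j + 1) := by
  unfold X
  rw [ed_comm (D.adj i j)]
  apply col_ne
  intro he
  have := (D.q_inj he).2
  exact absurd this ((by decide : ∀ j : Fin 4, j ≠ j + 1 + 1) j)

lemma Y_ne (i : ι) (j : Fin 4) : D.Y c (D.q i j) ≠ D.X c i j := by
  unfold X Y
  exact col_ne c _ _ (D.m_ne i j)

lemma Y_ne' (i : ι) (j : Fin 4) : D.Y c (D.q i (j + 1)) ≠ D.X c i j := by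
  unfold X Y
  rw [ed_comm (D.adj i j)]
  apply col_ne
  have := D.m_ne' i (j + 1)
  rwa [show j + 1 + 3 = j by omega] at this

lemma Y_m (v : V) : D.Y c (D.m v) = D.Y c v := by
  unfold Y
  congr 1
  apply ed_eq
  rw [D.m_m]
  exact Sym2.eq_swap

/-- label of a vertex -/
def phi (a b : Fin 3) (v : V) : Fin 3 :=
  f a b (D.Y c (D.q (D.idx v).1 (D.idx v).2)) (D.Y c (D.q (D.idx v).1 ((D.idx v).2 + 1)))
    (D.Y c (D.q (D.idx v).1 ((D.idx v).2 + 3)))

lemma phi_q (a b : Fin 3) (i : ι) (j : Fin 4) : D.phi c a b (D.q i j) =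
    f a b (D.Y c (D.q i j)) (D.Y c (D.q i (j + 1))) (D.Y c (D.q i (j + 3))) := by
  unfold phi; rw [D.idx_q]

lemma phi_of_Y (a b : Fin 3) (v : V) (h : D.Y c v = a ∨ D.Y c v = b) :
    D.phi c a b v = D.Y c v := by
  unfold phi f
  rw [D.q_idx, if_pos h]

lemma phi_step {a b : Fin 3} (hab : a ≠ b) (i : ι) (j : Fin 4)
    (h : D.X c i j = a ∨ D.X c i j = b) :
    D.phi c a b (D.q i j) = D.phi c a b (D.q i (j + 1)) := by
  rw [phi_q, phi_q, show j + 1 + 1 = j + 2 by omega, show j + 1 + 3 = j by omega]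
  exact f_local a b hab (D.X c i) (fun j => D.Y c (D.q i j)) (D.X_ne c i)
    (D.Y_ne' c i) (D.Y_ne c i) j h

lemma phi_edge {a b : Fin 3} (hab : a ≠ b) {u v : V} (h : G.Adj u v)
    (hc : c (ed h) = a ∨ c (ed h) = b) : D.phi c a b u = D.phi c a b v := by
  have hu : D.q (D.idx u).1 (D.idx u).2 = u := D.q_idx _
  generalize (D.idx u).1 = i at hu
  generalize (D.idx u).2 = j at hu
  subst hu
  rcases D.nbr i j v h with h2 | h2 | h2
  · subst h2
    exact D.phi_step c hab i j hc
  · subst h2
    have e : ed h = ed (D.adj i (j + 3)) := by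
      apply ed_eq
      rw [show j + 3 + 1 = j by omega]
      exact Sym2.eq_swap
    rw [e] at hc
    have := D.phi_step c hab i (j + 3) hc
    rw [show j + 3 + 1 = j by omega] at this
    exact this.symm
  · subst h2
    rw [D.phi_of_Y c a b _ hc, D.phi_of_Y c a b _ (by rw [D.Y_m]; exact hc), D.Y_m]

lemma phi_mem {a b : Fin 3} (hab : a ≠ b) (e : G.edgeSet) (hc : c e = a ∨ c e = b) {u v : V}
    (hu : u ∈ (e : Sym2 V)) (hv : v ∈ (e : Sym2 V)) : D.phi c a b u = D.phi c a b v := by
  by_cases huv : u = v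
  · rw [huv]
  · have he : (e : Sym2 V) = s(u, v) := ((Sym2.mem_and_mem_iff huv).1 ⟨hu, hv⟩)
    have h : G.Adj u v := by
      have := e.2
      rw [he] at this
      exact this
    have e2 : e = ed h := Subtype.ext he
    rw [e2] at hc
    exact D.phi_edge c hab h hc

lemma phi_reach {a b : Fin 3} (hab : a ≠ b) {e e' : G.edgeSet} (hc : c e = a ∨ c e = b)
    (h : (kempeGraph G.lineGraph c a b).Reachable e e') {u v : V}
    (hu : u ∈ (e : Sym2 V)) (hv : v ∈ (e' : Sym2 V)) : D.phi c a b u = D.phi c a b v := by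
  have key := const_of_reachable G.lineGraph c a b (fun e : G.edgeSet =>
    D.phi c a b (Quot.out (e : Sym2 V)).1) (by
      intro x y hxy hx hy
      rw [SimpleGraph.lineGraph_adj_iff_exists] at hxy
      obtain ⟨_, w, hw1, hw2⟩ := hxy
      have h1 := D.phi_mem c hab x hx (Sym2.out_fst_mem (x : Sym2 V)) hw1
      have h2 := D.phi_mem c hab y hy (Sym2.out_fst_mem (y : Sym2 V)) hw2
      exact h1.trans h2.symm) h
  have hc' := col_of_reachable G.lineGraph c a b hc h
  have h1 := D.phi_mem c hab e hc hu (Sym2.out_fst_mem (e : Sym2 V))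
  have h2 := D.phi_mem c hab e' hc' hv (Sym2.out_fst_mem (e' : Sym2 V))
  exact h1.trans (key.trans h2.symm)

/-- the quadrangle index is constant on Kempe chains avoiding the outer edges -/
lemma idx_reach {a b : Fin 3} (hY : ∀ v, ¬ (D.Y c v = a ∨ D.Y c v = b)) {e e' : G.edgeSet}
    (hc : c e = a ∨ c e = b) (h : (kempeGraph G.lineGraph c a b).Reachable e e') {u v : V}
    (hu : u ∈ (e : Sym2 V)) (hv : v ∈ (e' : Sym2 V)) : (D.idx u).1 = (D.idx v).1 := by
  have h0 : ∀ e : G.edgeSet, (c e = a ∨ c e = b) → ∀ u v : V, u ∈ (e : Sym2 V) →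
      v ∈ (e : Sym2 V) → (D.idx u).1 = (D.idx v).1 := by
    intro e hc u v hu hv
    by_cases huv : u = v
    · rw [huv]
    · have he : (e : Sym2 V) = s(u, v) := ((Sym2.mem_and_mem_iff huv).1 ⟨hu, hv⟩)
      have h : G.Adj u v := by
        have := e.2
        rw [he] at this
        exact this
      have e2 : e = ed h := Subtype.ext he
      rw [e2] at hc
      have hu : D.q (D.idx u).1 (D.idx u).2 = u := D.q_idx _
      generalize hi : (D.idx u).1 = i at hu
      generalize (D.idx u).2 = j at hu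
      subst hu
      rcases D.nbr i j v h with h2 | h2 | h2
      · rw [h2, D.idx_q]
      · rw [h2, D.idx_q]
      · exfalso
        subst h2
        exact hY _ hc
  have key := const_of_reachable G.lineGraph c a b (fun e : G.edgeSet =>
    (D.idx (Quot.out (e : Sym2 V)).1).1) (by
      intro x y hxy hx hy
      rw [SimpleGraph.lineGraph_adj_iff_exists] at hxy
      obtain ⟨_, w, hw1, hw2⟩ := hxy
      exact (h0 x hx _ _ (Sym2.out_fst_mem (x : Sym2 V)) hw1).trans
        (h0 y hy _ _ hw2 (Sym2.out_fst_mem (y : Sym2 V)))) h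
  have hc' := col_of_reachable G.lineGraph c a b hc h
  exact (h0 e hc _ _ hu (Sym2.out_fst_mem (e : Sym2 V))).trans
    (key.trans (h0 e' hc' _ _ (Sym2.out_fst_mem (e' : Sym2 V)) hv))

open Classical in
/-- First phase: all outer edges can be given the colour `0`. -/
lemma exists_outer_zero [Fintype V] (n : ℕ) : ∀ c : G.lineGraph.Coloring (Fin 3),
    (Finset.univ.filter (fun v => D.Y c v ≠ 0)).card = n →
    ∃ c' : G.lineGraph.Coloring (Fin 3), (∀ v, D.Y c' v = 0) ∧
      Quot.mk (KempeStep G.lineGraph 3) c = Quot.mk (KempeStep G.lineGraph 3) c' := by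
  induction n using Nat.strong_induction_on with
  | _ n ih =>
    intro c hn
    by_cases hall : ∀ v, D.Y c v = 0
    · exact ⟨c, hall, rfl⟩
    push Not at hall
    obtain ⟨v, hv⟩ := hall
    set a := D.Y c v with ha
    have hx : c (ed (D.adj_m v)) = a ∨ c (ed (D.adj_m v)) = 0 := Or.inl rfl
    set c1 := kempeChange G.lineGraph c a 0 (ed (D.adj_m v)) with hc1
    have hY1 : ∀ u, D.Y c1 u = 0 ∨ D.Y c1 u = D.Y c u := by
      intro u
      have e1 := kempeChange_apply G.lineGraph c a 0 (ed (D.adj_m v)) (ed (D.adj_m u))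
      change D.Y c1 u = _ at e1
      rw [e1]
      split_ifs with hr
      · left
        have h1 := D.phi_reach c hv hx hr (u := v) (v := u) (by simp [ed]) (by simp [ed])
        have h2 := col_of_reachable G.lineGraph c a 0 hx hr
        rw [D.phi_of_Y c a 0 v (Or.inl rfl), D.phi_of_Y c a 0 u h2] at h1
        have h3 : c (ed (D.adj_m u)) = a := h1.symm
        rw [h3]
        exact Equiv.swap_apply_left a 0
      · right; rfl
    have hYv : D.Y c1 v = 0 := by
      have e1 := kempeChange_apply G.lineGraph c a 0 (ed (D.adj_m v)) (ed (D.adj_m v))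
      change D.Y c1 v = _ at e1
      rw [e1, if_pos (SimpleGraph.Reachable.refl _)]
      exact Equiv.swap_apply_left a 0
    have hlt : (Finset.univ.filter (fun v => D.Y c1 v ≠ 0)).card < n := by
      rw [← hn]
      apply Finset.card_lt_card
      constructor
      · intro u hu
        simp only [Finset.mem_filter, Finset.mem_univ, true_and] at hu ⊢
        rcases hY1 u with h | h
        · exact absurd h hu
        · rwa [h] at hu
      · intro hsub
        have hm : v ∈ Finset.univ.filter (fun v => D.Y c v ≠ 0) := by simpa using hv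
        have := hsub hm
        simp only [Finset.mem_filter, Finset.mem_univ, true_and] at this
        exact this hYv
    obtain ⟨c', h1, h2⟩ := ih _ hlt c1 rfl
    refine ⟨c', h1, ?_⟩
    rw [← h2]
    exact Quot.sound (kempeStep_kempeChange G.lineGraph c hv hx)

lemma alt_eq : ∀ a0 a1 a2 a3 b1 b2 b3 : Fin 3, a0 ≠ 0 → a1 ≠ 0 → a2 ≠ 0 → a3 ≠ 0 → b1 ≠ 0 →
    b2 ≠ 0 → b3 ≠ 0 → a0 ≠ a1 → a1 ≠ a2 → a2 ≠ a3 → a0 ≠ b1 → b1 ≠ b2 → b2 ≠ b3 →
    a1 = b1 ∧ a2 = b2 ∧ a3 = b3 := by decide

lemma X_ne_zero (hY : ∀ v, D.Y c v = 0) (i : ι) (j : Fin 4) : D.X c i j ≠ 0 := by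
  have := D.Y_ne c i j
  rw [hY] at this
  exact this.symm

lemma X_det (c c' : G.lineGraph.Coloring (Fin 3)) (hY : ∀ v, D.Y c v = 0)
    (hY' : ∀ v, D.Y c' v = 0) (i : ι) (h : D.X c i 0 = D.X c' i 0) (j : Fin 4) :
    D.X c i j = D.X c' i j := by
  have h1 := alt_eq (D.X c i 0) (D.X c i 1) (D.X c i 2) (D.X c i 3) (D.X c' i 1) (D.X c' i 2)
    (D.X c' i 3) (D.X_ne_zero c hY i 0) (D.X_ne_zero c hY i 1) (D.X_ne_zero c hY i 2)
    (D.X_ne_zero c hY i 3) (D.X_ne_zero c' hY' i 1) (D.X_ne_zero c' hY' i 2)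
    (D.X_ne_zero c' hY' i 3) (D.X_ne c i 0) (D.X_ne c i 1) (D.X_ne c i 2)
    (by rw [h]; exact D.X_ne c' i 0) (D.X_ne c' i 1) (D.X_ne c' i 2)
  fin_cases j
  · exact h
  · exact h1.1
  · exact h1.2.1
  · exact h1.2.2

lemma ext_col (c c' : G.lineGraph.Coloring (Fin 3)) (hY : ∀ v, D.Y c v = 0)
    (hY' : ∀ v, D.Y c' v = 0) (h : ∀ i, D.X c i 0 = D.X c' i 0) : c = c' := by
  apply DFunLike.ext
  intro e
  obtain ⟨e, he⟩ := e
  induction e using Sym2.ind with
  | _ u v =>
    have hu : D.q (D.idx u).1 (D.idx u).2 = u := D.q_idx _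
    generalize (D.idx u).1 = i at hu
    generalize (D.idx u).2 = j at hu
    subst hu
    have he' : G.Adj (D.q i j) v := he
    rcases D.nbr i j v he' with h2 | h2 | h2
    · subst h2
      exact D.X_det c c' hY hY' i (h i) j
    · subst h2
      have e : (⟨s(D.q i j, D.q i (j + 3)), he⟩ : G.edgeSet) = ed (D.adj i (j + 3)) := by
        apply Subtype.ext
        show s(D.q i j, D.q i (j + 3)) = s(D.q i (j + 3), D.q i (j + 3 + 1))
        rw [show j + 3 + 1 = j by omega]
        exact Sym2.eq_swap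
      rw [e]
      exact D.X_det c c' hY hY' i (h i) (j + 3)
    · subst h2
      exact (hY _).trans (hY' _).symm

open Classical in
/-- Second phase: colourings in which all outer edges have colour `0` are Kempe equivalent. -/
lemma inner_phase [Fintype ι] (n : ℕ) : ∀ c c' : G.lineGraph.Coloring (Fin 3),
    (∀ v, D.Y c v = 0) → (∀ v, D.Y c' v = 0) →
    (Finset.univ.filter (fun i => D.X c i 0 ≠ D.X c' i 0)).card = n →
      Quot.mk (KempeStep G.lineGraph 3) c = Quot.mk (KempeStep G.lineGraph 3) c' := by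
  induction n using Nat.strong_induction_on with
  | _ n ih =>
    intro c c' hY hY' hn
    by_cases hall : ∀ i, D.X c i 0 = D.X c' i 0
    · rw [D.ext_col c c' hY hY' hall]
    push Not at hall
    obtain ⟨i, hi⟩ := hall
    have h12 : (1 : Fin 3) ≠ 2 := by decide
    have hx : c (ed (D.adj i 0)) = 1 ∨ c (ed (D.adj i 0)) = 2 :=
      (by decide : ∀ x : Fin 3, x ≠ 0 → x = 1 ∨ x = 2) _ (D.X_ne_zero c hY i 0)
    have hYn : ∀ v, ¬ (D.Y c v = 1 ∨ D.Y c v = 2) := by
      intro v; rw [hY]; decide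
    set c1 := kempeChange G.lineGraph c 1 2 (ed (D.adj i 0)) with hc1
    have hY1 : ∀ u, D.Y c1 u = 0 := by
      intro u
      have e1 : D.Y c1 u = if (kempeGraph G.lineGraph c 1 2).Reachable (ed (D.adj i 0))
          (ed (D.adj_m u)) then Equiv.swap 1 2 (D.Y c u) else D.Y c u := rfl
      rw [e1, if_neg]
      · exact hY u
      · intro hr
        exact hYn u (col_of_reachable G.lineGraph c 1 2 hx hr)
    have hX1 : ∀ i', i' ≠ i → D.X c1 i' 0 = D.X c i' 0 := by
      intro i' hne
      have e1 : D.X c1 i' 0 = if (kempeGraph G.lineGraph c 1 2).Reachable (ed (D.adj i 0))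
          (ed (D.adj i' 0)) then Equiv.swap 1 2 (D.X c i' 0) else D.X c i' 0 := rfl
      rw [e1, if_neg]
      intro hr
      have := D.idx_reach c hYn hx hr (u := D.q i 0) (v := D.q i' 0) (by simp [ed])
        (by simp [ed])
      rw [D.idx_q, D.idx_q] at this
      exact hne this.symm
    have hXi : D.X c1 i 0 = D.X c' i 0 := by
      have e1 : D.X c1 i 0 = if (kempeGraph G.lineGraph c 1 2).Reachable (ed (D.adj i 0))
          (ed (D.adj i 0)) then Equiv.swap 1 2 (D.X c i 0) else D.X c i 0 := rfl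
      rw [e1, if_pos (SimpleGraph.Reachable.refl _)]
      exact (by decide : ∀ x y : Fin 3, x ≠ 0 → y ≠ 0 → x ≠ y → Equiv.swap 1 2 x = y) _ _
        (D.X_ne_zero c hY i 0) (D.X_ne_zero c' hY' i 0) hi
    have hlt : (Finset.univ.filter (fun i => D.X c1 i 0 ≠ D.X c' i 0)).card < n := by
      rw [← hn]
      apply Finset.card_lt_card
      constructor
      · intro k hk
        simp only [Finset.mem_filter, Finset.mem_univ, true_and] at hk ⊢
        by_cases hki : k = i
        · subst hki; exact hi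
        · rwa [hX1 k hki] at hk
      · intro hsub
        have hm : i ∈ Finset.univ.filter (fun i => D.X c i 0 ≠ D.X c' i 0) := by simpa using hi
        have := hsub hm
        simp only [Finset.mem_filter, Finset.mem_univ, true_and] at this
        exact this hXi
    rw [← ih _ hlt c1 c' hY1 hY' rfl]
    exact Quot.sound (kempeStep_kempeChange G.lineGraph c h12 hx)

end Data
end C4
namespace C4
namespace Data

variable {V : Type*} {G : SimpleGraph V} {ι : Type} (D : Data G ι)

include D in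
/-- A proper colouring with all outer edges coloured `0`. -/
lemma exists_coloring : Nonempty (G.lineGraph.Coloring (Fin 3)) := by
  classical
  -- colour of an edge
  let g : G.edgeSet → Fin 3 := fun e =>
    if h : ∃ p : ι × Fin 4, (e : Sym2 V) = s(D.q p.1 p.2, D.q p.1 (p.2 + 1)) then
      (if h.choose.2 = 0 ∨ h.choose.2 = 2 then 1 else 2) else 0
  have huniq : ∀ p p' : ι × Fin 4, s(D.q p.1 p.2, D.q p.1 (p.2 + 1)) =
      s(D.q p'.1 p'.2, D.q p'.1 (p'.2 + 1)) → p = p' := by
    intro p p' h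
    rw [Sym2.eq_iff] at h
    rcases h with ⟨h1, _⟩ | ⟨h1, h2⟩
    · have := D.q_inj h1
      exact Prod.ext this.1 this.2
    · have a1 := D.q_inj h1
      have a2 := D.q_inj h2
      exfalso
      have := a1.2
      have := a2.2
      omega
  have hF : ∀ (i : ι) (j : Fin 4), g (ed (D.adj i j)) = if j = 0 ∨ j = 2 then 1 else 2 := by
    intro i j
    have h : ∃ p : ι × Fin 4, ((ed (D.adj i j) : G.edgeSet) : Sym2 V) =
      s(D.q p.1 p.2, D.q p.1 (p.2 + 1)) := ⟨(i, j), rfl⟩
    have h1 : (i, j) = h.choose := huniq (i, j) h.choose h.choose_spec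
    show (if h : _ then _ else _) = _
    rw [dif_pos h, ← h1]
  have hM : ∀ v, g (ed (D.adj_m v)) = 0 := by
    intro v
    show (if h : _ then _ else _) = _
    rw [dif_neg]
    rintro ⟨p, hp⟩
    have hp' : s(v, D.m v) = s(D.q p.1 p.2, D.q p.1 (p.2 + 1)) := hp
    rw [Sym2.eq_iff] at hp'
    rcases hp' with ⟨h1, h2⟩ | ⟨h1, h2⟩
    · rw [h1] at h2
      exact D.m_ne _ _ h2
    · rw [h1] at h2
      have := D.m_ne' p.1 (p.2 + 1)
      rw [show p.2 + 1 + 3 = p.2 by omega] at this
      exact this h2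
  -- every edge at a vertex
  have hnbr : ∀ (i : ι) (j : Fin 4) (e : G.edgeSet), D.q i j ∈ (e : Sym2 V) →
      e = ed (D.adj i j) ∨ e = ed (D.adj i (j + 3)) ∨ e = ed (D.adj_m (D.q i j)) := by
    intro i j e he
    obtain ⟨v, hv⟩ := Sym2.mem_iff_exists.1 he
    have h : G.Adj (D.q i j) v := by
      have := e.2
      rw [hv] at this
      exact this
    rcases D.nbr i j v h with h2 | h2 | h2
    · left; apply Subtype.ext; rw [hv, h2]; rfl
    · right; left; apply Subtype.ext; rw [hv, h2]
      show _ = s(D.q i (j + 3), D.q i (j + 3 + 1))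
      rw [show j + 3 + 1 = j by omega]
      exact Sym2.eq_swap
    · right; right; apply Subtype.ext; rw [hv, h2]; rfl
  refine ⟨SimpleGraph.Coloring.mk g ?_⟩
  intro e e' h
  rw [SimpleGraph.lineGraph_adj_iff_exists] at h
  obtain ⟨hne, w, hw, hw'⟩ := h
  have hu : D.q (D.idx w).1 (D.idx w).2 = w := D.q_idx _
  generalize (D.idx w).1 = i at hu
  generalize (D.idx w).2 = j at hu
  subst hu
  have hpar : ∀ j : Fin 4, (if j = 0 ∨ j = 2 then (1 : Fin 3) else 2) ≠
    (if j + 3 = 0 ∨ j + 3 = 2 then (1 : Fin 3) else 2) := by decide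
  have h10 : ∀ j : Fin 4, (if j = 0 ∨ j = 2 then (1 : Fin 3) else 2) ≠ 0 := by decide
  rcases hnbr i j e hw with h1 | h1 | h1 <;> rcases hnbr i j e' hw' with h2 | h2 | h2 <;>
    rw [h1, h2] at hne ⊢
  · exact absurd rfl hne
  · rw [hF, hF]; exact hpar j
  · rw [hF, hM]; exact h10 j
  · rw [hF, hF]; exact (hpar j).symm
  · exact absurd rfl hne
  · rw [hF, hM]; exact h10 _
  · rw [hF, hM]; exact (h10 j).symm
  · rw [hF, hM]; exact (h10 _).symm
  · exact absurd rfl hne

end Data
end C4

/-- Every finite cubic graph which has a 2-factor consisting of 4-cycles has exactly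
one Kempe class of proper 3-edge-colourings. -/
theorem kc_lineGraph_eq_one {V : Type*} [Finite V] (G : SimpleGraph V)
    (hcub : ∀ v, (G.neighborSet v).ncard = 3) (h4 : HasC4Factor G) :
    Kc G.lineGraph 3 = 1 := by
  classical
  obtain ⟨ι, ⟨D⟩⟩ := C4.exists_data hcub h4
  have : Fintype V := Fintype.ofFinite V
  have : Finite ι := by
    apply Finite.of_injective (fun i : ι => D.q i 0)
    intro i i' h
    exact (D.q_inj h).1
  have : Fintype ι := Fintype.ofFinite ι
  obtain ⟨c0⟩ := D.exists_coloring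
  unfold Kc
  rw [Nat.card_eq_one_iff_unique]
  refine ⟨⟨?_⟩, ⟨Quot.mk _ c0⟩⟩
  intro x y
  induction x using Quot.ind with
  | mk c =>
    induction y using Quot.ind with
    | mk c' =>
      obtain ⟨d, hd, h1⟩ := D.exists_outer_zero _ c rfl
      obtain ⟨d', hd', h2⟩ := D.exists_outer_zero _ c' rfl
      rw [h1, h2]
      exact D.inner_phase _ d d' hd hd' rfl

/-- Every finite cubic graph which has a 2-factor consisting of 4-cycles has exactly one Kempe
class of proper 3-edge-colourings. -/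
theorem fourCycle_result {V : Type*} [Finite V] (G : SimpleGraph V)
    (hcub : ∀ v, (G.neighborSet v).ncard = 3) (h4 : HasC4Factor G) :
    Kc G.lineGraph 3 = 1 :=
  kc_lineGraph_eq_one G hcub h4

end Pool.Agent.PP
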