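import Pool.Agent.Lib_MP_7c0803_pp.Defs

/-!
Proof plan for `short`: `S = E × Bool × Bool`, `φ = G.nx tw`, `ρ = G.rv tw`.

(0) Suppose two different edges `e ≠ f` are parallel: `f ∈ {s e, s (s e)}` and `f ∈ {t e, t (t e)}`.  Let `g` be the third edge
    at the `X`-end, `h` at the `Y`-end.  If `g = h` we get `Th G`, else `Dg G`.  So suppose there are no parallel edges.
(1) `φ` is a bijection of `S` and reverses the direction `d`; `ρ` is an involution, `ρ (φ a)` satisfies
    `φ (ρ (φ a)) = ρ a`.  `ρ a ≠ φ^m a` for all `m`: by strong induction on `m` (for all `a`): `m = 0`: directions; `m = 1`: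
    the edges are different (`t`, `s` have no fixed points); `m ≥ 2`: `ρ a = φ^m a` gives
    `φ (ρ (φ a)) = φ^m a`, so `ρ (φ a) = φ^(m-1) a = φ^(m-2) (φ a)`.
(2) If `φ^2 a = a` for some `a`: `a = (e, d, o)`, `φ a = (f, !d, o')` with `f ≠ e` sharing both ends with `e`: parallel,
    excluded.  If `φ^4 a = a` for some `a`: the four edges are `b1, b2, b3, b4`, consecutive ones (cyclically) are different and
    share alternately a `Y`-end and an `X`-end; we may start with direction `true` (replace `a` by `φ a`).  With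
    `e1 = b1`, `e2 = b2` (same `Y`-vertex `b`), `e3 = b3` (`e2, e3` same `X`-vertex `c`), `e4 = b4` (`e3, e4` same `Y`-vertex `d`,
    `e4, e1` same `X`-vertex `a`); let `x, y, z, w` be the third edges at `a, b, c, d`.  As there are no parallel edges:
    `e1 ≠ e3` (otherwise `e1, e2` parallel), `e2 ≠ e4`, `b ≠ d` (four edges at one vertex), `a ≠ c`, and the outer edges are
    different from each other and from `e1, .., e4` (otherwise an outer edge is parallel to one of the `ei`).  So `Sq G`.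
(3) Otherwise, for every `a` the twelve states `φ^i a`, `φ^i (ρ a)` or `ρ (φ^i a)` (`i < 6`) are different: `φ^i a = φ^j a`
    with `i < j < 6` gives `φ^(j-i) a = a`, `j - i` even, so `j - i ∈ {2, 4}`; `ρ (φ^i a) = φ^j a` contradicts (1)
    (`ρ b = φ^m b` or, applying `ρ` to both sides, ...; note `φ^i (ρ (φ^i a)) = ρ a`, so `ρ a = φ^(i+j) a`).
    All of them are in the class of `a`, so every class has at least 12 elements, `12 * #Fc ≤ |S| = 4 * |E|`, against
    `|E| + 3 ≤ 3 * #Fc`.
-/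

set_option autoImplicit false

open Finset Function

namespace Pool.Agent.PP

universe u

variable {E : Type u} [Fintype E]

section shortaux

omit [Fintype E]

private lemma Short_tri {s : Equiv.Perm E} (s3 : ∀ e, s (s (s e)) = e) {e f : E}
    (h : f = s e ∨ f = s (s e)) : ∃ g, Tri s g e f := by
  rcases h with rfl | rfl
  · exact ⟨s (s e), Or.inl ⟨s3 e, rfl, rfl⟩⟩
  · exact ⟨s e, Or.inr ⟨rfl, s3 e, rfl⟩⟩

private lemma Short_par (G : CB E) {e f g h : E} (hg : Tri G.s g e f) (hh : Tri G.t h e f) :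
    Nonempty (Th G) ∨ Nonempty (Dg G) := by
  by_cases hgh : g = h
  · subst hgh
    exact Or.inl ⟨⟨e, f, g, hg, hh⟩⟩
  · exact Or.inr ⟨⟨e, f, g, h, hg, hh, hgh⟩⟩

private def Short_v (s : Equiv.Perm E) (e : E) : Set E := {f | f = e ∨ f = s e ∨ f = s (s e)}

private lemma Short_v_s {s : Equiv.Perm E} (s3 : ∀ e, s (s (s e)) = e) (e : E) :
    Short_v s (s e) = Short_v s e := by
  ext f
  simp only [Short_v, Set.mem_ofPred_eq, s3]
  tauto

private lemma Short_v_tri {s : Equiv.Perm E} (s3 : ∀ e, s (s (s e)) = e) {x y z : E}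
    (h : Tri s x y z) : Short_v s x = Short_v s y ∧ Short_v s y = Short_v s z := by
  rcases h with ⟨h1, h2, h3⟩ | ⟨h1, h2, h3⟩
  · constructor
    · rw [← h1, Short_v_s s3]
    · rw [← h2, Short_v_s s3]
  · constructor
    · rw [← h3, Short_v_s s3]
    · rw [← h2, Short_v_s s3]

private lemma Short_eq (G : CB E) (hP : ¬ (Nonempty (Th G) ∨ Nonempty (Dg G))) {e f : E}
    (h1 : Short_v G.s e = Short_v G.s f) (h2 : Short_v G.t e = Short_v G.t f) : e = f := by
  by_contra hne
  have m1 : f ∈ Short_v G.s e := by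
    rw [h1]
    exact Or.inl rfl
  have m2 : f ∈ Short_v G.t e := by
    rw [h2]
    exact Or.inl rfl
  rcases m1 with m1 | m1
  · exact hne m1.symm
  rcases m2 with m2 | m2
  · exact hne m2.symm
  obtain ⟨g, hg⟩ := Short_tri G.s3 m1
  obtain ⟨k, hk⟩ := Short_tri G.t3 m2
  exact hP (Short_par G hg hk)

private lemma Short_rr (G : CB E) (tw : E → Bool) (a : E × Bool × Bool) :
    G.rv tw (G.rv tw a) = a := by
  obtain ⟨e, d, o⟩ := a
  simp only [CB.rv]
  cases d <;> cases o <;> cases tw e <;> rfl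

private lemma Short_frf (G : CB E) (tw : E → Bool) (a : E × Bool × Bool) :
    G.nx tw (G.rv tw (G.nx tw a)) = G.rv tw a := by
  obtain ⟨e, d, o⟩ := a
  cases d
  · cases ho : xor o (tw e)
    · cases ht : tw (G.s.symm e) <;> simp [CB.nx, CB.rv, ho, ht]
    · cases ht : tw (G.s e) <;> simp [CB.nx, CB.rv, ho, ht]
  · cases ho : xor o (tw e)
    · cases ht : tw (G.t.symm e) <;> simp [CB.nx, CB.rv, ho, ht]
    · cases ht : tw (G.t e) <;> simp [CB.nx, CB.rv, ho, ht]

private lemma Short_rinj (G : CB E) (tw : E → Bool) : Function.Injective (G.rv tw) := by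
  intro a b h
  rw [← Short_rr G tw a, h, Short_rr]

private lemma Short_finj (G : CB E) (tw : E → Bool) : Function.Injective (G.nx tw) := by
  intro a b h
  apply Short_rinj G tw
  rw [← Short_frf G tw a, h, Short_frf]

private lemma Short_fd (G : CB E) (tw : E → Bool) (a : E × Bool × Bool) :
    (G.nx tw a).2.1 = !a.2.1 := by
  obtain ⟨e, d, o⟩ := a
  cases d <;> rfl

private lemma Short_rd (G : CB E) (tw : E → Bool) (a : E × Bool × Bool) :
    (G.rv tw a).2.1 = !a.2.1 := rfl

private lemma Short_symm {s : Equiv.Perm E} (s3 : ∀ e, s (s (s e)) = e) (e : E) :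
    s.symm e = s (s e) := by
  rw [Equiv.symm_apply_eq, s3]

/-- a step from an `X`-end to a `Y`-end -/
private lemma Short_stepT (G : CB E) (tw : E → Bool) (a : E × Bool × Bool) (h : a.2.1 = true) :
    ∃ y, Tri G.t y a.1 (G.nx tw a).1 := by
  obtain ⟨e, d, o⟩ := a
  simp only at h
  subst h
  apply Short_tri G.t3
  simp only [CB.nx]
  cases xor o (tw e)
  · right
    simp [Short_symm G.t3]
  · left
    simp

private lemma Short_stepF (G : CB E) (tw : E → Bool) (a : E × Bool × Bool) (h : a.2.1 = false) :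
    ∃ y, Tri G.s y a.1 (G.nx tw a).1 := by
  obtain ⟨e, d, o⟩ := a
  simp only at h
  subst h
  apply Short_tri G.s3
  simp only [CB.nx]
  cases xor o (tw e)
  · right
    simp [Short_symm G.s3]
  · left
    simp

private lemma Short_step_ne (G : CB E) (tw : E → Bool) (a : E × Bool × Bool) :
    (G.nx tw a).1 ≠ a.1 := by
  cases h : a.2.1
  · obtain ⟨y, hy⟩ := Short_stepF G tw a h
    exact (hy.ne G.s1).2.2.symm
  · obtain ⟨y, hy⟩ := Short_stepT G tw a h
    exact (hy.ne G.t1).2.2.symm

private lemma Short_rn (G : CB E) (tw : E → Bool) (m : ℕ) :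
    ∀ a, G.rv tw a ≠ (G.nx tw)^[m] a := by
  induction m using Nat.strong_induction_on with
  | _ m ih =>
    intro a h
    match m, ih, h with
    | 0, _, h =>
      have h1 := congrArg (fun x => x.2.1) h
      simp only [Function.iterate_zero, id, Short_rd] at h1
      cases hd : a.2.1 <;> simp [hd] at h1
    | 1, _, h =>
      have h1 := congrArg (fun x => x.1) h
      simp only [Function.iterate_one] at h1
      exact Short_step_ne G tw a h1.symm
    | m + 2, ih, h =>
      rw [← Short_frf, Function.iterate_succ_apply'] at h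
      have h2 := Short_finj G tw h
      rw [Function.iterate_succ_apply] at h2
      exact ih m (by omega) _ h2

private lemma Short_fm (G : CB E) (tw : E → Bool) (m : ℕ) :
    ∀ a, (G.nx tw)^[m] (G.rv tw ((G.nx tw)^[m] a)) = G.rv tw a := by
  induction m with
  | zero => intro a; rfl
  | succ m ih =>
    intro a
    rw [Function.iterate_succ_apply, Function.iterate_succ_apply' (G.nx tw) m a, Short_frf, ih]

private lemma Short_dm (G : CB E) (tw : E → Bool) (m : ℕ) (a : E × Bool × Bool) :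
    ((G.nx tw)^[2 * m + 1] a).2.1 = !a.2.1 := by
  induction m generalizing a with
  | zero => exact Short_fd G tw a
  | succ m ih =>
    have h1 : 2 * (m + 1) + 1 = (2 * m + 1) + 1 + 1 := by ring
    rw [h1, Function.iterate_succ_apply', Function.iterate_succ_apply', Short_fd, Short_fd, ih,
      Bool.not_not]

private lemma Short_two (G : CB E) (tw : E → Bool) (hP : ¬ (Nonempty (Th G) ∨ Nonempty (Dg G)))
    (a : E × Bool × Bool) : G.nx tw (G.nx tw a) ≠ a := by
  intro h
  have hd := Short_fd G tw a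
  cases hh : a.2.1
  · obtain ⟨g, hg⟩ := Short_stepF G tw a hh
    obtain ⟨k, hk⟩ := Short_stepT G tw (G.nx tw a) (by rw [hd, hh]; rfl)
    rw [h] at hk
    exact hP (Short_par G hg hk.swap)
  · obtain ⟨g, hg⟩ := Short_stepT G tw a hh
    obtain ⟨k, hk⟩ := Short_stepF G tw (G.nx tw a) (by rw [hd, hh]; rfl)
    rw [h] at hk
    exact hP (Short_par G hk.swap hg)

private lemma Short_sq (G : CB E) (hP : ¬ (Nonempty (Th G) ∨ Nonempty (Dg G)))
    {e1 e2 e3 e4 x y z w : E} (ta : Tri G.s x e1 e4) (tb : Tri G.t y e1 e2)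
    (tc : Tri G.s z e3 e2) (td : Tri G.t w e3 e4) : Nonempty (Sq G) := by
  obtain ⟨A1, A2⟩ := Short_v_tri G.s3 ta
  obtain ⟨B1, B2⟩ := Short_v_tri G.t3 tb
  obtain ⟨C1, C2⟩ := Short_v_tri G.s3 tc
  obtain ⟨D1, D2⟩ := Short_v_tri G.t3 td
  obtain ⟨a1, a2, a3⟩ := ta.ne G.s1
  obtain ⟨b1, b2, b3⟩ := tb.ne G.t1
  obtain ⟨c1, c2, c3⟩ := tc.ne G.s1
  obtain ⟨d1, d2, d3⟩ := td.ne G.t1
  have hAC : Short_v G.s e1 ≠ Short_v G.s e3 := fun h =>
    b3 (Short_eq G hP (h.trans C2) B2)
  have hBD : Short_v G.t e1 ≠ Short_v G.t e3 := fun h =>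
    a3 (Short_eq G hP A2 (h.trans D2))
  refine ⟨⟨e1, e2, e3, e4, x, y, z, w, ta, tb, tc, td, ?_⟩⟩
  have n13 : e1 ≠ e3 := by rintro rfl; exact hAC rfl
  have n24 : e2 ≠ e4 := by rintro rfl; exact hAC (A2.trans C2.symm)
  have n1z : e1 ≠ z := by rintro rfl; exact hAC C1
  have n1w : e1 ≠ w := by rintro rfl; exact hBD D1
  have n2x : e2 ≠ x := by rintro rfl; exact hAC (A1.symm.trans C2.symm)
  have n2w : e2 ≠ w := by rintro rfl; exact hBD (B2.trans D1)
  have n3x : e3 ≠ x := by rintro rfl; exact hAC A1.symm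
  have n3y : e3 ≠ y := by rintro rfl; exact hBD B1.symm
  have n4y : e4 ≠ y := by rintro rfl; exact hBD (B1.symm.trans D2.symm)
  have n4z : e4 ≠ z := by rintro rfl; exact hAC (A2.trans C1)
  have nxz : x ≠ z := by rintro rfl; exact hAC (A1.symm.trans C1)
  have nyw : y ≠ w := by rintro rfl; exact hBD (B1.symm.trans D1)
  have nxy : x ≠ y := by rintro rfl; exact a1 (Short_eq G hP A1 B1)
  have nxw : x ≠ w := by rintro rfl; exact a2 (Short_eq G hP (A1.trans A2) (D1.trans D2))
  have nyz : y ≠ z := by rintro rfl; exact b2 (Short_eq G hP (C1.trans C2) (B1.trans B2))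
  have nzw : z ≠ w := by rintro rfl; exact c1 (Short_eq G hP C1 D1)
  simp only [List.nodup_cons, List.mem_cons, not_or, List.not_mem_nil, not_false_eq_true,
    List.nodup_nil, and_true]
  exact ⟨⟨b3, n13, a3, a1.symm, b1.symm, n1z, n1w⟩, ⟨c3.symm, n24, n2x, b2.symm, c2.symm, n2w⟩,
    ⟨d3, n3x, n3y, c1.symm, d1.symm⟩, ⟨a2.symm, n4y, n4z, d2.symm⟩, ⟨nxy, nxz, nxw⟩, ⟨nyz, nyw⟩,
    nzw⟩

private lemma Short_four' (G : CB E) (tw : E → Bool) (hP : ¬ (Nonempty (Th G) ∨ Nonempty (Dg G)))
    (a : E × Bool × Bool) (ha : a.2.1 = true) (h : (G.nx tw)^[4] a = a) : Nonempty (Sq G) := by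
  have h1 := Short_fd G tw a
  have h2 := Short_fd G tw (G.nx tw a)
  have h3 := Short_fd G tw (G.nx tw (G.nx tw a))
  rw [ha] at h1
  rw [h1] at h2
  rw [h2] at h3
  obtain ⟨y, hy⟩ := Short_stepT G tw a ha
  obtain ⟨z, hz⟩ := Short_stepF G tw (G.nx tw a) h1
  obtain ⟨w, hw⟩ := Short_stepT G tw (G.nx tw (G.nx tw a)) h2
  obtain ⟨x, hx⟩ := Short_stepF G tw (G.nx tw (G.nx tw (G.nx tw a))) h3
  have h4 : G.nx tw (G.nx tw (G.nx tw (G.nx tw a))) = a := h
  rw [h4] at hx
  exact Short_sq G hP hx.swap hy hz.swap hw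

private lemma Short_four (G : CB E) (tw : E → Bool) (hP : ¬ (Nonempty (Th G) ∨ Nonempty (Dg G)))
    (hS : ¬ Nonempty (Sq G)) (a : E × Bool × Bool) : (G.nx tw)^[4] a ≠ a := by
  intro h
  cases ha : a.2.1
  · refine hS (Short_four' G tw hP (G.nx tw a) (by rw [Short_fd, ha]; rfl) ?_)
    rw [← Function.iterate_succ_apply, Function.iterate_succ_apply', h]
  · exact hS (Short_four' G tw hP a ha h)

private lemma Short_lt (G : CB E) (tw : E → Bool) (hP : ¬ (Nonempty (Th G) ∨ Nonempty (Dg G)))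
    (hS : ¬ Nonempty (Sq G)) (a : E × Bool × Bool) {i j : ℕ} (hij : i < j) (hj : j < 6) :
    (G.nx tw)^[i] a ≠ (G.nx tw)^[j] a := by
  intro h
  obtain ⟨k, rfl⟩ := Nat.exists_eq_add_of_lt hij
  have h1 : (G.nx tw)^[i + k + 1] a = (G.nx tw)^[i] ((G.nx tw)^[k + 1] a) := by
    rw [add_assoc, Function.iterate_add_apply]
  rw [h1] at h
  have h2 : a = (G.nx tw)^[k + 1] a := (Short_finj G tw).iterate i h
  have hk : k < 5 := by omega
  have hodd : ∀ m, k + 1 = 2 * m + 1 → False := by
    intro m hm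
    have h3 : a.2.1 = ((G.nx tw)^[k + 1] a).2.1 := congrArg (fun x => x.2.1) h2
    rw [hm, Short_dm] at h3
    cases hh : a.2.1 <;> simp [hh] at h3
  interval_cases k
  · exact hodd 0 rfl
  · exact Short_two G tw hP a h2.symm
  · exact hodd 1 rfl
  · exact Short_four G tw hP hS a h2.symm
  · exact hodd 2 rfl

private def Short_q (G : CB E) (tw : E → Bool) (a : E × Bool × Bool) : G.Fc tw :=
  Quot.mk _ a

private lemma Short_q1 (G : CB E) (tw : E → Bool) (a : E × Bool × Bool) :
    Short_q G tw (G.nx tw a) = Short_q G tw a :=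
  (Quot.sound (r := fun a b => G.nx tw a = b ∨ G.rv tw a = b) (Or.inl rfl)).symm

private lemma Short_q2 (G : CB E) (tw : E → Bool) (a : E × Bool × Bool) :
    Short_q G tw (G.rv tw a) = Short_q G tw a :=
  (Quot.sound (r := fun a b => G.nx tw a = b ∨ G.rv tw a = b) (Or.inr rfl)).symm

private lemma Short_mk (G : CB E) (tw : E → Bool) (m : ℕ) (a : E × Bool × Bool) :
    Short_q G tw ((G.nx tw)^[m] a) = Short_q G tw a := by
  induction m with
  | zero => rfl
  | succ m ih =>
    rw [Function.iterate_succ_apply', ← ih]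
    exact Short_q1 G tw _

end shortaux

private lemma Short_fiber (G : CB E) (tw : E → Bool) (hP : ¬ (Nonempty (Th G) ∨ Nonempty (Dg G)))
    (hS : ¬ Nonempty (Sq G)) [DecidableEq (G.Fc tw)] (c : G.Fc tw) :
    12 ≤ (univ.filter (fun a : E × Bool × Bool => Short_q G tw a = c)).card := by
  classical
  obtain ⟨a, rfl⟩ : ∃ a, Short_q G tw a = c := Quot.exists_rep c
  let F : Fin 6 × Bool → E × Bool × Bool := fun p =>
    if p.2 then G.rv tw ((G.nx tw)^[(p.1 : ℕ)] a) else (G.nx tw)^[(p.1 : ℕ)] a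
  have hF : Function.Injective F := by
    have key : ∀ i j : Fin 6, (G.nx tw)^[(i : ℕ)] a = (G.nx tw)^[(j : ℕ)] a → i = j := by
      intro i j h
      rcases lt_trichotomy (i : ℕ) (j : ℕ) with hij | hij | hij
      · exact absurd h (Short_lt G tw hP hS a hij j.2)
      · exact Fin.ext hij
      · exact absurd h.symm (Short_lt G tw hP hS a hij i.2)
    have key2 : ∀ i j : Fin 6, (G.nx tw)^[(i : ℕ)] a ≠ G.rv tw ((G.nx tw)^[(j : ℕ)] a) := by
      intro i j h
      have h1 := congrArg ((G.nx tw)^[(j : ℕ)]) h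
      rw [Short_fm, ← Function.iterate_add_apply] at h1
      exact Short_rn G tw _ a h1.symm
    rintro ⟨i, b⟩ ⟨j, b'⟩ h
    cases b <;> cases b'
    · exact Prod.ext (key i j (by simpa [F] using h)) rfl
    · exact absurd (by simpa [F] using h) (key2 i j)
    · exact absurd (by simpa [F] using h.symm) (key2 j i)
    · refine Prod.ext (key i j (Short_rinj G tw ?_)) rfl
      simpa [F] using h
  have h12 : (univ.image F).card = 12 := by
    rw [Finset.card_image_of_injective _ hF]
    simp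
  rw [← h12]
  apply Finset.card_le_card
  intro b hb
  obtain ⟨⟨i, d⟩, -, rfl⟩ := Finset.mem_image.1 hb
  rw [Finset.mem_filter]
  refine ⟨Finset.mem_univ _, ?_⟩
  cases d
  · exact Short_mk G tw i a
  · exact (Short_q2 G tw _).trans (Short_mk G tw i a)

/-- Euler characteristic at least one: there is a face of length at most four -/
theorem short (G : CB E) (tw : E → Bool) (h : G.Chi1 tw) : Nonempty (Th G) ∨ Nonempty (Dg G) ∨ Nonempty (Sq G) := by
  classical
  by_cases hP : Nonempty (Th G) ∨ Nonempty (Dg G)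
  · rcases hP with h1 | h1
    · exact Or.inl h1
    · exact Or.inr (Or.inl h1)
  by_cases hS : Nonempty (Sq G)
  · exact Or.inr (Or.inr hS)
  exfalso
  have hfin : Finite (G.Fc tw) := by
    unfold CB.Fc
    infer_instance
  let _ : Fintype (G.Fc tw) := Fintype.ofFinite _
  have h1 : (univ : Finset (E × Bool × Bool)).card = ∑ c : G.Fc tw,
      (univ.filter (fun a : E × Bool × Bool => Short_q G tw a = c)).card :=
    Finset.card_eq_sum_card_fiberwise (fun a _ => Finset.mem_coe.2 (Finset.mem_univ _))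
  have h2 : ∑ c : G.Fc tw, 12 ≤ ∑ c : G.Fc tw,
      (univ.filter (fun a : E × Bool × Bool => Short_q G tw a = c)).card :=
    Finset.sum_le_sum fun c _ => Short_fiber G tw hP hS c
  rw [← h1] at h2
  simp only [Finset.sum_const, Finset.card_univ, smul_eq_mul, Fintype.card_prod,
    Fintype.card_bool] at h2
  unfold CB.Chi1 at h
  rw [Nat.card_eq_fintype_card, Nat.card_eq_fintype_card] at h
  omega

end Pool.Agent.PP
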