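import Pool.Agent.Lib_MP_7c0803_pp.FaceSq
import Pool.Agent.Lib_MP_7c0803_pp.Short
import Pool.Agent.Lib_MP_7c0803_pp.Conn
import Pool.Agent.Lib_MP_7c0803_pp.RedThm

set_option autoImplicit false

open Finset Function

namespace Pool.Agent.PP

universe u

private lemma card_lt_Induct {E : Type u} [Fintype E] [DecidableEq E] (R : Finset E) (x : E) (hx : x ∈ R) :
    Fintype.card {e // e ∉ R} < Fintype.card E :=
  Fintype.card_subtype_lt (x := x) (by simpa using hx)

/-- a connected graph in the sphere or the projective plane can be reduced to the empty graph -/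
theorem red_of_chi (N : ℕ) : ∀ (E : Type u) [Fintype E] (G : CB E) (tw : E → Bool), Fintype.card E ≤ N → G.Cn →
    G.Chi1 tw → Red E G := by
  induction N with
  | zero =>
    intro E _ G tw hN _ _
    exact Red.empty E G (Fintype.card_eq_zero_iff.mp (by omega))
  | succ N ih =>
    intro E _ G tw hN hC hχ
    classical
    rcases short G tw hχ with ⟨⟨Q⟩⟩ | ⟨⟨Q⟩⟩ | ⟨⟨Q⟩⟩
    · exact Red.theta E G Q (Red.empty _ _ (Q.empty hC))
    · obtain ⟨tw', h'⟩ := Q.chi tw hχ
      have hlt := card_lt_Induct Q.redn.R Q.e (by simp [Dg.redn_R])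
      exact Red.digon E G Q (ih _ _ tw' (by omega) (Q.conn hC) h')
    · rcases Q.conn hC with h1 | h1
      · obtain ⟨tw', h'⟩ := Q.chi tw hχ
        have hlt := card_lt_Induct Q.redn.R Q.e1 (by simp [Sq.redn_R])
        exact Red.square E G Q (ih _ _ tw' (by omega) h1 h')
      · obtain ⟨tw', h'⟩ := Q.flip.chi tw hχ
        have hlt := card_lt_Induct Q.flip.redn.R Q.flip.e1 (by simp [Sq.redn_R])
        exact Red.square E G Q.flip (ih _ _ tw' (by omega) h1 h')

/-- **Sphere and projective plane, multigraph form.** -/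
theorem chi_con {E : Type u} [Fintype E] (G : CB E) (tw : E → Bool) (hC : G.Cn) (hχ : G.Chi1 tw) :
    G.Con ↔ G.PC := red_iff E G (red_of_chi _ E G tw le_rfl hC hχ)

end Pool.Agent.PP
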