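import Pool.Agent.Lib_MP_7c0803_pp.Defs

/-!
Graphs of any genus with many disjoint 4-cycles are in the reducible class `Red`.

`SO s e f`: `f ≠ e` is in the same `s`-orbit (`s` has order three without fixed points) as `e`.
`G.QF k`: there are `k` closed walks `q (i,0), q (i,1), q (i,2), q (i,3)` of length four (`q (i,0), q (i,1)` have the same `Y`-end,
`q (i,1), q (i,2)` the same `X`-end, `q (i,2), q (i,3)` the same `Y`-end, `q (i,3), q (i,0)` the same `X`-end), all `4 k` edges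
different.  (So the four vertices of every walk are different and different walks are vertex-disjoint: an orbit has three
elements, and every vertex of a walk has two edges of the walk.)

Proof plan for `red_of_quads`.

(P) PARALLEL EDGES: if `f ≠ e` with `SO s e f`, `SO t e f`, then `Th G` or `Dg G` (third edges `g` at the `X`-end, `h` at the `Y`-end; `Th` if
    `g = h`).  (Something like this is also in `Short.lean`.)
(S) A closed walk `f1, f2, f3, f4` as above with four different edges in a graph WITHOUT parallel edges gives `Sq G` with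
    `e1 = f1`, .., `e4 = f4`: `x, y, z, w` third edges at the four vertices; they are different from each other and from the
    `fi` (the two `X`-vertices are different, otherwise four edges in an orbit; an outer edge which is in two of the four orbits
    would be parallel to one of the `fi`).
    More precisely: for the walk itself (without assuming that `G` has no parallel edges) either `Sq G` with these edges, or an
    outer edge is parallel to one of the `fi` : `x ∈ {y, w}` or `z ∈ {y, w}`.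
(1) SMALL GRAPHS (`card E ≤ 18`): `Red E G` by strong induction on `card E`.  `E` empty: `Red.empty`.  Otherwise `Th`, `Dg` or `Sq` exists
    (then the reduced graph has fewer edges): suppose there are no parallel edges and no closed 4-walk with different edges.
    Fix `e₀`; the seven edges `e₀`, `t a`, `t (t a)` for `a ∈ {e₀, s e₀, s (s e₀)}` lie in seven different `s`-orbits (two of them in the
    same `s`-orbit would give parallel edges or a closed 4-walk), so `card E ≥ 21`.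
(2) STEP: if `G.QF (k+1)`, then there is `(E', G')` with `Red E' G' → Red E G`, `G'.QF k` and `card E' + 6 = card E`:
    take the last walk `f1 .. f4` (`q (k, ·)`), outer edges `x, y, z, w`.
    (2a) `x ∉ {y, w}` and `z ∉ {y, w}`: `Sq G`, `G' = red Q.redn`, `card R = 6`.  The other walks survive: their edges are not in
         `{f1..f4, x, y, z, w}` (an edge of another walk at one of the four vertices would force a common edge: its orbit contains two
         edges of the other walk and two of this one) so `th` fixes them, they are not in `R`, and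
         `SO s' e f ↔ SO s e f` for edges `e, f` fixed by `th` (`s' = th s th`), `t' = t`.
    (2b) `x = y` (the other cases by symmetry, or by the same computation): `f1` and `x` are parallel: `Dg G` with `e = f1`, `f = x`,
         `g = f4` (third edge at the `X`-end `a`), `h = f2` (third at the `Y`-end `b`); `G₁ = red`, `R = {f1, x, f2}`, `th = swap f4 f2`;
         in `G₁` the edges `f3, f4` are parallel (`f3 ∈ SO s' f4` because `th (s (th f4)) = th (s f2)`, ..).  Then `Th G₁` or `Dg G₁` with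
         `e = f3`, `f = f4`; after the second reduction `card` has gone down by `6` and the other walks survive both steps.
(3) `red_of_quads` by induction on `k`: `k = 0` is (1); step by (2): `card E' + 6 = card E ≤ 6 (k+1) + 18`.
-/

set_option autoImplicit false

open Finset Function

namespace Pool.Agent.PP

universe u

/-- `f` is another element of the orbit of `e` -/
def SO {E : Type u} (s : Equiv.Perm E) (e f : E) : Prop := f = s e ∨ f = s (s e)

/-- `k` vertex-disjoint 4-cycles -/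
def CB.QF {E : Type u} (G : CB E) (k : ℕ) : Prop :=
  ∃ q : Fin k × Fin 4 → E, Function.Injective q ∧ ∀ i, SO G.t (q (i, 0)) (q (i, 1)) ∧ SO G.s (q (i, 1)) (q (i, 2)) ∧
    SO G.t (q (i, 2)) (q (i, 3)) ∧ SO G.s (q (i, 3)) (q (i, 0))

/-! ### auxiliary lemmas -/

section quadaux

variable {E : Type u}

private lemma Quad_SO_tri {s : Equiv.Perm E} (s3 : ∀ e, s (s (s e)) = e) {e f : E}
    (h : SO s e f) : ∃ g, Tri s g e f := by
  rcases h with rfl | rfl
  · exact ⟨s (s e), Or.inl ⟨s3 e, rfl, rfl⟩⟩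
  · exact ⟨s e, Or.inr ⟨rfl, s3 e, rfl⟩⟩

private lemma Quad_SO_symm {s : Equiv.Perm E} (s3 : ∀ e, s (s (s e)) = e) {e f : E}
    (h : SO s e f) : SO s f e := by
  rcases h with rfl | rfl
  · exact Or.inr (s3 e).symm
  · exact Or.inl (s3 e).symm

private lemma Quad_tri_SO {s : Equiv.Perm E} {x f g e : E} (h : Tri s x f g) (h' : SO s x e) :
    e = f ∨ e = g := by
  rcases h with ⟨h1, h2, h3⟩ | ⟨h1, h2, h3⟩
  · rcases h' with rfl | rfl
    · exact Or.inl h1
    · exact Or.inr (by rw [h1, h2])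
  · rcases h' with rfl | rfl
    · exact Or.inr h1
    · exact Or.inl (by rw [h1, h2])

private lemma Quad_par (G : CB E) {e f g h : E} (hg : Tri G.s g e f) (hh : Tri G.t h e f) :
    Nonempty (Th G) ∨ Nonempty (Dg G) := by
  by_cases hgh : g = h
  · subst hgh
    exact Or.inl ⟨⟨e, f, g, hg, hh⟩⟩
  · exact Or.inr ⟨⟨e, f, g, h, hg, hh, hgh⟩⟩

private def Quad_v (s : Equiv.Perm E) (e : E) : Set E := {f | f = e ∨ f = s e ∨ f = s (s e)}

private lemma Quad_v_s {s : Equiv.Perm E} (s3 : ∀ e, s (s (s e)) = e) (e : E) :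
    Quad_v s (s e) = Quad_v s e := by
  ext f
  simp only [Quad_v, Set.mem_ofPred_eq, s3]
  tauto

private lemma Quad_v_tri {s : Equiv.Perm E} (s3 : ∀ e, s (s (s e)) = e) {x y z : E}
    (h : Tri s x y z) : Quad_v s x = Quad_v s y ∧ Quad_v s y = Quad_v s z := by
  rcases h with ⟨h1, h2, h3⟩ | ⟨h1, h2, h3⟩
  · constructor
    · rw [← h1, Quad_v_s s3]
    · rw [← h2, Quad_v_s s3]
  · constructor
    · rw [← h3, Quad_v_s s3]
    · rw [← h2, Quad_v_s s3]

private lemma Quad_v_SO {s : Equiv.Perm E} {e f : E}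
    (h : Quad_v s e = Quad_v s f) (hne : e ≠ f) : SO s e f := by
  have m1 : f ∈ Quad_v s e := by
    rw [h]
    exact Or.inl rfl
  rcases m1 with m1 | m1
  · exact absurd m1.symm hne
  · exact m1

private lemma Quad_eq (G : CB E) (hP : ¬ (Nonempty (Th G) ∨ Nonempty (Dg G))) {e f : E}
    (h1 : Quad_v G.s e = Quad_v G.s f) (h2 : Quad_v G.t e = Quad_v G.t f) : e = f := by
  by_contra hne
  obtain ⟨g, hg⟩ := Quad_SO_tri G.s3 (Quad_v_SO h1 hne)
  obtain ⟨k, hk⟩ := Quad_SO_tri G.t3 (Quad_v_SO h2 hne)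
  exact hP (Quad_par G hg hk)

/-- facts on a closed walk with different edges -/
private lemma Quad_facts {s : Equiv.Perm E} (s3 : ∀ e, s (s (s e)) = e) (s1 : ∀ e, s e ≠ e)
    {f1 f2 f3 f4 x z : E} (ta : Tri s x f1 f4) (tc : Tri s z f3 f2)
    (n12 : f1 ≠ f2) (n13 : f1 ≠ f3) (n24 : f2 ≠ f4) (n34 : f3 ≠ f4) :
    x ≠ f2 ∧ x ≠ f3 ∧ z ≠ f1 ∧ z ≠ f4 ∧ x ≠ z := by
  have key : Quad_v s f1 ≠ Quad_v s f3 := by
    intro h
    have e1 := Quad_v_SO h n13
    have h2 : Quad_v s f1 = Quad_v s f2 := h.trans (Quad_v_tri s3 tc).2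
    have e2 := Quad_v_SO h2 n12
    rcases Quad_tri_SO ta.rot e1 with e | e
    · exact n34 e
    · rcases Quad_tri_SO ta.rot e2 with e' | e'
      · exact n24 e'
      · exact (tc.ne s1).2.2 (e.trans e'.symm)
  obtain ⟨A1, A2⟩ := Quad_v_tri s3 ta
  obtain ⟨C1, C2⟩ := Quad_v_tri s3 tc
  refine ⟨?_, ?_, ?_, ?_, ?_⟩
  · rintro rfl; exact key (A1.symm.trans C2.symm)
  · rintro rfl; exact key A1.symm
  · rintro rfl; exact key C1
  · rintro rfl; exact key (A2.trans C1)
  · rintro rfl; exact key (A1.symm.trans C1)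

private lemma Quad_sq (G : CB E) (hP : ¬ (Nonempty (Th G) ∨ Nonempty (Dg G)))
    {e1 e2 e3 e4 x y z w : E} (ta : Tri G.s x e1 e4) (tb : Tri G.t y e1 e2)
    (tc : Tri G.s z e3 e2) (td : Tri G.t w e3 e4) : Nonempty (Sq G) := by
  obtain ⟨A1, A2⟩ := Quad_v_tri G.s3 ta
  obtain ⟨B1, B2⟩ := Quad_v_tri G.t3 tb
  obtain ⟨C1, C2⟩ := Quad_v_tri G.s3 tc
  obtain ⟨D1, D2⟩ := Quad_v_tri G.t3 td
  obtain ⟨a1, a2, a3⟩ := ta.ne G.s1
  obtain ⟨b1, b2, b3⟩ := tb.ne G.t1
  obtain ⟨c1, c2, c3⟩ := tc.ne G.s1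
  obtain ⟨d1, d2, d3⟩ := td.ne G.t1
  have n13 : e1 ≠ e3 := by
    rintro rfl
    exact b3 (Quad_eq G hP C2 B2)
  have n24 : e2 ≠ e4 := by
    rintro rfl
    exact b3 (Quad_eq G hP A2 B2)
  obtain ⟨x2, x3, z1, z4, xz⟩ := Quad_facts G.s3 G.s1 ta tc b3 n13 n24 d3
  obtain ⟨y4, y3, w1, w2, yw⟩ := Quad_facts G.t3 G.t1 tb td a3 n13 n24.symm c3
  have nxy : x ≠ y := by rintro rfl; exact a1 (Quad_eq G hP A1 B1)
  have nxw : x ≠ w := by rintro rfl; exact a2 (Quad_eq G hP (A1.trans A2) (D1.trans D2))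
  have nyz : y ≠ z := by rintro rfl; exact b2 (Quad_eq G hP (C1.trans C2) (B1.trans B2))
  have nzw : z ≠ w := by rintro rfl; exact c1 (Quad_eq G hP C1 D1)
  refine ⟨⟨e1, e2, e3, e4, x, y, z, w, ta, tb, tc, td, ?_⟩⟩
  simp only [List.nodup_cons, List.mem_cons, not_or, List.not_mem_nil, not_false_eq_true,
    List.nodup_nil, and_true]
  exact ⟨⟨b3, n13, a3, a1.symm, b1.symm, z1.symm, w1.symm⟩, ⟨c3.symm, n24, x2.symm, b2.symm, c2.symm, w2.symm⟩,
    ⟨d3, x3.symm, y3.symm, c1.symm, d1.symm⟩, ⟨a2.symm, y4.symm, z4.symm, d2.symm⟩, ⟨nxy, xz, nxw⟩, ⟨nyz, yw⟩,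
    nzw⟩

end quadaux

/-! ### small graphs -/

section small

variable {E : Type u}

private lemma Quad_card [Fintype E] [DecidableEq E] (R : Finset E) :
    Fintype.card {e // e ∉ R} + R.card = Fintype.card E := by
  rw [Fintype.card_subtype_compl, Fintype.card_coe]
  have := Finset.card_le_univ R
  omega

/-- representatives of seven vertices -/
private def Quad_rep (G : CB E) (e : E) : Option (Fin 3 × Bool) → E
  | none => e
  | some (i, b) => if b then G.t (G.t (G.s^[(i : ℕ)] e)) else G.t (G.s^[(i : ℕ)] e)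

private lemma Quad_v_it {s : Equiv.Perm E} (s3 : ∀ e, s (s (s e)) = e) (i : ℕ) (e : E) :
    Quad_v s (s^[i] e) = Quad_v s e := by
  induction i with
  | zero => rfl
  | succ i ih => rw [Function.iterate_succ_apply', Quad_v_s s3, ih]

private lemma Quad_it_inj {s : Equiv.Perm E} (s3 : ∀ e, s (s (s e)) = e) (s1 : ∀ e, s e ≠ e)
    (e : E) (i j : Fin 3) (h : s^[(i : ℕ)] e = s^[(j : ℕ)] e) : i = j := by
  have h1 := s1 e
  have h2 : s (s e) ≠ e := by
    intro h2
    have h4 := s3 e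
    rw [h2] at h4
    exact h1 h4
  have h3 : s (s e) ≠ s e := s1 _
  fin_cases i <;> fin_cases j
  · rfl
  · exact absurd h.symm h1
  · exact absurd h.symm h2
  · exact absurd h h1
  · rfl
  · exact absurd h.symm h3
  · exact absurd h h2
  · exact absurd h h3
  · rfl

private lemma Quad_rep_t (G : CB E) (e : E) (i : Fin 3) (b : Bool) :
    Quad_v G.t (Quad_rep G e (some (i, b))) = Quad_v G.t (G.s^[(i : ℕ)] e) := by
  cases b
  · exact Quad_v_s G.t3 _
  · exact (Quad_v_s G.t3 _).trans (Quad_v_s G.t3 _)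

private lemma Quad_key (G : CB E) (hP : ¬ (Nonempty (Th G) ∨ Nonempty (Dg G)))
    (hS : ¬ Nonempty (Sq G)) (e : E) (p p' : Option (Fin 3 × Bool))
    (h : Quad_v G.s (Quad_rep G e p) = Quad_v G.s (Quad_rep G e p')) : p = p' := by
  have hn : ∀ i b, Quad_v G.s e ≠ Quad_v G.s (Quad_rep G e (some (i, b))) := by
    intro i b h
    rw [← Quad_v_it G.s3 i e] at h
    have h1 := Quad_eq G hP h (Quad_rep_t G e i b).symm
    cases b
    · exact G.t1 _ h1.symm
    · have h2 : G.t (G.t (G.s^[(i : ℕ)] e)) = G.s^[(i : ℕ)] e := h1.symm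
      have h4 := G.t3 (G.s^[(i : ℕ)] e)
      rw [h2] at h4
      exact G.t1 _ h4
  rcases p with _ | ⟨i, b⟩ <;> rcases p' with _ | ⟨i', b'⟩
  · rfl
  · exact absurd h (hn i' b')
  · exact absurd h.symm (hn i b)
  · by_cases hi : i = i'
    · subst hi
      have h1 := Quad_eq G hP h ((Quad_rep_t G e i b).trans (Quad_rep_t G e i b').symm)
      cases b <;> cases b'
      · rfl
      · exact absurd h1.symm (G.t1 _)
      · exact absurd h1 (G.t1 _)
      · rfl
    · exfalso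
      have ha : Quad_v G.s (G.s^[(i : ℕ)] e) = Quad_v G.s (G.s^[(i' : ℕ)] e) := by
        rw [Quad_v_it G.s3, Quad_v_it G.s3]
      have hne : G.s^[(i : ℕ)] e ≠ G.s^[(i' : ℕ)] e := fun h => hi (Quad_it_inj G.s3 G.s1 e i i' h)
      have hT : ∀ (j : Fin 3) (c : Bool), G.s^[(j : ℕ)] e ≠ Quad_rep G e (some (j, c)) := by
        intro j c h
        apply hn j c
        rw [← h, Quad_v_it G.s3]
      have hf : Quad_rep G e (some (i, b)) ≠ Quad_rep G e (some (i', b')) := by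
        intro hf
        apply hne
        apply Quad_eq G hP ha
        rw [← Quad_rep_t G e i b, ← Quad_rep_t G e i' b', hf]
      obtain ⟨x, hx⟩ := Quad_SO_tri G.s3 (Quad_v_SO ha hne)
      obtain ⟨y, hy⟩ := Quad_SO_tri G.t3 (Quad_v_SO (Quad_rep_t G e i b).symm (hT i b))
      obtain ⟨z, hz⟩ := Quad_SO_tri G.s3 (Quad_v_SO h hf)
      obtain ⟨w, hw⟩ := Quad_SO_tri G.t3 (Quad_v_SO (Quad_rep_t G e i' b').symm (hT i' b'))
      exact hS (Quad_sq G hP hx hy hz.swap hw.swap)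

private lemma Quad_moore [Fintype E] (G : CB E) (hP : ¬ (Nonempty (Th G) ∨ Nonempty (Dg G)))
    (hS : ¬ Nonempty (Sq G)) (e : E) : 21 ≤ Fintype.card E := by
  have hinj : Function.Injective (fun p : Option (Fin 3 × Bool) × Fin 3 =>
      G.s^[(p.2 : ℕ)] (Quad_rep G e p.1)) := by
    rintro ⟨p, i⟩ ⟨p', i'⟩ h
    simp only at h
    have h1 : Quad_v G.s (Quad_rep G e p) = Quad_v G.s (Quad_rep G e p') := by
      rw [← Quad_v_it G.s3 i, h, Quad_v_it G.s3]
    have h2 := Quad_key G hP hS e p p' h1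
    subst h2
    exact Prod.ext rfl (Quad_it_inj G.s3 G.s1 _ _ _ h)
  have h := Fintype.card_le_of_injective _ hinj
  simpa using h

private lemma Quad_small (n : ℕ) : ∀ (E : Type u) [Fintype E] (G : CB E),
    Fintype.card E ≤ n → n ≤ 18 → Red E G := by
  induction n with
  | zero =>
    intro E _ G h _
    exact Red.empty E G (Fintype.card_eq_zero_iff.1 (by omega))
  | succ n ih =>
    intro E _ G h hn
    classical
    by_cases hE : Nonempty E
    · by_cases hT : Nonempty (Th G)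
      · obtain ⟨Q⟩ := hT
        refine Red.theta E G Q (ih _ _ ?_ (by omega))
        have h1 := Quad_card Q.redn.R
        have h2 : 0 < Q.redn.R.card := Finset.card_pos.2 ⟨Q.e, by rw [Q.redn_R]; simp⟩
        omega
      by_cases hD : Nonempty (Dg G)
      · obtain ⟨Q⟩ := hD
        refine Red.digon E G Q (ih _ _ ?_ (by omega))
        have h1 := Quad_card Q.redn.R
        have h2 : 0 < Q.redn.R.card := Finset.card_pos.2 ⟨Q.e, by rw [Q.redn_R]; simp⟩
        omega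
      by_cases hS : Nonempty (Sq G)
      · obtain ⟨Q⟩ := hS
        refine Red.square E G Q (ih _ _ ?_ (by omega))
        have h1 := Quad_card Q.redn.R
        have h2 : 0 < Q.redn.R.card := Finset.card_pos.2 ⟨Q.e1, by rw [Q.redn_R]; simp⟩
        omega
      exfalso
      obtain ⟨e⟩ := hE
      have := Quad_moore G (by tauto) hS e
      omega
    · exact Red.empty E G (not_nonempty_iff.1 hE)

end small

/-! ### one step -/

section step

variable {E : Type u}

/-- `k` disjoint closed walks -/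
private def Quad_W (G : CB E) {k : ℕ} (q : Fin k × Fin 4 → E) : Prop :=
  Function.Injective q ∧ ∀ i, SO G.t (q (i, 0)) (q (i, 1)) ∧ SO G.s (q (i, 1)) (q (i, 2)) ∧
    SO G.t (q (i, 2)) (q (i, 3)) ∧ SO G.s (q (i, 3)) (q (i, 0))

private lemma Quad_pt {G : CB E} {k : ℕ} {q : Fin k × Fin 4 → E} (h : Quad_W G q)
    (p : Fin k × Fin 4) : ∃ p', SO G.t (q p) (q p') := by
  obtain ⟨i, j⟩ := p
  obtain ⟨h1, h2, h3, h4⟩ := h.2 i
  fin_cases j
  · exact ⟨_, h1⟩
  · exact ⟨_, Quad_SO_symm G.t3 h1⟩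
  · exact ⟨_, h3⟩
  · exact ⟨_, Quad_SO_symm G.t3 h3⟩

private lemma Quad_ps {G : CB E} {k : ℕ} {q : Fin k × Fin 4 → E} (h : Quad_W G q)
    (p : Fin k × Fin 4) : ∃ p', SO G.s (q p) (q p') := by
  obtain ⟨i, j⟩ := p
  obtain ⟨h1, h2, h3, h4⟩ := h.2 i
  fin_cases j
  · exact ⟨_, Quad_SO_symm G.s3 h4⟩
  · exact ⟨_, h2⟩
  · exact ⟨_, Quad_SO_symm G.s3 h2⟩
  · exact ⟨_, h4⟩

private lemma Quad_out_t {G : CB E} {k : ℕ} {q : Fin k × Fin 4 → E} (h : Quad_W G q)
    {y f g : E} (ht : Tri G.t y f g) (hd : ∀ p, q p ≠ f ∧ q p ≠ g) (p : Fin k × Fin 4) :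
    q p ≠ y := by
  intro hp
  obtain ⟨p', hp'⟩ := Quad_pt h p
  rw [hp] at hp'
  rcases Quad_tri_SO ht hp' with e | e
  · exact (hd p').1 e
  · exact (hd p').2 e

private lemma Quad_out_s {G : CB E} {k : ℕ} {q : Fin k × Fin 4 → E} (h : Quad_W G q)
    {y f g : E} (ht : Tri G.s y f g) (hd : ∀ p, q p ≠ f ∧ q p ≠ g) (p : Fin k × Fin 4) :
    q p ≠ y := by
  intro hp
  obtain ⟨p', hp'⟩ := Quad_ps h p
  rw [hp] at hp'
  rcases Quad_tri_SO ht hp' with e | e
  · exact (hd p').1 e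
  · exact (hd p').2 e

private lemma Quad_SOt {G : CB E} (D : Redn G) {e f : E} (he : e ∉ D.R) (hf : f ∉ D.R)
    (h : SO G.t e f) : SO (G.red D).t ⟨e, he⟩ ⟨f, hf⟩ := by
  rcases h with h | h
  · left
    apply Subtype.ext
    rw [red_t]
    exact h
  · right
    apply Subtype.ext
    rw [red_t, red_t]
    exact h

private lemma Quad_SOs {G : CB E} (D : Redn G) {e f : E} (he : e ∉ D.R) (hf : f ∉ D.R)
    (he' : D.th e = e) (hf' : D.th f = f) (h : SO G.s e f) :
    SO (G.red D).s ⟨e, he⟩ ⟨f, hf⟩ := by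
  rcases h with h | h
  · left
    apply Subtype.ext
    rw [red_s]
    show f = D.th (G.s (D.th e))
    rw [he', ← h, hf']
  · right
    apply Subtype.ext
    rw [red_s, red_s]
    show f = D.th (G.s (D.th (D.th (G.s (D.th e)))))
    rw [D.thth, he', ← h, hf']

private lemma Quad_lift {G : CB E} (D : Redn G) {k : ℕ} {q : Fin k × Fin 4 → E} (h : Quad_W G q)
    (h0 : ∀ p, q p ∉ D.R) (h1 : ∀ p, D.th (q p) = q p) :
    Quad_W (G.red D) (fun p => (⟨q p, h0 p⟩ : {e // e ∉ D.R})) := by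
  refine ⟨?_, fun i => ?_⟩
  · intro p p' hp
    exact h.1 (congrArg Subtype.val hp)
  · obtain ⟨a, b, c, d⟩ := h.2 i
    exact ⟨Quad_SOt D _ _ a, Quad_SOs D _ _ (h1 _) (h1 _) b, Quad_SOt D _ _ c,
      Quad_SOs D _ _ (h1 _) (h1 _) d⟩

private lemma Quad_tri_t {G : CB E} (D : Redn G) {a b c : E} (ha : a ∉ D.R) (hb : b ∉ D.R)
    (hc : c ∉ D.R) (h : Tri G.t a b c) : Tri (G.red D).t ⟨a, ha⟩ ⟨b, hb⟩ ⟨c, hc⟩ := by
  rcases h with ⟨h1, h2, h3⟩ | ⟨h1, h2, h3⟩
  · exact Or.inl ⟨Subtype.ext h1, Subtype.ext h2, Subtype.ext h3⟩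
  · exact Or.inr ⟨Subtype.ext h1, Subtype.ext h2, Subtype.ext h3⟩

private lemma Quad_tri_s {G : CB E} (D : Redn G) {a b c : E} (ha : a ∉ D.R) (hb : b ∉ D.R)
    (hc : c ∉ D.R) (h : Tri G.s (D.th a) (D.th b) (D.th c)) :
    Tri (G.red D).s ⟨a, ha⟩ ⟨b, hb⟩ ⟨c, hc⟩ := by
  have key : ∀ {u v : E} (hu : u ∉ D.R) (hv : v ∉ D.R), G.s (D.th u) = D.th v →
      (G.red D).s ⟨u, hu⟩ = ⟨v, hv⟩ := by
    intro u v hu hv h
    apply Subtype.ext
    rw [red_s]
    show D.th (G.s (D.th u)) = v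
    rw [h, D.thth]
  rcases h with ⟨h1, h2, h3⟩ | ⟨h1, h2, h3⟩
  · exact Or.inl ⟨key _ _ h1, key _ _ h2, key _ _ h3⟩
  · exact Or.inr ⟨key _ _ h1, key _ _ h2, key _ _ h3⟩

/-- removing a pair of parallel edges -/
private lemma Quad_dg [Fintype E] {G : CB E} {k : ℕ} {q : Fin k × Fin 4 → E} (hq : Quad_W G q)
    {e f g h : E} (tg : Tri G.s g e f) (th : Tri G.t h e f) (hd : ∀ p, q p ≠ e ∧ q p ≠ f) :
    ∃ (E' : Type u) (_ : Fintype E') (G' : CB E'), (Red E' G' → Red E G) ∧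
      (∃ q' : Fin k × Fin 4 → E', Quad_W G' q') ∧ Fintype.card E' + 3 = Fintype.card E := by
  classical
  have hg := Quad_out_s hq tg hd
  have hh := Quad_out_t hq th hd
  obtain ⟨n1, n2, n3⟩ := th.ne G.t1
  by_cases hgh : g = h
  · subst hgh
    let Q : Th G := ⟨e, f, g, tg, th⟩
    refine ⟨{a // a ∉ Q.redn.R}, inferInstance, G.red Q.redn, Red.theta E G Q,
      ⟨_, Quad_lift Q.redn hq ?_ ?_⟩, ?_⟩
    · intro p
      rw [Q.redn_R]
      simp only [Finset.mem_insert, Finset.mem_singleton, not_or]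
      exact ⟨(hd p).1, (hd p).2, hg p⟩
    · intro p
      rw [Q.redn_th]
      rfl
    · have h1 := Quad_card Q.redn.R
      have h2 : Q.redn.R.card = 3 := by
        rw [Q.redn_R]
        exact Finset.card_eq_three.2 ⟨e, f, g, n3, n1.symm, n2.symm, rfl⟩
      omega
  · let Q : Dg G := ⟨e, f, g, h, tg, th, hgh⟩
    refine ⟨{a // a ∉ Q.redn.R}, inferInstance, G.red Q.redn, Red.digon E G Q,
      ⟨_, Quad_lift Q.redn hq ?_ ?_⟩, ?_⟩
    · intro p
      rw [Q.redn_R]
      simp only [Finset.mem_insert, Finset.mem_singleton, not_or]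
      exact ⟨(hd p).1, (hd p).2, hh p⟩
    · intro p
      rw [Q.redn_th]
      exact Equiv.swap_apply_of_ne_of_ne (hg p) (hh p)
    · have h1 := Quad_card Q.redn.R
      have h2 : Q.redn.R.card = 3 := by
        rw [Q.redn_R]
        exact Finset.card_eq_three.2 ⟨e, f, h, n3, n1.symm, n2.symm, rfl⟩
      omega

/-- (2b): the case `x = y` -/
private lemma Quad_b [Fintype E] {G : CB E} {k : ℕ} {q : Fin k × Fin 4 → E} (hq : Quad_W G q)
    {f1 f2 f3 f4 x z w : E} (ta : Tri G.s x f1 f4) (tb : Tri G.t x f1 f2) (tc : Tri G.s z f3 f2)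
    (td : Tri G.t w f3 f4) (n13 : f1 ≠ f3) (n24 : f2 ≠ f4)
    (hd : ∀ p, q p ≠ f1 ∧ q p ≠ f2 ∧ q p ≠ f3 ∧ q p ≠ f4) :
    ∃ (E' : Type u) (_ : Fintype E') (G' : CB E'), (Red E' G' → Red E G) ∧
      (∃ q' : Fin k × Fin 4 → E', Quad_W G' q') ∧ Fintype.card E' + 6 = Fintype.card E := by
  classical
  obtain ⟨a1, a2, a3⟩ := ta.ne G.s1
  obtain ⟨b1, b2, b3⟩ := tb.ne G.t1
  obtain ⟨c1, c2, c3⟩ := tc.ne G.s1
  obtain ⟨d1, d2, d3⟩ := td.ne G.t1
  obtain ⟨x2, x3, z1, z4, xz⟩ := Quad_facts G.s3 G.s1 ta tc b3 n13 n24 d3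
  obtain ⟨y4, y3, w1, w2, yw⟩ := Quad_facts G.t3 G.t1 tb td a3 n13 n24.symm c3
  have hx := Quad_out_s hq ta (fun p => ⟨(hd p).1, (hd p).2.2.2⟩)
  let Q : Dg G := ⟨f1, x, f4, f2, ta.rot.rot.swap, tb.rot.rot.swap, n24.symm⟩
  have hR : Q.redn.R = {f1, x, f2} := Q.redn_R
  have hth : Q.redn.th = Equiv.swap f4 f2 := Q.redn_th
  have mem : ∀ a, a ∉ Q.redn.R ↔ a ≠ f1 ∧ a ≠ x ∧ a ≠ f2 := by
    intro a
    rw [hR]
    simp only [Finset.mem_insert, Finset.mem_singleton, not_or, ne_eq]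
  have hL := Quad_lift Q.redn hq (fun p => (mem _).2 ⟨(hd p).1, hx p, (hd p).2.1⟩)
    (fun p => by rw [hth]; exact Equiv.swap_apply_of_ne_of_ne (hd p).2.2.2 (hd p).2.1)
  have m3 : f3 ∉ Q.redn.R := (mem _).2 ⟨n13.symm, x3.symm, c3⟩
  have m4 : f4 ∉ Q.redn.R := (mem _).2 ⟨a3.symm, a2.symm, n24.symm⟩
  have mz : z ∉ Q.redn.R := (mem _).2 ⟨z1, xz.symm, c2⟩
  have mw : w ∉ Q.redn.R := (mem _).2 ⟨w1, yw.symm, w2⟩
  have t1 : Tri (G.red Q.redn).s ⟨z, mz⟩ ⟨f3, m3⟩ ⟨f4, m4⟩ := by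
    apply Quad_tri_s
    rw [hth, Equiv.swap_apply_left, Equiv.swap_apply_of_ne_of_ne z4 c2,
      Equiv.swap_apply_of_ne_of_ne d3 c3]
    exact tc
  have t2 : Tri (G.red Q.redn).t ⟨w, mw⟩ ⟨f3, m3⟩ ⟨f4, m4⟩ := Quad_tri_t _ _ _ _ td
  obtain ⟨E', F', G', r1, r2, r3⟩ := Quad_dg hL t1 t2 (fun p =>
    ⟨fun h => (hd p).2.2.1 (congrArg Subtype.val h), fun h => (hd p).2.2.2 (congrArg Subtype.val h)⟩)
  refine ⟨E', F', G', fun h => Red.digon E G Q (r1 h), r2, ?_⟩
  have h1 := Quad_card Q.redn.R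
  have h2 : Q.redn.R.card = 3 := by
    rw [hR]
    exact Finset.card_eq_three.2 ⟨f1, x, f2, a1.symm, b3, b2, rfl⟩
  omega

private lemma Quad_step [Fintype E] {G : CB E} {k : ℕ} {q : Fin k × Fin 4 → E} (hq : Quad_W G q)
    {f1 f2 f3 f4 x y z w : E} (ta : Tri G.s x f1 f4) (tb : Tri G.t y f1 f2) (tc : Tri G.s z f3 f2)
    (td : Tri G.t w f3 f4) (n13 : f1 ≠ f3) (n24 : f2 ≠ f4)
    (hd : ∀ p, q p ≠ f1 ∧ q p ≠ f2 ∧ q p ≠ f3 ∧ q p ≠ f4) :
    ∃ (E' : Type u) (_ : Fintype E') (G' : CB E'), (Red E' G' → Red E G) ∧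
      (∃ q' : Fin k × Fin 4 → E', Quad_W G' q') ∧ Fintype.card E' + 6 = Fintype.card E := by
  classical
  by_cases hxy : x = y
  · subst hxy
    exact Quad_b hq ta tb tc td n13 n24 hd
  by_cases hxw : x = w
  · subst hxw
    exact Quad_b hq ta.swap td.swap tc.swap tb.swap n24.symm n13.symm (fun p => by
      obtain ⟨h1, h2, h3, h4⟩ := hd p
      exact ⟨h4, h3, h2, h1⟩)
  by_cases hzw : z = w
  · subst hzw
    exact Quad_b hq tc td ta tb n13.symm n24.symm (fun p => by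
      obtain ⟨h1, h2, h3, h4⟩ := hd p
      exact ⟨h3, h4, h1, h2⟩)
  by_cases hzy : z = y
  · subst hzy
    exact Quad_b hq tc.swap tb.swap ta.swap td.swap n24 n13 (fun p => by
      obtain ⟨h1, h2, h3, h4⟩ := hd p
      exact ⟨h2, h1, h4, h3⟩)
  obtain ⟨a1, a2, a3⟩ := ta.ne G.s1
  obtain ⟨b1, b2, b3⟩ := tb.ne G.t1
  obtain ⟨c1, c2, c3⟩ := tc.ne G.s1
  obtain ⟨d1, d2, d3⟩ := td.ne G.t1
  obtain ⟨x2, x3, z1, z4, xz⟩ := Quad_facts G.s3 G.s1 ta tc b3 n13 n24 d3
  obtain ⟨y4, y3, w1, w2, yw⟩ := Quad_facts G.t3 G.t1 tb td a3 n13 n24.symm c3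
  have hx := Quad_out_s hq ta (fun p => ⟨(hd p).1, (hd p).2.2.2⟩)
  have hy := Quad_out_t hq tb (fun p => ⟨(hd p).1, (hd p).2.1⟩)
  have hz := Quad_out_s hq tc (fun p => ⟨(hd p).2.2.1, (hd p).2.1⟩)
  have hw := Quad_out_t hq td (fun p => ⟨(hd p).2.2.1, (hd p).2.2.2⟩)
  have nd : [f1, f2, f3, f4, x, y, z, w].Nodup := by
    simp only [List.nodup_cons, List.mem_cons, not_or, List.not_mem_nil, not_false_eq_true,
      List.nodup_nil, and_true]
    exact ⟨⟨b3, n13, a3, a1.symm, b1.symm, z1.symm, w1.symm⟩,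
      ⟨c3.symm, n24, x2.symm, b2.symm, c2.symm, w2.symm⟩,
      ⟨d3, x3.symm, y3.symm, c1.symm, d1.symm⟩, ⟨a2.symm, y4.symm, z4.symm, d2.symm⟩,
      ⟨hxy, xz, hxw⟩, ⟨Ne.symm hzy, yw⟩, hzw⟩
  let Q : Sq G := ⟨f1, f2, f3, f4, x, y, z, w, ta, tb, tc, td, nd⟩
  have hR : Q.redn.R = {f1, f2, f3, f4, y, w} := Q.redn_R
  have hth : Q.redn.th = Equiv.swap x y * Equiv.swap z w := Q.redn_th
  refine ⟨{a // a ∉ Q.redn.R}, inferInstance, G.red Q.redn, Red.square E G Q,
    ⟨_, Quad_lift Q.redn hq ?_ ?_⟩, ?_⟩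
  · intro p
    rw [hR]
    simp only [Finset.mem_insert, Finset.mem_singleton, not_or]
    obtain ⟨h1, h2, h3, h4⟩ := hd p
    exact ⟨h1, h2, h3, h4, hy p, hw p⟩
  · intro p
    rw [hth, Equiv.Perm.mul_apply, Equiv.swap_apply_of_ne_of_ne (hz p) (hw p),
      Equiv.swap_apply_of_ne_of_ne (hx p) (hy p)]
  · have h1 := Quad_card Q.redn.R
    have h2 : Q.redn.R.card = 6 := by
      rw [hR, Finset.card_insert_of_notMem, Finset.card_insert_of_notMem,
        Finset.card_insert_of_notMem, Finset.card_insert_of_notMem,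
        Finset.card_insert_of_notMem, Finset.card_singleton]
      · simpa using yw
      · simpa using ⟨y4.symm, d2.symm⟩
      · simpa using ⟨d3, y3.symm, d1.symm⟩
      · simpa using ⟨c3.symm, n24, b2.symm, w2.symm⟩
      · simpa using ⟨b3, n13, a3, b1.symm, w1.symm⟩
    omega

end step

theorem red_small (N : ℕ) (hN : N ≤ 18) : ∀ (E : Type u) [Fintype E] (G : CB E), Fintype.card E ≤ N → Red E G := by
  intro E _ G h
  exact Quad_small N E G h hN

theorem quad_step (k : ℕ) (E : Type u) [Fintype E] (G : CB E) (h : G.QF (k + 1)) :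
    ∃ (E' : Type u) (_ : Fintype E') (G' : CB E'), (Red E' G' → Red E G) ∧ G'.QF k ∧
      Fintype.card E' + 6 = Fintype.card E := by
  obtain ⟨q, hi, hq⟩ := h
  obtain ⟨h1, h2, h3, h4⟩ := hq (Fin.last k)
  obtain ⟨y, hy⟩ := Quad_SO_tri G.t3 h1
  obtain ⟨z, hz⟩ := Quad_SO_tri G.s3 h2
  obtain ⟨w, hw⟩ := Quad_SO_tri G.t3 h3
  obtain ⟨x, hx⟩ := Quad_SO_tri G.s3 h4
  have hne : ∀ i j : Fin 4, i ≠ j → q (Fin.last k, i) ≠ q (Fin.last k, j) := by
    intro i j hij h
    exact hij (congrArg Prod.snd (hi h))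
  have hW : Quad_W G (fun p : Fin k × Fin 4 => q (Fin.castSucc p.1, p.2)) := by
    refine ⟨?_, fun i => hq _⟩
    intro p p' hp
    have h5 := hi hp
    have h6 : p.2 = p'.2 := congrArg (fun a => a.2) h5
    have h7 : Fin.castSucc p.1 = Fin.castSucc p'.1 := congrArg (fun a => a.1) h5
    exact Prod.ext (Fin.castSucc_injective k h7) h6
  have hd : ∀ (p : Fin k × Fin 4) (j : Fin 4), q (Fin.castSucc p.1, p.2) ≠ q (Fin.last k, j) := by
    intro p j h
    exact (Fin.castSucc_ne_last p.1) (congrArg Prod.fst (hi h))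
  obtain ⟨E', F', G', r1, r2, r3⟩ := Quad_step hW hx.swap hy hz.swap hw
    (hne 0 2 (by decide)) (hne 1 3 (by decide)) (fun p => ⟨hd p 0, hd p 1, hd p 2, hd p 3⟩)
  exact ⟨E', F', G', r1, r2, r3⟩

/-- all but at most `12` vertices are covered by disjoint 4-cycles (`|V| = 2 |E| / 3 ≤ 4 k + 12`) -/
theorem red_of_quads (k : ℕ) : ∀ (E : Type u) [Fintype E] (G : CB E), G.QF k → Fintype.card E ≤ 6 * k + 18 → Red E G := by
  induction k with
  | zero =>
    intro E _ G _ hc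
    exact red_small 18 le_rfl E G (by omega)
  | succ k ih =>
    intro E _ G h hc
    obtain ⟨E', hF, G', h1, h2, h3⟩ := quad_step k E G h
    exact h1 (ih E' G' h2 (by omega))

end Pool.Agent.PP
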