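import Pool.Agent.Lib_MP_7c0803_pp.Parity

/-!
Proof plan (`Q : Sq G`; `a = {x, e1, e4}`, `c = {z, e3, e2}` are `s`-orbits, `b = {y, e1, e2}`, `d = {w, e3, e4}` are `t`-orbits;
`Q.redn`: `R = {e1, e2, e3, e4, y, w}`, `th = swap x y * swap z w`; `{u | th u ∈ R} = {e1, e2, e3, e4, x, z}`).

(1) TYPES.  For a proper `c`: `(c x = c y ∧ c z = c w)` [S1] or `(c x = c w ∧ c y = c z)` [S2]: finite check (`decide`) on the eight
    colours with `Tri.col` at the four vertices.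
(2) LIFT of `d : {e // e ∉ R} → Fin 3`, parameter `m : Fin 3`: `p = d x`, `q = d z`,
    `E2 = if p = q then (if m = p then p + 1 else m) else -(p + q)`; `L m d u = d u` for `u ∉ R`, `L m d y = p`, `L m d w = q`,
    `L m d e2 = L m d e4 = E2`, `L m d e1 = -(p + E2)`, `L m d e3 = -(q + E2)`.
    `L m d (th u) = L m d u` for all `u`; `L m d` is proper if `d` is (at the four vertices by `Tri.proper` and a finite check;
    elsewhere `L m d (s u) = d (s' ..)` as `th` does not change the colour); `L m d`, `L m' d` share the class `p`;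
    if `d, d'` share the class `k`, then `L k d`, `L k d'` share the class `k` (finite check on `e1 .. e4`).
    So (with `KE_map`) `(red).KE d d' → G.KE (L 0 d) (L 0 d')`.
(3) PARITY.  `par (L 0 d) = par d + const` by `red_par`: the special part is, by `Tri.sum` at the four vertices,
    `(sg (E1 - p) + κa) + (sg (E3 - q) + κc) + (sg (E1 - p) + κb) + (sg (E3 - q) + κd) = κa + κb + κc + κd`
    (write `Tri.sum` with first edge the outer edge and second edge `e1` resp. `e3`; `κ` does not depend on the colouring).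
    So `square_PC`.
(4) `c` proper of type S1: `c` and `L 0 (c|)` share the class `c x` (finite check on `e1 .. e4`), `c|` is proper (`red_P`).
(5) CLAIM (needs `G.PC`): every proper `c` is `KE` to a proper S1-colouring.  Let `c` be of type S2 and not S1:
    `Y = c x = c w`, `Z = c y = c z`, `Y ≠ Z` (if `Y = Z` it is S1), `X` the third colour: `c e1 = c e3 = X`, `c e4 = Z`, `c e2 = Y`.
    Define `ζ` on the edges of colour `Y` or `Z`: `c e = Y`: the edge of colour `Z` at the `X`-end of `e`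
    (`if c (s e) = Z then s e else s (s e)`); `c e = Z`: the edge of colour `Y` at the `Y`-end (`if c (t e) = Y then t e else
    t (t e)`); on the other edges the identity.  `ζ` is injective, hence a permutation of `E`; it exchanges the colours `Y`, `Z`.
    `ζ x = e4`, `ζ e4 = w`, `ζ y = e2`, `ζ e2 = z`.
    Let `k` be the least `i` with `ζ^i w ∈ {x, y}` (exists: `w` is periodic, `ζ^2 x = w`), `W = {ζ^i w | i ≤ k}`.
    Facts: `w ∈ W`; all elements of `W` have colour `Y` or `Z`; exactly one of `x, y` is in `W`, namely `ζ^k w`; `e4 ∉ W` (`e4` would be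
    `ζ^i w`, `i ≥ 1`, so `x = ζ^(i-1) w`, against minimality); `e2, z ∉ W` (same with `y`); for `u ≠ w`: `ζ u' = u ∈ W → u' ∈ W`;
    for `u ∈ W`, `u ≠ ζ^k w`: `ζ u ∈ W`; `e1, e3 ∉ W`.
    (5a) `ζ^k w = x`: `c' = ` exchange `Y, Z` on `W ∪ {e4}` (closed under `ζ` and `ζ⁻¹`).  Proper, `c' x = c' w = c' y = c' z = Z`:
         type S1; shares the class `X` with `c`.
    (5b) `ζ^k w = y`: `c' = ` exchange `Y, Z` on `W`, `c' e1 = Z`, `c' e2 = X`, `c' e3 = Y`, `c' e4 = X`.  It is proper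
         (`c' x = c' y = Y`, `c' z = c' w = Z`; at a vertex other than `a, b, c, d` the two edges of colours `Y, Z` are both in `W` or
         both outside `W`).  Parity, with `sum_class` for `c` and the `s`-invariant function
         `φs e = sg (c (s e) - c e) + sg (c' (s e) - c' e)` and the class `Y`:  `∑ φs = ∑_{c e = Y} φs e`,
         `φs e = 1` iff `e ∈ W ∨ e = x ∨ e = e2` (for `c e = Y`);
         for the `t`-invariant `φt` and the class `Z`: `φt e = 1` iff `e ∈ W ∧ e ≠ y` (for `c e = Z`).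
         `ζ` is a bijection from `{e ∈ W | c e = Y}` to `{e ∈ W | c e = Z}`, `y ∈ W`, `x, e2 ∉ W`; so
         `par c + par c' = m + 2 + (m - 1) = 1` in `ZMod 2`, against `G.PC`.
(6) `square_Con`: `c ~ c1` (S1) `~ L 0 (c1|) ~ L 0 (c2|) ~ c2 ~ c'`.
-/

set_option autoImplicit false

open Finset Function

namespace Pool.Agent.PP

universe u

/-! ### general lifts -/

private lemma Square_liftP {E : Type u} {G : CB E} (D : Redn G) (d : {e // e ∉ D.R} → Fin 3)
    (hd : (G.red D).P d) (l : E → Fin 3) (hl : ∀ x : {e // e ∉ D.R}, l x.1 = d x)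
    (hth : ∀ e, l (D.th e) = l e) (hs : ∀ e, D.th e ∈ D.R → l (G.s e) ≠ l e)
    (ht : ∀ e, e ∈ D.R → l (G.t e) ≠ l e) : G.P l := by
  intro e
  constructor
  · by_cases he : D.th e ∈ D.R
    · exact hs e he
    · have h1 := (hd ⟨D.th e, he⟩).1
      rw [← hl, ← hl, red_s, hth, hth] at h1
      simp only [D.thth] at h1
      exact h1
  · by_cases he : e ∈ D.R
    · exact ht e he
    · have h1 := (hd ⟨e, he⟩).2
      rw [← hl, ← hl, red_t] at h1
      exact h1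

private lemma Square_PCof {E : Type u} [Fintype E] [DecidableEq E] {G : CB E} (D : Redn G)
    (L : ({e // e ∉ D.R} → Fin 3) → (E → Fin 3)) (hL : ∀ d x, L d x.1 = d x)
    (hth : ∀ d e, L d (D.th e) = L d e) (hP : ∀ d, (G.red D).P d → G.P (L d)) (q : ZMod 2)
    (hq : ∀ d, (G.red D).P d →
      (∑ e ∈ univ.filter (fun e => D.th e ∈ D.R), sg (L d (G.s e) - L d e) +
        ∑ e ∈ D.R, sg (L d (G.t e) - L d e)) = q) (h : G.PC) : (G.red D).PC := by
  intro d d' hd hd'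
  have h1 := h _ _ (hP d hd) (hP d' hd')
  rw [red_par G D (L d) (hth d), red_par G D (L d') (hth d'), hq d hd, hq d' hd',
    show (fun x : {e // e ∉ D.R} => L d x.1) = d from funext (hL d),
    show (fun x : {e // e ∉ D.R} => L d' x.1) = d' from funext (hL d')] at h1
  exact add_right_cancel h1

/-! ### the edge of colour `k` at a vertex -/

private def Square_nb {E : Type u} (s : Equiv.Perm E) (c : E → Fin 3) (k : Fin 3) (e : E) : E :=
  if c e = k then e else if c (s e) = k then s e else s (s e)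

private lemma Square_any : ∀ a b d k : Fin 3, a ≠ b → b ≠ d → d ≠ a → a = k ∨ b = k ∨ d = k := by
  decide

private lemma Square_any2 : ∀ X Y Z a : Fin 3, X ≠ Y → X ≠ Z → Y ≠ Z → a ≠ X → a = Y ∨ a = Z := by
  decide

section nb
variable {E : Type u} {s : Equiv.Perm E} (s3 : ∀ e, s (s (s e)) = e) {c : E → Fin 3}
  (hc : ∀ e, c (s e) ≠ c e)

include s3 hc

private lemma Square_col3 (e : E) : c e ≠ c (s e) ∧ c (s e) ≠ c (s (s e)) ∧ c (s (s e)) ≠ c e :=
  ⟨(hc e).symm, (hc (s e)).symm, by have := hc (s (s e)); rw [s3] at this; exact this.symm⟩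

private lemma Square_nb_col (k : Fin 3) (e : E) : c (Square_nb s c k e) = k := by
  obtain ⟨h1, h2, h3⟩ := Square_col3 s3 hc e
  unfold Square_nb
  split_ifs with h4 h5
  · exact h4
  · exact h5
  · rcases Square_any _ _ _ k h1 h2 h3 with h | h | h
    · exact absurd h h4
    · exact absurd h h5
    · exact h

private lemma Square_nb_s (k : Fin 3) (e : E) : Square_nb s c k (s e) = Square_nb s c k e := by
  obtain ⟨h1, h2, h3⟩ := Square_col3 s3 hc e
  unfold Square_nb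
  rcases Square_any _ _ _ k h1 h2 h3 with h | h | h
  · have n1 : c (s e) ≠ k := fun h' => h1 (h.trans h'.symm)
    have n2 : c (s (s e)) ≠ k := fun h' => h3 (h'.trans h.symm)
    rw [if_neg n1, if_neg n2, if_pos h, s3]
  · have n1 : c e ≠ k := fun h' => h1 (h'.trans h.symm)
    rw [if_pos h, if_neg n1, if_pos h]
  · have n1 : c e ≠ k := fun h' => h3 (h.trans h'.symm)
    have n2 : c (s e) ≠ k := fun h' => h2 (h'.trans h.symm)
    rw [if_neg n2, if_pos h, if_neg n1, if_neg n2]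

omit s3 hc in
private lemma Square_nb_self {k : Fin 3} {e : E} (h : c e = k) : Square_nb s c k e = e := by
  unfold Square_nb
  rw [if_pos h]

private lemma Square_nb_nb (k l : Fin 3) (e : E) :
    Square_nb s c k (Square_nb s c l e) = Square_nb s c k e := by
  have h : Square_nb s c l e = e ∨ Square_nb s c l e = s e ∨ Square_nb s c l e = s (s e) := by
    unfold Square_nb
    split_ifs
    · exact Or.inl rfl
    · exact Or.inr (Or.inl rfl)
    · exact Or.inr (Or.inr rfl)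
  rcases h with h | h | h
  · rw [h]
  · rw [h, Square_nb_s s3 hc]
  · rw [h, Square_nb_s s3 hc, Square_nb_s s3 hc]

private lemma Square_nb_tri {p q r : E} (h : Tri s p q r) (k : Fin 3) :
    Square_nb s c k q = Square_nb s c k p ∧ Square_nb s c k r = Square_nb s c k p := by
  rcases h with ⟨h1, h2, h3⟩ | ⟨h1, h2, h3⟩
  · constructor
    · rw [← h1, Square_nb_s s3 hc]
    · rw [← h2, Square_nb_s s3 hc, ← h1, Square_nb_s s3 hc]
  · constructor
    · rw [← h2, Square_nb_s s3 hc, ← h1, Square_nb_s s3 hc]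
    · rw [← h1, Square_nb_s s3 hc]

/-- the two edges of colours `Y`, `Z` of a vertex are both in `W` or both outside -/
private lemma Square_pair {X Y Z : Fin 3} (xy : X ≠ Y) (xz : X ≠ Z) (yz : Y ≠ Z) (W : Finset E)
    (e : E) (hW : ∀ u, (u = e ∨ u = s e) → c u = Y → (u ∈ W ↔ Square_nb s c Z u ∈ W)) :
    c e ≠ X → c (s e) ≠ X → (e ∈ W ↔ s e ∈ W) := by
  intro h1 h2
  rcases Square_any2 X Y Z _ xy xz yz h1 with a1 | a1
  · rcases Square_any2 X Y Z _ xy xz yz h2 with a2 | a2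
    · exact absurd (a2.trans a1.symm) (hc e)
    · have h3 := hW e (Or.inl rfl) a1
      rw [← Square_nb_s s3 hc, Square_nb_self a2] at h3
      exact h3
  · rcases Square_any2 X Y Z _ xy xz yz h2 with a2 | a2
    · have h3 := hW (s e) (Or.inr rfl) a2
      rw [Square_nb_s s3 hc, Square_nb_self a1] at h3
      exact h3.symm
    · exact absurd (a2.trans a1.symm) (hc e)

end nb

/-- exchange of the colours `Y`, `Z` -/
private def Square_ex (Y Z a : Fin 3) : Fin 3 := if a = Y then Z else if a = Z then Y else a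

private lemma Square_ex1 : ∀ X Y Z a b : Fin 3, X ≠ Y → X ≠ Z → Y ≠ Z → b ≠ a →
    Square_ex Y Z b ≠ Square_ex Y Z a ∧ (a = X → Square_ex Y Z b ≠ a) ∧
    (b = X → b ≠ Square_ex Y Z a) ∧ (a = X → Square_ex Y Z a ≠ b) ∧
    (b = X → a ≠ Square_ex Y Z b) := by decide

private lemma Square_ex2 : ∀ Y Z a b : Fin 3, Y ≠ Z → b ≠ a →
    sg (b - a) + sg (Square_ex Y Z b - Square_ex Y Z a) = 1 := by decide

private lemma Square_ex3 : ∀ X Y Z : Fin 3, X ≠ Y → X ≠ Z → Square_ex Y Z X = X := by decide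

private lemma Square_exch {E : Type u} [DecidableEq E] {s : Equiv.Perm E} {c c' : E → Fin 3}
    (hc : ∀ e, c (s e) ≠ c e) {X Y Z : Fin 3} (xy : X ≠ Y) (xz : X ≠ Z) (yz : Y ≠ Z)
    (W : Finset E) (e : E)
    (h1 : c' e = if e ∈ W then Square_ex Y Z (c e) else c e)
    (h2 : c' (s e) = if s e ∈ W then Square_ex Y Z (c (s e)) else c (s e))
    (h3 : c e ≠ X → c (s e) ≠ X → (e ∈ W ↔ s e ∈ W)) : c' (s e) ≠ c' e := by
  obtain ⟨k1, k2, k3, k4, k5⟩ := Square_ex1 X Y Z (c e) (c (s e)) xy xz yz (hc e)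
  rw [h1, h2]
  by_cases a1 : e ∈ W
  · by_cases a2 : s e ∈ W
    · rw [if_pos a1, if_pos a2]
      exact k1
    · rw [if_pos a1, if_neg a2]
      by_cases b1 : c e = X
      · exact (k4 b1).symm
      · by_cases b2 : c (s e) = X
        · exact k3 b2
        · exact absurd ((h3 b1 b2).1 a1) a2
  · by_cases a2 : s e ∈ W
    · rw [if_neg a1, if_pos a2]
      by_cases b1 : c e = X
      · exact k2 b1
      · by_cases b2 : c (s e) = X
        · exact (k5 b2).symm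
        · exact absurd ((h3 b1 b2).2 a2) a1
    · rw [if_neg a1, if_neg a2]
      exact hc e

/-- parity contribution of a vertex which is exchanged or not -/
private lemma Square_phi {E : Type u} [DecidableEq E] {s : Equiv.Perm E} {c c' : E → Fin 3}
    (hc : ∀ e, c (s e) ≠ c e) {X Y Z : Fin 3} (xy : X ≠ Y) (xz : X ≠ Z) (yz : Y ≠ Z)
    (W : Finset E) (hWX : ∀ u ∈ W, c u ≠ X) (e : E)
    (h1 : c' e = if e ∈ W then Square_ex Y Z (c e) else c e)
    (h2 : c' (s e) = if s e ∈ W then Square_ex Y Z (c (s e)) else c (s e))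
    (h3 : c e ≠ X → c (s e) ≠ X → (e ∈ W ↔ s e ∈ W)) (he : c e ≠ X) :
    sg (c (s e) - c e) + sg (c' (s e) - c' e) = if e ∈ W then 1 else 0 := by
  have k := Square_ex2 Y Z (c e) (c (s e)) yz (hc e)
  have k3 := Square_ex3 X Y Z xy xz
  have two : ∀ a : ZMod 2, a + a = 0 := by decide
  by_cases b2 : c (s e) = X
  · have a2 : s e ∉ W := fun h => hWX _ h b2
    rw [if_neg a2] at h2
    by_cases a1 : e ∈ W
    · rw [if_pos a1] at h1
      rw [if_pos a1, h1, h2]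
      rw [b2, k3] at k
      rw [b2]
      exact k
    · rw [if_neg a1] at h1
      rw [if_neg a1, h1, h2]
      exact two _
  · have h4 := h3 he b2
    by_cases a1 : e ∈ W
    · have a2 : s e ∈ W := h4.1 a1
      rw [if_pos a1] at h1
      rw [if_pos a2] at h2
      rw [if_pos a1, h1, h2]
      exact k
    · have a2 : s e ∉ W := fun h => a1 (h4.2 h)
      rw [if_neg a1] at h1
      rw [if_neg a2] at h2
      rw [if_neg a1, h1, h2]
      exact two _

/-- `φ` is invariant, sum over a class -/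
private lemma Square_half {E : Type u} [Fintype E] {s : Equiv.Perm E} (s3 : ∀ e, s (s (s e)) = e)
    {c c' : E → Fin 3} (hc : ∀ e, c (s e) ≠ c e) (hc' : ∀ e, c' (s e) ≠ c' e) (k : Fin 3) :
    ∑ e, sg (c (s e) - c e) + ∑ e, sg (c' (s e) - c' e) =
      ∑ e, if c e = k then sg (c (s e) - c e) + sg (c' (s e) - c' e) else 0 := by
  rw [← Finset.sum_add_distrib]
  refine sum_class s s3 c hc (fun e => sg (c (s e) - c e) + sg (c' (s e) - c' e)) ?_ k
  intro e
  obtain ⟨a1, a2, a3⟩ := Square_col3 s3 hc e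
  obtain ⟨b1, b2, b3⟩ := Square_col3 s3 hc' e
  rw [sg_cyc _ _ _ a1 a2 a3, sg_cyc _ _ _ b1 b2 b3]

/-! ### the path -/

private lemma Square_path {E : Type u} [DecidableEq E] (ζ : Equiv.Perm E) (w x y : E)
    (n : ℕ) (hn : (ζ ^ n) w = x) (P : E → Prop) (hw : P w) (hP : ∀ u, P u → P (ζ u)) :
    ∃ (W : Finset E) (v : E), (v = x ∨ v = y) ∧ w ∈ W ∧ v ∈ W ∧ (∀ u ∈ W, P u) ∧
      (x ∈ W → x = v) ∧ (y ∈ W → y = v) ∧ (∀ u ∈ W, u ≠ v → ζ u ∈ W) ∧
      ∀ u, ζ u ∈ W → ζ u ≠ w → u ∈ W ∧ u ≠ x ∧ u ≠ y := by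
  classical
  have hex : ∃ n : ℕ, (ζ ^ n) w = x ∨ (ζ ^ n) w = y := ⟨n, Or.inl hn⟩
  set k := Nat.find hex with hk
  have hk1 := Nat.find_spec hex
  have hk2 : ∀ i, i < k → ¬ ((ζ ^ i) w = x ∨ (ζ ^ i) w = y) := fun i hi => Nat.find_min hex hi
  have hpow : ∀ i, (ζ ^ (i + 1)) w = ζ ((ζ ^ i) w) := by
    intro i
    rw [pow_succ', Equiv.Perm.mul_apply]
  have hPi : ∀ i, P ((ζ ^ i) w) := by
    intro i
    induction i with
    | zero => exact hw
    | succ i ih => rw [hpow]; exact hP _ ih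
  have hmem : ∀ u, u ∈ (Finset.range (k + 1)).image (fun i => (ζ ^ i) w) ↔
      ∃ i, i ≤ k ∧ (ζ ^ i) w = u := by
    intro u
    rw [Finset.mem_image]
    constructor
    · rintro ⟨i, hi, h⟩
      exact ⟨i, by have := Finset.mem_range.1 hi; omega, h⟩
    · rintro ⟨i, hi, h⟩
      exact ⟨i, Finset.mem_range.2 (by omega), h⟩
  refine ⟨(Finset.range (k + 1)).image (fun i => (ζ ^ i) w), (ζ ^ k) w, hk1, ?_, ?_, ?_, ?_, ?_, ?_, ?_⟩
  · rw [hmem]
    exact ⟨0, Nat.zero_le _, rfl⟩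
  · rw [hmem]
    exact ⟨k, le_rfl, rfl⟩
  · intro u hu
    obtain ⟨i, -, rfl⟩ := (hmem u).1 hu
    exact hPi i
  · intro hx
    obtain ⟨i, hi, h⟩ := (hmem x).1 hx
    rcases Nat.lt_or_eq_of_le hi with h1 | h1
    · exact absurd (Or.inl h) (hk2 i h1)
    · rw [← h, h1]
  · intro hy
    obtain ⟨i, hi, h⟩ := (hmem y).1 hy
    rcases Nat.lt_or_eq_of_le hi with h1 | h1
    · exact absurd (Or.inr h) (hk2 i h1)
    · rw [← h, h1]
  · intro u hu huv
    obtain ⟨i, hi, rfl⟩ := (hmem u).1 hu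
    rcases Nat.lt_or_eq_of_le hi with h1 | h1
    · rw [hmem]
      exact ⟨i + 1, h1, hpow i⟩
    · exact absurd (by rw [h1]) huv
  · intro u hu huw
    obtain ⟨i, hi, h⟩ := (hmem _).1 hu
    cases i with
    | zero => exact absurd h.symm huw
    | succ j =>
      rw [hpow] at h
      have h1 : (ζ ^ j) w = u := ζ.injective h
      have h2 := hk2 j (by omega)
      rw [h1] at h2
      exact ⟨(hmem u).2 ⟨j, by omega, h1⟩, fun h => h2 (Or.inl h), fun h => h2 (Or.inr h)⟩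

private lemma Square_zeta {E : Type u} {G : CB E} {c : E → Fin 3} (hc : G.P c) {Y Z : Fin 3}
    (yz : Y ≠ Z) : ∃ ζ : Equiv.Perm E, (∀ e, c e = Y → ζ e = Square_nb G.s c Z e) ∧
      (∀ e, c e = Z → ζ e = Square_nb G.t c Y e) ∧ ∀ e, c e ≠ Y → c e ≠ Z → ζ e = e := by
  have hs : ∀ e, c (G.s e) ≠ c e := fun e => (hc e).1
  have ht : ∀ e, c (G.t e) ≠ c e := fun e => (hc e).2
  refine ⟨⟨fun e => if c e = Y then Square_nb G.s c Z e else if c e = Z then Square_nb G.t c Y e else e,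
    fun e => if c e = Z then Square_nb G.s c Y e else if c e = Y then Square_nb G.t c Z e else e,
    ?_, ?_⟩, ?_, ?_, ?_⟩
  · intro e
    by_cases h1 : c e = Y
    · have h2 := Square_nb_col G.s3 hs Z e
      simp only [if_pos h1, if_pos h2]
      rw [Square_nb_nb G.s3 hs, Square_nb_self h1]
    · by_cases h2 : c e = Z
      · have h3 := Square_nb_col G.t3 ht Y e
        have h4 : c (Square_nb G.t c Y e) ≠ Z := fun h => yz (h3.symm.trans h)
        simp only [if_neg h1, if_pos h2, if_neg h4, if_pos h3]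
        rw [Square_nb_nb G.t3 ht, Square_nb_self h2]
      · simp only [if_neg h1, if_neg h2]
  · intro e
    by_cases h1 : c e = Z
    · have h2 := Square_nb_col G.s3 hs Y e
      simp only [if_pos h1, if_pos h2]
      rw [Square_nb_nb G.s3 hs, Square_nb_self h1]
    · by_cases h2 : c e = Y
      · have h3 := Square_nb_col G.t3 ht Z e
        have h4 : c (Square_nb G.t c Z e) ≠ Y := fun h => yz (h.symm.trans h3)
        simp only [if_neg h1, if_pos h2, if_neg h4, if_pos h3]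
        rw [Square_nb_nb G.t3 ht, Square_nb_self h2]
      · simp only [if_neg h1, if_neg h2]
  · intro e h1
    show (if c e = Y then Square_nb G.s c Z e else _) = _
    rw [if_pos h1]
  · intro e h1
    have h2 : c e ≠ Y := fun h => yz (h.symm.trans h1)
    show (if c e = Y then Square_nb G.s c Z e else if c e = Z then Square_nb G.t c Y e else e) = _
    rw [if_neg h2, if_pos h1]
  · intro e h1 h2
    show (if c e = Y then Square_nb G.s c Z e else if c e = Z then Square_nb G.t c Y e else e) = _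
    rw [if_neg h1, if_neg h2]

/-- the configuration of type S2, not S1 -/
private structure Square_cfg {E : Type u} {G : CB E} (Q : Sq G) (c : E → Fin 3) (X Y Z : Fin 3) :
    Prop where
  hc : G.P c
  xy : X ≠ Y
  xz : X ≠ Z
  yz : Y ≠ Z
  cx : c Q.x = Y
  cw : c Q.w = Y
  cy : c Q.y = Z
  cz : c Q.z = Z
  c1 : c Q.e1 = X
  c2 : c Q.e2 = Y
  c3 : c Q.e3 = X
  c4 : c Q.e4 = Z

/-- the path data -/
private structure Square_dat {E : Type u} {G : CB E} (Q : Sq G) (c : E → Fin 3) (X Y Z : Fin 3)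
    (ζ : Equiv.Perm E) (W : Finset E) (v : E) : Prop where
  zY : ∀ e, c e = Y → ζ e = Square_nb G.s c Z e
  zZ : ∀ e, c e = Z → ζ e = Square_nb G.t c Y e
  zX : ∀ e, c e ≠ Y → c e ≠ Z → ζ e = e
  zx : ζ Q.x = Q.e4
  z4 : ζ Q.e4 = Q.w
  wW : Q.w ∈ W
  vW : v ∈ W
  WX : ∀ u ∈ W, c u ≠ X
  xv : Q.x ∈ W → Q.x = v
  yv : Q.y ∈ W → Q.y = v
  nx : ∀ u ∈ W, u ≠ v → ζ u ∈ W
  pr : ∀ u, ζ u ∈ W → ζ u ≠ Q.w → u ∈ W
  n2 : Q.e2 ∉ W
  n4 : Q.e4 ∉ W
  nz : Q.z ∉ W

section main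
variable {E : Type u} [Fintype E] [DecidableEq E]

private lemma Square_exists {G : CB E} {Q : Sq G} {c : E → Fin 3} {X Y Z : Fin 3}
    (H : Square_cfg Q c X Y Z) :
    ∃ (ζ : Equiv.Perm E) (W : Finset E) (v : E), (v = Q.x ∨ v = Q.y) ∧
      Square_dat Q c X Y Z ζ W v := by
  obtain ⟨ζ, zY, zZ, zX⟩ := Square_zeta H.hc H.yz
  have hs : ∀ e, c (G.s e) ≠ c e := fun e => (H.hc e).1
  have ht : ∀ e, c (G.t e) ≠ c e := fun e => (H.hc e).2
  have zx : ζ Q.x = Q.e4 := by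
    rw [zY _ H.cx, ← (Square_nb_tri G.s3 hs Q.ta Z).2, Square_nb_self H.c4]
  have z4 : ζ Q.e4 = Q.w := by
    rw [zZ _ H.c4, (Square_nb_tri G.t3 ht Q.td Y).2, Square_nb_self H.cw]
  have zy : ζ Q.y = Q.e2 := by
    rw [zZ _ H.cy, ← (Square_nb_tri G.t3 ht Q.tb Y).2, Square_nb_self H.c2]
  have z2 : ζ Q.e2 = Q.z := by
    rw [zY _ H.c2, (Square_nb_tri G.s3 hs Q.tc Z).2, Square_nb_self H.cz]
  have hpos : 0 < orderOf ζ := orderOf_pos ζ
  have hn : (ζ ^ (2 * orderOf ζ - 2)) Q.w = Q.x := by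
    have h1 : (ζ ^ 2) Q.x = Q.w := by
      rw [pow_two, Equiv.Perm.mul_apply, zx, z4]
    rw [← h1, ← Equiv.Perm.mul_apply, ← pow_add,
      show 2 * orderOf ζ - 2 + 2 = orderOf ζ * 2 by omega, pow_mul, pow_orderOf_eq_one, one_pow]
    rfl
  obtain ⟨W, v, hv, wW, vW, WP, xv, yv, nx, pr⟩ := Square_path ζ Q.w Q.x Q.y _ hn
    (fun u => c u ≠ X) (by rw [H.cw]; exact H.xy.symm) (by
      intro u hu
      rcases Square_any2 X Y Z _ H.xy H.xz H.yz hu with h | h
      · rw [zY u h, Square_nb_col G.s3 hs]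
        exact H.xz.symm
      · rw [zZ u h, Square_nb_col G.t3 ht]
        exact H.xy.symm)
  obtain ⟨⟨a1, a2, a3, a4, a5, a6, a7⟩, ⟨b1, b2, b3, b4, b5, b6⟩, ⟨c1, c2, c3, c4, c5⟩, ⟨d1, d2, d3, d4⟩,
      ⟨f1, f2, f3⟩, ⟨g1, g2⟩, k⟩ := Q.ne
  have n2 : Q.e2 ∉ W := by
    intro h
    rw [← zy] at h
    exact (pr Q.y h (by rw [zy]; exact b6)).2.2 rfl
  have n4 : Q.e4 ∉ W := by
    intro h
    rw [← zx] at h
    exact (pr Q.x h (by rw [zx]; exact d4)).2.1 rfl
  have nz : Q.z ∉ W := by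
    intro h
    rw [← z2] at h
    exact n2 (pr Q.e2 h (by rw [z2]; exact k)).1
  exact ⟨ζ, W, v, hv, ⟨zY, zZ, zX, zx, z4, wW, vW, WP, xv, yv, nx, fun u h h' => (pr u h h').1,
    n2, n4, nz⟩⟩

private lemma Square_exX : ∀ X Y Z a : Fin 3, X ≠ Y → X ≠ Z → (Square_ex Y Z a = X ↔ a = X) := by
  decide

private lemma Square_exYZ : ∀ Y Z : Fin 3, Square_ex Y Z Y = Z ∧ Square_ex Y Z Z = Y := by
  decide

omit [Fintype E] in
/-- case (5a) -/
private lemma Square_5a {G : CB E} {Q : Sq G} {c : E → Fin 3} {X Y Z : Fin 3}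
    (H : Square_cfg Q c X Y Z) {ζ : Equiv.Perm E} {W : Finset E}
    (D : Square_dat Q c X Y Z ζ W Q.x) :
    ∃ c', G.P c' ∧ G.KE c c' ∧ c' Q.x = c' Q.y ∧ c' Q.z = c' Q.w := by
  have hs : ∀ e, c (G.s e) ≠ c e := fun e => (H.hc e).1
  have ht : ∀ e, c (G.t e) ≠ c e := fun e => (H.hc e).2
  obtain ⟨⟨a1, a2, a3, a4, a5, a6, a7⟩, ⟨b1, b2, b3, b4, b5, b6⟩, ⟨c1, c2, c3, c4, c5⟩, ⟨d1, d2, d3, d4⟩,
      ⟨f1, f2, f3⟩, ⟨g1, g2⟩, k⟩ := Q.ne
  have hcl : ∀ u, u ∈ insert Q.e4 W ↔ ζ u ∈ insert Q.e4 W := by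
    intro u
    rw [Finset.mem_insert, Finset.mem_insert]
    constructor
    · rintro (rfl | h)
      · right
        rw [D.z4]
        exact D.wW
      · by_cases hx : u = Q.x
        · left
          rw [hx, D.zx]
        · right
          exact D.nx u h hx
    · rintro (h | h)
      · rw [← D.zx] at h
        rw [ζ.injective h]
        right
        exact D.vW
      · by_cases hw : ζ u = Q.w
        · rw [← D.z4] at hw
          left
          exact ζ.injective hw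
        · right
          exact D.pr u h hw
  set W' := insert Q.e4 W with hW'
  set c' : E → Fin 3 := fun e => if e ∈ W' then Square_ex Y Z (c e) else c e with hc'
  have hP : G.P c' := by
    intro e
    constructor
    · refine Square_exch hs H.xy H.xz H.yz W' e rfl rfl
        (Square_pair G.s3 hs H.xy H.xz H.yz W' e ?_)
      intro u _ hu
      rw [← D.zY u hu]
      exact hcl u
    · refine Square_exch ht H.xy H.xz H.yz W' e rfl rfl
        (Square_pair G.t3 ht H.xz H.xy H.yz.symm W' e ?_)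
      intro u _ hu
      rw [← D.zZ u hu]
      exact hcl u
  refine ⟨c', hP, KE_of_rel G H.hc hP ⟨X, fun e => ?_⟩, ?_, ?_⟩
  · show c e = X ↔ (if e ∈ W' then Square_ex Y Z (c e) else c e) = X
    split_ifs
    · exact (Square_exX X Y Z _ H.xy H.xz).symm
    · exact Iff.rfl
  · have hx : Q.x ∈ W' := Finset.mem_insert_of_mem D.vW
    have hy : Q.y ∉ W' := by
      rw [hW', Finset.mem_insert]
      rintro (h | h)
      · exact d2 h.symm
      · exact f1 (D.yv h).symm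
    show (if Q.x ∈ W' then Square_ex Y Z (c Q.x) else c Q.x) =
      (if Q.y ∈ W' then Square_ex Y Z (c Q.y) else c Q.y)
    rw [if_pos hx, if_neg hy, H.cx, H.cy]
    exact (Square_exYZ Y Z).1
  · have hw : Q.w ∈ W' := Finset.mem_insert_of_mem D.wW
    have hz : Q.z ∉ W' := by
      rw [hW', Finset.mem_insert]
      rintro (h | h)
      · exact d3 h.symm
      · exact D.nz h
    show (if Q.z ∈ W' then Square_ex Y Z (c Q.z) else c Q.z) =
      (if Q.w ∈ W' then Square_ex Y Z (c Q.w) else c Q.w)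
    rw [if_pos hw, if_neg hz, H.cw, H.cz]
    exact (Square_exYZ Y Z).1.symm

private lemma Square_sg1 : ∀ X Y Z : Fin 3, X ≠ Y → X ≠ Z → Y ≠ Z →
    sg (X - Y) + sg (Z - Y) = 1 ∧ sg (Z - Y) + sg (X - Y) = 1 ∧ sg (Z - Y) + sg (Z - X) = 1 ∧
    sg (X - Y) + sg (Y - X) = 1 ∧ sg (X - Z) + sg (Z - Y) = 0 ∧ sg (Y - Z) + sg (X - Y) = 0 ∧
    sg (Y - Z) + sg (Z - X) = 0 ∧ sg (X - Z) + sg (Y - X) = 0 := by decide

/-- case (5b) -/
private lemma Square_5b {G : CB E} {Q : Sq G} {c : E → Fin 3} {X Y Z : Fin 3}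
    (H : Square_cfg Q c X Y Z) {ζ : Equiv.Perm E} {W : Finset E}
    (D : Square_dat Q c X Y Z ζ W Q.y) : ∃ c', G.P c' ∧ G.par c + G.par c' = 1 := by
  have hs : ∀ e, c (G.s e) ≠ c e := fun e => (H.hc e).1
  have ht : ∀ e, c (G.t e) ≠ c e := fun e => (H.hc e).2
  obtain ⟨⟨a1, a2, a3, a4, a5, a6, a7⟩, ⟨b1, b2, b3, b4, b5, b6⟩, ⟨c1, c2, c3, c4, c5⟩, ⟨d1, d2, d3, d4⟩,
      ⟨f1, f2, f3⟩, ⟨g1, g2⟩, k⟩ := Q.ne
  have nx : Q.x ∉ W := fun h => f1 (D.xv h)
  set c' : E → Fin 3 := fun e => if e = Q.e1 then Z else if e = Q.e2 then X else if e = Q.e3 then Y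
    else if e = Q.e4 then X else if e ∈ W then Square_ex Y Z (c e) else c e with hc'
  have v1 : c' Q.e1 = Z := by
    show (if Q.e1 = Q.e1 then Z else _) = Z
    rw [if_pos rfl]
  have v2 : c' Q.e2 = X := by
    show (if Q.e2 = Q.e1 then Z else if Q.e2 = Q.e2 then X else _) = X
    rw [if_neg a1.symm, if_pos rfl]
  have v3 : c' Q.e3 = Y := by
    show (if Q.e3 = Q.e1 then Z else if Q.e3 = Q.e2 then X else if Q.e3 = Q.e3 then Y else _) = Y
    rw [if_neg a2.symm, if_neg b1.symm, if_pos rfl]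
  have v4 : c' Q.e4 = X := by
    show (if Q.e4 = Q.e1 then Z else if Q.e4 = Q.e2 then X else if Q.e4 = Q.e3 then Y else
      if Q.e4 = Q.e4 then X else _) = X
    rw [if_neg a3.symm, if_neg b2.symm, if_neg c1.symm, if_pos rfl]
  have vo : ∀ e, e ≠ Q.e1 → e ≠ Q.e2 → e ≠ Q.e3 → e ≠ Q.e4 →
      c' e = if e ∈ W then Square_ex Y Z (c e) else c e := by
    intro e h1 h2 h3 h4
    show (if e = Q.e1 then Z else if e = Q.e2 then X else if e = Q.e3 then Y
      else if e = Q.e4 then X else if e ∈ W then Square_ex Y Z (c e) else c e) = _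
    rw [if_neg h1, if_neg h2, if_neg h3, if_neg h4]
  have vx : c' Q.x = Y := by
    rw [vo _ a4.symm b3.symm c2.symm d1.symm, if_neg nx, H.cx]
  have vy : c' Q.y = Y := by
    rw [vo _ a5.symm b4.symm c3.symm d2.symm, if_pos D.vW, H.cy]
    exact (Square_exYZ Y Z).2
  have vz : c' Q.z = Z := by
    rw [vo _ a6.symm b5.symm c4.symm d3.symm, if_neg D.nz, H.cz]
  have vw : c' Q.w = Z := by
    rw [vo _ a7.symm b6.symm c5.symm d4.symm, if_pos D.wW, H.cw]
    exact (Square_exYZ Y Z).1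
  -- closure
  have clY : ∀ u, c u = Y → (u ∈ W ↔ Square_nb G.s c Z u ∈ W) := by
    intro u hu
    rw [← D.zY u hu]
    have hcz : c (ζ u) = Z := by rw [D.zY u hu, Square_nb_col G.s3 hs]
    constructor
    · intro h
      exact D.nx u h (fun h' => H.yz (by rw [← hu, h', H.cy]))
    · intro h
      exact D.pr u h (fun h' => H.yz (by rw [← hcz, h', H.cw]))
  have clZ : ∀ u, c u = Z → u ≠ Q.y → u ≠ Q.e4 → (u ∈ W ↔ Square_nb G.t c Y u ∈ W) := by
    intro u hu h1 h2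
    rw [← D.zZ u hu]
    constructor
    · intro h
      exact D.nx u h h1
    · intro h
      exact D.pr u h (fun h' => h2 (ζ.injective (by rw [h', D.z4])))
  -- special vertices
  have ns : ∀ e, ¬ (e = Q.x ∨ e = Q.e1 ∨ e = Q.e4) → ¬ (e = Q.z ∨ e = Q.e3 ∨ e = Q.e2) →
      (c' e = if e ∈ W then Square_ex Y Z (c e) else c e) ∧
      (c' (G.s e) = if G.s e ∈ W then Square_ex Y Z (c (G.s e)) else c (G.s e)) := by
    intro e h1 h2
    have h3 : ¬ (G.s e = Q.x ∨ G.s e = Q.e1 ∨ G.s e = Q.e4) := fun h => h1 ((Q.ta.mem e).1 h)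
    have h4 : ¬ (G.s e = Q.z ∨ G.s e = Q.e3 ∨ G.s e = Q.e2) := fun h => h2 ((Q.tc.mem e).1 h)
    push Not at h1 h2 h3 h4
    exact ⟨vo e h1.2.1 h2.2.2 h2.2.1 h1.2.2, vo _ h3.2.1 h4.2.2 h4.2.1 h3.2.2⟩
  have nt : ∀ e, ¬ (e = Q.y ∨ e = Q.e1 ∨ e = Q.e2) → ¬ (e = Q.w ∨ e = Q.e3 ∨ e = Q.e4) →
      (c' e = if e ∈ W then Square_ex Y Z (c e) else c e) ∧
      (c' (G.t e) = if G.t e ∈ W then Square_ex Y Z (c (G.t e)) else c (G.t e)) ∧
      e ≠ Q.y ∧ e ≠ Q.e4 ∧ G.t e ≠ Q.y ∧ G.t e ≠ Q.e4 := by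
    intro e h1 h2
    have h3 : ¬ (G.t e = Q.y ∨ G.t e = Q.e1 ∨ G.t e = Q.e2) := fun h => h1 ((Q.tb.mem e).1 h)
    have h4 : ¬ (G.t e = Q.w ∨ G.t e = Q.e3 ∨ G.t e = Q.e4) := fun h => h2 ((Q.td.mem e).1 h)
    push Not at h1 h2 h3 h4
    exact ⟨vo e h1.2.1 h1.2.2 h2.2.1 h2.2.2, vo _ h3.2.1 h3.2.2 h4.2.1 h4.2.2, h1.1, h2.2.2,
      h3.1, h4.2.2⟩
  have ps : ∀ e, c e ≠ X → c (G.s e) ≠ X → (e ∈ W ↔ G.s e ∈ W) := fun e =>
    Square_pair G.s3 hs H.xy H.xz H.yz W e (fun u _ hu => clY u hu)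
  have pt : ∀ e, e ≠ Q.y → e ≠ Q.e4 → G.t e ≠ Q.y → G.t e ≠ Q.e4 →
      c e ≠ X → c (G.t e) ≠ X → (e ∈ W ↔ G.t e ∈ W) := fun e m1 m2 m3 m4 =>
    Square_pair G.t3 ht H.xz H.xy H.yz.symm W e (fun u hu hu' => by
      rcases hu with rfl | rfl
      · exact clZ _ hu' m1 m2
      · exact clZ _ hu' m3 m4)
  have hP : G.P c' := by
    intro e
    constructor
    · by_cases h1 : e = Q.x ∨ e = Q.e1 ∨ e = Q.e4
      · exact Q.ta.proper (by rw [vx, v1]; exact H.yz) (by rw [vx, v4]; exact H.xy.symm)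
          (by rw [v1, v4]; exact H.xz.symm) e h1
      · by_cases h2 : e = Q.z ∨ e = Q.e3 ∨ e = Q.e2
        · exact Q.tc.proper (by rw [vz, v3]; exact H.yz.symm) (by rw [vz, v2]; exact H.xz.symm)
            (by rw [v3, v2]; exact H.xy.symm) e h2
        · obtain ⟨r1, r2⟩ := ns e h1 h2
          exact Square_exch hs H.xy H.xz H.yz W e r1 r2 (ps e)
    · by_cases h1 : e = Q.y ∨ e = Q.e1 ∨ e = Q.e2
      · exact Q.tb.proper (by rw [vy, v1]; exact H.yz) (by rw [vy, v2]; exact H.xy.symm)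
          (by rw [v1, v2]; exact H.xz.symm) e h1
      · by_cases h2 : e = Q.w ∨ e = Q.e3 ∨ e = Q.e4
        · exact Q.td.proper (by rw [vw, v3]; exact H.yz.symm) (by rw [vw, v4]; exact H.xz.symm)
            (by rw [v3, v4]; exact H.xy.symm) e h2
        · obtain ⟨r1, r2, r3, r4, r5, r6⟩ := nt e h1 h2
          exact Square_exch ht H.xy H.xz H.yz W e r1 r2 (pt e r3 r4 r5 r6)
  refine ⟨c', hP, ?_⟩
  obtain ⟨q1, q2, q3, q4, q5, q6, q7, q8⟩ := Square_sg1 X Y Z H.xy H.xz H.yz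
  -- the `s`-side
  have S1 : ∑ e, sg (c (G.s e) - c e) + ∑ e, sg (c' (G.s e) - c' e) =
      ∑ e, (if c e = Y then (if e ∈ W then (1 : ZMod 2) else 0) else 0) := by
    rw [Square_half G.s3 hs (fun e => (hP e).1) Y]
    have h1 : ∀ e, (if c e = Y then sg (c (G.s e) - c e) + sg (c' (G.s e) - c' e) else 0) =
        (if c e = Y then (if e ∈ W then (1 : ZMod 2) else 0) else 0) +
          ((if e = Q.x then 1 else 0) + (if e = Q.e2 then 1 else 0)) := by
      intro e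
      by_cases h : c e = Y
      · rw [if_pos h, if_pos h]
        by_cases ex : e = Q.x
        · have m2 : Q.x ≠ Q.e2 := b3.symm
          rw [ex, if_neg nx, if_pos rfl, if_neg m2, H.cx, vx, zero_add, add_zero]
          rcases Q.ta with ⟨r1, -, -⟩ | ⟨r1, -, -⟩
          · rw [r1, H.c1, v1]; exact q1
          · rw [r1, H.c4, v4]; exact q2
        · by_cases e2 : e = Q.e2
          · have m1 : Q.e2 ≠ Q.x := b3
            rw [e2, if_neg D.n2, if_neg m1, if_pos rfl, H.c2, v2, zero_add, zero_add]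
            rcases Q.tc with ⟨-, -, r1⟩ | ⟨-, r1, -⟩
            · rw [r1, H.cz, vz]; exact q3
            · rw [r1, H.c3, v3]; exact q4
          · have m1 : ¬ (e = Q.x ∨ e = Q.e1 ∨ e = Q.e4) := by
              rintro (h' | h' | h')
              · exact ex h'
              · rw [h', H.c1] at h; exact H.xy h
              · rw [h', H.c4] at h; exact H.yz h.symm
            have m2 : ¬ (e = Q.z ∨ e = Q.e3 ∨ e = Q.e2) := by
              rintro (h' | h' | h')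
              · rw [h', H.cz] at h; exact H.yz h.symm
              · rw [h', H.c3] at h; exact H.xy h
              · exact e2 h'
            obtain ⟨r1, r2⟩ := ns e m1 m2
            rw [if_neg ex, if_neg e2, add_zero, add_zero]
            exact Square_phi hs H.xy H.xz H.yz W D.WX e r1 r2 (ps e) (by rw [h]; exact H.xy.symm)
      · have ex : e ≠ Q.x := fun h' => h (by rw [h', H.cx])
        have e2 : e ≠ Q.e2 := fun h' => h (by rw [h', H.c2])
        rw [if_neg h, if_neg h, if_neg ex, if_neg e2, add_zero, add_zero]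
    rw [Finset.sum_congr rfl (fun e _ => h1 e), Finset.sum_add_distrib, Finset.sum_add_distrib,
      Finset.sum_ite_eq', Finset.sum_ite_eq', if_pos (Finset.mem_univ _), if_pos (Finset.mem_univ _)]
    have : (1 : ZMod 2) + 1 = 0 := by decide
    rw [this, add_zero]
  -- the `t`-side
  have T1 : ∑ e, sg (c (G.t e) - c e) + ∑ e, sg (c' (G.t e) - c' e) =
      ∑ e, (if c e = Z then (if e ∈ W then (1 : ZMod 2) else 0) else 0) + 1 := by
    rw [Square_half G.t3 ht (fun e => (hP e).2) Z]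
    have h1 : ∀ e, (if c e = Z then sg (c (G.t e) - c e) + sg (c' (G.t e) - c' e) else 0) =
        (if c e = Z then (if e ∈ W then (1 : ZMod 2) else 0) else 0) +
          (if e = Q.y then 1 else 0) := by
      intro e
      have two : (1 : ZMod 2) + 1 = 0 := by decide
      by_cases h : c e = Z
      · rw [if_pos h, if_pos h]
        by_cases ey : e = Q.y
        · rw [ey, if_pos D.vW, if_pos rfl, H.cy, vy, two]
          rcases Q.tb with ⟨r1, -, -⟩ | ⟨r1, -, -⟩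
          · rw [r1, H.c1, v1]; exact q5
          · rw [r1, H.c2, v2]; exact q6
        · by_cases e4 : e = Q.e4
          · have m1 : Q.e4 ≠ Q.y := d2
            rw [e4, if_neg D.n4, if_neg m1, H.c4, v4, add_zero]
            rcases Q.td with ⟨-, -, r1⟩ | ⟨-, r1, -⟩
            · rw [r1, H.cw, vw]; exact q7
            · rw [r1, H.c3, v3]; exact q8
          · have m1 : ¬ (e = Q.y ∨ e = Q.e1 ∨ e = Q.e2) := by
              rintro (h' | h' | h')
              · exact ey h'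
              · rw [h', H.c1] at h; exact H.xz h
              · rw [h', H.c2] at h; exact H.yz h
            have m2 : ¬ (e = Q.w ∨ e = Q.e3 ∨ e = Q.e4) := by
              rintro (h' | h' | h')
              · rw [h', H.cw] at h; exact H.yz h
              · rw [h', H.c3] at h; exact H.xz h
              · exact e4 h'
            obtain ⟨r1, r2, r3, r4, r5, r6⟩ := nt e m1 m2
            rw [if_neg ey, add_zero]
            exact Square_phi ht H.xy H.xz H.yz W D.WX e r1 r2 (pt e r3 r4 r5 r6)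
              (by rw [h]; exact H.xz.symm)
      · have ey : e ≠ Q.y := fun h' => h (by rw [h', H.cy])
        rw [if_neg h, if_neg h, if_neg ey, add_zero]
    rw [Finset.sum_congr rfl (fun e _ => h1 e), Finset.sum_add_distrib,
      Finset.sum_ite_eq', if_pos (Finset.mem_univ _)]
  -- the two sums are equal
  have ST : ∑ e, (if c e = Z then (if e ∈ W then (1 : ZMod 2) else 0) else 0) =
      ∑ e, (if c e = Y then (if e ∈ W then (1 : ZMod 2) else 0) else 0) := by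
    rw [← Equiv.sum_comp ζ (fun e => (if c e = Z then (if e ∈ W then (1 : ZMod 2) else 0) else 0))]
    refine Finset.sum_congr rfl fun e _ => ?_
    by_cases h : c e = Y
    · have h1 : c (ζ e) = Z := by rw [D.zY e h, Square_nb_col G.s3 hs]
      rw [if_pos h, if_pos h1]
      have h2 := clY e h
      rw [← D.zY e h] at h2
      by_cases h3 : e ∈ W
      · rw [if_pos h3, if_pos (h2.1 h3)]
      · rw [if_neg h3, if_neg (fun h' => h3 (h2.2 h'))]
    · rw [if_neg h]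
      by_cases h' : c e = Z
      · have h1 : c (ζ e) = Y := by rw [D.zZ e h', Square_nb_col G.t3 ht]
        rw [if_neg (by rw [h1]; exact H.yz)]
      · rw [D.zX e h h', if_neg h']
  have key : ∀ a b a' b' m : ZMod 2, a + a' = m → b + b' = m + 1 → (a + b) + (a' + b') = 1 := by
    decide
  unfold CB.par
  exact key _ _ _ _ _ S1 (by rw [T1, ST])

private lemma Square_types1 : ∀ x y z w f1 f2 f3 f4 : Fin 3, x ≠ f1 → x ≠ f4 → f1 ≠ f4 →
    z ≠ f3 → z ≠ f2 → f3 ≠ f2 → y ≠ f1 → y ≠ f2 → f1 ≠ f2 → w ≠ f3 → w ≠ f4 → f3 ≠ f4 →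
    (x = y ∧ z = w) ∨ (x = w ∧ y = z ∧ x ≠ y ∧ f1 = f3 ∧ f2 = x ∧ f4 = y ∧ f1 ≠ x ∧ f1 ≠ y) := by
  intro x y z w f1 f2 f3 f4 h1 h2 h3 h4 h5 h6 h7 h8 h9 h10 h11 h12
  by_cases h : f2 = f4
  · left
    subst h
    exact ⟨(ne3 f1 f2 x y h3 h1 h2 h7 h8).symm, (ne3 f3 f2 z w h6 h4 h5 h10 h11).symm⟩
  · have e1 : f3 = f1 := ne3 f2 f4 f1 f3 h h9 h3 h6 h12
    subst e1
    by_cases hxy : x = y
    · left
      subst hxy
      exact absurd (ne3 f3 x f2 f4 h1.symm h6.symm h8.symm h3.symm h2.symm).symm h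
    · right
      have k1 : w = x := ne3 f3 f4 x w h3 h1 h2 h10 h11
      have k2 : z = y := ne3 f3 f2 y z h9 h7 h8 h4 h5
      refine ⟨k1.symm, k2.symm, hxy, rfl, ?_, ?_, h1.symm, h7.symm⟩
      · exact ne3 y f3 x f2 h7 hxy h1 h8.symm h6.symm
      · exact ne3 x f3 y f4 h1 (Ne.symm hxy) h7 h2.symm h3.symm

/-- the claim (5) -/
private lemma Square_S1 {G : CB E} (Q : Sq G) (hPC : G.PC) (c : E → Fin 3) (hc : G.P c) :
    ∃ c', G.P c' ∧ G.KE c c' ∧ c' Q.x = c' Q.y ∧ c' Q.z = c' Q.w := by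
  obtain ⟨h1, h2, h3⟩ := Q.ta.col (fun e => (hc e).1)
  obtain ⟨h4, h5, h6⟩ := Q.tc.col (fun e => (hc e).1)
  obtain ⟨h7, h8, h9⟩ := Q.tb.col (fun e => (hc e).2)
  obtain ⟨h10, h11, h12⟩ := Q.td.col (fun e => (hc e).2)
  rcases Square_types1 _ _ _ _ _ _ _ _ h1 h2 h3 h4 h5 h6 h7 h8 h9 h10 h11 h12 with
    ⟨k1, k2⟩ | ⟨k1, k2, k3, k4, k5, k6, k7, k8⟩
  · exact ⟨c, hc, Relation.EqvGen.refl _, k1, k2⟩
  · have H : Square_cfg Q c (c Q.e1) (c Q.x) (c Q.y) :=
      ⟨hc, k7, k8, k3, rfl, k1.symm, rfl, k2.symm, rfl, k5, k4.symm, k6⟩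
    obtain ⟨ζ, W, v, hv, D⟩ := Square_exists H
    rcases hv with rfl | rfl
    · exact Square_5a H D
    · obtain ⟨c', hc', h⟩ := Square_5b H D
      have h' := hPC c c' hc hc'
      rw [h'] at h
      exfalso
      revert h
      generalize G.par c' = a
      revert a
      decide

/-! ### the lift -/

/-- the colour of `e2` and `e4` -/
private def Square_E2 (m p q : Fin 3) : Fin 3 :=
  if p = q then (if m = p then p + 1 else m) else -(p + q)

private lemma Square_E : ∀ m p q : Fin 3,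
    p ≠ -(p + Square_E2 m p q) ∧ p ≠ Square_E2 m p q ∧ -(p + Square_E2 m p q) ≠ Square_E2 m p q ∧
    q ≠ -(q + Square_E2 m p q) ∧ q ≠ Square_E2 m p q ∧ -(q + Square_E2 m p q) ≠ Square_E2 m p q := by
  decide

omit [Fintype E] in
private lemma Square_xR {G : CB E} (Q : Sq G) : Q.x ∉ Q.redn.R ∧ Q.z ∉ Q.redn.R := by
  obtain ⟨⟨a1, a2, a3, a4, a5, a6, a7⟩, ⟨b1, b2, b3, b4, b5, b6⟩, ⟨c1, c2, c3, c4, c5⟩, ⟨d1, d2, d3, d4⟩,
      ⟨f1, f2, f3⟩, ⟨g1, g2⟩, k⟩ := Q.ne
  rw [Q.redn_R]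
  simp only [Finset.mem_insert, Finset.mem_singleton]
  constructor
  · rintro (h | h | h | h | h | h)
    · exact a4 h.symm
    · exact b3 h.symm
    · exact c2 h.symm
    · exact d1 h.symm
    · exact f1 h
    · exact f3 h
  · rintro (h | h | h | h | h | h)
    · exact a6 h.symm
    · exact b5 h.symm
    · exact c4 h.symm
    · exact d3 h.symm
    · exact g1 h.symm
    · exact k h

/-- the lift -/
private def Square_L {G : CB E} (Q : Sq G) (m : Fin 3) (d : {e // e ∉ Q.redn.R} → Fin 3) (a : E) :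
    Fin 3 :=
  if h : a ∉ Q.redn.R then d ⟨a, h⟩ else
    if a = Q.y then d ⟨Q.x, (Square_xR Q).1⟩ else if a = Q.w then d ⟨Q.z, (Square_xR Q).2⟩ else
    if a = Q.e1 then -(d ⟨Q.x, (Square_xR Q).1⟩ +
      Square_E2 m (d ⟨Q.x, (Square_xR Q).1⟩) (d ⟨Q.z, (Square_xR Q).2⟩)) else
    if a = Q.e3 then -(d ⟨Q.z, (Square_xR Q).2⟩ +
      Square_E2 m (d ⟨Q.x, (Square_xR Q).1⟩) (d ⟨Q.z, (Square_xR Q).2⟩)) else
    Square_E2 m (d ⟨Q.x, (Square_xR Q).1⟩) (d ⟨Q.z, (Square_xR Q).2⟩)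

omit [Fintype E] in
private lemma Square_L0 {G : CB E} (Q : Sq G) (m : Fin 3) (d : {e // e ∉ Q.redn.R} → Fin 3)
    (x : {e // e ∉ Q.redn.R}) : Square_L Q m d x.1 = d x := by
  unfold Square_L
  rw [dif_pos x.2]

/-- the values of the lift -/
private lemma Square_Lv {G : CB E} (Q : Sq G) (m : Fin 3) (d : {e // e ∉ Q.redn.R} → Fin 3) :
    Square_L Q m d Q.y = Square_L Q m d Q.x ∧ Square_L Q m d Q.w = Square_L Q m d Q.z ∧
    Square_L Q m d Q.e2 = Square_E2 m (Square_L Q m d Q.x) (Square_L Q m d Q.z) ∧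
    Square_L Q m d Q.e4 = Square_E2 m (Square_L Q m d Q.x) (Square_L Q m d Q.z) ∧
    Square_L Q m d Q.e1 =
      -(Square_L Q m d Q.x + Square_E2 m (Square_L Q m d Q.x) (Square_L Q m d Q.z)) ∧
    Square_L Q m d Q.e3 =
      -(Square_L Q m d Q.z + Square_E2 m (Square_L Q m d Q.x) (Square_L Q m d Q.z)) := by
  obtain ⟨⟨a1, a2, a3, a4, a5, a6, a7⟩, ⟨b1, b2, b3, b4, b5, b6⟩, ⟨c1, c2, c3, c4, c5⟩, ⟨d1, d2, d3, d4⟩,
      ⟨f1, f2, f3⟩, ⟨g1, g2⟩, k⟩ := Q.ne
  rw [Square_L0 Q m d ⟨Q.x, (Square_xR Q).1⟩, Square_L0 Q m d ⟨Q.z, (Square_xR Q).2⟩]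
  unfold Square_L
  refine ⟨?_, ?_, ?_, ?_, ?_, ?_⟩
  · rw [dif_neg (by rw [Q.redn_R]; simp), if_pos rfl]
  · rw [dif_neg (by rw [Q.redn_R]; simp), if_neg g2.symm, if_pos rfl]
  · rw [dif_neg (by rw [Q.redn_R]; simp), if_neg b4, if_neg b6, if_neg a1.symm, if_neg b1]
  · rw [dif_neg (by rw [Q.redn_R]; simp), if_neg d2, if_neg d4, if_neg a3.symm, if_neg c1.symm]
  · rw [dif_neg (by rw [Q.redn_R]; simp), if_neg a5, if_neg a7, if_pos rfl]
  · rw [dif_neg (by rw [Q.redn_R]; simp), if_neg c3, if_neg c5, if_neg a2.symm, if_pos rfl]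

omit [Fintype E] in
private lemma Square_Lth {G : CB E} (Q : Sq G) (l : E → Fin 3) (h1 : l Q.y = l Q.x)
    (h2 : l Q.w = l Q.z) (a : E) : l (Q.redn.th a) = l a := by
  obtain ⟨⟨a1, a2, a3, a4, a5, a6, a7⟩, ⟨b1, b2, b3, b4, b5, b6⟩, ⟨c1, c2, c3, c4, c5⟩, ⟨d1, d2, d3, d4⟩,
      ⟨f1, f2, f3⟩, ⟨g1, g2⟩, k⟩ := Q.ne
  rw [Q.redn_th, Equiv.Perm.mul_apply]
  by_cases ez : a = Q.z
  · rw [ez, Equiv.swap_apply_left, Equiv.swap_apply_of_ne_of_ne f3.symm g2.symm, h2]
  · by_cases ew : a = Q.w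
    · rw [ew, Equiv.swap_apply_right, Equiv.swap_apply_of_ne_of_ne f2.symm g1.symm, h2]
    · rw [Equiv.swap_apply_of_ne_of_ne ez ew]
      by_cases ex : a = Q.x
      · rw [ex, Equiv.swap_apply_left, h1]
      · by_cases ey : a = Q.y
        · rw [ey, Equiv.swap_apply_right, h1]
        · rw [Equiv.swap_apply_of_ne_of_ne ex ey]

omit [Fintype E] in
private lemma Square_memth {G : CB E} (Q : Sq G) (a : E) : Q.redn.th a ∈ Q.redn.R ↔
    ((a = Q.x ∨ a = Q.e1 ∨ a = Q.e4) ∨ (a = Q.z ∨ a = Q.e3 ∨ a = Q.e2)) := by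
  obtain ⟨⟨a1, a2, a3, a4, a5, a6, a7⟩, ⟨b1, b2, b3, b4, b5, b6⟩, ⟨c1, c2, c3, c4, c5⟩, ⟨d1, d2, d3, d4⟩,
      ⟨f1, f2, f3⟩, ⟨g1, g2⟩, k⟩ := Q.ne
  rw [Q.redn_R, Q.redn_th]
  simp only [Equiv.Perm.mul_apply, Equiv.swap_apply_def, Finset.mem_insert, Finset.mem_singleton]
  split_ifs <;> simp_all <;> tauto

omit [Fintype E] in
private lemma Square_memR {G : CB E} (Q : Sq G) (a : E) : a ∈ Q.redn.R ↔
    ((a = Q.y ∨ a = Q.e1 ∨ a = Q.e2) ∨ (a = Q.w ∨ a = Q.e3 ∨ a = Q.e4)) := by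
  rw [Q.redn_R]
  simp only [Finset.mem_insert, Finset.mem_singleton]
  tauto

private lemma Square_fil {G : CB E} (Q : Sq G) : univ.filter (fun a => Q.redn.th a ∈ Q.redn.R) =
    {Q.x, Q.e1, Q.e4, Q.z, Q.e3, Q.e2} := by
  ext a
  rw [Finset.mem_filter, Square_memth]
  simp only [Finset.mem_univ, true_and, Finset.mem_insert, Finset.mem_singleton]
  tauto

omit [Fintype E] in
private lemma Square_fR {G : CB E} (Q : Sq G) :
    Q.redn.R = {Q.y, Q.e1, Q.e2, Q.w, Q.e3, Q.e4} := by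
  ext a
  rw [Square_memR]
  simp only [Finset.mem_insert, Finset.mem_singleton]
  tauto

private lemma Square_LP {G : CB E} (Q : Sq G) (m : Fin 3) (d : {e // e ∉ Q.redn.R} → Fin 3)
    (hd : (G.red Q.redn).P d) : G.P (Square_L Q m d) := by
  obtain ⟨vy, vw, v2, v4, v1, v3⟩ := Square_Lv Q m d
  obtain ⟨k1, k2, k3, k4, k5, k6⟩ := Square_E m (Square_L Q m d Q.x) (Square_L Q m d Q.z)
  refine Square_liftP Q.redn d hd _ (Square_L0 Q m d) (Square_Lth Q _ vy vw) ?_ ?_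
  · intro a ha
    rcases (Square_memth Q a).1 ha with h | h
    · exact Q.ta.proper (by rw [v1]; exact k1) (by rw [v4]; exact k2) (by rw [v1, v4]; exact k3) a h
    · exact Q.tc.proper (by rw [v3]; exact k4) (by rw [v2]; exact k5) (by rw [v3, v2]; exact k6) a h
  · intro a ha
    rcases (Square_memR Q a).1 ha with h | h
    · exact Q.tb.proper (by rw [vy, v1]; exact k1) (by rw [vy, v2]; exact k2)
        (by rw [v1, v2]; exact k3) a h
    · exact Q.td.proper (by rw [vw, v3]; exact k4) (by rw [vw, v4]; exact k5)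
        (by rw [v3, v4]; exact k6) a h

private lemma Square_rel1 : ∀ m m' p q : Fin 3,
    (Square_E2 m p q = p ↔ Square_E2 m' p q = p) ∧
    (-(p + Square_E2 m p q) = p ↔ -(p + Square_E2 m' p q) = p) ∧
    (-(q + Square_E2 m p q) = p ↔ -(q + Square_E2 m' p q) = p) := by decide

private lemma Square_rel2 : ∀ k p q p' q' : Fin 3, (p = k ↔ p' = k) → (q = k ↔ q' = k) →
    (Square_E2 k p q = k ↔ Square_E2 k p' q' = k) ∧
    (-(p + Square_E2 k p q) = k ↔ -(p' + Square_E2 k p' q') = k) ∧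
    (-(q + Square_E2 k p q) = k ↔ -(q' + Square_E2 k p' q') = k) := by decide

private lemma Square_rel3 : ∀ m p q f1 f2 f3 f4 : Fin 3, p ≠ f1 → p ≠ f4 → p ≠ f2 → q ≠ f3 →
    q ≠ f2 → f3 ≠ f2 →
    (f1 = p ↔ -(p + Square_E2 m p q) = p) ∧ (f2 = p ↔ Square_E2 m p q = p) ∧
    (f3 = p ↔ -(q + Square_E2 m p q) = p) ∧ (f4 = p ↔ Square_E2 m p q = p) := by decide

omit [Fintype E] in
/-- sharing a class is checked at `x, z, ...` -/
private lemma Square_relof {G : CB E} (Q : Sq G) (l l' : E → Fin 3) (k : Fin 3)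
    (h0 : ∀ a, a ∉ Q.redn.R → (l a = k ↔ l' a = k)) (hy : l Q.y = k ↔ l' Q.y = k)
    (hw : l Q.w = k ↔ l' Q.w = k) (h1 : l Q.e1 = k ↔ l' Q.e1 = k) (h2 : l Q.e2 = k ↔ l' Q.e2 = k)
    (h3 : l Q.e3 = k ↔ l' Q.e3 = k) (h4 : l Q.e4 = k ↔ l' Q.e4 = k) : Rel l l' := by
  refine ⟨k, fun a => ?_⟩
  by_cases ha : a ∈ Q.redn.R
  · rw [Q.redn_R] at ha
    simp only [Finset.mem_insert, Finset.mem_singleton] at ha
    rcases ha with h | h | h | h | h | h
    · rw [h]; exact h1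
    · rw [h]; exact h2
    · rw [h]; exact h3
    · rw [h]; exact h4
    · rw [h]; exact hy
    · rw [h]; exact hw
  · exact h0 a ha

private lemma Square_LL {G : CB E} (Q : Sq G) (m m' : Fin 3) (d : {e // e ∉ Q.redn.R} → Fin 3)
    (hd : (G.red Q.redn).P d) : G.KE (Square_L Q m d) (Square_L Q m' d) := by
  obtain ⟨vy, vw, v2, v4, v1, v3⟩ := Square_Lv Q m d
  obtain ⟨vy', vw', v2', v4', v1', v3'⟩ := Square_Lv Q m' d
  have ex : Square_L Q m' d Q.x = Square_L Q m d Q.x := by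
    rw [Square_L0 Q m d ⟨Q.x, (Square_xR Q).1⟩, Square_L0 Q m' d ⟨Q.x, (Square_xR Q).1⟩]
  have ez : Square_L Q m' d Q.z = Square_L Q m d Q.z := by
    rw [Square_L0 Q m d ⟨Q.z, (Square_xR Q).2⟩, Square_L0 Q m' d ⟨Q.z, (Square_xR Q).2⟩]
  rw [ex, ez] at v2' v4' v1' v3'
  rw [ex] at vy'
  rw [ez] at vw'
  obtain ⟨r1, r2, r3⟩ := Square_rel1 m m' (Square_L Q m d Q.x) (Square_L Q m d Q.z)
  refine KE_of_rel G (Square_LP Q m d hd) (Square_LP Q m' d hd)
    (Square_relof Q _ _ (Square_L Q m d Q.x) ?_ ?_ ?_ ?_ ?_ ?_ ?_)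
  · intro a ha
    rw [Square_L0 Q m d ⟨a, ha⟩, Square_L0 Q m' d ⟨a, ha⟩]
  · rw [vy, vy']
  · rw [vw, vw']
  · rw [v1, v1']; exact r2
  · rw [v2, v2']; exact r1
  · rw [v3, v3']; exact r3
  · rw [v4, v4']; exact r1

private lemma Square_Lrel {G : CB E} (Q : Sq G) (k : Fin 3) (d d' : {e // e ∉ Q.redn.R} → Fin 3)
    (hd : (G.red Q.redn).P d) (hd' : (G.red Q.redn).P d') (hk : ∀ e, d e = k ↔ d' e = k) :
    G.KE (Square_L Q k d) (Square_L Q k d') := by
  obtain ⟨vy, vw, v2, v4, v1, v3⟩ := Square_Lv Q k d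
  obtain ⟨vy', vw', v2', v4', v1', v3'⟩ := Square_Lv Q k d'
  have h0 : ∀ a, a ∉ Q.redn.R → (Square_L Q k d a = k ↔ Square_L Q k d' a = k) := by
    intro a ha
    rw [Square_L0 Q k d ⟨a, ha⟩, Square_L0 Q k d' ⟨a, ha⟩]
    exact hk _
  have hx := h0 _ (Square_xR Q).1
  have hz := h0 _ (Square_xR Q).2
  obtain ⟨r1, r2, r3⟩ := Square_rel2 k _ _ _ _ hx hz
  refine KE_of_rel G (Square_LP Q k d hd) (Square_LP Q k d' hd')
    (Square_relof Q _ _ k h0 ?_ ?_ ?_ ?_ ?_ ?_)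
  · rw [vy, vy']; exact hx
  · rw [vw, vw']; exact hz
  · rw [v1, v1']; exact r2
  · rw [v2, v2']; exact r1
  · rw [v3, v3']; exact r3
  · rw [v4, v4']; exact r1

/-- (4) -/
private lemma Square_ret {G : CB E} (Q : Sq G) (c : E → Fin 3) (hc : G.P c) (h1 : c Q.x = c Q.y)
    (h2 : c Q.z = c Q.w) : (G.red Q.redn).P (fun x => c x.1) ∧
      G.KE c (Square_L Q 0 (fun x => c x.1)) := by
  have hr := red_P G Q.redn c hc (Square_Lth Q c h1.symm h2.symm)
  refine ⟨hr, ?_⟩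
  obtain ⟨vy, vw, v2, v4, v1, v3⟩ := Square_Lv Q 0 (fun x => c x.1)
  rw [Square_L0 Q 0 (fun x => c x.1) ⟨Q.x, (Square_xR Q).1⟩] at vy v1 v2 v3 v4
  rw [Square_L0 Q 0 (fun x => c x.1) ⟨Q.z, (Square_xR Q).2⟩] at vw v1 v2 v3 v4
  obtain ⟨k1, k2, k3⟩ := Q.ta.col (fun e => (hc e).1)
  obtain ⟨k4, k5, k6⟩ := Q.tc.col (fun e => (hc e).1)
  obtain ⟨k7, k8, k9⟩ := Q.tb.col (fun e => (hc e).2)
  rw [← h1] at k8
  obtain ⟨r1, r2, r3, r4⟩ := Square_rel3 0 (c Q.x) (c Q.z) (c Q.e1) (c Q.e2) (c Q.e3) (c Q.e4)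
    k1 k2 k8 k4 k5 k6
  refine KE_of_rel G hc (Square_LP Q 0 _ hr) (Square_relof Q _ _ (c Q.x) ?_ ?_ ?_ ?_ ?_ ?_ ?_)
  · intro a ha
    rw [Square_L0 Q 0 (fun x => c x.1) ⟨a, ha⟩]
  · rw [vy, h1]
  · rw [vw, h2]
  · rw [v1]; exact r1
  · rw [v2]; exact r2
  · rw [v3]; exact r3
  · rw [v4]; exact r4

end main

variable {E : Type u} [Fintype E] [DecidableEq E]

theorem square_PC {G : CB E} (Q : Sq G) (h : G.PC) : (G.red Q.redn).PC := by
  refine Square_PCof Q.redn (Square_L Q 0) (Square_L0 Q 0)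
    (fun d => Square_Lth Q _ (Square_Lv Q 0 d).1 (Square_Lv Q 0 d).2.1) (Square_LP Q 0)
    ((if G.s Q.x = Q.e1 then 0 else 1) + (if G.s Q.z = Q.e3 then 0 else 1) +
      ((if G.t Q.y = Q.e1 then 0 else 1) + (if G.t Q.w = Q.e3 then 0 else 1))) ?_ h
  intro d hd
  have hP := Square_LP Q 0 d hd
  obtain ⟨vy, vw, v2, v4, v1, v3⟩ := Square_Lv Q 0 d
  obtain ⟨⟨a1, a2, a3, a4, a5, a6, a7⟩, ⟨b1, b2, b3, b4, b5, b6⟩, ⟨c1, c2, c3, c4, c5⟩, ⟨d1, d2, d3, d4⟩,
      ⟨f1, f2, f3⟩, ⟨g1, g2⟩, k⟩ := Q.ne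
  have sa := Q.ta.sum G.s1 (fun e => (hP e).1)
  have sc := Q.tc.sum G.s1 (fun e => (hP e).1)
  have sb := Q.tb.sum G.t1 (fun e => (hP e).2)
  have sd := Q.td.sum G.t1 (fun e => (hP e).2)
  have ey : Square_L Q 0 d Q.e1 - Square_L Q 0 d Q.y = Square_L Q 0 d Q.e1 - Square_L Q 0 d Q.x := by
    rw [vy]
  have ew : Square_L Q 0 d Q.e3 - Square_L Q 0 d Q.w = Square_L Q 0 d Q.e3 - Square_L Q 0 d Q.z := by
    rw [vw]
  rw [ey] at sb
  rw [ew] at sd
  rw [Square_fil, Square_fR, Finset.sum_insert (by simp [a4.symm, d1.symm, f2, c2.symm, b3.symm]),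
    Finset.sum_insert (by simp [a3, a6, a2, a1]),
    Finset.sum_insert (by simp [d3, c1.symm, b2.symm]),
    Finset.sum_insert (by simp [c4.symm, b5.symm]),
    Finset.sum_insert (by simp [b1.symm]), Finset.sum_singleton,
    Finset.sum_insert (by simp [a5.symm, b4.symm, g2, c3.symm, d2.symm]),
    Finset.sum_insert (by simp [a1, a7, a2, a3]),
    Finset.sum_insert (by simp [b6, b1, b2]),
    Finset.sum_insert (by simp [c5.symm, d4.symm]),
    Finset.sum_insert (by simp [c1]), Finset.sum_singleton]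
  have two : (2 : ZMod 2) = 0 := by decide
  linear_combination sa + sc + sb + sd +
    (sg (Square_L Q 0 d Q.e1 - Square_L Q 0 d Q.x) + sg (Square_L Q 0 d Q.e3 - Square_L Q 0 d Q.z)) * two

theorem square_Con {G : CB E} (Q : Sq G) (h : G.PC) (h' : (G.red Q.redn).Con) : G.Con := by
  have hmap : ∀ d d', (G.red Q.redn).P d → (G.red Q.redn).P d' → Rel d d' →
      G.KE (Square_L Q 0 d) (Square_L Q 0 d') := by
    rintro d d' hd hd' ⟨k, hk⟩
    exact (((Square_LL Q 0 k d hd).trans _ _ _ (Square_Lrel Q k d d' hd hd' hk)).trans _ _ _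
      (Square_LL Q k 0 d' hd'))
  intro c c' hc hc'
  obtain ⟨c1, P1, K1, x1, z1⟩ := Square_S1 Q h c hc
  obtain ⟨c2, P2, K2, x2, z2⟩ := Square_S1 Q h c' hc'
  obtain ⟨r1, l1⟩ := Square_ret Q c1 P1 x1 z1
  obtain ⟨r2, l2⟩ := Square_ret Q c2 P2 x2 z2
  have h3 := KE_map G (G.red Q.redn) (Square_L Q 0) hmap _ _ (h' _ _ r1 r2)
  exact (((K1.trans _ _ _ l1).trans _ _ _ h3).trans _ _ _ (l2.symm _ _)).trans _ _ _ (K2.symm _ _)

end Pool.Agent.PP
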