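import Pool.Agent.Lib_MP_7c0803_pp.TopA
import Pool.Agent.Lib_MP_7c0803_pp.RedThm

set_option autoImplicit false

open Finset Function

namespace Pool.Agent.PP

open SimpleGraph

universe u v

variable {V : Type u} {G : SimpleGraph V}

private lemma TopB_card_lt {E : Type v} [Fintype E] [DecidableEq E] (R : Finset E) (x : E) (hx : x ∈ R) :
    Fintype.card {e // e ∉ R} < Fintype.card E :=
  Fintype.card_subtype_lt (x := x) (by simpa using hx)

/-- descent to a graph without parallel edges and 4-cycles -/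
theorem exists_stuck (N : ℕ) : ∀ (E : Type v) [Fintype E] (B : CB E), Fintype.card E ≤ N → Nonempty (Mdl B G) → B.PC →
    ¬ B.Con → ∃ (E' : Type v) (_ : Fintype E') (B' : CB E'), Nonempty (Mdl B' G) ∧ B'.PC ∧ ¬ B'.Con ∧
      IsEmpty (Th B') ∧ IsEmpty (Dg B') ∧ IsEmpty (Sq B') := by
  induction N with
  | zero =>
    intro E _ B hN _ _ hnC
    exfalso
    have : IsEmpty E := Fintype.card_eq_zero_iff.mp (by omega)
    exact hnC (red_con E B (Red.empty E B this) (fun c c' _ _ => by rw [Subsingleton.elim c c']))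
  | succ N ih =>
    intro E _ B hN hm hp hnC
    classical
    obtain ⟨m⟩ := hm
    by_cases hT : Nonempty (Th B)
    · obtain ⟨Q⟩ := hT
      have hlt := TopB_card_lt Q.redn.R Q.e (by simp [Th.redn_R])
      exact ih _ _ (by omega) (mdl_Th m Q) (theta_PC Q hp) (fun h => hnC (theta_Con Q h))
    by_cases hD : Nonempty (Dg B)
    · obtain ⟨Q⟩ := hD
      have hlt := TopB_card_lt Q.redn.R Q.e (by simp [Dg.redn_R])
      exact ih _ _ (by omega) (mdl_Dg m Q) (digon_PC Q hp) (fun h => hnC (digon_Con Q h))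
    by_cases hS : Nonempty (Sq B)
    · obtain ⟨Q⟩ := hS
      have hlt := TopB_card_lt Q.redn.R Q.e1 (by simp [Sq.redn_R])
      exact ih _ _ (by omega) (mdl_Sq m Q) (square_PC Q hp) (fun h => hnC (square_Con Q hp h))
    · exact ⟨E, inferInstance, B, ⟨m⟩, hp, hnC, not_nonempty_iff.mp hT, not_nonempty_iff.mp hD, not_nonempty_iff.mp hS⟩

end Pool.Agent.PP
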