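import Pool.Agent.Lib_MP_7c0803_pp.TopDefs
import Pool.Agent.Lib_MP_7c0803_pp.Kempe

/-!
`stuck_simple`: a cubic bipartite multigraph `B` without parallel edges (`Th`, `Dg` empty) and without 4-cycles (`Sq` empty), realised
in `G` by `m : Mdl B G`, gives a simple cubic bipartite graph `H` without 4-cycles of which `G` contains a subdivision.

Proof plan.
(0) NO PARALLEL EDGES: `SO s e f` and `SO t e f` never hold together (otherwise `Th` or `Dg`, cf. `Quad.lean` / `Short.lean`, where this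
    is proved privately: third edges `g`, `h`; `Th` if `g = h`, else `Dg`).  So `e ↦ (vx e, vy e)` is injective.
(1) `H`: vertex set `W = {v : V // (∃ e, m.vx e = v) ∨ ∃ e, m.vy e = v}`; `u` and `v` adjacent iff there is `e` with
    `(u, v) = (vx e, vy e)` or `(v, u) = (vx e, vy e)`.  Colouring `κ`: `true` for the vertices `vx e` (`hxy`).  The neighbours of
    `vx e` are `vy e`, `vy (s e)`, `vy (s (s e))`, three different ones by (0); the same for `vy e`.  The edges of `H` are in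
    bijection `j` with `E`.  `hjs`: two edges of `H` have the same end of colour `true` iff `vx e = vx f` iff `f = e ∨ SO s e f`.
    A 4-cycle in `H` gives a closed walk `f1 .. f4` with four different edges, so `Sq B` by (0) (see (S) in the docstring of
    `Quad.lean`, and the private lemmas there).
(2) Subdivision: `f w = w.1`, `P d` = `m.P e` or its reverse (`Walk.copy` if needed).
-/

set_option autoImplicit false

open Finset Function

namespace Pool.Agent.PP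

open SimpleGraph

universe u

variable {V : Type u} {G : SimpleGraph V}

/-! ### auxiliary lemmas -/

section topc1aux

variable {E : Type u}

private lemma TopC1_SO_tri {s : Equiv.Perm E} (s3 : ∀ e, s (s (s e)) = e) {e f : E}
    (h : SO s e f) : ∃ g, Tri s g e f := by
  rcases h with rfl | rfl
  · exact ⟨s (s e), Or.inl ⟨s3 e, rfl, rfl⟩⟩
  · exact ⟨s e, Or.inr ⟨rfl, s3 e, rfl⟩⟩

private lemma TopC1_SO_symm {s : Equiv.Perm E} (s3 : ∀ e, s (s (s e)) = e) {e f : E}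
    (h : SO s e f) : SO s f e := by
  rcases h with rfl | rfl
  · exact Or.inr (s3 e).symm
  · exact Or.inl (s3 e).symm

private lemma TopC1_tri_SO {s : Equiv.Perm E} {x f g e : E} (h : Tri s x f g) (h' : SO s x e) :
    e = f ∨ e = g := by
  rcases h with ⟨h1, h2, h3⟩ | ⟨h1, h2, h3⟩
  · rcases h' with rfl | rfl
    · exact Or.inl h1
    · exact Or.inr (by rw [h1, h2])
  · rcases h' with rfl | rfl
    · exact Or.inr h1
    · exact Or.inl (by rw [h1, h2])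

private lemma TopC1_par (G : CB E) {e f g h : E} (hg : Tri G.s g e f) (hh : Tri G.t h e f) :
    Nonempty (Th G) ∨ Nonempty (Dg G) := by
  by_cases hgh : g = h
  · subst hgh
    exact Or.inl ⟨⟨e, f, g, hg, hh⟩⟩
  · exact Or.inr ⟨⟨e, f, g, h, hg, hh, hgh⟩⟩

private def TopC1_v (s : Equiv.Perm E) (e : E) : Set E := {f | f = e ∨ f = s e ∨ f = s (s e)}

private lemma TopC1_v_s {s : Equiv.Perm E} (s3 : ∀ e, s (s (s e)) = e) (e : E) :
    TopC1_v s (s e) = TopC1_v s e := by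
  ext f
  simp only [TopC1_v, Set.mem_ofPred_eq, s3]
  tauto

private lemma TopC1_v_tri {s : Equiv.Perm E} (s3 : ∀ e, s (s (s e)) = e) {x y z : E}
    (h : Tri s x y z) : TopC1_v s x = TopC1_v s y ∧ TopC1_v s y = TopC1_v s z := by
  rcases h with ⟨h1, h2, h3⟩ | ⟨h1, h2, h3⟩
  · constructor
    · rw [← h1, TopC1_v_s s3]
    · rw [← h2, TopC1_v_s s3]
  · constructor
    · rw [← h3, TopC1_v_s s3]
    · rw [← h2, TopC1_v_s s3]

private lemma TopC1_v_SO {s : Equiv.Perm E} {e f : E}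
    (h : TopC1_v s e = TopC1_v s f) (hne : e ≠ f) : SO s e f := by
  have m1 : f ∈ TopC1_v s e := by
    rw [h]
    exact Or.inl rfl
  rcases m1 with m1 | m1
  · exact absurd m1.symm hne
  · exact m1

private lemma TopC1_eq (G : CB E) (hP : ¬ (Nonempty (Th G) ∨ Nonempty (Dg G))) {e f : E}
    (h1 : TopC1_v G.s e = TopC1_v G.s f) (h2 : TopC1_v G.t e = TopC1_v G.t f) : e = f := by
  by_contra hne
  obtain ⟨g, hg⟩ := TopC1_SO_tri G.s3 (TopC1_v_SO h1 hne)
  obtain ⟨k, hk⟩ := TopC1_SO_tri G.t3 (TopC1_v_SO h2 hne)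
  exact hP (TopC1_par G hg hk)

/-- facts on a closed walk with different edges -/
private lemma TopC1_facts {s : Equiv.Perm E} (s3 : ∀ e, s (s (s e)) = e) (s1 : ∀ e, s e ≠ e)
    {f1 f2 f3 f4 x z : E} (ta : Tri s x f1 f4) (tc : Tri s z f3 f2)
    (n12 : f1 ≠ f2) (n13 : f1 ≠ f3) (n24 : f2 ≠ f4) (n34 : f3 ≠ f4) :
    x ≠ f2 ∧ x ≠ f3 ∧ z ≠ f1 ∧ z ≠ f4 ∧ x ≠ z := by
  have key : TopC1_v s f1 ≠ TopC1_v s f3 := by
    intro h
    have e1 := TopC1_v_SO h n13
    have h2 : TopC1_v s f1 = TopC1_v s f2 := h.trans (TopC1_v_tri s3 tc).2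
    have e2 := TopC1_v_SO h2 n12
    rcases TopC1_tri_SO ta.rot e1 with e | e
    · exact n34 e
    · rcases TopC1_tri_SO ta.rot e2 with e' | e'
      · exact n24 e'
      · exact (tc.ne s1).2.2 (e.trans e'.symm)
  obtain ⟨A1, A2⟩ := TopC1_v_tri s3 ta
  obtain ⟨C1, C2⟩ := TopC1_v_tri s3 tc
  refine ⟨?_, ?_, ?_, ?_, ?_⟩
  · rintro rfl; exact key (A1.symm.trans C2.symm)
  · rintro rfl; exact key A1.symm
  · rintro rfl; exact key C1
  · rintro rfl; exact key (A2.trans C1)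
  · rintro rfl; exact key (A1.symm.trans C1)

private lemma TopC1_sq (G : CB E) (hP : ¬ (Nonempty (Th G) ∨ Nonempty (Dg G)))
    {e1 e2 e3 e4 x y z w : E} (ta : Tri G.s x e1 e4) (tb : Tri G.t y e1 e2)
    (tc : Tri G.s z e3 e2) (td : Tri G.t w e3 e4) : Nonempty (Sq G) := by
  obtain ⟨A1, A2⟩ := TopC1_v_tri G.s3 ta
  obtain ⟨B1, B2⟩ := TopC1_v_tri G.t3 tb
  obtain ⟨C1, C2⟩ := TopC1_v_tri G.s3 tc
  obtain ⟨D1, D2⟩ := TopC1_v_tri G.t3 td
  obtain ⟨a1, a2, a3⟩ := ta.ne G.s1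
  obtain ⟨b1, b2, b3⟩ := tb.ne G.t1
  obtain ⟨c1, c2, c3⟩ := tc.ne G.s1
  obtain ⟨d1, d2, d3⟩ := td.ne G.t1
  have n13 : e1 ≠ e3 := by
    rintro rfl
    exact b3 (TopC1_eq G hP C2 B2)
  have n24 : e2 ≠ e4 := by
    rintro rfl
    exact b3 (TopC1_eq G hP A2 B2)
  obtain ⟨x2, x3, z1, z4, xz⟩ := TopC1_facts G.s3 G.s1 ta tc b3 n13 n24 d3
  obtain ⟨y4, y3, w1, w2, yw⟩ := TopC1_facts G.t3 G.t1 tb td a3 n13 n24.symm c3
  have nxy : x ≠ y := by rintro rfl; exact a1 (TopC1_eq G hP A1 B1)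
  have nxw : x ≠ w := by rintro rfl; exact a2 (TopC1_eq G hP (A1.trans A2) (D1.trans D2))
  have nyz : y ≠ z := by rintro rfl; exact b2 (TopC1_eq G hP (C1.trans C2) (B1.trans B2))
  have nzw : z ≠ w := by rintro rfl; exact c1 (TopC1_eq G hP C1 D1)
  refine ⟨⟨e1, e2, e3, e4, x, y, z, w, ta, tb, tc, td, ?_⟩⟩
  simp only [List.nodup_cons, List.mem_cons, not_or, List.not_mem_nil, not_false_eq_true,
    List.nodup_nil, and_true]
  exact ⟨⟨b3, n13, a3, a1.symm, b1.symm, z1.symm, w1.symm⟩, ⟨c3.symm, n24, x2.symm, b2.symm, c2.symm, w2.symm⟩,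
    ⟨d3, x3.symm, y3.symm, c1.symm, d1.symm⟩, ⟨a2.symm, y4.symm, z4.symm, d2.symm⟩, ⟨nxy, xz, nxw⟩, ⟨nyz, yw⟩,
    nzw⟩

end topc1aux

/-! ### the simple graph -/

section graph

variable {E : Type u} {B : CB E}

private def TopC1_W (m : Mdl B G) : Type u := {v : V // (∃ e, m.vx e = v) ∨ ∃ e, m.vy e = v}

private def TopC1_X (m : Mdl B G) (e : E) : TopC1_W m := ⟨m.vx e, Or.inl ⟨e, rfl⟩⟩

private def TopC1_Y (m : Mdl B G) (e : E) : TopC1_W m := ⟨m.vy e, Or.inr ⟨e, rfl⟩⟩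

private def TopC1_R (m : Mdl B G) (u v : TopC1_W m) (e : E) : Prop :=
  (u = TopC1_X m e ∧ v = TopC1_Y m e) ∨ (v = TopC1_X m e ∧ u = TopC1_Y m e)

private lemma TopC1_XX (m : Mdl B G) {e f : E} :
    TopC1_X m e = TopC1_X m f ↔ (f = e ∨ SO B.s e f) := by
  rw [← m.hx]
  exact ⟨fun h => congrArg Subtype.val h, fun h => Subtype.ext h⟩

private lemma TopC1_YY (m : Mdl B G) {e f : E} :
    TopC1_Y m e = TopC1_Y m f ↔ (f = e ∨ SO B.t e f) := by
  rw [← m.hy]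
  exact ⟨fun h => congrArg Subtype.val h, fun h => Subtype.ext h⟩

private lemma TopC1_XY (m : Mdl B G) {e f : E} : TopC1_X m e ≠ TopC1_Y m f :=
  fun h => m.hxy e f (congrArg Subtype.val h)

private lemma TopC1_cases (m : Mdl B G) (w : TopC1_W m) :
    (∃ e, w = TopC1_X m e) ∨ ∃ e, w = TopC1_Y m e := by
  obtain ⟨v, ⟨e, he⟩ | ⟨e, he⟩⟩ := w
  · exact Or.inl ⟨e, Subtype.ext he.symm⟩
  · exact Or.inr ⟨e, Subtype.ext he.symm⟩

private def TopC1_H (m : Mdl B G) : SimpleGraph (TopC1_W m) where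
  Adj u v := ∃ e, TopC1_R m u v e
  symm := by
    constructor
    rintro u v ⟨e, h⟩
    exact ⟨e, Or.symm h⟩
  loopless := by
    constructor
    rintro u ⟨e, h | h⟩
    · exact TopC1_XY m (h.1.symm.trans h.2)
    · exact TopC1_XY m (h.1.symm.trans h.2)

open Classical in
private noncomputable def TopC1_k (m : Mdl B G) : (TopC1_H m).Coloring Bool :=
  SimpleGraph.Coloring.mk (fun w => decide (∃ e, w = TopC1_X m e)) (by
    have key : ∀ (u v : TopC1_W m) (e : E), u = TopC1_X m e → v = TopC1_Y m e →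
        decide (∃ e, u = TopC1_X m e) ≠ decide (∃ e, v = TopC1_X m e) := by
      intro u v e hu hv h
      rw [decide_eq_true (⟨e, hu⟩ : ∃ e, u = TopC1_X m e)] at h
      obtain ⟨f, hf⟩ := of_decide_eq_true h.symm
      exact TopC1_XY m (hf.symm.trans hv)
    rintro u v ⟨e, h | h⟩
    · exact key u v e h.1 h.2
    · exact (key v u e h.1 h.2).symm)

private lemma TopC1_kX (m : Mdl B G) (w : TopC1_W m) :
    TopC1_k m w = true ↔ ∃ e, w = TopC1_X m e := by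
  classical
  exact decide_eq_true_iff

private lemma TopC1_kY (m : Mdl B G) (w : TopC1_W m) :
    TopC1_k m w = false ↔ ∃ e, w = TopC1_Y m e := by
  classical
  have h1 : TopC1_k m w = false ↔ ¬ ∃ e, w = TopC1_X m e := decide_eq_false_iff_not
  rw [h1]
  constructor
  · intro h
    exact (TopC1_cases m w).resolve_left h
  · rintro ⟨e, rfl⟩ ⟨f, h⟩
    exact TopC1_XY m h.symm

/-- hypothesis: no parallel edges -/
private lemma TopC1_inj (m : Mdl B G) (hP : ¬ (Nonempty (Th B) ∨ Nonempty (Dg B))) {e f : E}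
    (h1 : TopC1_X m e = TopC1_X m f) (h2 : TopC1_Y m e = TopC1_Y m f) : e = f := by
  rcases (TopC1_XX m).1 h1 with h1 | h1
  · exact h1.symm
  rcases (TopC1_YY m).1 h2 with h2 | h2
  · exact h2.symm
  obtain ⟨g, hg⟩ := TopC1_SO_tri B.s3 h1
  obtain ⟨k, hk⟩ := TopC1_SO_tri B.t3 h2
  exact absurd (TopC1_par B hg hk) hP

private lemma TopC1_uniq (m : Mdl B G) (hP : ¬ (Nonempty (Th B) ∨ Nonempty (Dg B)))
    {u v : TopC1_W m} {e f : E} (h1 : TopC1_R m u v e) (h2 : TopC1_R m u v f) : e = f := by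
  rcases h1 with ⟨a, b⟩ | ⟨a, b⟩ <;> rcases h2 with ⟨c, d⟩ | ⟨c, d⟩
  · exact TopC1_inj m hP (a.symm.trans c) (b.symm.trans d)
  · exact absurd (a.symm.trans d) (TopC1_XY m)
  · exact absurd (c.symm.trans b) (TopC1_XY m)
  · exact TopC1_inj m hP (a.symm.trans c) (b.symm.trans d)

private lemma TopC1_mem (m : Mdl B G) (e : E) :
    s(TopC1_X m e, TopC1_Y m e) ∈ (TopC1_H m).edgeSet := ⟨e, Or.inl ⟨rfl, rfl⟩⟩

private noncomputable def TopC1_j (m : Mdl B G) (hP : ¬ (Nonempty (Th B) ∨ Nonempty (Dg B))) :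
    E ≃ (TopC1_H m).edgeSet :=
  Equiv.ofBijective (fun e => ⟨s(TopC1_X m e, TopC1_Y m e), TopC1_mem m e⟩) (by
    constructor
    · intro e f h
      have h1 := congrArg Subtype.val h
      simp only [Sym2.eq_iff] at h1
      rcases h1 with ⟨h1, h2⟩ | ⟨h1, h2⟩
      · exact TopC1_inj m hP h1 h2
      · exact absurd h1 (TopC1_XY m)
    · rintro ⟨x, hx⟩
      induction x using Sym2.ind with
      | _ u v =>
        obtain ⟨e, h⟩ := hx
        refine ⟨e, Subtype.ext ?_⟩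
        show s(TopC1_X m e, TopC1_Y m e) = s(u, v)
        rcases h with ⟨h1, h2⟩ | ⟨h1, h2⟩
        · rw [Sym2.eq_iff]
          exact Or.inl ⟨h1.symm, h2.symm⟩
        · rw [Sym2.eq_iff]
          exact Or.inr ⟨h1.symm, h2.symm⟩)

private lemma TopC1_jv (m : Mdl B G) (hP : ¬ (Nonempty (Th B) ∨ Nonempty (Dg B))) (e : E) :
    (TopC1_j m hP e : Sym2 (TopC1_W m)) = s(TopC1_X m e, TopC1_Y m e) := rfl

private lemma TopC1_adjX (m : Mdl B G) (e : E) (v : TopC1_W m) :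
    (TopC1_H m).Adj (TopC1_X m e) v ↔
      (v = TopC1_Y m e ∨ v = TopC1_Y m (B.s e) ∨ v = TopC1_Y m (B.s (B.s e))) := by
  constructor
  · rintro ⟨f, h | h⟩
    · rcases (TopC1_XX m).1 h.1 with rfl | rfl | rfl
      · exact Or.inl h.2
      · exact Or.inr (Or.inl h.2)
      · exact Or.inr (Or.inr h.2)
    · exact absurd h.2 (TopC1_XY m)
  · rintro (h | h | h)
    · exact ⟨e, Or.inl ⟨rfl, h⟩⟩
    · exact ⟨_, Or.inl ⟨(TopC1_XX m).2 (Or.inr (Or.inl rfl)), h⟩⟩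
    · exact ⟨_, Or.inl ⟨(TopC1_XX m).2 (Or.inr (Or.inr rfl)), h⟩⟩

private lemma TopC1_adjY (m : Mdl B G) (e : E) (v : TopC1_W m) :
    (TopC1_H m).Adj (TopC1_Y m e) v ↔
      (v = TopC1_X m e ∨ v = TopC1_X m (B.t e) ∨ v = TopC1_X m (B.t (B.t e))) := by
  constructor
  · rintro ⟨f, h | h⟩
    · exact absurd h.1.symm (TopC1_XY m)
    · rcases (TopC1_YY m).1 h.2 with rfl | rfl | rfl
      · exact Or.inl h.1
      · exact Or.inr (Or.inl h.1)
      · exact Or.inr (Or.inr h.1)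
  · rintro (h | h | h)
    · exact ⟨e, Or.inr ⟨h, rfl⟩⟩
    · exact ⟨_, Or.inr ⟨h, (TopC1_YY m).2 (Or.inr (Or.inl rfl))⟩⟩
    · exact ⟨_, Or.inr ⟨h, (TopC1_YY m).2 (Or.inr (Or.inr rfl))⟩⟩

private lemma TopC1_3 {s : Equiv.Perm E} (s3 : ∀ e, s (s (s e)) = e) (s1 : ∀ e, s e ≠ e) (e : E) :
    e ≠ s e ∧ e ≠ s (s e) ∧ s e ≠ s (s e) := by
  refine ⟨(s1 e).symm, ?_, (s1 _).symm⟩
  intro h
  have h4 := s3 e
  rw [← h] at h4
  exact s1 e h4

private lemma TopC1_deg (m : Mdl B G) (hP : ¬ (Nonempty (Th B) ∨ Nonempty (Dg B)))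
    (w : TopC1_W m) : ((TopC1_H m).neighborSet w).ncard = 3 := by
  rw [Set.ncard_eq_three]
  rcases TopC1_cases m w with ⟨e, rfl⟩ | ⟨e, rfl⟩
  · obtain ⟨n1, n2, n3⟩ := TopC1_3 B.s3 B.s1 e
    have x1 : TopC1_X m e = TopC1_X m (B.s e) := (TopC1_XX m).2 (Or.inr (Or.inl rfl))
    have x2 : TopC1_X m e = TopC1_X m (B.s (B.s e)) := (TopC1_XX m).2 (Or.inr (Or.inr rfl))
    refine ⟨TopC1_Y m e, TopC1_Y m (B.s e), TopC1_Y m (B.s (B.s e)), ?_, ?_, ?_, ?_⟩
    · intro h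
      exact n1 (TopC1_inj m hP x1 h)
    · intro h
      exact n2 (TopC1_inj m hP x2 h)
    · intro h
      exact n3 (TopC1_inj m hP (x1.symm.trans x2) h)
    · ext v
      exact TopC1_adjX m e v
  · obtain ⟨n1, n2, n3⟩ := TopC1_3 B.t3 B.t1 e
    have x1 : TopC1_Y m e = TopC1_Y m (B.t e) := (TopC1_YY m).2 (Or.inr (Or.inl rfl))
    have x2 : TopC1_Y m e = TopC1_Y m (B.t (B.t e)) := (TopC1_YY m).2 (Or.inr (Or.inr rfl))
    refine ⟨TopC1_X m e, TopC1_X m (B.t e), TopC1_X m (B.t (B.t e)), ?_, ?_, ?_, ?_⟩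
    · intro h
      exact n1 (TopC1_inj m hP h x1)
    · intro h
      exact n2 (TopC1_inj m hP h x2)
    · intro h
      exact n3 (TopC1_inj m hP h (x1.symm.trans x2))
    · ext v
      exact TopC1_adjY m e v

private lemma TopC1_cyc1 (m : Mdl B G) (hP : ¬ (Nonempty (Th B) ∨ Nonempty (Dg B)))
    (hS : ¬ Nonempty (Sq B)) {e : E} {a b c d : TopC1_W m} (ha : a = TopC1_X m e) (hac : a ≠ c)
    (hbd : b ≠ d) (h1 : (TopC1_H m).Adj a b) (h2 : (TopC1_H m).Adj b c)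
    (h3 : (TopC1_H m).Adj c d) (h4 : (TopC1_H m).Adj d a) : False := by
  obtain ⟨f1, h1 | h1⟩ := h1
  swap
  · exact TopC1_XY m (ha.symm.trans h1.2)
  obtain ⟨f2, h2 | h2⟩ := h2
  · exact TopC1_XY m (h2.1.symm.trans h1.2)
  obtain ⟨f3, h3 | h3⟩ := h3
  swap
  · exact TopC1_XY m (h2.1.symm.trans h3.2)
  obtain ⟨f4, h4 | h4⟩ := h4
  · exact TopC1_XY m (h4.1.symm.trans h3.2)
  have b12 : SO B.t f1 f2 := by
    rcases (TopC1_YY m).1 (h1.2.symm.trans h2.2) with h | h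
    · subst h
      exact absurd (h1.1.trans h2.1.symm) hac
    · exact h
  have c32 : SO B.s f2 f3 := by
    rcases (TopC1_XX m).1 (h2.1.symm.trans h3.1) with h | h
    · subst h
      exact absurd (h2.2.trans h3.2.symm) hbd
    · exact h
  have d34 : SO B.t f3 f4 := by
    rcases (TopC1_YY m).1 (h3.2.symm.trans h4.2) with h | h
    · subst h
      exact absurd (h4.1.trans h3.1.symm) hac
    · exact h
  have a41 : SO B.s f4 f1 := by
    rcases (TopC1_XX m).1 (h4.1.symm.trans h1.1) with h | h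
    · subst h
      exact absurd (h1.2.trans h4.2.symm) hbd
    · exact h
  obtain ⟨x, hx⟩ := TopC1_SO_tri B.s3 a41
  obtain ⟨y, hy⟩ := TopC1_SO_tri B.t3 b12
  obtain ⟨z, hz⟩ := TopC1_SO_tri B.s3 c32
  obtain ⟨w, hw⟩ := TopC1_SO_tri B.t3 d34
  exact hS (TopC1_sq B hP hx.swap hy hz.swap hw)

private lemma TopC1_cyc (m : Mdl B G) (hP : ¬ (Nonempty (Th B) ∨ Nonempty (Dg B)))
    (hS : ¬ Nonempty (Sq B)) : ¬ ∃ a b c d : TopC1_W m, a ≠ c ∧ b ≠ d ∧ (TopC1_H m).Adj a b ∧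
      (TopC1_H m).Adj b c ∧ (TopC1_H m).Adj c d ∧ (TopC1_H m).Adj d a := by
  rintro ⟨a, b, c, d, hac, hbd, h1, h2, h3, h4⟩
  rcases TopC1_cases m a with ⟨e, he⟩ | ⟨e, he⟩
  · exact TopC1_cyc1 m hP hS he hac hbd h1 h2 h3 h4
  · obtain ⟨f, hf | hf⟩ := id h1
    · exact TopC1_XY m (hf.1.symm.trans he)
    · exact TopC1_cyc1 m hP hS hf.1 hbd hac.symm h2 h3 h4 h1

private noncomputable def TopC1_ed (m : Mdl B G) (d : (TopC1_H m).Dart) : E :=
  Classical.choose d.adj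

private lemma TopC1_edR (m : Mdl B G) (d : (TopC1_H m).Dart) :
    TopC1_R m d.fst d.snd (TopC1_ed m d) := Classical.choose_spec d.adj

private lemma TopC1_rev {u v : V} (p : G.Walk u v) (x : V) :
    x ∈ p.reverse.support ↔ x ∈ p.support := by
  rw [Walk.support_reverse, List.mem_reverse]

private lemma TopC1_walk (m : Mdl B G) {u v : TopC1_W m} {e : E} (h : TopC1_R m u v e) :
    ∃ p : G.Walk u.1 v.1, p.IsPath ∧ ∀ x, x ∈ p.support ↔ x ∈ (m.P e).support := by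
  rcases h with ⟨rfl, rfl⟩ | ⟨rfl, rfl⟩
  · exact ⟨m.P e, m.path e, fun x => Iff.rfl⟩
  · exact ⟨(m.P e).reverse, (m.path e).reverse, fun x => TopC1_rev (m.P e) x⟩

private noncomputable def TopC1_P (m : Mdl B G) (d : (TopC1_H m).Dart) :
    G.Walk d.fst.1 d.snd.1 := Classical.choose (TopC1_walk m (TopC1_edR m d))

private lemma TopC1_P1 (m : Mdl B G) (d : (TopC1_H m).Dart) : (TopC1_P m d).IsPath :=
  (Classical.choose_spec (TopC1_walk m (TopC1_edR m d))).1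

private lemma TopC1_P2 (m : Mdl B G) (d : (TopC1_H m).Dart) (x : V) :
    x ∈ (TopC1_P m d).support ↔ x ∈ (m.P (TopC1_ed m d)).support :=
  (Classical.choose_spec (TopC1_walk m (TopC1_edR m d))).2 x

private lemma TopC1_edge (m : Mdl B G) (d : (TopC1_H m).Dart) :
    d.edge = s(TopC1_X m (TopC1_ed m d), TopC1_Y m (TopC1_ed m d)) := by
  have h : d.edge = s(d.fst, d.snd) := rfl
  rw [h]
  rcases TopC1_edR m d with ⟨h1, h2⟩ | ⟨h1, h2⟩
  · rw [h1, h2]
  · rw [h1, h2]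
    exact Sym2.eq_swap

private lemma TopC1_sub (m : Mdl B G) (hP : ¬ (Nonempty (Th B) ∨ Nonempty (Dg B))) :
    ContainsSubdivision (TopC1_H m) G := by
  refine ⟨fun w => w.1, TopC1_P m, Subtype.val_injective, TopC1_P1 m, ?_, ?_, ?_⟩
  · intro d x
    have h : TopC1_ed m d.symm = TopC1_ed m d :=
      TopC1_uniq m hP (TopC1_edR m d.symm) (Or.symm (TopC1_edR m d))
    have h1 := TopC1_P2 m d.symm x
    rw [h] at h1
    exact h1.trans (TopC1_P2 m d x).symm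
  · intro d w hw
    rw [TopC1_P2] at hw
    have key : w = TopC1_X m (TopC1_ed m d) ∨ w = TopC1_Y m (TopC1_ed m d) := by
      rcases TopC1_cases m w with ⟨f, rfl⟩ | ⟨f, rfl⟩
      · exact Or.inl (Subtype.ext (m.ix _ f hw))
      · exact Or.inr (Subtype.ext (m.iy _ f hw))
    rcases TopC1_edR m d with ⟨h1, h2⟩ | ⟨h1, h2⟩
    · rw [h1, h2]
      exact key
    · rw [h1, h2]
      exact Or.symm key
  · intro d d' x hne hx hx'
    rw [TopC1_P2] at hx hx'
    have h : TopC1_ed m d ≠ TopC1_ed m d' := by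
      intro h
      apply hne
      rw [TopC1_edge, TopC1_edge, h]
    rcases m.disj _ _ x h hx hx' with h1 | h1
    · exact ⟨TopC1_X m _, h1.symm⟩
    · exact ⟨TopC1_Y m _, h1.symm⟩

end graph

theorem stuck_simple [Finite V] {E : Type u} [Fintype E] (B : CB E) (m : Mdl B G) (hT : IsEmpty (Th B))
    (hD : IsEmpty (Dg B)) (hS : IsEmpty (Sq B)) :
    ∃ (W : Type u) (_ : Finite W) (H : SimpleGraph W) (κ : H.Coloring Bool) (j : E ≃ H.edgeSet),
      (∀ w, (H.neighborSet w).ncard = 3) ∧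
      (∀ e f, (f = e ∨ SO B.s e f) ↔ ∃ w, κ w = true ∧ w ∈ (j e : Sym2 W) ∧ w ∈ (j f : Sym2 W)) ∧
      (∀ e f, (f = e ∨ SO B.t e f) ↔ ∃ w, κ w = false ∧ w ∈ (j e : Sym2 W) ∧ w ∈ (j f : Sym2 W)) ∧
      (¬ ∃ a b c d, a ≠ c ∧ b ≠ d ∧ H.Adj a b ∧ H.Adj b c ∧ H.Adj c d ∧ H.Adj d a) ∧
      ContainsSubdivision H G := by
  have hP : ¬ (Nonempty (Th B) ∨ Nonempty (Dg B)) := by
    rintro (h | h)
    · exact h.elim hT.false
    · exact h.elim hD.false
  have hS' : ¬ Nonempty (Sq B) := fun h => h.elim hS.false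
  refine ⟨TopC1_W m, Subtype.finite, TopC1_H m, TopC1_k m, TopC1_j m hP, TopC1_deg m hP, ?_, ?_,
    TopC1_cyc m hP hS', TopC1_sub m hP⟩
  · intro e f
    rw [← TopC1_XX m, TopC1_jv, TopC1_jv]
    constructor
    · intro h
      refine ⟨TopC1_X m e, (TopC1_kX m _).2 ⟨e, rfl⟩, Sym2.mem_mk_left _ _, ?_⟩
      rw [h]
      exact Sym2.mem_mk_left _ _
    · rintro ⟨w, hw, h1, h2⟩
      obtain ⟨g, rfl⟩ := (TopC1_kX m _).1 hw
      rcases Sym2.mem_iff.1 h1 with h1 | h1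
      · rcases Sym2.mem_iff.1 h2 with h2 | h2
        · exact h1.symm.trans h2
        · exact absurd h2 (TopC1_XY m)
      · exact absurd h1 (TopC1_XY m)
  · intro e f
    rw [← TopC1_YY m, TopC1_jv, TopC1_jv]
    constructor
    · intro h
      refine ⟨TopC1_Y m e, (TopC1_kY m _).2 ⟨e, rfl⟩, Sym2.mem_mk_right _ _, ?_⟩
      rw [h]
      exact Sym2.mem_mk_right _ _
    · rintro ⟨w, hw, h1, h2⟩
      obtain ⟨g, rfl⟩ := (TopC1_kY m _).1 hw
      rcases Sym2.mem_iff.1 h1 with h1 | h1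
      · exact absurd h1.symm (TopC1_XY m)
      · rcases Sym2.mem_iff.1 h2 with h2 | h2
        · exact absurd h2.symm (TopC1_XY m)
        · exact h1.symm.trans h2

end Pool.Agent.PP
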