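import Pool.Agent.Lib_MP_7c0803_pp.TopDefs
import Pool.Agent.Lib_MP_7c0803_pp.Kempe
import Pool.Agent.Lib_MP_7c0803_pp.EmbB

/-!
`transport_Con`, `transport_PC`: `B : CB E` and `A = toCB M κ hcub` (on `H.edgeSet`) have the same orbits of `s` and of `t` under the
bijection `j : E ≃ H.edgeSet` (the cyclic orders may be different).

Proof plan.
(0) For edges `g, g'` of `H`: they have a common end `w` with `κ w = true` iff `g' = g ∨ SO A.s g g'` (darts at a vertex are one
    orbit of `rot`, `rot3`; `adj_iff` in `Kempe.lean` and the private lemmas there and in `EmbB.lean` are close to this).  So `hjs` says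
    `(f = e ∨ SO B.s e f) ↔ (j f = j e ∨ SO A.s (j e) (j f))`, in particular (`B.s e ≠ e`) `SO B.s e f ↔ SO A.s (j e) (j f)`; the
    same for `t`.
(1) `A.P c ↔ B.P (c ∘ j)` (`P` for `s`: `c (s e) ≠ c e` for all `e` iff `c f ≠ c e` for all `SO s e f`).  `Rel` transfers.  So `Con`.
(2) `PC`: for proper `c, c'`: `B.par (c ∘ j) + B.par (c' ∘ j) = A.par c + A.par c'`: the function
    `φ e = sg (c (s e) - c e) + sg (c' (s e) - c' e)` at an edge is the same for `s` and for any other cyclic order on the same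
    orbit (`s' e = s e` or `s' e = s (s e)`; finite check: with three different colours `sg (c (s (s e)) - c e) = sg (c (s e) - c e) + 1`,
    twice).  So `A.par c = A.par c' ↔ B.par (c ∘ j) = B.par (c' ∘ j)`.
-/

set_option autoImplicit false

open Finset Function

namespace Pool.Agent.PP

open SimpleGraph

universe u v

variable {W : Type u} {H : SimpleGraph W}

private lemma TopC2_fst (κ : H.Coloring Bool) {e : H.edgeSet} {v : W} (hv : v ∈ (e : Sym2 W)) :
    ((dartEquiv κ).symm (e, κ v)).fst = v := by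
  obtain ⟨w, hw⟩ := hv
  have hadj : H.Adj v w := by
    have := e.2
    rw [hw] at this
    exact this
  have h1 : dartEquiv κ ⟨(v, w), hadj⟩ = (e, κ v) := by
    rw [dartEquiv_apply]
    refine Prod.ext ?_ rfl
    apply Subtype.ext
    exact hw.symm
  rw [← h1, Equiv.symm_apply_apply]

private lemma TopC2_mem (κ : H.Coloring Bool) (e : H.edgeSet) (b : Bool) :
    ((dartEquiv κ).symm (e, b)).fst ∈ (e : Sym2 W) := by
  have h1 := de_symm_apply κ e b
  have h2 : ((dartEquiv κ).symm (e, b)).edge = (e : Sym2 W) := congrArg Subtype.val h1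
  rw [← h2]
  exact Sym2.mem_mk_left _ _

private lemma TopC2_fst_rot (M : Emb H) (κ : H.Coloring Bool) (b : Bool) (e : H.edgeSet) :
    ((dartEquiv κ).symm (rotB M κ b e, b)).fst = ((dartEquiv κ).symm (e, b)).fst := by
  have h1 := rot_symm_dart M κ e b
  have h2 := M.rot_fst ((dartEquiv κ).symm (e, b))
  rw [h1] at h2
  exact h2

private lemma TopC2_of_share (M : Emb H) (κ : H.Coloring Bool)
    (hcub : ∀ v, (H.neighborSet v).ncard = 3) {e e' : H.edgeSet} (hne : e ≠ e') {v : W}
    (hv : v ∈ (e : Sym2 W)) (hv' : v ∈ (e' : Sym2 W)) :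
    e' = rotB M κ (κ v) e ∨ e' = rotB M κ (κ v) (rotB M κ (κ v) e) := by
  have f1 := TopC2_fst κ hv
  have f2 := TopC2_fst κ hv'
  obtain ⟨i, hi⟩ := M.rot_trans _ _ (f1.trans f2.symm)
  have key : ∀ (d : H.Dart) (i : ℕ), (M.rot ^ i) d = d ∨ (M.rot ^ i) d = M.rot d ∨
      (M.rot ^ i) d = M.rot (M.rot d) := by
    intro d i
    induction i with
    | zero => left; rfl
    | succ i ih =>
      rw [pow_succ', Equiv.Perm.mul_apply]
      rcases ih with h | h | h
      · right; left; rw [h]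
      · right; right; rw [h]
      · left; rw [h, rot3 M hcub]
  rcases key ((dartEquiv κ).symm (e, κ v)) i with h | h | h
  · exfalso
    rw [h] at hi
    have := (dartEquiv κ).symm.injective hi
    exact hne (congrArg Prod.fst this)
  · left
    rw [h, rot_symm_dart] at hi
    have := (dartEquiv κ).symm.injective hi
    exact (congrArg Prod.fst this).symm
  · right
    rw [h, rot_symm_dart, rot_symm_dart] at hi
    have := (dartEquiv κ).symm.injective hi
    exact (congrArg Prod.fst this).symm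

private lemma TopC2_orb (M : Emb H) (κ : H.Coloring Bool)
    (hcub : ∀ v, (H.neighborSet v).ncard = 3) (b : Bool) (g g' : H.edgeSet) :
    (g' = g ∨ SO (rotB M κ b) g g') ↔ ∃ w, κ w = b ∧ w ∈ (g : Sym2 W) ∧ w ∈ (g' : Sym2 W) := by
  constructor
  · intro h
    refine ⟨((dartEquiv κ).symm (g, b)).fst, col_symm_apply κ g b, TopC2_mem κ g b, ?_⟩
    rcases h with h | h | h
    · rw [h]
      exact TopC2_mem κ _ b
    · rw [h, ← TopC2_fst_rot M κ b g]
      exact TopC2_mem κ _ b
    · rw [h, ← TopC2_fst_rot M κ b g, ← TopC2_fst_rot M κ b (rotB M κ b g)]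
      exact TopC2_mem κ _ b
  · rintro ⟨w, hw, h1, h2⟩
    by_cases hne : g = g'
    · left; exact hne.symm
    · right
      have h3 := TopC2_of_share M κ hcub hne h1 h2
      rw [hw] at h3
      exact h3

/-! ### transport along a bijection which respects the orbits -/

section tr
variable {E E' : Type*}

private lemma TopC2_SO {s : Equiv.Perm E} {s' : Equiv.Perm E'} (j : E ≃ E')
    (s3 : ∀ e, s (s (s e)) = e) (s1 : ∀ e, s e ≠ e)
    (s3' : ∀ e, s' (s' (s' e)) = e) (s1' : ∀ e, s' e ≠ e)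
    (h : ∀ e f, (f = e ∨ SO s e f) ↔ (j f = j e ∨ SO s' (j e) (j f))) (e f : E) :
    SO s e f ↔ SO s' (j e) (j f) := by
  have h2 : ∀ e, s (s e) ≠ e := by
    intro e he
    have := s3 e
    rw [he] at this
    exact s1 e this
  have h2' : ∀ e, s' (s' e) ≠ e := by
    intro e he
    have := s3' e
    rw [he] at this
    exact s1' e this
  constructor
  · intro hf
    rcases (h e f).1 (Or.inr hf) with h3 | h3
    · exfalso
      have h4 : f = e := j.injective h3
      rcases hf with h5 | h5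
      · exact s1 e (h5.symm.trans h4)
      · exact h2 e (h5.symm.trans h4)
    · exact h3
  · intro hf
    rcases (h e f).2 (Or.inr hf) with h3 | h3
    · exfalso
      rw [h3] at hf
      rcases hf with h5 | h5
      · exact s1' _ h5.symm
      · exact h2' _ h5.symm
    · exact h3

private lemma TopC2_prop {s : Equiv.Perm E} (s3 : ∀ e, s (s (s e)) = e) (c : E → Fin 3) :
    (∀ e, c (s e) ≠ c e) ↔ ∀ e f, SO s e f → c f ≠ c e := by
  constructor
  · rintro h e f (hf | hf)
    · rw [hf]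
      exact h e
    · rw [hf]
      have := h (s (s e))
      rw [s3] at this
      exact this.symm
  · intro h e
    exact h e _ (Or.inl rfl)

private lemma TopC2_prop_iff {s : Equiv.Perm E} {s' : Equiv.Perm E'} (j : E ≃ E')
    (s3 : ∀ e, s (s (s e)) = e) (s3' : ∀ e, s' (s' (s' e)) = e)
    (h : ∀ e f, SO s e f ↔ SO s' (j e) (j f)) (c : E' → Fin 3) :
    (∀ e, c (s' e) ≠ c e) ↔ ∀ e, c (j (s e)) ≠ c (j e) := by
  rw [TopC2_prop s3' c]
  have h1 := TopC2_prop s3 (fun e => c (j e))
  rw [h1]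
  constructor
  · intro h2 e f hf
    exact h2 _ _ ((h e f).1 hf)
  · intro h2 e f hf
    have h3 := h2 (j.symm e) (j.symm f) ((h _ _).2 (by rwa [j.apply_symm_apply, j.apply_symm_apply]))
    rwa [j.apply_symm_apply, j.apply_symm_apply] at h3

private lemma TopC2_sum [Fintype E] [Fintype E'] {s : Equiv.Perm E} {s' : Equiv.Perm E'} (j : E ≃ E')
    (s3' : ∀ e, s' (s' (s' e)) = e)
    (h : ∀ e f, SO s e f ↔ SO s' (j e) (j f)) (c c' : E' → Fin 3)
    (hc : ∀ e, c (s' e) ≠ c e) (hc' : ∀ e, c' (s' e) ≠ c' e) :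
    ∑ e, (sg (c (s' e) - c e) + sg (c' (s' e) - c' e)) =
      ∑ e, (sg (c (j (s e)) - c (j e)) + sg (c' (j (s e)) - c' (j e))) := by
  rw [← Equiv.sum_comp j (fun e => sg (c (s' e) - c e) + sg (c' (s' e) - c' e))]
  refine Finset.sum_congr rfl fun e _ => ?_
  have h2 : ∀ a b : ZMod 2, a + 1 + (b + 1) = a + b := by decide
  rcases (h e (s e)).1 (Or.inl rfl) with h1 | h1
  · rw [h1]
  · rw [h1]
    have q : ∀ c : E' → Fin 3, (∀ e, c (s' e) ≠ c e) →
        sg (c (s' (s' (j e))) - c (j e)) = sg (c (s' (j e)) - c (j e)) + 1 := by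
      intro c hc
      apply sg_third
      · exact (hc _).symm
      · exact (hc _).symm
      · have := hc (s' (s' (j e)))
        rw [s3'] at this
        exact this.symm
    rw [q c hc, q c' hc', h2]

end tr

private lemma TopC2_orbs {E : Type v} (B : CB E) (M : Emb H) (κ : H.Coloring Bool)
    (hcub : ∀ w, (H.neighborSet w).ncard = 3) (j : E ≃ H.edgeSet)
    (hjs : ∀ e f, (f = e ∨ SO B.s e f) ↔ ∃ w, κ w = true ∧ w ∈ (j e : Sym2 W) ∧ w ∈ (j f : Sym2 W))
    (hjt : ∀ e f, (f = e ∨ SO B.t e f) ↔ ∃ w, κ w = false ∧ w ∈ (j e : Sym2 W) ∧ w ∈ (j f : Sym2 W)) :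
    (∀ e f, SO B.s e f ↔ SO (toCB M κ hcub).s (j e) (j f)) ∧
      (∀ e f, SO B.t e f ↔ SO (toCB M κ hcub).t (j e) (j f)) := by
  constructor
  · intro e f
    refine TopC2_SO j B.s3 B.s1 (toCB M κ hcub).s3 (toCB M κ hcub).s1 (fun e f => ?_) e f
    exact (hjs e f).trans (TopC2_orb M κ hcub true (j e) (j f)).symm
  · intro e f
    refine TopC2_SO j B.t3 B.t1 (toCB M κ hcub).t3 (toCB M κ hcub).t1 (fun e f => ?_) e f
    exact (hjt e f).trans (TopC2_orb M κ hcub false (j e) (j f)).symm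

private lemma TopC2_P {E : Type v} (B : CB E) (M : Emb H) (κ : H.Coloring Bool)
    (hcub : ∀ w, (H.neighborSet w).ncard = 3) (j : E ≃ H.edgeSet)
    (h : (∀ e f, SO B.s e f ↔ SO (toCB M κ hcub).s (j e) (j f)) ∧
      (∀ e f, SO B.t e f ↔ SO (toCB M κ hcub).t (j e) (j f))) (c : H.edgeSet → Fin 3) :
    (toCB M κ hcub).P c ↔ B.P (fun e => c (j e)) := by
  have h1 := TopC2_prop_iff j B.s3 (toCB M κ hcub).s3 h.1 c
  have h2 := TopC2_prop_iff j B.t3 (toCB M κ hcub).t3 h.2 c
  unfold CB.P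
  rw [forall_and, forall_and, h1, h2]

theorem transport_Con {E : Type v} (B : CB E) (M : Emb H) (κ : H.Coloring Bool)
    (hcub : ∀ w, (H.neighborSet w).ncard = 3) (j : E ≃ H.edgeSet)
    (hjs : ∀ e f, (f = e ∨ SO B.s e f) ↔ ∃ w, κ w = true ∧ w ∈ (j e : Sym2 W) ∧ w ∈ (j f : Sym2 W))
    (hjt : ∀ e f, (f = e ∨ SO B.t e f) ↔ ∃ w, κ w = false ∧ w ∈ (j e : Sym2 W) ∧ w ∈ (j f : Sym2 W)) :
    (toCB M κ hcub).Con ↔ B.Con := by
  have h := TopC2_orbs B M κ hcub j hjs hjt
  have hP := TopC2_P B M κ hcub j h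
  have hP' : ∀ c : E → Fin 3, B.P c ↔ (toCB M κ hcub).P (fun e => c (j.symm e)) := by
    intro c
    rw [hP]
    have : (fun e => c (j.symm (j e))) = c := by
      funext e
      rw [j.symm_apply_apply]
    rw [this]
  constructor
  · intro hA c c' hc hc'
    have h1 := hA _ _ ((hP' c).1 hc) ((hP' c').1 hc')
    have h2 := KE_map B (toCB M κ hcub) (fun c e => c (j e)) (fun a b ha hb hr =>
      KE_of_rel B ((hP a).1 ha) ((hP b).1 hb) (by
        obtain ⟨k, hk⟩ := hr
        exact ⟨k, fun e => hk (j e)⟩)) _ _ h1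
    have h3 : ∀ c : E → Fin 3, (fun e => c (j.symm (j e))) = c := by
      intro c
      funext e
      rw [j.symm_apply_apply]
    have h4 : B.KE (fun e => c (j.symm (j e))) (fun e => c' (j.symm (j e))) := h2
    rw [h3, h3] at h4
    exact h4
  · intro hB c c' hc hc'
    have h1 := hB _ _ ((hP c).1 hc) ((hP c').1 hc')
    have h2 := KE_map (toCB M κ hcub) B (fun c e => c (j.symm e)) (fun a b ha hb hr =>
      KE_of_rel (toCB M κ hcub) ((hP' a).1 ha) ((hP' b).1 hb) (by
        obtain ⟨k, hk⟩ := hr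
        exact ⟨k, fun e => hk (j.symm e)⟩)) _ _ h1
    have h3 : ∀ c : H.edgeSet → Fin 3, (fun e => c (j (j.symm e))) = c := by
      intro c
      funext e
      rw [j.apply_symm_apply]
    have h4 : (toCB M κ hcub).KE (fun e => c (j (j.symm e))) (fun e => c' (j (j.symm e))) := h2
    rw [h3, h3] at h4
    exact h4

theorem transport_PC {E : Type v} [Fintype E] [Fintype H.edgeSet] (B : CB E) (M : Emb H) (κ : H.Coloring Bool)
    (hcub : ∀ w, (H.neighborSet w).ncard = 3) (j : E ≃ H.edgeSet)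
    (hjs : ∀ e f, (f = e ∨ SO B.s e f) ↔ ∃ w, κ w = true ∧ w ∈ (j e : Sym2 W) ∧ w ∈ (j f : Sym2 W))
    (hjt : ∀ e f, (f = e ∨ SO B.t e f) ↔ ∃ w, κ w = false ∧ w ∈ (j e : Sym2 W) ∧ w ∈ (j f : Sym2 W)) :
    (toCB M κ hcub).PC ↔ B.PC := by
  have h := TopC2_orbs B M κ hcub j hjs hjt
  have hP := TopC2_P B M κ hcub j h
  have h3 : ∀ c : E → Fin 3, (fun e => c (j.symm (j e))) = c := by
    intro c
    funext e
    rw [j.symm_apply_apply]
  have hP' : ∀ c : E → Fin 3, B.P c ↔ (toCB M κ hcub).P (fun e => c (j.symm e)) := by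
    intro c
    rw [hP, h3]
  have hab : ∀ a b : ZMod 2, a = b ↔ a + b = 0 := by decide
  have key : ∀ c c' : H.edgeSet → Fin 3, (toCB M κ hcub).P c → (toCB M κ hcub).P c' →
      ((toCB M κ hcub).par c = (toCB M κ hcub).par c' ↔ B.par (fun e => c (j e)) = B.par (fun e => c' (j e))) := by
    intro c c' hc hc'
    have e1 := TopC2_sum j (toCB M κ hcub).s3 h.1 c c' (fun e => (hc e).1) (fun e => (hc' e).1)
    have e2 := TopC2_sum j (toCB M κ hcub).t3 h.2 c c' (fun e => (hc e).2) (fun e => (hc' e).2)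
    rw [Finset.sum_add_distrib, Finset.sum_add_distrib] at e1 e2
    have e3 : (toCB M κ hcub).par c + (toCB M κ hcub).par c' =
        B.par (fun e => c (j e)) + B.par (fun e => c' (j e)) := by
      unfold CB.par
      linear_combination e1 + e2
    rw [hab, e3, ← hab]
  constructor
  · intro hA c c' hc hc'
    have h1 := (key _ _ ((hP' c).1 hc) ((hP' c').1 hc')).1 (hA _ _ ((hP' c).1 hc) ((hP' c').1 hc'))
    rw [h3, h3] at h1
    exact h1
  · intro hB c c' hc hc'
    exact (key c c' hc hc').2 (hB _ _ ((hP c).1 hc) ((hP c').1 hc'))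

end Pool.Agent.PP
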