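import Pool.Agent.Lib_MP_7c0803_pp.TopB
import Pool.Agent.Lib_MP_7c0803_pp.TopC1
import Pool.Agent.Lib_MP_7c0803_pp.TopC2
import Pool.Agent.Lib_MP_7c0803_pp.Final3

set_option autoImplicit false

open Finset Function

namespace Pool.Agent.PP

open SimpleGraph

universe u

variable {V : Type u} {G : SimpleGraph V}

/-- **Topological minors.**  If the parity is constant on `G` but `Kc ≠ 1`, then `G` contains a subdivision of a cubic bipartite graph
of girth at least 6 with the same property. -/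
theorem kc_topminor [Finite V] (κ : G.Coloring Bool) (hcub : ∀ v, (G.neighborSet v).ncard = 3) (hE : EvenFlips G)
    (hK : Kc G.lineGraph 3 ≠ 1) :
    ∃ (W : Type u) (_ : Finite W) (H : SimpleGraph W), (∀ w, (H.neighborSet w).ncard = 3) ∧ H.Colorable 2 ∧
      (¬ ∃ a b c d, a ≠ c ∧ b ≠ d ∧ H.Adj a b ∧ H.Adj b c ∧ H.Adj c d ∧ H.Adj d a) ∧
      EvenFlips H ∧ Kc H.lineGraph 3 ≠ 1 ∧ ContainsSubdivision H G := by
  classical
  obtain ⟨M⟩ := emb_exists (G := G) hcub
  have : Fintype G.edgeSet := Fintype.ofFinite _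
  have hp : (toCB M κ hcub).PC := (PC_iff M κ hcub).2 hE
  have hnC : ¬ (toCB M κ hcub).Con := fun h => hK ((Kc_iff M κ hcub).2 h)
  obtain ⟨E', hF, B', ⟨m⟩, hp', hnC', hT, hD, hS⟩ := exists_stuck _ _ (toCB M κ hcub) le_rfl (mdl0 M κ hcub) hp hnC
  obtain ⟨W, hW, H, κ', j, hcub', hjs, hjt, h4, hsub⟩ := stuck_simple B' m hT hD hS
  obtain ⟨M'⟩ := emb_exists (G := H) hcub'
  have : Fintype H.edgeSet := Fintype.ofFinite _
  refine ⟨W, hW, H, hcub', ?_, h4, ?_, ?_, hsub⟩
  · refine ⟨SimpleGraph.Coloring.mk (fun w => if κ' w then (0 : Fin 2) else 1) ?_⟩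
    intro a b hab heq
    have h1 := κ'.valid hab
    revert heq h1
    generalize κ' a = x
    generalize κ' b = y
    revert x y
    decide
  · exact (PC_iff M' κ' hcub').1 ((transport_PC B' M' κ' hcub' j hjs hjt).2 hp')
  · intro h
    exact hnC' ((transport_Con B' M' κ' hcub' j hjs hjt).1 ((Kc_iff M' κ' hcub').1 h))

end Pool.Agent.PP
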