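import Pool.Agent.Lib_MP_7c0803_pp.CutS
import Pool.Agent.Lib_MP_7c0803_pp.TopC1
import Pool.Agent.Lib_MP_7c0803_pp.TopC2
import Pool.Agent.Lib_MP_7c0803_pp.Final3

/-!
The obstruction is cyclically 4-edge-connected.
-/

set_option autoImplicit false

open Finset Function

namespace Pool.Agent.PP

open SimpleGraph

universe u

/-- every set of vertices with at most three leaving edges has at most one element, or its complement has -/
def FewCuts {W : Type u} (H : SimpleGraph W) : Prop :=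
  ∀ S : Set W, {e : Sym2 W | ∃ a b, H.Adj a b ∧ a ∈ S ∧ b ∉ S ∧ e = s(a, b)}.ncard ≤ 3 → S.ncard ≤ 1 ∨ Sᶜ.ncard ≤ 1

private lemma TopD_inc {W : Type u} [Finite W] {E : Type u} [Fintype E] (H : SimpleGraph W) (j : E ≃ H.edgeSet)
    (hcub : ∀ w, (H.neighborSet w).ncard = 3) (w : W) (A : Finset E) (hA : ∀ e, w ∈ (j e : Sym2 W) → e ∈ A) :
    3 ≤ A.card := by
  have h1 : Nat.card (H.neighborSet w) = 3 := by rw [Nat.card_coe_set_eq]; exact hcub w
  have h2 : Nat.card A = A.card := by simp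
  rw [← h1, ← h2]
  refine Nat.card_le_card_of_injective (fun u : H.neighborSet w => (⟨j.symm ⟨s(w, u.1), u.2⟩, hA _ (by simp)⟩ : A)) ?_
  intro u u' h
  have h3 := congrArg Subtype.val h
  have h4 := j.symm.injective h3
  have h5 : s(w, u.1) = s(w, u'.1) := congrArg Subtype.val h4
  exact Subtype.ext (Sym2.congr_right.1 h5)

private lemma TopD_two {W : Type u} [Finite W] {E : Type u} [Fintype E] [DecidableEq E] (H : SimpleGraph W) (κ : H.Coloring Bool) (j : E ≃ H.edgeSet)
    (hcub : ∀ w, (H.neighborSet w).ncard = 3) (S : Set W) (P Q : Finset E)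
    (hP : ∀ e, e ∈ P ↔ ∃ w ∈ S, κ w = true ∧ w ∈ (j e : Sym2 W))
    (hQ : ∀ e, e ∈ Q ↔ ∃ w ∈ S, κ w = false ∧ w ∈ (j e : Sym2 W)) (h : P.card + Q.card ≤ 3) : S.ncard ≤ 1 := by
  classical
  rw [Set.ncard_le_one (Set.toFinite S)]
  intro a ha b hb
  by_contra hab
  have hinc : ∀ w, 3 ≤ (Finset.univ.filter (fun e => w ∈ (j e : Sym2 W))).card := fun w =>
    TopD_inc H j hcub w _ (fun e he => by simpa using he)
  have hd : κ a = κ b → Disjoint (Finset.univ.filter (fun e => a ∈ (j e : Sym2 W))) (Finset.univ.filter (fun e => b ∈ (j e : Sym2 W))) := by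
    intro hk
    rw [Finset.disjoint_left]
    intro e h1 h2
    rw [Finset.mem_filter] at h1 h2
    have h3 : (j e : Sym2 W) = s(a, b) := ((Sym2.mem_and_mem_iff hab).1 ⟨h1.2, h2.2⟩)
    have h4 : H.Adj a b := by
      have := (j e).2
      rw [h3] at this
      exact this
    exact κ.valid h4 hk
  have h1 := hinc a
  have h2 := hinc b
  cases hka : κ a <;> cases hkb : κ b
  · have h3 := Finset.card_union_of_disjoint (hd (by rw [hka, hkb]))
    have h4 : (Finset.univ.filter (fun e => a ∈ (j e : Sym2 W))) ∪ (Finset.univ.filter (fun e => b ∈ (j e : Sym2 W))) ⊆ Q := by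
      intro e he
      rw [hQ]
      rcases Finset.mem_union.1 he with he | he
      · exact ⟨a, ha, hka, (Finset.mem_filter.1 he).2⟩
      · exact ⟨b, hb, hkb, (Finset.mem_filter.1 he).2⟩
    have h5 := Finset.card_le_card h4
    omega
  · have h4 : (Finset.univ.filter (fun e => a ∈ (j e : Sym2 W))) ⊆ Q := by
      intro e he
      rw [hQ]
      exact ⟨a, ha, hka, (Finset.mem_filter.1 he).2⟩
    have h4' : (Finset.univ.filter (fun e => b ∈ (j e : Sym2 W))) ⊆ P := by
      intro e he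
      rw [hP]
      exact ⟨b, hb, hkb, (Finset.mem_filter.1 he).2⟩
    have h5 := Finset.card_le_card h4
    have h5' := Finset.card_le_card h4'
    omega
  · have h4 : (Finset.univ.filter (fun e => a ∈ (j e : Sym2 W))) ⊆ P := by
      intro e he
      rw [hP]
      exact ⟨a, ha, hka, (Finset.mem_filter.1 he).2⟩
    have h4' : (Finset.univ.filter (fun e => b ∈ (j e : Sym2 W))) ⊆ Q := by
      intro e he
      rw [hQ]
      exact ⟨b, hb, hkb, (Finset.mem_filter.1 he).2⟩
    have h5 := Finset.card_le_card h4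
    have h5' := Finset.card_le_card h4'
    omega
  · have h3 := Finset.card_union_of_disjoint (hd (by rw [hka, hkb]))
    have h4 : (Finset.univ.filter (fun e => a ∈ (j e : Sym2 W))) ∪ (Finset.univ.filter (fun e => b ∈ (j e : Sym2 W))) ⊆ P := by
      intro e he
      rw [hP]
      rcases Finset.mem_union.1 he with he | he
      · exact ⟨a, ha, hka, (Finset.mem_filter.1 he).2⟩
      · exact ⟨b, hb, hkb, (Finset.mem_filter.1 he).2⟩
    have h5 := Finset.card_le_card h4
    omega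

private lemma TopD_ends {W : Type u} (H : SimpleGraph W) (κ : H.Coloring Bool) (e : H.edgeSet) :
    ∃ x y, H.Adj x y ∧ κ x = true ∧ κ y = false ∧ (e : Sym2 W) = s(x, y) := by
  obtain ⟨e, he⟩ := e
  induction e using Sym2.ind with
  | _ a b =>
    have hab : H.Adj a b := he
    have hk := κ.valid hab
    cases hka : κ a <;> cases hkb : κ b
    · exact absurd (hka.trans hkb.symm) hk
    · exact ⟨b, a, hab.symm, hkb, hka, Sym2.eq_swap⟩
    · exact ⟨a, b, hab, hka, hkb, rfl⟩
    · exact absurd (hka.trans hkb.symm) hk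

/-- membership in the closed edge sets of a set of vertices -/
private lemma TopD_mem {W : Type u} (H : SimpleGraph W) (κ : H.Coloring Bool) {e : H.edgeSet} {x y : W}
    (hx : κ x = true) (hy : κ y = false) (he : (e : Sym2 W) = s(x, y)) (T : Set W) :
    ((∃ w ∈ T, κ w = true ∧ w ∈ (e : Sym2 W)) ↔ x ∈ T) ∧ ((∃ w ∈ T, κ w = false ∧ w ∈ (e : Sym2 W)) ↔ y ∈ T) := by
  rw [he]
  constructor
  · constructor
    · rintro ⟨w, hw, hk, hm⟩
      rcases Sym2.mem_iff.1 hm with rfl | rfl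
      · exact hw
      · rw [hy] at hk; exact absurd hk (by decide)
    · intro h
      exact ⟨x, h, hx, Sym2.mem_mk_left x y⟩
  · constructor
    · rintro ⟨w, hw, hk, hm⟩
      rcases Sym2.mem_iff.1 hm with rfl | rfl
      · rw [hx] at hk; exact absurd hk (by decide)
      · exact hw
    · intro h
      exact ⟨y, h, hy, Sym2.mem_mk_right x y⟩

theorem fewCuts_of_cyc4 {W : Type u} [Finite W] {E : Type u} [Fintype E] [DecidableEq E] (B : CB E) (H : SimpleGraph W)
    (κ : H.Coloring Bool) (j : E ≃ H.edgeSet) (hcub : ∀ w, (H.neighborSet w).ncard = 3)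
    (hjs : ∀ e f, (f = e ∨ SO B.s e f) ↔ ∃ w, κ w = true ∧ w ∈ (j e : Sym2 W) ∧ w ∈ (j f : Sym2 W))
    (hjt : ∀ e f, (f = e ∨ SO B.t e f) ↔ ∃ w, κ w = false ∧ w ∈ (j e : Sym2 W) ∧ w ∈ (j f : Sym2 W))
    (hC : B.Cyc4) : FewCuts H := by
  classical
  intro T hT
  have hcl : ∀ (b : Bool) (r : Equiv.Perm E), (∀ e, ∃ w, κ w = b ∧ w ∈ (j e : Sym2 W) ∧ w ∈ (j (r e) : Sym2 W)) →
      ∀ e, (∃ w ∈ T, κ w = b ∧ w ∈ (j (r e) : Sym2 W)) ↔ (∃ w ∈ T, κ w = b ∧ w ∈ (j e : Sym2 W)) := by
    intro b r hr e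
    obtain ⟨w, hw, h1, h2⟩ := hr e
    have huniq : ∀ (g : E) (u : W), κ u = b → u ∈ (j g : Sym2 W) → w ∈ (j g : Sym2 W) → u = w := by
      intro g u hu hm hm'
      by_contra hne
      have h3 : (j g : Sym2 W) = s(u, w) := ((Sym2.mem_and_mem_iff hne).1 ⟨hm, hm'⟩)
      have h4 : H.Adj u w := by
        have := (j g).2
        rw [h3] at this
        exact this
      exact κ.valid h4 (hu.trans hw.symm)
    constructor
    · rintro ⟨u, hu, hk, hm⟩
      have := huniq _ u hk hm h2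
      exact ⟨w, this ▸ hu, hw, h1⟩
    · rintro ⟨u, hu, hk, hm⟩
      have := huniq _ u hk hm h1
      exact ⟨w, this ▸ hu, hw, h2⟩
  have hSOs : ∀ e, ∃ w, κ w = true ∧ w ∈ (j e : Sym2 W) ∧ w ∈ (j (B.s e) : Sym2 W) :=
    fun e => (hjs e (B.s e)).1 (Or.inr (Or.inl rfl))
  have hSOt : ∀ e, ∃ w, κ w = false ∧ w ∈ (j e : Sym2 W) ∧ w ∈ (j (B.t e) : Sym2 W) :=
    fun e => (hjt e (B.t e)).1 (Or.inr (Or.inl rfl))
  let S : Side B := {
    P := Finset.univ.filter (fun e => ∃ w ∈ T, κ w = true ∧ w ∈ (j e : Sym2 W))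
    Q := Finset.univ.filter (fun e => ∃ w ∈ T, κ w = false ∧ w ∈ (j e : Sym2 W))
    hP := fun e => by
      rw [Finset.mem_filter, Finset.mem_filter]
      simp only [Finset.mem_univ, true_and]
      exact hcl true B.s hSOs e
    hQ := fun e => by
      rw [Finset.mem_filter, Finset.mem_filter]
      simp only [Finset.mem_univ, true_and]
      exact hcl false B.t hSOt e }
  have hSP : ∀ e, e ∈ S.P ↔ ∃ w ∈ T, κ w = true ∧ w ∈ (j e : Sym2 W) := fun e => by simp [S]
  have hSQ : ∀ e, e ∈ S.Q ↔ ∃ w ∈ T, κ w = false ∧ w ∈ (j e : Sym2 W) := fun e => by simp [S]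
  have hcut : S.cut ≤ 3 := by
    refine le_trans ?_ hT
    unfold Side.cut
    rw [← Finset.card_union_of_disjoint (by
      rw [Finset.disjoint_left]
      intro e h1 h2
      exact (Finset.mem_sdiff.1 h2).2 (Finset.mem_sdiff.1 h1).1), ← Set.ncard_coe_finset]
    refine Set.ncard_le_ncard_of_injOn (fun e => (j e : Sym2 W)) ?_ ?_ (Set.toFinite _)
    · intro e he
      obtain ⟨x, y, hxy, hx, hy, hee⟩ := TopD_ends H κ (j e)
      obtain ⟨m1, m2⟩ := TopD_mem H κ hx hy hee T
      rcases Finset.mem_union.1 (Finset.mem_coe.1 he) with he | he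
      · rw [Finset.mem_sdiff, hSP, hSQ, m1, m2] at he
        exact ⟨x, y, hxy, he.1, he.2, hee⟩
      · rw [Finset.mem_sdiff, hSP, hSQ, m1, m2] at he
        exact ⟨y, x, hxy.symm, he.1, he.2, hee.trans Sym2.eq_swap⟩
    · intro e _ e' _ h
      exact j.injective (Subtype.ext h)
  rcases hC S hcut with h | h
  · exact Or.inl (TopD_two H κ j hcub T S.P S.Q hSP hSQ h)
  · refine Or.inr (TopD_two H κ j hcub Tᶜ S.compl.P S.compl.Q ?_ ?_ h)
    · intro e
      obtain ⟨x, y, hxy, hx, hy, hee⟩ := TopD_ends H κ (j e)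
      rw [(TopD_mem H κ hx hy hee Tᶜ).1]
      simp only [Side.compl, Finset.mem_compl, hSP, (TopD_mem H κ hx hy hee T).1, Set.mem_compl_iff]
    · intro e
      obtain ⟨x, y, hxy, hx, hy, hee⟩ := TopD_ends H κ (j e)
      rw [(TopD_mem H κ hx hy hee Tᶜ).2]
      simp only [Side.compl, Finset.mem_compl, hSQ, (TopD_mem H κ hx hy hee T).2, Set.mem_compl_iff]

variable {V : Type u} {G : SimpleGraph V}

/-- **Topological minors.**  If the parity is constant on `G` but `Kc ≠ 1`, then `G` contains a subdivision of a cubic bipartite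
cyclically 4-edge-connected graph of girth at least 6 with the same property. -/
theorem kc_topminor2 [Finite V] (κ : G.Coloring Bool) (hcub : ∀ v, (G.neighborSet v).ncard = 3) (hE : EvenFlips G)
    (hK : Kc G.lineGraph 3 ≠ 1) :
    ∃ (W : Type u) (_ : Finite W) (H : SimpleGraph W), (∀ w, (H.neighborSet w).ncard = 3) ∧ H.Colorable 2 ∧
      (¬ ∃ a b c d, a ≠ c ∧ b ≠ d ∧ H.Adj a b ∧ H.Adj b c ∧ H.Adj c d ∧ H.Adj d a) ∧ FewCuts H ∧
      EvenFlips H ∧ Kc H.lineGraph 3 ≠ 1 ∧ ContainsSubdivision H G := by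
  classical
  obtain ⟨M⟩ := emb_exists (G := G) hcub
  have : Fintype G.edgeSet := Fintype.ofFinite _
  have hp : (toCB M κ hcub).PC := (PC_iff M κ hcub).2 hE
  have hnC : ¬ (toCB M κ hcub).Con := fun h => hK ((Kc_iff M κ hcub).2 h)
  obtain ⟨E', hF, hDec, B', ⟨m⟩, hp', hnC', hT, hD, hS, hCyc⟩ :=
    exists_stuck2 _ _ (toCB M κ hcub) le_rfl (mdl0 M κ hcub) hp hnC
  obtain ⟨W, hW, H, κ', j, hcub', hjs, hjt, h4, hsub⟩ := stuck_simple B' m hT hD hS
  obtain ⟨M'⟩ := emb_exists (G := H) hcub'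
  have : Fintype H.edgeSet := Fintype.ofFinite _
  refine ⟨W, hW, H, hcub', ?_, h4, fewCuts_of_cyc4 B' H κ' j hcub' hjs hjt hCyc, ?_, ?_, hsub⟩
  · refine ⟨SimpleGraph.Coloring.mk (fun w => if κ' w then (0 : Fin 2) else 1) ?_⟩
    intro a b hab heq
    have h1 := κ'.valid hab
    revert heq h1
    generalize κ' a = x
    generalize κ' b = y
    revert x y
    decide
  · exact (PC_iff M' κ' hcub').1 ((transport_PC B' M' κ' hcub' j hjs hjt).2 hp')
  · intro h
    exact hnC' ((transport_Con B' M' κ' hcub' j hjs hjt).1 ((Kc_iff M' κ' hcub').1 h))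

end Pool.Agent.PP
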